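import Pool.Agent.Q207.PG.Dg

/-!
# A non-degenerate closure operator gives a surjection that is not injective
-/

set_option maxHeartbeats 1000000
set_option linter.all false

namespace Pool.Agent.Q207.PG

open FirstOrder FirstOrder.Language
open Pool.Agent.Helper672.ZFA
open Pool.Agent.H310
open Pool.Agent.Q212.ZA

universe u u₁ u₂ u₃ u₄

variable {M : Type u} [L.Structure M] [hM : IsModel M]
variable {σ : Type u₁} {β : Type u₂} {γ : Type u₃} [ITy M σ] [ITy M β] [ITy M γ]

theorem add_lt' {a b : INat M} (h : a < b) (c : INat M) : a + c < b + c := by
  have ha : IntF M (fun q : INat M × INat M => q.1 + q.2) := by (repeat' (first | with_reducible exact IntF.id | with_reducible exact IntF.fst' | with_reducible exact IntF.snd' | with_reducible exact IntF.const _ | with_reducible exact Int.const _ | assumption | with_reducible apply Int.dm | with_reducible apply Int.rg | with_reducible apply Int.fn | with_reducible apply Int.ij | with_reducible apply Int.mv | with_reducible apply Int.gn | with_reducible apply Int.flat | with_reducible apply Int.big | with_reducible apply IntF.idr | with_reducible apply IntF.inv' | with_reducible apply IntF.cmp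 | with_reducible apply IntF.clo | with_reducible apply IntF.iprod | with_reducible apply IntF.crd | with_reducible apply Int.and | with_reducible apply Int.or | with_reducible apply Int.not | with_reducible apply Int.imp | with_reducible apply Int.iff | with_reducible apply Int.ne | with_reducible apply Int.eq | with_reducible apply Int.mem | with_reducible apply Int.subset | with_reducible apply Int.ltN | with_reducible apply Int.leN | with_reducible apply Int.fin | with_reducible apply Int.unique | with_reducible apply Int.all | with_reducible apply Int.ex | with_reducible apply IntF.fst | with_reducible apply IntF.snd | with_reducible apply IntF.app | with_reducible apply IntF.ite | with_reducible apply IntF.sep | with_reducible apply IntF.lam | with_reducible apply IntF.insert | with_reducible apply IntF.singleton | with_reducible apply IntF.union | with_reducible apply IntF.inter | with_reducible apply IntF.sdiff | with_reducible apply IntF.isUnion | with_reducible apply IntF.iimage | with_reducible apply IntF.the | with_reducible apply IntF.irec | with_reducible_and_instances apply IntF.add | with_reducible_and_instances apply IntF.mul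 | with_reducible apply IntF.succ | with_reducible apply IntF.val | with_reducible apply IntF.mk | (with_reducible refine Int.comp ?_ ?_; assumption) | (with_reducible refine Int.comp₂ ?_ ?_ ?_; assumption) | (with_reducible refine Int.comp₃ ?_ ?_ ?_ ?_; assumption) | (with_reducible refine IntF.comp ?_ ?_; assumption) | (with_reducible refine IntF.comp₂ ?_ ?_ ?_; assumption) | (with_reducible refine IntF.comp₃ ?_ ?_ ?_ ?_; assumption) | with_reducible apply IntF.pair))
  refine INat.ind (p := fun c : INat M => a + c < b + c) (by (repeat' (first | with_reducible exact IntF.id | with_reducible exact IntF.fst' | with_reducible exact IntF.snd' | with_reducible exact IntF.const _ | with_reducible exact Int.const _ | assumption | with_reducible apply Int.dm | with_reducible apply Int.rg | with_reducible apply Int.fn | with_reducible apply Int.ij | with_reducible apply Int.mv | with_reducible apply Int.gn | with_reducible apply Int.flat | with_reducible apply Int.big | with_reducible apply IntF.idr | with_reducible apply IntF.inv' | with_reducible apply IntF.cmp | with_reducible apply IntF.clo | with_reducible apply IntF.iprod | with_reducible apply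 IntF.crd | with_reducible apply Int.and | with_reducible apply Int.or | with_reducible apply Int.not | with_reducible apply Int.imp | with_reducible apply Int.iff | with_reducible apply Int.ne | with_reducible apply Int.eq | with_reducible apply Int.mem | with_reducible apply Int.subset | with_reducible apply Int.ltN | with_reducible apply Int.leN | with_reducible apply Int.fin | with_reducible apply Int.unique | with_reducible apply Int.all | with_reducible apply Int.ex | with_reducible apply IntF.fst | with_reducible apply IntF.snd | with_reducible apply IntF.app | with_reducible apply IntF.ite | with_reducible apply IntF.sep | with_reducible apply IntF.lam | with_reducible apply IntF.insert | with_reducible apply IntF.singleton | with_reducible apply IntF.union | with_reducible apply IntF.inter | with_reducible apply IntF.sdiff | with_reducible apply IntF.isUnion | with_reducible apply IntF.iimage | with_reducible apply IntF.the | with_reducible apply IntF.irec | with_reducible_and_instances apply IntF.add | with_reducible_and_instances apply IntF.mul | with_reducible apply IntF.succ | with_reducible apply IntF.val | with_reducible apply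 IntF.mk | (with_reducible refine Int.comp ?_ ?_; assumption) | (with_reducible refine Int.comp₂ ?_ ?_ ?_; assumption) | (with_reducible refine Int.comp₃ ?_ ?_ ?_ ?_; assumption) | (with_reducible refine IntF.comp ?_ ?_; assumption) | (with_reducible refine IntF.comp₂ ?_ ?_ ?_; assumption) | (with_reducible refine IntF.comp₃ ?_ ?_ ?_ ?_; assumption) | with_reducible apply IntF.pair))) ?_ ?_ c
  · rwa [INat.add_zero', INat.add_zero']
  · intro c ih
    rw [INat.add_succ', INat.add_succ']
    exact INat.succ_le_iff.2 (lt_of_lt_of_le ih (le_refl _)) |>.trans_lt (INat.lt_succ_self _)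

theorem add_le' {a b : INat M} (h : a ≤ b) (c : INat M) : a + c ≤ b + c := by
  rcases INat.le_iff'.1 h with h | h
  · exact (add_lt' h c).le
  · rw [h]

/-- Finite closed sets. -/
def Flat (G : IPow M (IPow M (σ × σ))) (W : IPow M σ) : Prop := IFin W ∧ clo G W = W

theorem Int.flat {G : IPow M (IPow M (σ × σ))} {g : γ → IPow M σ} (hg : IntF M g) :
    Int M (fun c => Flat G (g c)) := by
  unfold Flat
  (repeat' (first | with_reducible exact IntF.id | with_reducible exact IntF.fst' | with_reducible exact IntF.snd' | with_reducible exact IntF.const _ | with_reducible exact Int.const _ | assumption | with_reducible apply Int.dm | with_reducible apply Int.rg | with_reducible apply Int.fn | with_reducible apply Int.ij | with_reducible apply Int.mv | with_reducible apply Int.gn | with_reducible apply Int.flat | with_reducible apply Int.big | with_reducible apply IntF.idr | with_reducible apply IntF.inv' | with_reducible apply IntF.cmp | with_reducible apply IntF.clo | with_reducible apply IntF.iprod | with_reducible apply IntF.crd | with_reducible apply Int.and | with_reducible apply Int.or | with_reducible apply Int.not | with_reducible apply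 Int.imp | with_reducible apply Int.iff | with_reducible apply Int.ne | with_reducible apply Int.eq | with_reducible apply Int.mem | with_reducible apply Int.subset | with_reducible apply Int.ltN | with_reducible apply Int.leN | with_reducible apply Int.fin | with_reducible apply Int.unique | with_reducible apply Int.all | with_reducible apply Int.ex | with_reducible apply IntF.fst | with_reducible apply IntF.snd | with_reducible apply IntF.app | with_reducible apply IntF.ite | with_reducible apply IntF.sep | with_reducible apply IntF.lam | with_reducible apply IntF.insert | with_reducible apply IntF.singleton | with_reducible apply IntF.union | with_reducible apply IntF.inter | with_reducible apply IntF.sdiff | with_reducible apply IntF.isUnion | with_reducible apply IntF.iimage | with_reducible apply IntF.the | with_reducible apply IntF.irec | with_reducible_and_instances apply IntF.add | with_reducible_and_instances apply IntF.mul | with_reducible apply IntF.succ | with_reducible apply IntF.val | with_reducible apply IntF.mk | (with_reducible refine Int.comp ?_ ?_; assumption) | (with_reducible refine Int.comp₂ ?_ ?_ ?_; assumption) | (with_reducible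 refine Int.comp₃ ?_ ?_ ?_ ?_; assumption) | (with_reducible refine IntF.comp ?_ ?_; assumption) | (with_reducible refine IntF.comp₂ ?_ ?_ ?_; assumption) | (with_reducible refine IntF.comp₃ ?_ ?_ ?_ ?_; assumption) | with_reducible apply IntF.pair))

/-- The increment. -/
noncomputable def inc (G : IPow M (IPow M (σ × σ))) (W : IPow M σ) (a : σ) : INat M :=
  crd (clo G (insert a W) \ W)

theorem int_inc (G : IPow M (IPow M (σ × σ))) :
    IntF M (fun q : IPow M σ × σ => inc G q.1 q.2) := by
  unfold inc
  (repeat' (first | with_reducible exact IntF.id | with_reducible exact IntF.fst' | with_reducible exact IntF.snd' | with_reducible exact IntF.const _ | with_reducible exact Int.const _ | assumption | with_reducible apply Int.dm | with_reducible apply Int.rg | with_reducible apply Int.fn | with_reducible apply Int.ij | with_reducible apply Int.mv | with_reducible apply Int.gn | with_reducible apply Int.flat | with_reducible apply Int.big | with_reducible apply IntF.idr | with_reducible apply IntF.inv' | with_reducible apply IntF.cmp | with_reducible apply IntF.clo | with_reducible apply IntF.iprod | with_reducible apply IntF.crd | with_reducible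 apply Int.and | with_reducible apply Int.or | with_reducible apply Int.not | with_reducible apply Int.imp | with_reducible apply Int.iff | with_reducible apply Int.ne | with_reducible apply Int.eq | with_reducible apply Int.mem | with_reducible apply Int.subset | with_reducible apply Int.ltN | with_reducible apply Int.leN | with_reducible apply Int.fin | with_reducible apply Int.unique | with_reducible apply Int.all | with_reducible apply Int.ex | with_reducible apply IntF.fst | with_reducible apply IntF.snd | with_reducible apply IntF.app | with_reducible apply IntF.ite | with_reducible apply IntF.sep | with_reducible apply IntF.lam | with_reducible apply IntF.insert | with_reducible apply IntF.singleton | with_reducible apply IntF.union | with_reducible apply IntF.inter | with_reducible apply IntF.sdiff | with_reducible apply IntF.isUnion | with_reducible apply IntF.iimage | with_reducible apply IntF.the | with_reducible apply IntF.irec | with_reducible_and_instances apply IntF.add | with_reducible_and_instances apply IntF.mul | with_reducible apply IntF.succ | with_reducible apply IntF.val | with_reducible apply IntF.mk | (with_reducible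 refine Int.comp ?_ ?_; assumption) | (with_reducible refine Int.comp₂ ?_ ?_ ?_; assumption) | (with_reducible refine Int.comp₃ ?_ ?_ ?_ ?_; assumption) | (with_reducible refine IntF.comp ?_ ?_; assumption) | (with_reducible refine IntF.comp₂ ?_ ?_ ?_; assumption) | (with_reducible refine IntF.comp₃ ?_ ?_ ?_ ?_; assumption) | with_reducible apply IntF.pair))

section

variable {G : IPow M (IPow M (σ × σ))} (hG : Gpd G)

include hG

theorem flat_clo {D : IPow M σ} (hD : IFin D) : Flat G (clo G D) :=
  ⟨fin_clo hG hD, clo_clo hG hD⟩

theorem crd_inc {W : IPow M σ} (hW : Flat G W) (a : σ) :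
    crd (clo G (insert a W)) = inc G W a + crd W :=
  crd_sdiff W hW.1 _ (fin_clo hG (hW.1.insert a)) fun x hx =>
    sub_clo hG x (mem_insert.2 (Or.inr hx))

theorem inc_sub {W W' : IPow M σ} (hW : Flat G W) (hW' : Flat G W') (h : W ⊆ W') {a : σ}
    (ha : ¬ a ∈ W') : clo G (insert a W) \ W ⊆ clo G (insert a W') \ W' := by
  intro x hx
  obtain ⟨h1, h2⟩ := mem_sdiff.1 hx
  refine mem_sdiff.2 ⟨clo_mono hG (sub_insert h a) x h1, fun h3 => ha ?_⟩
  have h4 := exch hG hW.1 h1 (by rwa [hW.2])
  refine clo_sub hG hW'.1 hW'.2 (fun y hy => ?_) a h4
  rcases mem_insert.1 hy with rfl | hy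
  · exact h3
  · exact h y hy

theorem fin_incset {W : IPow M σ} (hW : Flat G W) (a : σ) :
    IFin (clo G (insert a W) \ W) :=
  (fin_clo hG (hW.1.insert a)).subset fun x hx => (mem_sdiff.1 hx).1

theorem inc_mono {W W' : IPow M σ} (hW : Flat G W) (hW' : Flat G W') (h : W ⊆ W') {a : σ}
    (ha : ¬ a ∈ W') : inc G W a ≤ inc G W' a :=
  crd_mono (fin_incset hG hW' a) (inc_sub hG hW hW' h ha)

theorem inc_le {V Y : IPow M σ} (hV : Flat G V) (hY : Flat G Y) (h : crd V ≤ crd Y) {a b : σ}
    (ha : ¬ a ∈ V) (hb : ¬ b ∈ Y) : inc G V a ≤ inc G Y b := by
  obtain ⟨p, hp, -, hd, hr⟩ := homog hG hV.1 hY.1 hV.2 hY.2 h (hG.idr (D := ∅) IFin.empty)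
    (fun x ⟨y, hy⟩ => absurd (mem_idr.1 hy).2 (by simp))
    (fun x ⟨y, hy⟩ => absurd (mem_idr.1 hy).2 (by simp))
  have hRi : Int M (fun x : σ => Rg p x) := by (repeat' (first | with_reducible exact IntF.id | with_reducible exact IntF.fst' | with_reducible exact IntF.snd' | with_reducible exact IntF.const _ | with_reducible exact Int.const _ | assumption | with_reducible apply Int.dm | with_reducible apply Int.rg | with_reducible apply Int.fn | with_reducible apply Int.ij | with_reducible apply Int.mv | with_reducible apply Int.gn | with_reducible apply Int.flat | with_reducible apply Int.big | with_reducible apply IntF.idr | with_reducible apply IntF.inv' | with_reducible apply IntF.cmp | with_reducible apply IntF.clo | with_reducible apply IntF.iprod | with_reducible apply IntF.crd | with_reducible apply Int.and | with_reducible apply Int.or | with_reducible apply Int.not | with_reducible apply Int.imp | with_reducible apply Int.iff | with_reducible apply Int.ne | with_reducible apply Int.eq | with_reducible apply Int.mem | with_reducible apply Int.subset | with_reducible apply Int.ltN | with_reducible apply Int.leN | with_reducible apply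 Int.fin | with_reducible apply Int.unique | with_reducible apply Int.all | with_reducible apply Int.ex | with_reducible apply IntF.fst | with_reducible apply IntF.snd | with_reducible apply IntF.app | with_reducible apply IntF.ite | with_reducible apply IntF.sep | with_reducible apply IntF.lam | with_reducible apply IntF.insert | with_reducible apply IntF.singleton | with_reducible apply IntF.union | with_reducible apply IntF.inter | with_reducible apply IntF.sdiff | with_reducible apply IntF.isUnion | with_reducible apply IntF.iimage | with_reducible apply IntF.the | with_reducible apply IntF.irec | with_reducible_and_instances apply IntF.add | with_reducible_and_instances apply IntF.mul | with_reducible apply IntF.succ | with_reducible apply IntF.val | with_reducible apply IntF.mk | (with_reducible refine Int.comp ?_ ?_; assumption) | (with_reducible refine Int.comp₂ ?_ ?_ ?_; assumption) | (with_reducible refine Int.comp₃ ?_ ?_ ?_ ?_; assumption) | (with_reducible refine IntF.comp ?_ ?_; assumption) | (with_reducible refine IntF.comp₂ ?_ ?_ ?_; assumption) | (with_reducible refine IntF.comp₃ ?_ ?_ ?_ ?_; assumption) | with_reducible apply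 IntF.pair))
  obtain ⟨V', hV'd⟩ : ∃ V' : IPow M σ, ∀ x, x ∈ V' ↔ Rg p x := ⟨_, fun x => mem_sep hRi⟩
  have hV'Y : V' ⊆ Y := fun x hx => hr x ((hV'd x).1 hx)
  have hMp : Mp p V V' := ⟨fun x hx => by
    obtain ⟨y, hy⟩ := (hd x).2 hx
    exact ⟨y, (hV'd y).2 ⟨x, hy⟩, hy⟩, fun y hy => by
    obtain ⟨x, hx⟩ := (hV'd y).1 hy
    exact ⟨x, (hd x).1 ⟨y, hx⟩, hx⟩⟩
  have hV' : Flat G V' := by
    refine ⟨hY.1.subset hV'Y, IPow.ext' fun x => ⟨fun hx => ?_, fun hx => sub_clo hG x hx⟩⟩
    obtain ⟨q, hq, h1, -, h2⟩ := ext_both hG hp (IFin.empty (M := M) (α := σ))
      (IFin.singleton x)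
    obtain ⟨z, hz⟩ := h2 x (mem_singleton.2 rfl)
    have h3 : z ∈ V := by
      rw [← hV.2]
      exact (clo_pres hG hq (hMp.mono h1) hz).2 hx
    obtain ⟨y, hy⟩ := (hd z).2 h3
    rw [hG.fn hq _ _ _ hz (h1 _ hy)]
    exact (hV'd y).2 ⟨z, hy⟩
  have hb' : ¬ b ∈ V' := fun h1 => hb (hV'Y b h1)
  have h1 : insert (a, b) p ∈ G := ext_gen hG hp hd (fun x => (hV'd x).symm)
    ((gn_iff hG hV.2).2 ha) ((gn_iff hG hV'.2).2 hb')
  have h2 : Mp (insert (a, b) p) (insert a V) (insert b V') :=
    (hMp.mono fun x hx => mem_insert.2 (Or.inr hx)).insert (mem_insert.2 (Or.inl rfl))
  obtain ⟨q, hq, h3, h4, h5⟩ := ext_both hG h1 (fin_clo hG (hV.1.insert a))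
    (fin_clo hG (hV'.1.insert b))
  have h6 := Mp.crd hG hq (fin_clo hG (hV.1.insert a)) (fin_clo hG (hV'.1.insert b))
    (Mp.clo hG hq (h2.mono h3) h4 h5)
  rw [crd_inc hG hV, crd_inc hG hV', Mp.crd hG hp hV.1 hV'.1 hMp] at h6
  rw [INat.add_right_cancel' h6]
  exact inc_mono hG hV' hY hV'Y hb

theorem exists_inc_lt (hDg : ¬ Deg G) : ∃ V a, Flat G V ∧ ¬ a ∈ V ∧
    inc G (clo G ∅) a < inc G V a := by
  by_contra hno
  push Not at hno
  refine hDg ?_
  have h0 := flat_clo hG (D := (∅ : IPow M σ)) IFin.empty
  intro S hS
  refine IFin.ind (p := fun S : IPow M σ => (∃ a, a ∈ S) → ∀ c, c ∈ clo G S →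
    ∃ a, a ∈ S ∧ c ∈ clo G {a}) (by (repeat' (first | with_reducible exact IntF.id | with_reducible exact IntF.fst' | with_reducible exact IntF.snd' | with_reducible exact IntF.const _ | with_reducible exact Int.const _ | assumption | with_reducible apply Int.dm | with_reducible apply Int.rg | with_reducible apply Int.fn | with_reducible apply Int.ij | with_reducible apply Int.mv | with_reducible apply Int.gn | with_reducible apply Int.flat | with_reducible apply Int.big | with_reducible apply IntF.idr | with_reducible apply IntF.inv' | with_reducible apply IntF.cmp | with_reducible apply IntF.clo | with_reducible apply IntF.iprod | with_reducible apply IntF.crd | with_reducible apply Int.and | with_reducible apply Int.or | with_reducible apply Int.not | with_reducible apply Int.imp | with_reducible apply Int.iff | with_reducible apply Int.ne | with_reducible apply Int.eq | with_reducible apply Int.mem | with_reducible apply Int.subset | with_reducible apply Int.ltN | with_reducible apply Int.leN | with_reducible apply Int.fin | with_reducible apply Int.unique | with_reducible apply Int.all | with_reducible apply Int.ex | with_reducible apply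 IntF.fst | with_reducible apply IntF.snd | with_reducible apply IntF.app | with_reducible apply IntF.ite | with_reducible apply IntF.sep | with_reducible apply IntF.lam | with_reducible apply IntF.insert | with_reducible apply IntF.singleton | with_reducible apply IntF.union | with_reducible apply IntF.inter | with_reducible apply IntF.sdiff | with_reducible apply IntF.isUnion | with_reducible apply IntF.iimage | with_reducible apply IntF.the | with_reducible apply IntF.irec | with_reducible_and_instances apply IntF.add | with_reducible_and_instances apply IntF.mul | with_reducible apply IntF.succ | with_reducible apply IntF.val | with_reducible apply IntF.mk | (with_reducible refine Int.comp ?_ ?_; assumption) | (with_reducible refine Int.comp₂ ?_ ?_ ?_; assumption) | (with_reducible refine Int.comp₃ ?_ ?_ ?_ ?_; assumption) | (with_reducible refine IntF.comp ?_ ?_; assumption) | (with_reducible refine IntF.comp₂ ?_ ?_ ?_; assumption) | (with_reducible refine IntF.comp₃ ?_ ?_ ?_ ?_; assumption) | with_reducible apply IntF.pair))) ?_ ?_ S hS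
  · rintro ⟨a, ha⟩
    exact absurd ha (by simp)
  · intro S a hS haS ih _ c hc
    by_cases hne : ∃ x, x ∈ S
    · have ih' := ih hne
      have hW := flat_clo hG hS
      by_cases hcW : c ∈ clo G S
      · obtain ⟨x, hx, hxc⟩ := ih' c hcW
        exact ⟨x, mem_insert.2 (Or.inr hx), hxc⟩
      have haW : ¬ a ∈ clo G S := by
        intro haW
        refine hcW (clo_le hG hS (fun y hy => ?_) c hc)
        rcases mem_insert.1 hy with rfl | hy
        · exact haW
        · exact sub_clo hG y hy
      have h1 : c ∈ clo G (insert a (clo G S)) :=
        clo_mono hG (sub_insert (sub_clo hG) a) c hc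
      have h2 : clo G ∅ ⊆ clo G S := clo_mono hG fun x hx => absurd hx (by simp)
      have h3 := inc_sub hG h0 hW h2 haW
      have h4 := eq_of_crd (fin_incset hG hW a) h3 (hno _ a hW haW)
      have h5 : c ∈ clo G (insert a (clo G S)) \ clo G S := mem_sdiff.2 ⟨h1, hcW⟩
      rw [← h4] at h5
      refine ⟨a, mem_insert.2 (Or.inl rfl), clo_le hG (IFin.singleton a) (fun y hy => ?_) c
        (mem_sdiff.1 h5).1⟩
      rcases mem_insert.1 hy with rfl | hy
      · exact sub_clo hG y (mem_singleton.2 rfl)
      · exact clo_mono hG (fun z hz => absurd hz (by simp)) y hy
    · push Not at hne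
      refine ⟨a, mem_insert.2 (Or.inl rfl), clo_mono hG (fun x hx => ?_) c hc⟩
      rcases mem_insert.1 hx with rfl | hx
      · exact mem_singleton.2 rfl
      · exact absurd hx (hne x)

theorem exists_not_mem {W : IPow M σ} (hW : IFin W) : ∃ a, ¬ a ∈ W :=
  exists_not hG.amo.inf ⟨W, hW, fun a ha => ha⟩

theorem inc_unb (hDg : ¬ Deg G) (n : INat M) : ∃ V a, Flat G V ∧ ¬ a ∈ V ∧ n < inc G V a := by
  have hi := int_inc (M := M) G
  by_contra hno
  push Not at hno
  obtain ⟨m, ⟨S₀, b₀, hS₀, hb₀, hm⟩, hmax⟩ := exists_greatest
    (p := fun m : INat M => ∃ V a, Flat G V ∧ ¬ a ∈ V ∧ inc G V a = m) (by (repeat' (first | with_reducible exact IntF.id | with_reducible exact IntF.fst' | with_reducible exact IntF.snd' | with_reducible exact IntF.const _ | with_reducible exact Int.const _ | assumption | with_reducible apply Int.dm | with_reducible apply Int.rg | with_reducible apply Int.fn | with_reducible apply Int.ij | with_reducible apply Int.mv | with_reducible apply Int.gn | with_reducible apply Int.flat | with_reducible apply Int.big | with_reducible apply IntF.idr | with_reducible apply IntF.inv' | with_reducible apply IntF.cmp | with_reducible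 apply IntF.clo | with_reducible apply IntF.iprod | with_reducible apply IntF.crd | with_reducible apply Int.and | with_reducible apply Int.or | with_reducible apply Int.not | with_reducible apply Int.imp | with_reducible apply Int.iff | with_reducible apply Int.ne | with_reducible apply Int.eq | with_reducible apply Int.mem | with_reducible apply Int.subset | with_reducible apply Int.ltN | with_reducible apply Int.leN | with_reducible apply Int.fin | with_reducible apply Int.unique | with_reducible apply Int.all | with_reducible apply Int.ex | with_reducible apply IntF.fst | with_reducible apply IntF.snd | with_reducible apply IntF.app | with_reducible apply IntF.ite | with_reducible apply IntF.sep | with_reducible apply IntF.lam | with_reducible apply IntF.insert | with_reducible apply IntF.singleton | with_reducible apply IntF.union | with_reducible apply IntF.inter | with_reducible apply IntF.sdiff | with_reducible apply IntF.isUnion | with_reducible apply IntF.iimage | with_reducible apply IntF.the | with_reducible apply IntF.irec | with_reducible_and_instances apply IntF.add | with_reducible_and_instances apply IntF.mul | with_reducible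 apply IntF.succ | with_reducible apply IntF.val | with_reducible apply IntF.mk | (with_reducible refine Int.comp ?_ ?_; assumption) | (with_reducible refine Int.comp₂ ?_ ?_ ?_; assumption) | (with_reducible refine Int.comp₃ ?_ ?_ ?_ ?_; assumption) | (with_reducible refine IntF.comp ?_ ?_; assumption) | (with_reducible refine IntF.comp₂ ?_ ?_ ?_; assumption) | (with_reducible refine IntF.comp₃ ?_ ?_ ?_ ?_; assumption) | with_reducible apply IntF.pair))) (n := n)
    (fun m ⟨V, a, h1, h2, h3⟩ => h3 ▸ hno V a h1 h2) (by
      obtain ⟨a, ha⟩ := exists_not_mem hG (fin_clo hG (D := (∅ : IPow M σ)) IFin.empty)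
      exact ⟨_, _, a, flat_clo hG IFin.empty, ha, rfl⟩)
  obtain ⟨k, ⟨S, a₁, ⟨hS, ha₁, hlt⟩, hk⟩, hkmax⟩ := exists_greatest
    (p := fun k : INat M => ∃ S a, (Flat G S ∧ ¬ a ∈ S ∧ inc G S a < m) ∧ crd S = k) (by (repeat' (first | with_reducible exact IntF.id | with_reducible exact IntF.fst' | with_reducible exact IntF.snd' | with_reducible exact IntF.const _ | with_reducible exact Int.const _ | assumption | with_reducible apply Int.dm | with_reducible apply Int.rg | with_reducible apply Int.fn | with_reducible apply Int.ij | with_reducible apply Int.mv | with_reducible apply Int.gn | with_reducible apply Int.flat | with_reducible apply Int.big | with_reducible apply IntF.idr | with_reducible apply IntF.inv' | with_reducible apply IntF.cmp | with_reducible apply IntF.clo | with_reducible apply IntF.iprod | with_reducible apply IntF.crd | with_reducible apply Int.and | with_reducible apply Int.or | with_reducible apply Int.not | with_reducible apply Int.imp | with_reducible apply Int.iff | with_reducible apply Int.ne | with_reducible apply Int.eq | with_reducible apply Int.mem | with_reducible apply Int.subset | with_reducible apply Int.ltN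 | with_reducible apply Int.leN | with_reducible apply Int.fin | with_reducible apply Int.unique | with_reducible apply Int.all | with_reducible apply Int.ex | with_reducible apply IntF.fst | with_reducible apply IntF.snd | with_reducible apply IntF.app | with_reducible apply IntF.ite | with_reducible apply IntF.sep | with_reducible apply IntF.lam | with_reducible apply IntF.insert | with_reducible apply IntF.singleton | with_reducible apply IntF.union | with_reducible apply IntF.inter | with_reducible apply IntF.sdiff | with_reducible apply IntF.isUnion | with_reducible apply IntF.iimage | with_reducible apply IntF.the | with_reducible apply IntF.irec | with_reducible_and_instances apply IntF.add | with_reducible_and_instances apply IntF.mul | with_reducible apply IntF.succ | with_reducible apply IntF.val | with_reducible apply IntF.mk | (with_reducible refine Int.comp ?_ ?_; assumption) | (with_reducible refine Int.comp₂ ?_ ?_ ?_; assumption) | (with_reducible refine Int.comp₃ ?_ ?_ ?_ ?_; assumption) | (with_reducible refine IntF.comp ?_ ?_; assumption) | (with_reducible refine IntF.comp₂ ?_ ?_ ?_; assumption) | (with_reducible refine IntF.comp₃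 ?_ ?_ ?_ ?_; assumption) | with_reducible apply IntF.pair)))
    (n := crd S₀) (by
      rintro k ⟨S, a, ⟨h1, h2, h3⟩, rfl⟩
      by_contra h4
      rw [not_le] at h4
      have := inc_le hG hS₀ h1 h4.le hb₀ h2
      rw [hm] at this
      exact absurd h3 (not_lt.2 this)) (by
      obtain ⟨V, a, h1, h2, h3⟩ := exists_inc_lt hG hDg
      refine ⟨_, _, a, ⟨flat_clo hG IFin.empty, fun h4 => h2 ?_, lt_of_lt_of_le h3
        (hmax _ ⟨V, a, h1, h2, rfl⟩)⟩, rfl⟩
      rw [← h1.2]
      exact clo_mono hG (fun x hx => absurd hx (by simp)) a h4)
  -- larger flats have increment `m`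
  have hbig : ∀ W a, Flat G W → ¬ a ∈ W → crd S < crd W → inc G W a = m := by
    intro W a hW ha h1
    refine le_antisymm (hmax _ ⟨W, a, hW, ha, rfl⟩) ?_
    by_contra h2
    rw [not_le] at h2
    have := hkmax _ ⟨W, a, ⟨hW, ha, h2⟩, rfl⟩
    rw [← hk] at this
    exact absurd h1 (not_lt.2 this)
  have hup : ∀ W x, Flat G W → ¬ x ∈ W → crd W < crd (clo G (insert x W)) := fun W x hW hx =>
    crd_lt (fin_clo hG (hW.1.insert x)) (fun y hy => sub_clo hG y (mem_insert.2 (Or.inr hy)))
      (mem_clo_insert hG x) hx
  obtain ⟨b, hb⟩ := exists_not_mem hG hS.1
  have hW₁ := flat_clo hG (hS.1.insert b)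
  obtain ⟨c, hc⟩ := exists_not_mem hG hW₁.1
  have hW := flat_clo hG (hW₁.1.insert c)
  obtain ⟨a, ha⟩ := exists_not_mem hG hW.1
  have hSW₁ : S ⊆ clo G (insert b S) := fun x hx => sub_clo hG x (mem_insert.2 (Or.inr hx))
  have hW₁W : clo G (insert b S) ⊆ clo G (insert c (clo G (insert b S))) :=
    fun x hx => sub_clo hG x (mem_insert.2 (Or.inr hx))
  have hcS : ¬ c ∈ S := fun h => hc (hSW₁ c h)
  have hW₂ := flat_clo hG (hS.1.insert c)
  have hW₂W : clo G (insert c S) ⊆ clo G (insert c (clo G (insert b S))) :=
    clo_mono hG (sub_insert hSW₁ c)
  have e1 := hbig _ a hW₁ (fun h => ha (hW₁W a h)) (hup S b hS hb)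
  have e2 := hbig _ a hW₂ (fun h => ha (hW₂W a h)) (hup S c hS hcS)
  have e3 := hbig _ a hW ha ((hup S b hS hb).trans (hup _ c hW₁ hc))
  have q1 := eq_of_crd (fin_incset hG hW a) (inc_sub hG hW₁ hW hW₁W ha)
    (le_of_eq (e3.trans e1.symm))
  have q2 := eq_of_crd (fin_incset hG hW a) (inc_sub hG hW₂ hW hW₂W ha)
    (le_of_eq (e3.trans e2.symm))
  have haS : ¬ a ∈ S := fun h => ha (hW₁W a (hSW₁ a h))
  have e4 : inc G S a < m := (inc_le hG hS hS le_rfl haS ha₁).trans_lt hlt
  obtain ⟨e, he, he'⟩ : ∃ e, e ∈ clo G (insert a (clo G (insert c (clo G (insert b S))))) \
      clo G (insert c (clo G (insert b S))) ∧ ¬ e ∈ clo G (insert a S) := by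
    by_contra h1
    push Not at h1
    have h2 : clo G (insert a (clo G (insert c (clo G (insert b S))))) \
      clo G (insert c (clo G (insert b S))) ⊆ clo G (insert a S) \ S := fun x hx =>
        mem_sdiff.2 ⟨h1 x hx, fun h3 => (mem_sdiff.1 hx).2 (hW₁W x (hSW₁ x h3))⟩
    have h3 := crd_mono (fin_incset hG hS a) h2
    have h4 : m ≤ inc G S a := e3 ▸ h3
    exact absurd e4 (not_lt.2 h4)
  have hSa := hS.1.insert a
  have key : ∀ y, e ∈ clo G (insert a (clo G (insert y S))) \ clo G (insert y S) →
      e ∈ clo G (insert y (insert a S)) := by
    intro y hy
    refine clo_le hG (hSa.insert y) (fun x hx => ?_) e (mem_sdiff.1 hy).1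
    rcases mem_insert.1 hx with rfl | hx
    · exact sub_clo hG x (mem_insert.2 (Or.inr (mem_insert.2 (Or.inl rfl))))
    · exact clo_mono hG (sub_insert (fun z hz => mem_insert.2 (Or.inr hz)) y) x hx
  have k1 := key b (q1 ▸ he)
  have k2 := key c (q2 ▸ he)
  have k3 : c ∈ clo G (insert e (insert a S)) := exch hG hSa k2 he'
  have k4 : c ∈ clo G (insert b (insert a S)) := by
    refine clo_le hG (hSa.insert b) (fun x hx => ?_) c k3
    rcases mem_insert.1 hx with rfl | hx
    · exact k1
    · exact sub_clo hG x (mem_insert.2 (Or.inr hx))
  have k5 : (insert b (insert a S) : IPow M σ) = insert a (insert b S) := IPow.ext' fun x => by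
    simp only [mem_insert]
    tauto
  rw [k5] at k4
  have k6 := exch hG (hS.1.insert b) k4 hc
  refine ha (clo_mono hG (sub_insert (sub_clo hG) c) a k6)

theorem exists_avoid {Z : IPow M σ} (hZ : IFin Z) (N : INat M) : ∃ W, Flat G W ∧
    (∀ x, x ∈ W → x ∈ Z → x ∈ clo G ∅) ∧ N ≤ crd W := by
  refine INat.ind (p := fun N : INat M => ∃ W, Flat G W ∧
    (∀ x, x ∈ W → x ∈ Z → x ∈ clo G ∅) ∧ N ≤ crd W) (by (repeat' (first | with_reducible exact IntF.id | with_reducible exact IntF.fst' | with_reducible exact IntF.snd' | with_reducible exact IntF.const _ | with_reducible exact Int.const _ | assumption | with_reducible apply Int.dm | with_reducible apply Int.rg | with_reducible apply Int.fn | with_reducible apply Int.ij | with_reducible apply Int.mv | with_reducible apply Int.gn | with_reducible apply Int.flat | with_reducible apply Int.big | with_reducible apply IntF.idr | with_reducible apply IntF.inv' | with_reducible apply IntF.cmp | with_reducible apply IntF.clo | with_reducible apply IntF.iprod | with_reducible apply IntF.crd | with_reducible apply Int.and | with_reducible apply Int.or | with_reducible apply Int.not | with_reducible apply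 Int.imp | with_reducible apply Int.iff | with_reducible apply Int.ne | with_reducible apply Int.eq | with_reducible apply Int.mem | with_reducible apply Int.subset | with_reducible apply Int.ltN | with_reducible apply Int.leN | with_reducible apply Int.fin | with_reducible apply Int.unique | with_reducible apply Int.all | with_reducible apply Int.ex | with_reducible apply IntF.fst | with_reducible apply IntF.snd | with_reducible apply IntF.app | with_reducible apply IntF.ite | with_reducible apply IntF.sep | with_reducible apply IntF.lam | with_reducible apply IntF.insert | with_reducible apply IntF.singleton | with_reducible apply IntF.union | with_reducible apply IntF.inter | with_reducible apply IntF.sdiff | with_reducible apply IntF.isUnion | with_reducible apply IntF.iimage | with_reducible apply IntF.the | with_reducible apply IntF.irec | with_reducible_and_instances apply IntF.add | with_reducible_and_instances apply IntF.mul | with_reducible apply IntF.succ | with_reducible apply IntF.val | with_reducible apply IntF.mk | (with_reducible refine Int.comp ?_ ?_; assumption) | (with_reducible refine Int.comp₂ ?_ ?_ ?_; assumption) | (with_reducible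 refine Int.comp₃ ?_ ?_ ?_ ?_; assumption) | (with_reducible refine IntF.comp ?_ ?_; assumption) | (with_reducible refine IntF.comp₂ ?_ ?_ ?_; assumption) | (with_reducible refine IntF.comp₃ ?_ ?_ ?_ ?_; assumption) | with_reducible apply IntF.pair))) ?_ ?_ N
  · exact ⟨_, flat_clo hG IFin.empty, fun x hx _ => hx, INat.zero_le _⟩
  · rintro N ⟨W, hW, h1, h2⟩
    obtain ⟨a, ha⟩ := exists_not_mem hG (fin_clo hG (hW.1.union hZ))
    have haW : ¬ a ∈ W := fun h => ha (sub_clo hG a (mem_union.2 (Or.inl h)))
    refine ⟨_, flat_clo hG (hW.1.insert a), fun x hx hxZ => ?_, ?_⟩
    · by_contra hx0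
      have hxW : ¬ x ∈ W := fun h => hx0 (h1 x h hxZ)
      have h3 := exch hG hW.1 hx (by rwa [hW.2])
      refine ha (clo_mono hG (fun y hy => ?_) a h3)
      rcases mem_insert.1 hy with rfl | hy
      · exact mem_union.2 (Or.inr hxZ)
      · exact mem_union.2 (Or.inl hy)
    · exact INat.succ_le_iff.2 (h2.trans_lt (crd_lt (fin_clo hG (hW.1.insert a))
        (fun y hy => sub_clo hG y (mem_insert.2 (Or.inr hy))) (mem_clo_insert hG a) haW))

end

/-- `W` is the unique largest flat in `S` and the closure of the empty set. -/
def Big (G : IPow M (IPow M (σ × σ))) (S W : IPow M σ) : Prop :=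
  Flat G W ∧ W ⊆ S ∪ clo G ∅ ∧ ∀ Y, Flat G Y → Y ⊆ S ∪ clo G ∅ → Y ≠ W → crd Y < crd W

theorem Int.big {G : IPow M (IPow M (σ × σ))} {g h : γ → IPow M σ} (hg : IntF M g)
    (hh : IntF M h) : Int M (fun c => Big G (g c) (h c)) := by
  unfold Big
  (repeat' (first | with_reducible exact IntF.id | with_reducible exact IntF.fst' | with_reducible exact IntF.snd' | with_reducible exact IntF.const _ | with_reducible exact Int.const _ | assumption | with_reducible apply Int.dm | with_reducible apply Int.rg | with_reducible apply Int.fn | with_reducible apply Int.ij | with_reducible apply Int.mv | with_reducible apply Int.gn | with_reducible apply Int.flat | with_reducible apply Int.big | with_reducible apply IntF.idr | with_reducible apply IntF.inv' | with_reducible apply IntF.cmp | with_reducible apply IntF.clo | with_reducible apply IntF.iprod | with_reducible apply IntF.crd | with_reducible apply Int.and | with_reducible apply Int.or | with_reducible apply Int.not | with_reducible apply Int.imp | with_reducible apply Int.iff | with_reducible apply Int.ne | with_reducible apply Int.eq | with_reducible apply Int.mem | with_reducible apply Int.subset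 | with_reducible apply Int.ltN | with_reducible apply Int.leN | with_reducible apply Int.fin | with_reducible apply Int.unique | with_reducible apply Int.all | with_reducible apply Int.ex | with_reducible apply IntF.fst | with_reducible apply IntF.snd | with_reducible apply IntF.app | with_reducible apply IntF.ite | with_reducible apply IntF.sep | with_reducible apply IntF.lam | with_reducible apply IntF.insert | with_reducible apply IntF.singleton | with_reducible apply IntF.union | with_reducible apply IntF.inter | with_reducible apply IntF.sdiff | with_reducible apply IntF.isUnion | with_reducible apply IntF.iimage | with_reducible apply IntF.the | with_reducible apply IntF.irec | with_reducible_and_instances apply IntF.add | with_reducible_and_instances apply IntF.mul | with_reducible apply IntF.succ | with_reducible apply IntF.val | with_reducible apply IntF.mk | (with_reducible refine Int.comp ?_ ?_; assumption) | (with_reducible refine Int.comp₂ ?_ ?_ ?_; assumption) | (with_reducible refine Int.comp₃ ?_ ?_ ?_ ?_; assumption) | (with_reducible refine IntF.comp ?_ ?_; assumption) | (with_reducible refine IntF.comp₂ ?_ ?_ ?_; assumption)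 | (with_reducible refine IntF.comp₃ ?_ ?_ ?_ ?_; assumption) | with_reducible apply IntF.pair))

/-- The map that removes the unique largest flat. -/
noncomputable def rmv (G : IPow M (IPow M (σ × σ))) (S : IPow M σ) : IPow M σ :=
  sep M fun x => x ∈ S ∧ (¬ IFin S ∨ (∀ W, Big G S W → ¬ x ∈ W) ∨ x ∈ clo G ∅)

theorem mem_rmv {G : IPow M (IPow M (σ × σ))} {S : IPow M σ} {x : σ} :
    x ∈ rmv G S ↔ x ∈ S ∧ (¬ IFin S ∨ (∀ W, Big G S W → ¬ x ∈ W) ∨ x ∈ clo G ∅) := by
  unfold rmv
  rw [mem_sep (by (repeat' (first | with_reducible exact IntF.id | with_reducible exact IntF.fst' | with_reducible exact IntF.snd' | with_reducible exact IntF.const _ | with_reducible exact Int.const _ | assumption | with_reducible apply Int.dm | with_reducible apply Int.rg | with_reducible apply Int.fn | with_reducible apply Int.ij | with_reducible apply Int.mv | with_reducible apply Int.gn | with_reducible apply Int.flat | with_reducible apply Int.big | with_reducible apply IntF.idr | with_reducible apply IntF.inv' | with_reducible apply IntF.cmp | with_reducible apply IntF.clo | with_reducible apply IntF.iprod | with_reducible apply IntF.crd | with_reducible apply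 Int.and | with_reducible apply Int.or | with_reducible apply Int.not | with_reducible apply Int.imp | with_reducible apply Int.iff | with_reducible apply Int.ne | with_reducible apply Int.eq | with_reducible apply Int.mem | with_reducible apply Int.subset | with_reducible apply Int.ltN | with_reducible apply Int.leN | with_reducible apply Int.fin | with_reducible apply Int.unique | with_reducible apply Int.all | with_reducible apply Int.ex | with_reducible apply IntF.fst | with_reducible apply IntF.snd | with_reducible apply IntF.app | with_reducible apply IntF.ite | with_reducible apply IntF.sep | with_reducible apply IntF.lam | with_reducible apply IntF.insert | with_reducible apply IntF.singleton | with_reducible apply IntF.union | with_reducible apply IntF.inter | with_reducible apply IntF.sdiff | with_reducible apply IntF.isUnion | with_reducible apply IntF.iimage | with_reducible apply IntF.the | with_reducible apply IntF.irec | with_reducible_and_instances apply IntF.add | with_reducible_and_instances apply IntF.mul | with_reducible apply IntF.succ | with_reducible apply IntF.val | with_reducible apply IntF.mk | (with_reducible refine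 Int.comp ?_ ?_; assumption) | (with_reducible refine Int.comp₂ ?_ ?_ ?_; assumption) | (with_reducible refine Int.comp₃ ?_ ?_ ?_ ?_; assumption) | (with_reducible refine IntF.comp ?_ ?_; assumption) | (with_reducible refine IntF.comp₂ ?_ ?_ ?_; assumption) | (with_reducible refine IntF.comp₃ ?_ ?_ ?_ ?_; assumption) | with_reducible apply IntF.pair)))]

theorem int_rmv (G : IPow M (IPow M (σ × σ))) : IntF M (fun S : IPow M σ => rmv G S) := by
  unfold rmv
  (repeat' (first | with_reducible exact IntF.id | with_reducible exact IntF.fst' | with_reducible exact IntF.snd' | with_reducible exact IntF.const _ | with_reducible exact Int.const _ | assumption | with_reducible apply Int.dm | with_reducible apply Int.rg | with_reducible apply Int.fn | with_reducible apply Int.ij | with_reducible apply Int.mv | with_reducible apply Int.gn | with_reducible apply Int.flat | with_reducible apply Int.big | with_reducible apply IntF.idr | with_reducible apply IntF.inv' | with_reducible apply IntF.cmp | with_reducible apply IntF.clo | with_reducible apply IntF.iprod | with_reducible apply IntF.crd | with_reducible apply Int.and | with_reducible apply Int.or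 | with_reducible apply Int.not | with_reducible apply Int.imp | with_reducible apply Int.iff | with_reducible apply Int.ne | with_reducible apply Int.eq | with_reducible apply Int.mem | with_reducible apply Int.subset | with_reducible apply Int.ltN | with_reducible apply Int.leN | with_reducible apply Int.fin | with_reducible apply Int.unique | with_reducible apply Int.all | with_reducible apply Int.ex | with_reducible apply IntF.fst | with_reducible apply IntF.snd | with_reducible apply IntF.app | with_reducible apply IntF.ite | with_reducible apply IntF.sep | with_reducible apply IntF.lam | with_reducible apply IntF.insert | with_reducible apply IntF.singleton | with_reducible apply IntF.union | with_reducible apply IntF.inter | with_reducible apply IntF.sdiff | with_reducible apply IntF.isUnion | with_reducible apply IntF.iimage | with_reducible apply IntF.the | with_reducible apply IntF.irec | with_reducible_and_instances apply IntF.add | with_reducible_and_instances apply IntF.mul | with_reducible apply IntF.succ | with_reducible apply IntF.val | with_reducible apply IntF.mk | (with_reducible refine Int.comp ?_ ?_; assumption) | (with_reducible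 refine Int.comp₂ ?_ ?_ ?_; assumption) | (with_reducible refine Int.comp₃ ?_ ?_ ?_ ?_; assumption) | (with_reducible refine IntF.comp ?_ ?_; assumption) | (with_reducible refine IntF.comp₂ ?_ ?_ ?_; assumption) | (with_reducible refine IntF.comp₃ ?_ ?_ ?_ ?_; assumption) | with_reducible apply IntF.pair))

theorem Big.unique {G : IPow M (IPow M (σ × σ))} {S W W' : IPow M σ} (h : Big G S W)
    (h' : Big G S W') : W = W' := by
  by_contra hne
  exact lt_asymm (h.2.2 W' h'.1 h'.2.1 fun h1 => hne h1.symm) (h'.2.2 W h.1 h.2.1 hne)

section

variable {G : IPow M (IPow M (σ × σ))} (hG : Gpd G)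

include hG

theorem rmv_surj (hDg : ¬ Deg G) : Function.Surjective (rmv (M := M) G) := by
  intro T
  by_cases hT : IFin T
  · obtain ⟨V, v, hV, hv, hn⟩ := inc_unb hG hDg (crd T)
    obtain ⟨W, hW, hWZ, hWc⟩ := exists_avoid hG (fin_clo hG hT) ((crd T).succ + crd V)
    have h0W : clo G ∅ ⊆ W := clo_sub hG hW.1 hW.2 fun x hx => absurd hx (by simp)
    have hVW : crd V ≤ crd W := by
      have h1 : (0 : INat M) + crd V ≤ (crd T).succ + crd V := add_le' (INat.zero_le _) _
      rw [INat.zero_add'] at h1
      exact h1.trans hWc
    have hSf : IFin (T ∪ (W \ clo G ∅)) := hT.union (hW.1.subset fun x hx => (mem_sdiff.1 hx).1)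
    have hSub : ∀ x, x ∈ (T ∪ (W \ clo G ∅)) ∪ clo G ∅ → x ∈ T ∨ x ∈ W := by
      intro x hx
      rcases mem_union.1 hx with hx | hx
      · rcases mem_union.1 hx with hx | hx
        · exact Or.inl hx
        · exact Or.inr (mem_sdiff.1 hx).1
      · exact Or.inr (h0W x hx)
    have hBig : Big G (T ∪ (W \ clo G ∅)) W := by
      refine ⟨hW, fun x hx => ?_, fun Y hY hYS hne => ?_⟩
      · by_cases h1 : x ∈ clo G ∅
        · exact mem_union.2 (Or.inr h1)
        · exact mem_union.2 (Or.inl (mem_union.2 (Or.inr (mem_sdiff.2 ⟨hx, h1⟩))))
      · by_cases hYW : Y ⊆ W
        · obtain ⟨x, hx, hx'⟩ : ∃ x, x ∈ W ∧ ¬ x ∈ Y := by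
            by_contra h1
            push Not at h1
            exact hne (IPow.ext' fun x => ⟨hYW x, h1 x⟩)
          exact crd_lt hW.1 hYW hx hx'
        · obtain ⟨y, hy, hy'⟩ : ∃ y, y ∈ Y ∧ ¬ y ∈ W := by
            by_contra h1
            push Not at h1
            exact hYW h1
          by_cases hWY : W ⊆ Y
          · exfalso
            have h1 : clo G (insert y W) \ W ⊆ T := by
              intro x hx
              obtain ⟨h2, h3⟩ := mem_sdiff.1 hx
              have h4 : x ∈ Y := clo_sub hG hY.1 hY.2 (fun z hz => by
                rcases mem_insert.1 hz with rfl | hz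
                · exact hy
                · exact hWY z hz) x h2
              exact (hSub x (hYS x h4)).resolve_right h3
            have h2 : inc G W y ≤ crd T := crd_mono hT h1
            exact absurd (hn.trans_le (inc_le hG hV hW hVW hv hy')) (not_lt.2 h2)
          · obtain ⟨w, hw, hw'⟩ : ∃ w, w ∈ W ∧ ¬ w ∈ Y := by
              by_contra h1
              push Not at h1
              exact hWY h1
            have hZ : Flat G (Y ∩ W) := by
              refine ⟨hY.1.subset fun x hx => (mem_inter.1 hx).1, IPow.ext' fun x =>
                ⟨fun hx => mem_inter.2 ⟨?_, ?_⟩, fun hx => sub_clo hG x hx⟩⟩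
              · exact clo_sub hG hY.1 hY.2 (fun z hz => (mem_inter.1 hz).1) x hx
              · exact clo_sub hG hW.1 hW.2 (fun z hz => (mem_inter.1 hz).2) x hx
            have c1 := crd_sdiff (Y ∩ W) hZ.1 W hW.1 fun x hx => (mem_inter.1 hx).2
            have c2 := crd_sdiff (Y ∩ W) hZ.1 Y hY.1 fun x hx => (mem_inter.1 hx).1
            have c3 : crd (Y \ (Y ∩ W)) ≤ crd T := by
              refine crd_mono hT fun x hx => ?_
              obtain ⟨h2, h3⟩ := mem_sdiff.1 hx
              exact (hSub x (hYS x h2)).resolve_right fun h4 => h3 (mem_inter.2 ⟨h2, h4⟩)
            have c4 : crd T < crd (W \ (Y ∩ W)) := by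
              rcases le_or_gt (crd V) (crd (Y ∩ W)) with h2 | h2
              · have hwZ : ¬ w ∈ Y ∩ W := fun h => hw' (mem_inter.1 h).1
                have h3 : clo G (insert w (Y ∩ W)) \ (Y ∩ W) ⊆ W \ (Y ∩ W) := by
                  intro x hx
                  obtain ⟨h4, h5⟩ := mem_sdiff.1 hx
                  refine mem_sdiff.2 ⟨clo_sub hG hW.1 hW.2 (fun z hz => ?_) x h4, h5⟩
                  rcases mem_insert.1 hz with rfl | hz
                  · exact hw
                  · exact (mem_inter.1 hz).2
                have h4 := crd_mono (hW.1.subset fun x hx => (mem_sdiff.1 hx).1) h3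
                exact (hn.trans_le (inc_le hG hV hZ h2 hv hwZ)).trans_le h4
              · by_contra h3
                rw [not_lt] at h3
                have h4 : crd W ≤ crd T + crd V := by
                  rw [c1]
                  refine (add_le' h3 _).trans ?_
                  rw [INat.add_comm' (crd T), INat.add_comm' (crd T)]
                  exact add_le' h2.le _
                have h5 := hWc.trans h4
                exact absurd (add_lt' (INat.lt_succ_self (crd T)) (crd V)) (not_lt.2 h5)
            rw [c1, c2]
            exact add_lt' (c3.trans_lt c4) _
    refine ⟨T ∪ (W \ clo G ∅), IPow.ext' fun x => ?_⟩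
    rw [mem_rmv]
    constructor
    · rintro ⟨h1, h2 | h2 | h2⟩
      · exact absurd hSf h2
      · rcases mem_union.1 h1 with h1 | h1
        · exact h1
        · exact absurd (mem_sdiff.1 h1).1 (h2 W hBig)
      · rcases mem_union.1 h1 with h1 | h1
        · exact h1
        · exact absurd h2 (mem_sdiff.1 h1).2
    · intro hx
      refine ⟨mem_union.2 (Or.inl hx), Or.inr ?_⟩
      by_cases h1 : x ∈ clo G ∅
      · exact Or.inr h1
      · refine Or.inl fun W' hW' hxW => h1 (hWZ x ?_ (sub_clo hG x hx))
        rw [hBig.unique hW']
        exact hxW
  · refine ⟨T, IPow.ext' fun x => ?_⟩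
    rw [mem_rmv]
    exact ⟨fun h => h.1, fun h => ⟨h, Or.inl hT⟩⟩

theorem rmv_not_inj : ¬ Function.Injective (rmv (M := M) G) := by
  intro hinj
  obtain ⟨a, ha⟩ := exists_not_mem hG (fin_clo hG (D := (∅ : IPow M σ)) IFin.empty)
  have h0 : clo G ∅ ⊆ clo G {a} := clo_mono hG fun x hx => absurd hx (by simp)
  have hfl := flat_clo hG (IFin.singleton (M := M) a)
  have hsub : ∀ x, x ∈ (clo G {a} \ clo G ∅) ∪ clo G ∅ ↔ x ∈ clo G {a} := by
    intro x
    rw [mem_union, mem_sdiff]
    constructor
    · rintro (h | h)
      · exact h.1
      · exact h0 x h
    · intro h
      by_cases h1 : x ∈ clo G ∅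
      · exact Or.inr h1
      · exact Or.inl ⟨h, h1⟩
  have hBig : Big G (clo G {a} \ clo G ∅) (clo G {a}) := by
    refine ⟨hfl, fun x hx => (hsub x).2 hx, fun Y hY hYS hne => ?_⟩
    have h1 : Y ⊆ clo G {a} := fun x hx => (hsub x).1 (hYS x hx)
    obtain ⟨x, hx, hx'⟩ : ∃ x, x ∈ clo G {a} ∧ ¬ x ∈ Y := by
      by_contra h2
      push Not at h2
      exact hne (IPow.ext' fun x => ⟨h1 x, h2 x⟩)
    exact crd_lt hfl.1 h1 hx hx'
  have h1 : rmv G (clo G {a} \ clo G ∅) = rmv G ∅ := by
    refine IPow.ext' fun x => ?_
    rw [mem_rmv, mem_rmv]
    constructor
    · rintro ⟨h1, h2 | h2 | h2⟩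
      · exact absurd (hfl.1.subset fun x hx => (mem_sdiff.1 hx).1) h2
      · exact absurd (mem_sdiff.1 h1).1 (h2 _ hBig)
      · exact absurd h2 (mem_sdiff.1 h1).2
    · rintro ⟨h1, -⟩
      exact absurd h1 (by simp)
  have h2 := hinj h1
  have h3 : a ∈ clo G {a} \ clo G ∅ := mem_sdiff.2 ⟨sub_clo hG a (mem_singleton.2 rfl), ha⟩
  rw [h2] at h3
  exact absurd h3 (by simp)

end

end Pool.Agent.Q207.PG
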