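import Pool.Agent.H310R3.NADefs

/-!
# Pregeometries on amorphous sets in a model of set theory: the definitions

`Mem` and `LSet` are from `Pool.Agent.Helper672.SIK.Plain`; `IsFun`, `App`, `IsInj`, `IsBij`,
`IsPow`, `IsNat`, `IsOmega` and `IsFinite` are from `Pool.Agent.H310R3.Cards`; `IsAmorphous` is
from `Pool.Agent.H310R3.NADefs`.
-/

namespace Pool.Agent.Q207.PGDefs

open FirstOrder FirstOrder.Language
open Pool.Agent.Helper672.Plain (LSet Mem)
open Pool.Agent.H310Cards
open Pool.Agent.H310NAS (IsAmorphous)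

universe u

variable {M : Type u} [LSet.Structure M]

/-- `x` is dually Dedekind finite: every surjective function from `x` to `x` is injective. -/
def IsDDF (x : M) : Prop :=
  ∀ f, IsFun f x x → (∀ y, Mem y x → ∃ z, App f z y) → IsInj f x x

/-- `s` is a subset of `t`. -/
def Sub (s t : M) : Prop := ∀ z, Mem z s → Mem z t

/-- `F` is the set of all finite subsets of `a`. -/
def IsFinSets (F a : M) : Prop := ∀ s, Mem s F ↔ Sub s a ∧ IsFinite s

/-- `t` is `s` with the element `b` added. -/
def IsAdj (t s b : M) : Prop := ∀ z, Mem z t ↔ Mem z s ∨ z = b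

/-- `e` is the image of `d` under `p`. -/
def IsImg (e p d : M) : Prop := ∀ y, Mem y e ↔ ∃ x, Mem x d ∧ App p x y

/-- `s` is closed: `cl(s) = s`. -/
def IsClo (cl s : M) : Prop := App cl s s

/-- `p` preserves `cl` on the subsets of `t`: for all `d ⊆ t`, `cl(p[d]) = p[cl(d)]`. -/
def Pres (cl p t : M) : Prop :=
  ∀ d e c c', Sub d t → IsImg e p d → App cl d c → App cl e c' → IsImg c' p c

/-- `cl` is a pregeometry on `a`. -/
structure IsPregeometry (cl a : M) : Prop where
  /-- `cl` is a function from the set of finite subsets of `a` to itself. -/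
  isFun : ∃ F, IsFinSets F a ∧ IsFun cl F F
  /-- `s ⊆ cl(s) = cl(cl(s))`. -/
  closure : ∀ s c, App cl s c → Sub s c ∧ App cl c c
  /-- `s ⊆ t` implies `cl(s) ⊆ cl(t)`. -/
  mono : ∀ s t c d, App cl s c → App cl t d → Sub s t → Sub c d
  /-- Exchange: for `x, y` in `a` and not in `cl(s)`, `x ∈ cl(s ∪ {y})` iff `y ∈ cl(s ∪ {x})`. -/
  exchange : ∀ s c x y, App cl s c → Mem x a → Mem y a → ¬ Mem x c → ¬ Mem y c →
    ∀ sx sy cx cy, IsAdj sx s x → IsAdj sy s y → App cl sx cx → App cl sy cy →
      (Mem x cy ↔ Mem y cx)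
  /-- Local homogeneity: for closed `s ⊆ t` and `x, y ∈ t \ s` there is a permutation `p` of `t`
  with `p(x) = y` that fixes `s` pointwise, preserves `cl` on the subsets of `t` and extends, for
  each closed `u ⊇ t`, to a permutation of `u` that preserves `cl` on the subsets of `u`. -/
  homogeneous : ∀ s t x y, IsClo cl s → IsClo cl t → Sub s t → Mem x t → Mem y t →
    ¬ Mem x s → ¬ Mem y s → ∃ p, IsBij p t t ∧ App p x y ∧ (∀ z, Mem z s → App p z z) ∧
      Pres cl p t ∧ ∀ u, IsClo cl u → Sub t u →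
        ∃ q, IsBij q u u ∧ (∀ z w, App p z w → App q z w) ∧ Pres cl q u

/-- The closure operator `cl` is degenerate: `cl(s)` is the union of the sets `cl({y})` for
`y ∈ s`, for every nonempty `s` in the domain of `cl`. -/
def IsDegenerate (cl : M) : Prop :=
  ∀ s c, App cl s c → (∃ z, Mem z s) → ∀ x, Mem x c ↔
    ∃ y sy cy, Mem y s ∧ (∀ z, Mem z sy ↔ z = y) ∧ App cl sy cy ∧ Mem x cy

/-- `a` is an amorphous set of projective type: it admits a non-degenerate pregeometry. -/
def IsProjectiveType (a : M) : Prop :=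
  IsAmorphous a ∧ ∃ cl, IsPregeometry cl a ∧ ¬ IsDegenerate cl

/-- `X` is the set of all functions from `n` to `p`. -/
def IsFunSet (X n p : M) : Prop := ∀ f, Mem f X ↔ IsFun f n p

end Pool.Agent.Q207.PGDefs
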