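import Pool.Agent.H310R3.NADefs
import Pool.Agent.Q212.ZA4
import Pool.Agent.Q207.PG.Defs
import Pool.Agent.Q207.PG.Di
import Pool.Agent.Q207.PG.Cv

/-!
# The bridge
-/

set_option maxHeartbeats 1000000
set_option linter.all false

namespace Pool.Agent.Q207.PG

open FirstOrder FirstOrder.Language
open Pool.Agent.Helper672.ZFA
open Pool.Agent.H310
open Pool.Agent.H310Cards
open Pool.Agent.H310NAS (IsAmorphous)
open Pool.Agent.Q212.ZA
open Pool.Agent.Q207.PGDefs

universe u u₁ u₂ u₃ u₄

section

variable {M : Type u} [L.Structure M] [hM : IsModel M]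
variable {α : Type u₁} {β : Type u₂} [ITy M α] [ITy M β]

variable (M α) in
/-- There is a surjection that is not injective. -/
def DDI : Prop := ∃ φ : α → α, IntF M φ ∧ Function.Surjective φ ∧ ¬ Function.Injective φ

theorem DDI.transport (h : DDI M α) {e : α → β} {e' : β → α} (he : IntF M e) (he' : IntF M e')
    (h1 : ∀ a, e' (e a) = a) (h2 : ∀ b, e (e' b) = b) : DDI M β := by
  obtain ⟨φ, h3, h4, h5⟩ := h
  refine ⟨fun b => e (φ (e' b)), by (repeat' (first | with_reducible exact IntF.id | with_reducible exact IntF.fst' | with_reducible exact IntF.snd' | with_reducible exact IntF.const _ | with_reducible exact Int.const _ | assumption | with_reducible apply Int.dm | with_reducible apply Int.rg | with_reducible apply Int.fn | with_reducible apply Int.ij | with_reducible apply Int.mv | with_reducible apply Int.gn | with_reducible apply IntF.idr | with_reducible apply IntF.inv' | with_reducible apply IntF.cmp | with_reducible apply IntF.clo | with_reducible apply IntF.iprod | with_reducible apply IntF.crd | with_reducible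 apply Int.and | with_reducible apply Int.or | with_reducible apply Int.not | with_reducible apply Int.imp | with_reducible apply Int.iff | with_reducible apply Int.ne | with_reducible apply Int.eq | with_reducible apply Int.mem | with_reducible apply Int.subset | with_reducible apply Int.ltN | with_reducible apply Int.leN | with_reducible apply Int.fin | with_reducible apply Int.unique | with_reducible apply Int.all | with_reducible apply Int.ex | with_reducible apply IntF.fst | with_reducible apply IntF.snd | with_reducible apply IntF.app | with_reducible apply IntF.ite | with_reducible apply IntF.sep | with_reducible apply IntF.lam | with_reducible apply IntF.insert | with_reducible apply IntF.singleton | with_reducible apply IntF.union | with_reducible apply IntF.inter | with_reducible apply IntF.sdiff | with_reducible apply IntF.isUnion | with_reducible apply IntF.iimage | with_reducible apply IntF.the | with_reducible apply IntF.irec | with_reducible_and_instances apply IntF.add | with_reducible_and_instances apply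 IntF.mul | with_reducible apply IntF.succ | with_reducible apply IntF.val | with_reducible apply IntF.mk | (with_reducible refine Int.comp ?_ ?_; assumption) | (with_reducible refine Int.comp₂ ?_ ?_ ?_; assumption) | (with_reducible refine Int.comp₃ ?_ ?_ ?_ ?_; assumption) | (with_reducible refine IntF.comp ?_ ?_; assumption) | (with_reducible refine IntF.comp₂ ?_ ?_ ?_; assumption) | (with_reducible refine IntF.comp₃ ?_ ?_ ?_ ?_; assumption) | with_reducible apply IntF.pair)), fun b => ?_, fun h6 => h5 fun x y hxy => ?_⟩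
  · obtain ⟨a, ha⟩ := h4 (e' b)
    refine ⟨e a, ?_⟩
    dsimp only
    rw [h1, ha, h2]
  · have h7 : e (φ (e' (e x))) = e (φ (e' (e y))) := by rw [h1, h1, hxy]
    have h8 := h6 h7
    rw [← h1 x, ← h1 y, h8]

end

section

attribute [local instance] Helper672.Plain.toL

variable {M : Type u} [Helper672.Plain.LSet.Structure M] [hZ : Helper672.Plain.Zermelo M]
variable {α : Type u₁} {β : Type u₂}

local instance instModelPG : IsModel M := Helper672.Plain.isModel_toL

variable [ITy M α] [ITy M β]

theorem ddi_iff {x : M} (hx : ∀ z, Mem z x ↔ ∃ a : α, code a = z) : ¬ IsDDF x ↔ DDI M α := by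
  constructor
  · intro h
    unfold IsDDF at h
    push Not at h
    obtain ⟨f, hf, h1, h2⟩ := h
    obtain ⟨φ, h3, h4⟩ := exists_fun (α := α) (β := α) hf (fun a => (hx _).2 ⟨a, rfl⟩)
      fun z hz => (hx z).1 hz
    have hdom : ∀ y z, App f y z → (∃ a : α, code a = y) ∧ ∃ b : α, code b = z := by
      rintro y z ⟨q, hq, hqf⟩
      obtain ⟨y', z', h5, h6, h7⟩ := hf.1 q hqf
      obtain ⟨rfl, rfl⟩ := op_inj ((ordPair_iff.1 hq).symm.trans (ordPair_iff.1 h7))
      exact ⟨(hx _).1 h5, (hx _).1 h6⟩
    refine ⟨φ, h3, fun b => ?_, fun hinj => h2 ⟨hf, ?_⟩⟩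
    · obtain ⟨z, hz⟩ := h1 (code b) ((hx _).2 ⟨b, rfl⟩)
      obtain ⟨⟨a, rfl⟩, -⟩ := hdom _ _ hz
      exact ⟨a, (h4 a b).2 hz⟩
    · intro y y' z hy hy'
      obtain ⟨⟨a, rfl⟩, ⟨b, rfl⟩⟩ := hdom _ _ hy
      obtain ⟨⟨a', rfl⟩, -⟩ := hdom _ _ hy'
      rw [hinj (((h4 _ _).2 hy).trans ((h4 _ _).2 hy').symm)]
  · rintro ⟨φ, h1, h2, h3⟩ h
    refine h3 ?_
    have h4 := h (code (M := M) (lam M φ)) (isFun_code _ hx fun a => (hx _).2 ⟨_, rfl⟩) fun y hy => by
      obtain ⟨b, rfl⟩ := (hx y).1 hy
      obtain ⟨a, rfl⟩ := h2 b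
      exact ⟨code a, app_code.2 ⟨a, rfl, by rw [lam_apply h1]⟩⟩
    intro a a' haa
    have h5 : App (code (M := M) (lam M φ)) (code a) (code (φ a)) :=
      app_code.2 ⟨a, rfl, by rw [lam_apply h1]⟩
    have h6 : App (code (M := M) (lam M φ)) (code a') (code (φ a)) :=
      app_code.2 ⟨a', rfl, by rw [lam_apply h1, haa]⟩
    exact ITy.inj (h4.2 _ _ _ h5 h6)

theorem mem_funSet {X s t z : M} (hs : ∀ z, Mem z s ↔ ∃ x : α, code x = z)
    (ht : ∀ z, Mem z t ↔ ∃ x : β, code x = z) (hX : IsFunSet X s t) :
    Mem z X ↔ ∃ g : IFun M α β, code g = z := by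
  refine (hX z).trans ⟨fun h => ?_, ?_⟩
  · obtain ⟨φ, h1, h2⟩ := exists_fun (α := α) (β := β) h (fun x => (hs _).2 ⟨x, rfl⟩)
      fun z hz => (ht z).1 hz
    refine ⟨⟨φ, h1⟩, extM fun q => ?_⟩
    refine (mem_code_fun (f := (⟨φ, h1⟩ : IFun M α β))).trans ⟨?_, fun hq => ?_⟩
    · rintro ⟨a, rfl⟩
      exact app_iff.1 ((h2 a (φ a)).1 rfl)
    · obtain ⟨x, y, hx, hy, hxy⟩ := h.1 q hq
      obtain ⟨a, rfl⟩ := (hs x).1 hx
      obtain ⟨b, rfl⟩ := (ht y).1 hy
      have h3 := (h2 a b).2 ⟨q, hxy, hq⟩
      refine ⟨a, ?_⟩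
      rw [ordPair_iff] at hxy
      rw [hxy]
      exact congrArg (fun b : β => op (code (M := M) a) (code b)) h3.symm
  · rintro ⟨g, rfl⟩
    exact isFun_code g hs fun a => (ht _).2 ⟨_, rfl⟩

theorem exists_code_of_sub {a s : M} (h : Sub s a) : ∃ s' : IPow M (El a), code s' = s := by
  have hs : Int M (fun x : El a => Mem (code x) s) := ⟨s, fun _ => Iff.rfl⟩
  refine ⟨⟨_, hs⟩, extM fun t => ?_⟩
  refine (mem_code_pow (s := (⟨_, hs⟩ : IPow M (El a)))).trans ⟨?_, fun ht => ?_⟩
  · rintro ⟨x, hx, rfl⟩
    exact hx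
  · exact ⟨⟨t, h t ht⟩, ht, rfl⟩

theorem mem_powEl {a p : M} (hp : IsPow p a) {z : M} :
    Mem z p ↔ ∃ s : IPow M (El a), code s = z := mem_pow (fun _ => mem_El) hp

instance instFinFact : Fact (Int M (fun s : IPow M α => IFin s)) := ⟨by (repeat' (first | with_reducible exact IntF.id | with_reducible exact IntF.fst' | with_reducible exact IntF.snd' | with_reducible exact IntF.const _ | with_reducible exact Int.const _ | assumption | with_reducible apply Int.dm | with_reducible apply Int.rg | with_reducible apply Int.fn | with_reducible apply Int.ij | with_reducible apply Int.mv | with_reducible apply Int.gn | with_reducible apply IntF.idr | with_reducible apply IntF.inv' | with_reducible apply IntF.cmp | with_reducible apply IntF.clo | with_reducible apply IntF.iprod | with_reducible apply IntF.crd | with_reducible apply Int.and | with_reducible apply Int.or | with_reducible apply Int.not | with_reducible apply Int.imp | with_reducible apply Int.iff | with_reducible apply Int.ne | with_reducible apply Int.eq | with_reducible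 apply Int.mem | with_reducible apply Int.subset | with_reducible apply Int.ltN | with_reducible apply Int.leN | with_reducible apply Int.fin | with_reducible apply Int.unique | with_reducible apply Int.all | with_reducible apply Int.ex | with_reducible apply IntF.fst | with_reducible apply IntF.snd | with_reducible apply IntF.app | with_reducible apply IntF.ite | with_reducible apply IntF.sep | with_reducible apply IntF.lam | with_reducible apply IntF.insert | with_reducible apply IntF.singleton | with_reducible apply IntF.union | with_reducible apply IntF.inter | with_reducible apply IntF.sdiff | with_reducible apply IntF.isUnion | with_reducible apply IntF.iimage | with_reducible apply IntF.the | with_reducible apply IntF.irec | with_reducible_and_instances apply IntF.add | with_reducible_and_instances apply IntF.mul | with_reducible apply IntF.succ | with_reducible apply IntF.val | with_reducible apply IntF.mk | (with_reducible refine Int.comp ?_ ?_; assumption) | (with_reducible refine Int.comp₂ ?_ ?_ ?_; assumption)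 | (with_reducible refine Int.comp₃ ?_ ?_ ?_ ?_; assumption) | (with_reducible refine IntF.comp ?_ ?_; assumption) | (with_reducible refine IntF.comp₂ ?_ ?_ ?_; assumption) | (with_reducible refine IntF.comp₃ ?_ ?_ ?_ ?_; assumption) | with_reducible apply IntF.pair))⟩

variable (M α) in
/-- The type of finite sets. -/
abbrev Fs : Type _ := {s : IPow M α // IFin s}

section

variable {a : M} {G : IPow M (IPow M (El a × El a))} (hG : Gpd G)

/-- The closure operator as a function. -/
noncomputable def clF : Fs M (El a) → Fs M (El a) := fun s => ⟨clo G s.1, fin_clo hG s.2⟩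

theorem int_clF : IntF M (clF hG) := by
  unfold clF
  refine IntF.mk ?_
  exact IntF.clo (IntF.val IntF.id)

/-- The closure operator as an element of the model. -/
noncomputable def clM : M := code (lam M (clF hG))

theorem app_clM {x y : M} : App (clM hG) x y ↔
    ∃ s : IPow M (El a), IFin s ∧ code s = x ∧ code (clo G s) = y := by
  unfold clM
  rw [app_code]
  constructor
  · rintro ⟨s, h1, h2⟩
    rw [lam_apply (int_clF hG)] at h2
    exact ⟨s.1, s.2, h1, h2⟩
  · rintro ⟨s, hs, h1, h2⟩
    exact ⟨⟨s, hs⟩, h1, by rw [lam_apply (int_clF hG)]; exact h2⟩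

theorem mem_codeP {s : IPow M α} {z : M} :
    Mem z (code (M := M) s) ↔ ∃ a, a ∈ s ∧ code a = z := mem_code_pow

theorem mem_codeI {s : IPow M α} {a : α} : Mem (code (M := M) a) (code (M := M) s) ↔ a ∈ s :=
  mem_code_iff

theorem sub_code {s t : IPow M α} : Sub (code (M := M) s) (code (M := M) t) ↔ s ⊆ t := by
  constructor
  · intro h x hx
    exact mem_codeI.1 (h _ (mem_codeI.2 hx))
  · intro h z hz
    obtain ⟨x, hx, rfl⟩ := mem_codeP.1 hz
    exact mem_codeI.2 (h x hx)

theorem app_rel {p : IPow M (α × α)} {x y : M} :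
    App (code (M := M) p) x y ↔ ∃ s t, (s, t) ∈ p ∧ code s = x ∧ code t = y := by
  rw [app_iff]
  constructor
  · intro h
    obtain ⟨⟨s, t⟩, h1, h2⟩ := mem_codeP.1 h
    obtain ⟨h3, h4⟩ := op_inj (h2 : op (code s) (code t) = op x y)
    exact ⟨s, t, h1, h3, h4⟩
  · rintro ⟨s, t, h, rfl, rfl⟩
    exact mem_codeP.2 ⟨(s, t), h, rfl⟩

theorem app_rel' {p : IPow M (α × α)} {s t : α} :
    App (code (M := M) p) (code s) (code t) ↔ (s, t) ∈ p := by
  rw [app_rel]
  constructor
  · rintro ⟨s', t', h, h1, h2⟩
    rwa [ITy.inj h1, ITy.inj h2] at h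
  · intro h
    exact ⟨s, t, h, rfl, rfl⟩

theorem isBij_rel {p : IPow M (α × α)} (fp : Fn p) (ip : Ij p) {t : IPow M α}
    (hd : ∀ x, Dm p x ↔ x ∈ t) (hr : ∀ x, Rg p x ↔ x ∈ t) :
    IsBij (code (M := M) p) (code (M := M) t) (code (M := M) t) := by
  refine ⟨⟨⟨fun q hq => ?_, fun x hx => ?_⟩, fun x x' y h1 h2 => ?_⟩, fun y hy => ?_⟩
  · obtain ⟨⟨s, s'⟩, h1, rfl⟩ := mem_codeP.1 hq
    exact ⟨code s, code s', mem_codeI.2 ((hd s).1 ⟨_, h1⟩), mem_codeI.2 ((hr s').1 ⟨_, h1⟩),
      ordPair_iff.2 rfl⟩
  · obtain ⟨s, hs, rfl⟩ := mem_codeP.1 hx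
    obtain ⟨s', hs'⟩ := (hd s).2 hs
    refine ⟨code s', app_rel'.2 hs', fun y hy => ?_⟩
    obtain ⟨u, v, h1, h2, rfl⟩ := app_rel.1 hy
    obtain rfl := ITy.inj h2
    rw [fp _ _ _ h1 hs']
  · obtain ⟨s, t, h3, rfl, rfl⟩ := app_rel.1 h1
    obtain ⟨s', t', h4, rfl, h5⟩ := app_rel.1 h2
    obtain rfl := ITy.inj h5
    rw [ip _ _ _ h3 h4]
  · obtain ⟨s, hs, rfl⟩ := mem_codeP.1 hy
    obtain ⟨s', hs'⟩ := (hr s).2 hs
    exact ⟨code s', app_rel'.2 hs'⟩

include hG

/-- Permutations of a closed set that extend a finite map. -/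
theorem perm_ext {T : IPow M (El a)} (hT : IFin T) (cT : clo G T = T)
    {p₀ : IPow M (El a × El a)} (hp₀ : p₀ ∈ G) (hd : ∀ x, Dm p₀ x → x ∈ T)
    (hr : ∀ x, Rg p₀ x → x ∈ T) : ∃ p, p ∈ G ∧ p₀ ⊆ p ∧ (∀ x, Dm p x ↔ x ∈ T) ∧
      (∀ x, Rg p x ↔ x ∈ T) ∧ Pres (clM hG) (code (M := M) p) (code (M := M) T) := by
  obtain ⟨p, hp, h1, h2, h3⟩ := homog hG hT hT cT cT le_rfl hp₀ hd hr
  have h4 : ∀ x, Rg p x ↔ x ∈ T := by
    refine fun x => ⟨h3 x, fun hx => ?_⟩
    obtain ⟨y, -, hy⟩ := crd_surj (r := fun q : El a × El a => q ∈ p) (by (repeat' (first | with_reducible exact IntF.id | with_reducible exact IntF.fst' | with_reducible exact IntF.snd' | with_reducible exact IntF.const _ | with_reducible exact Int.const _ | assumption | with_reducible apply Int.dm | with_reducible apply Int.rg | with_reducible apply Int.fn | with_reducible apply Int.ij | with_reducible apply Int.mv | with_reducible apply Int.gn | with_reducible apply IntF.idr | with_reducible apply IntF.inv' | with_reducible apply IntF.cmp | with_reducible apply IntF.clo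 | with_reducible apply IntF.iprod | with_reducible apply IntF.crd | with_reducible apply Int.and | with_reducible apply Int.or | with_reducible apply Int.not | with_reducible apply Int.imp | with_reducible apply Int.iff | with_reducible apply Int.ne | with_reducible apply Int.eq | with_reducible apply Int.mem | with_reducible apply Int.subset | with_reducible apply Int.ltN | with_reducible apply Int.leN | with_reducible apply Int.fin | with_reducible apply Int.unique | with_reducible apply Int.all | with_reducible apply Int.ex | with_reducible apply IntF.fst | with_reducible apply IntF.snd | with_reducible apply IntF.app | with_reducible apply IntF.ite | with_reducible apply IntF.sep | with_reducible apply IntF.lam | with_reducible apply IntF.insert | with_reducible apply IntF.singleton | with_reducible apply IntF.union | with_reducible apply IntF.inter | with_reducible apply IntF.sdiff | with_reducible apply IntF.isUnion | with_reducible apply IntF.iimage | with_reducible apply IntF.the | with_reducible apply IntF.irec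 | with_reducible_and_instances apply IntF.add | with_reducible_and_instances apply IntF.mul | with_reducible apply IntF.succ | with_reducible apply IntF.val | with_reducible apply IntF.mk | (with_reducible refine Int.comp ?_ ?_; assumption) | (with_reducible refine Int.comp₂ ?_ ?_ ?_; assumption) | (with_reducible refine Int.comp₃ ?_ ?_ ?_ ?_; assumption) | (with_reducible refine IntF.comp ?_ ?_; assumption) | (with_reducible refine IntF.comp₂ ?_ ?_ ?_; assumption) | (with_reducible refine IntF.comp₃ ?_ ?_ ?_ ?_; assumption) | with_reducible apply IntF.pair))) hT hT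
      (fun x y z _ _ _ h5 h6 => hG.ij hp _ _ _ h5 h6) (fun y hy => by
        obtain ⟨z, hz⟩ := (h2 y).2 hy
        exact ⟨z, h3 z ⟨y, hz⟩, hz⟩) le_rfl x hx
    exact ⟨y, hy⟩
  refine ⟨p, hp, h1, h2, h4, ?_⟩
  intro d e c c' hdT hed hdc hec
  obtain ⟨d, hd', rfl, rfl⟩ := (app_clM hG).1 hdc
  obtain ⟨e, he', rfl, rfl⟩ := (app_clM hG).1 hec
  have hdT' := sub_code.1 hdT
  have hmp : Mp p d e := by
    constructor
    · intro x hx
      obtain ⟨y, hy⟩ := (h2 x).2 (hdT' x hx)
      exact ⟨y, mem_codeI.1 ((hed _).2 ⟨_, mem_codeI.2 hx, app_rel'.2 hy⟩), hy⟩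
    · intro y hy
      obtain ⟨x, hx, hxy⟩ := (hed _).1 (mem_codeI.2 hy)
      obtain ⟨x, hx', rfl⟩ := mem_codeP.1 hx
      exact ⟨x, hx', app_rel'.1 hxy⟩
  have heT : e ⊆ T := fun y hy => by
    obtain ⟨x, -, hx⟩ := hmp.2 y hy
    exact (h4 y).1 ⟨x, hx⟩
  intro y
  constructor
  · intro hy
    obtain ⟨y, hy', rfl⟩ := mem_codeP.1 hy
    obtain ⟨x, hx⟩ := (h4 y).2 (clo_sub hG hT cT heT y hy')
    exact ⟨code x, mem_codeI.2 ((clo_pres hG hp hmp hx).2 hy'), app_rel'.2 hx⟩
  · rintro ⟨x, hx, hxy⟩
    obtain ⟨x, hx', rfl⟩ := mem_codeP.1 hx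
    obtain ⟨x', y', h5, h6, rfl⟩ := app_rel.1 hxy
    obtain rfl := ITy.inj h6
    exact mem_codeI.2 ((clo_pres hG hp hmp h5).1 hx')

theorem closed_iff {t : M} : PGDefs.IsClo (clM hG) t ↔
    ∃ T : IPow M (El a), IFin T ∧ clo G T = T ∧ code T = t := by
  unfold PGDefs.IsClo
  rw [app_clM]
  constructor
  · rintro ⟨s, hs, h1, h2⟩
    exact ⟨s, hs, ITy.inj (h2.trans h1.symm), h1⟩
  · rintro ⟨s, hs, h1, h2⟩
    exact ⟨s, hs, h2, by rw [h1]; exact h2⟩

theorem pregeometry : IsPregeometry (clM hG) a where
  isFun := by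
    refine ⟨dom M (Fs M (El a)), fun s => ?_, isFun_code _ (fun z => mem_dom) fun s =>
      mem_dom.2 ⟨_, rfl⟩⟩
    refine (mem_dom (M := M) (α := Fs M (El a))).trans ⟨?_, ?_⟩
    · rintro ⟨s, rfl⟩
      refine ⟨fun z hz => ?_, isFinite_code.2 s.2⟩
      obtain ⟨x, -, rfl⟩ := mem_codeP.1 (hz : Mem z (code (M := M) s.1))
      exact x.2
    · rintro ⟨h1, h2⟩
      obtain ⟨s', rfl⟩ := exists_code_of_sub h1
      exact ⟨⟨s', isFinite_code.1 h2⟩, rfl⟩
  closure := by
    intro s c h
    obtain ⟨s, hs, rfl, rfl⟩ := (app_clM hG).1 h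
    refine ⟨sub_code.2 (sub_clo hG), (app_clM hG).2 ⟨_, fin_clo hG hs, rfl, ?_⟩⟩
    rw [clo_clo hG hs]
  mono := by
    intro s t c d h1 h2 h3
    obtain ⟨s, hs, rfl, rfl⟩ := (app_clM hG).1 h1
    obtain ⟨t, ht, rfl, rfl⟩ := (app_clM hG).1 h2
    exact sub_code.2 (clo_mono hG (sub_code.1 h3))
  exchange := by
    intro s c x y h1 hx hy hxc hyc sx sy cx cy hsx hsy hcx hcy
    obtain ⟨s, hs, rfl, rfl⟩ := (app_clM hG).1 h1
    obtain ⟨x, rfl⟩ := mem_El.1 hx
    obtain ⟨y, rfl⟩ := mem_El.1 hy
    obtain ⟨sx, -, rfl, rfl⟩ := (app_clM hG).1 hcx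
    obtain ⟨sy, -, rfl, rfl⟩ := (app_clM hG).1 hcy
    have key : ∀ (w : IPow M (El a)) (b : El a), IsAdj (code (M := M) w) (code (M := M) s)
        (code (M := M) b) → w = insert b s := by
      intro w b h
      refine IPow.ext' fun z => ?_
      rw [mem_insert]
      constructor
      · intro hz
        rcases (h _).1 (mem_codeI.2 hz) with h2 | h2
        · exact Or.inr (mem_codeI.1 h2)
        · exact Or.inl (ITy.inj h2)
      · rintro (rfl | hz)
        · exact mem_codeI.1 ((h _).2 (Or.inr rfl))
        · exact mem_codeI.1 ((h _).2 (Or.inl (mem_codeI.2 hz)))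
    rw [key _ _ hsx, key _ _ hsy]
    constructor
    · intro h
      exact mem_codeI.2 (exch hG hs (mem_codeI.1 h) fun h2 => hxc (mem_codeI.2 h2))
    · intro h
      exact mem_codeI.2 (exch hG hs (mem_codeI.1 h) fun h2 => hyc (mem_codeI.2 h2))
  homogeneous := by
    intro s t x y hs ht hst hx hy hxs hys
    obtain ⟨s, fs, cs, rfl⟩ := (closed_iff hG).1 hs
    obtain ⟨t, ft, ct, rfl⟩ := (closed_iff hG).1 ht
    obtain ⟨x, hx1, rfl⟩ := mem_codeP.1 hx
    obtain ⟨y, hy1, rfl⟩ := mem_codeP.1 hy
    have hst' := sub_code.1 hst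
    have hxs' : ¬ x ∈ s := fun h => hxs (mem_codeI.2 h)
    have hys' : ¬ y ∈ s := fun h => hys (mem_codeI.2 h)
    have h1 : insert (x, y) (idr s) ∈ G := Gn.rel hG ((gn_iff hG cs).2 hxs')
      ((gn_iff hG cs).2 hys')
    have h2 : ∀ z w, (z, w) ∈ (insert (x, y) (idr s) : IPow M (El a × El a)) → z ∈ t ∧ w ∈ t := by
      intro z w hzw
      rcases mem_insert.1 hzw with h | h
      · rw [Prod.mk.injEq] at h
        rw [h.1, h.2]
        exact ⟨hx1, hy1⟩
      · obtain ⟨rfl, h3⟩ := mem_idr.1 h
        exact ⟨hst' _ h3, hst' _ h3⟩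
    obtain ⟨p, hp, h3, h4, h5, h6⟩ := perm_ext hG ft ct h1 (fun z ⟨w, hw⟩ => (h2 z w hw).1)
      fun w ⟨z, hz⟩ => (h2 z w hz).2
    refine ⟨code p, isBij_rel (hG.fn hp) (hG.ij hp) h4 h5, app_rel'.2 (h3 _ (mem_insert.2
      (Or.inl rfl))), fun z hz => ?_, h6, fun u hu htu => ?_⟩
    · obtain ⟨z, hz1, rfl⟩ := mem_codeP.1 hz
      exact app_rel'.2 (h3 _ (mem_insert.2 (Or.inr (mem_idr.2 ⟨rfl, hz1⟩))))
    · obtain ⟨u, fu, cu, rfl⟩ := (closed_iff hG).1 hu
      have htu' := sub_code.1 htu
      obtain ⟨q, hq, h7, h8, h9, h10⟩ := perm_ext hG fu cu hp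
        (fun z hz => htu' _ ((h4 z).1 hz)) fun z hz => htu' _ ((h5 z).1 hz)
      refine ⟨code q, isBij_rel (hG.fn hq) (hG.ij hq) h8 h9, fun z w hzw => ?_, h10⟩
      obtain ⟨z, w, h11, rfl, rfl⟩ := app_rel.1 hzw
      exact app_rel'.2 (h7 _ h11)

theorem not_degenerate (hDg : ¬ Deg G) : ¬ IsDegenerate (clM hG) := by
  intro h
  refine hDg fun S hS ⟨z, hz⟩ c hc => ?_
  have h1 := (h (code (M := M) S) (code (M := M) (clo G S)) ((app_clM hG).2 ⟨S, hS, rfl, rfl⟩)
    ⟨code z, mem_codeI.2 hz⟩ (code c)).1 (mem_codeI.2 hc)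
  obtain ⟨y, sy, cy, h2, h3, h4, h5⟩ := h1
  obtain ⟨y, hy, rfl⟩ := mem_codeP.1 h2
  obtain ⟨s, hs, rfl, rfl⟩ := (app_clM hG).1 h4
  have h6 : s = {y} := IPow.ext' fun x => by
    rw [mem_singleton]
    constructor
    · intro hx
      exact ITy.inj ((h3 _).1 (mem_codeI.2 hx))
    · rintro rfl
      exact mem_codeI.1 ((h3 _).2 rfl)
  rw [h6] at h5
  exact ⟨y, hy, mem_codeI.1 h5⟩

end

theorem amo_of' {a : M} (h : IsAmorphous a) : Amo M (El a) where
  inf := not_finP (a := a) (fun z => mem_El) h.1
  split p hp := by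
    have hp' : Int M (fun x => ¬ p x) := Helper672.ZFA.Int.not hp
    by_cases hb : IsFinite (code (M := M) (sep M p))
    · left
      refine finP_of_finite hp (t := code (M := M) (sep M p)) (fun z => ?_) hb
      rw [mem_codeP]
      exact exists_congr fun x => and_congr_left fun _ => mem_sep hp
    · right
      refine finP_of_finite hp' (t := code (M := M) (sep M fun x => ¬ p x)) (fun z => ?_)
        (h.2 _ (fun z hz => ?_) hb _ fun z => ?_)
      · rw [mem_codeP]
        exact exists_congr fun x => and_congr_left fun _ => mem_sep hp'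
      · obtain ⟨x, -, rfl⟩ := mem_codeP.1 hz
        exact x.2
      · refine mem_codeP.trans ?_
        constructor
        · rintro ⟨x, hx, rfl⟩
          exact ⟨x.2, fun h1 => (mem_sep hp').1 hx ((mem_sep hp).1 (mem_code_iff.1 h1))⟩
        · rintro ⟨h1, h2⟩
          exact ⟨⟨z, h1⟩, (mem_sep hp').2 fun h3 => h2 (mem_codeP.2 ⟨⟨z, h1⟩, (mem_sep hp).2 h3,
            rfl⟩), rfl⟩

/-- The main theorem for the first problem. -/
theorem projective_of_ddi {a p : M} (ha : IsAmorphous a) (hp : IsPow p a) (h : ¬ IsDDF p) :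
    IsProjectiveType a := by
  have hA := amo_of' ha
  obtain ⟨φ, h1, h2, h3⟩ := (ddi_iff (α := IPow M (El a)) fun z => mem_powEl hp).1 h
  have hf : IntF M (fun x : IPow M (El a) × IPow M (El a) => (φ x.1, x.2)) := by (repeat' (first | with_reducible exact IntF.id | with_reducible exact IntF.fst' | with_reducible exact IntF.snd' | with_reducible exact IntF.const _ | with_reducible exact Int.const _ | assumption | with_reducible apply Int.dm | with_reducible apply Int.rg | with_reducible apply Int.fn | with_reducible apply Int.ij | with_reducible apply Int.mv | with_reducible apply Int.gn | with_reducible apply IntF.idr | with_reducible apply IntF.inv' | with_reducible apply IntF.cmp | with_reducible apply IntF.clo | with_reducible apply IntF.iprod | with_reducible apply IntF.crd | with_reducible apply Int.and | with_reducible apply Int.or | with_reducible apply Int.not | with_reducible apply Int.imp | with_reducible apply Int.iff | with_reducible apply Int.ne | with_reducible apply Int.eq | with_reducible apply Int.mem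 | with_reducible apply Int.subset | with_reducible apply Int.ltN | with_reducible apply Int.leN | with_reducible apply Int.fin | with_reducible apply Int.unique | with_reducible apply Int.all | with_reducible apply Int.ex | with_reducible apply IntF.fst | with_reducible apply IntF.snd | with_reducible apply IntF.app | with_reducible apply IntF.ite | with_reducible apply IntF.sep | with_reducible apply IntF.lam | with_reducible apply IntF.insert | with_reducible apply IntF.singleton | with_reducible apply IntF.union | with_reducible apply IntF.inter | with_reducible apply IntF.sdiff | with_reducible apply IntF.isUnion | with_reducible apply IntF.iimage | with_reducible apply IntF.the | with_reducible apply IntF.irec | with_reducible_and_instances apply IntF.add | with_reducible_and_instances apply IntF.mul | with_reducible apply IntF.succ | with_reducible apply IntF.val | with_reducible apply IntF.mk | (with_reducible refine Int.comp ?_ ?_; assumption) | (with_reducible refine Int.comp₂ ?_ ?_ ?_; assumption) | (with_reducible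 refine Int.comp₃ ?_ ?_ ?_ ?_; assumption) | (with_reducible refine IntF.comp ?_ ?_; assumption) | (with_reducible refine IntF.comp₂ ?_ ?_ ?_; assumption) | (with_reducible refine IntF.comp₃ ?_ ?_ ?_ ?_; assumption) | with_reducible apply IntF.pair))
  have hs : Function.Surjective (fun x : IPow M (El a) × IPow M (El a) => (φ x.1, x.2)) := by
    rintro ⟨s, t⟩
    obtain ⟨s', rfl⟩ := h2 s
    exact ⟨(s', t), rfl⟩
  have hn : ¬ Function.Injective
      (fun x : IPow M (El a) × IPow M (El a) => (φ x.1, x.2)) := by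
    intro hinj
    refine h3 fun s t hst => ?_
    have := @hinj (s, ∅) (t, ∅) (by dsimp only; rw [hst])
    exact (Prod.mk.injEq _ _ _ _ ▸ this : s = t ∧ _).1
  have hDg := not_deg hA hf hs hn
  have hG := gpd_GG hA hf
  exact ⟨ha, clM hG, pregeometry hG, not_degenerate hG hDg⟩

end

end Pool.Agent.Q207.PG
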