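import Pool.Agent.Q207.PG.Br

/-!
# Powers of the power set
-/

set_option maxHeartbeats 1000000
set_option linter.all false

namespace Pool.Agent.Q207.PG

open FirstOrder FirstOrder.Language
open Pool.Agent.Helper672.ZFA
open Pool.Agent.H310
open Pool.Agent.H310Cards
open Pool.Agent.H310NAS (IsAmorphous)
open Pool.Agent.Q212.ZA
open Pool.Agent.Q207.PGDefs

universe u u₁ u₂ u₃ u₄

section

variable {M : Type u} [L.Structure M] [hM : IsModel M]
variable {α : Type u₁} {σ : Type u₂} [ITy M α] [ITy M σ]

/-- From a surjection of the square to a surjection of the power set. -/
theorem ddi_of_sq (hA : Amo M σ) (h : DDI M (IPow M σ × IPow M σ)) : DDI M (IPow M σ) := by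
  obtain ⟨f, hf, hs, hn⟩ := h
  have hDg := not_deg hA hf hs hn
  have hG := gpd_GG hA hf
  exact ⟨rmv (GG f), int_rmv _, rmv_surj hG hDg, rmv_not_inj hG⟩

instance instLtFact (k : INat M) : Fact (Int M (fun m : INat M => m < k)) := ⟨by (repeat' (first | with_reducible exact IntF.id | with_reducible exact IntF.fst' | with_reducible exact IntF.snd' | with_reducible exact IntF.const _ | with_reducible exact Int.const _ | assumption | with_reducible apply Int.dm | with_reducible apply Int.rg | with_reducible apply Int.fn | with_reducible apply Int.ij | with_reducible apply Int.mv | with_reducible apply Int.gn | with_reducible apply IntF.idr | with_reducible apply IntF.inv' | with_reducible apply IntF.cmp | with_reducible apply IntF.clo | with_reducible apply IntF.iprod | with_reducible apply IntF.crd | with_reducible apply Int.and | with_reducible apply Int.or | with_reducible apply Int.not | with_reducible apply Int.imp | with_reducible apply Int.iff | with_reducible apply Int.ne | with_reducible apply Int.eq | with_reducible apply Int.mem | with_reducible apply Int.subset | with_reducible apply Int.ltN | with_reducible apply Int.leN | with_reducible apply Int.fin | with_reducible apply Int.unique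 | with_reducible apply Int.all | with_reducible apply Int.ex | with_reducible apply IntF.fst | with_reducible apply IntF.snd | with_reducible apply IntF.app | with_reducible apply IntF.ite | with_reducible apply IntF.sep | with_reducible apply IntF.lam | with_reducible apply IntF.insert | with_reducible apply IntF.singleton | with_reducible apply IntF.union | with_reducible apply IntF.inter | with_reducible apply IntF.sdiff | with_reducible apply IntF.isUnion | with_reducible apply IntF.iimage | with_reducible apply IntF.the | with_reducible apply IntF.irec | with_reducible_and_instances apply IntF.add | with_reducible_and_instances apply IntF.mul | with_reducible apply IntF.succ | with_reducible apply IntF.val | with_reducible apply IntF.mk | (with_reducible refine Int.comp ?_ ?_; assumption) | (with_reducible refine Int.comp₂ ?_ ?_ ?_; assumption) | (with_reducible refine Int.comp₃ ?_ ?_ ?_ ?_; assumption) | (with_reducible refine IntF.comp ?_ ?_; assumption) | (with_reducible refine IntF.comp₂ ?_ ?_ ?_; assumption) | (with_reducible refine IntF.comp₃ ?_ ?_ ?_ ?_; assumption) | with_reducible apply IntF.pair))⟩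

variable (M) in
/-- The type of natural numbers below `k`. -/
abbrev Nn (k : INat M) : Type _ := {m : INat M // m < k}

theorem ddi_pair (h : DDI M (IFun M (Nn M (INat.succ (INat.succ 0))) α)) : DDI M (α × α) := by
  classical
  let z0 : Nn M (INat.succ (INat.succ 0)) := ⟨0, (INat.lt_succ_self 0).trans
    (INat.lt_succ_self _)⟩
  let z1 : Nn M (INat.succ (INat.succ 0)) := ⟨INat.succ 0, INat.lt_succ_self _⟩
  have hz : z1 ≠ z0 := fun h => INat.succ_ne_zero (0 : INat M) (congrArg Subtype.val h)
  have hi : IntF M (fun q : (α × α) × Nn M (INat.succ (INat.succ 0)) =>
      if q.2 = z0 then q.1.1 else q.1.2) := by (repeat' (first | with_reducible exact IntF.id | with_reducible exact IntF.fst' | with_reducible exact IntF.snd' | with_reducible exact IntF.const _ | with_reducible exact Int.const _ | assumption | with_reducible apply Int.dm | with_reducible apply Int.rg | with_reducible apply Int.fn | with_reducible apply Int.ij | with_reducible apply Int.mv | with_reducible apply Int.gn | with_reducible apply IntF.idr | with_reducible apply IntF.inv' | with_reducible apply IntF.cmp | with_reducible apply IntF.clo | with_reducible apply IntF.iprod | with_reducible apply IntF.crd | with_reducible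 apply Int.and | with_reducible apply Int.or | with_reducible apply Int.not | with_reducible apply Int.imp | with_reducible apply Int.iff | with_reducible apply Int.ne | with_reducible apply Int.eq | with_reducible apply Int.mem | with_reducible apply Int.subset | with_reducible apply Int.ltN | with_reducible apply Int.leN | with_reducible apply Int.fin | with_reducible apply Int.unique | with_reducible apply Int.all | with_reducible apply Int.ex | with_reducible apply IntF.fst | with_reducible apply IntF.snd | with_reducible apply IntF.app | with_reducible apply IntF.ite | with_reducible apply IntF.sep | with_reducible apply IntF.lam | with_reducible apply IntF.insert | with_reducible apply IntF.singleton | with_reducible apply IntF.union | with_reducible apply IntF.inter | with_reducible apply IntF.sdiff | with_reducible apply IntF.isUnion | with_reducible apply IntF.iimage | with_reducible apply IntF.the | with_reducible apply IntF.irec | with_reducible_and_instances apply IntF.add | with_reducible_and_instances apply IntF.mul | with_reducible apply IntF.succ | with_reducible apply IntF.val | with_reducible apply IntF.mk | (with_reducible refine Int.comp ?_ ?_; assumption) | (with_reducible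 refine Int.comp₂ ?_ ?_ ?_; assumption) | (with_reducible refine Int.comp₃ ?_ ?_ ?_ ?_; assumption) | (with_reducible refine IntF.comp ?_ ?_; assumption) | (with_reducible refine IntF.comp₂ ?_ ?_ ?_; assumption) | (with_reducible refine IntF.comp₃ ?_ ?_ ?_ ?_; assumption) | with_reducible apply IntF.pair))
  have hi' : ∀ q : α × α, IntF M (fun m : Nn M (INat.succ (INat.succ 0)) =>
      if m = z0 then q.1 else q.2) := by
    intro q
    (repeat' (first | with_reducible exact IntF.id | with_reducible exact IntF.fst' | with_reducible exact IntF.snd' | with_reducible exact IntF.const _ | with_reducible exact Int.const _ | assumption | with_reducible apply Int.dm | with_reducible apply Int.rg | with_reducible apply Int.fn | with_reducible apply Int.ij | with_reducible apply Int.mv | with_reducible apply Int.gn | with_reducible apply IntF.idr | with_reducible apply IntF.inv' | with_reducible apply IntF.cmp | with_reducible apply IntF.clo | with_reducible apply IntF.iprod | with_reducible apply IntF.crd | with_reducible apply Int.and | with_reducible apply Int.or | with_reducible apply Int.not | with_reducible apply Int.imp | with_reducible apply Int.iff | with_reducible apply Int.ne | with_reducible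 apply Int.eq | with_reducible apply Int.mem | with_reducible apply Int.subset | with_reducible apply Int.ltN | with_reducible apply Int.leN | with_reducible apply Int.fin | with_reducible apply Int.unique | with_reducible apply Int.all | with_reducible apply Int.ex | with_reducible apply IntF.fst | with_reducible apply IntF.snd | with_reducible apply IntF.app | with_reducible apply IntF.ite | with_reducible apply IntF.sep | with_reducible apply IntF.lam | with_reducible apply IntF.insert | with_reducible apply IntF.singleton | with_reducible apply IntF.union | with_reducible apply IntF.inter | with_reducible apply IntF.sdiff | with_reducible apply IntF.isUnion | with_reducible apply IntF.iimage | with_reducible apply IntF.the | with_reducible apply IntF.irec | with_reducible_and_instances apply IntF.add | with_reducible_and_instances apply IntF.mul | with_reducible apply IntF.succ | with_reducible apply IntF.val | with_reducible apply IntF.mk | (with_reducible refine Int.comp ?_ ?_; assumption) | (with_reducible refine Int.comp₂ ?_ ?_ ?_; assumption) | (with_reducible refine Int.comp₃ ?_ ?_ ?_ ?_; assumption) | (with_reducible refine IntF.comp ?_ ?_; assumption) | (with_reducible refine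 IntF.comp₂ ?_ ?_ ?_; assumption) | (with_reducible refine IntF.comp₃ ?_ ?_ ?_ ?_; assumption) | with_reducible apply IntF.pair))
  refine h.transport (e := fun g => (g z0, g z1))
    (e' := fun q => lam M fun m => if m = z0 then q.1 else q.2) (by (repeat' (first | with_reducible exact IntF.id | with_reducible exact IntF.fst' | with_reducible exact IntF.snd' | with_reducible exact IntF.const _ | with_reducible exact Int.const _ | assumption | with_reducible apply Int.dm | with_reducible apply Int.rg | with_reducible apply Int.fn | with_reducible apply Int.ij | with_reducible apply Int.mv | with_reducible apply Int.gn | with_reducible apply IntF.idr | with_reducible apply IntF.inv' | with_reducible apply IntF.cmp | with_reducible apply IntF.clo | with_reducible apply IntF.iprod | with_reducible apply IntF.crd | with_reducible apply Int.and | with_reducible apply Int.or | with_reducible apply Int.not | with_reducible apply Int.imp | with_reducible apply Int.iff | with_reducible apply Int.ne | with_reducible apply Int.eq | with_reducible apply Int.mem | with_reducible apply Int.subset | with_reducible apply Int.ltN | with_reducible apply Int.leN | with_reducible apply Int.fin | with_reducible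 apply Int.unique | with_reducible apply Int.all | with_reducible apply Int.ex | with_reducible apply IntF.fst | with_reducible apply IntF.snd | with_reducible apply IntF.app | with_reducible apply IntF.ite | with_reducible apply IntF.sep | with_reducible apply IntF.lam | with_reducible apply IntF.insert | with_reducible apply IntF.singleton | with_reducible apply IntF.union | with_reducible apply IntF.inter | with_reducible apply IntF.sdiff | with_reducible apply IntF.isUnion | with_reducible apply IntF.iimage | with_reducible apply IntF.the | with_reducible apply IntF.irec | with_reducible_and_instances apply IntF.add | with_reducible_and_instances apply IntF.mul | with_reducible apply IntF.succ | with_reducible apply IntF.val | with_reducible apply IntF.mk | (with_reducible refine Int.comp ?_ ?_; assumption) | (with_reducible refine Int.comp₂ ?_ ?_ ?_; assumption) | (with_reducible refine Int.comp₃ ?_ ?_ ?_ ?_; assumption) | (with_reducible refine IntF.comp ?_ ?_; assumption) | (with_reducible refine IntF.comp₂ ?_ ?_ ?_; assumption) | (with_reducible refine IntF.comp₃ ?_ ?_ ?_ ?_; assumption) | with_reducible apply IntF.pair))) (IntF.lam hi)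
    (fun g => ?_) fun q => ?_
  · refine IFun.ext' fun m => ?_
    rw [lam_apply (hi' _)]
    by_cases hm : m = z0
    · rw [if_pos hm, hm]
    · rw [if_neg hm]
      have h1 : m = z1 := by
        refine Subtype.ext ?_
        rcases INat.le_iff'.1 (INat.lt_succ_iff.1 m.2) with h2 | h2
        · exfalso
          refine hm (Subtype.ext ?_)
          exact le_antisymm (INat.lt_succ_iff.1 h2) (INat.zero_le _)
        · exact h2
      rw [h1]
  · have e1 : (lam M fun m => if m = z0 then q.1 else q.2) z0 = q.1 := by
      rw [lam_apply (hi' q), if_pos rfl]
    have e2 : (lam M fun m => if m = z0 then q.1 else q.2) z1 = q.2 := by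
      rw [lam_apply (hi' q), if_neg hz]
    exact Prod.ext e1 e2

theorem ddi_one (h : DDI M α) : DDI M (IFun M (Nn M (INat.succ 0)) α) := by
  let z0 : Nn M (INat.succ 0) := ⟨0, INat.lt_succ_self 0⟩
  refine h.transport (e := fun s => lam M fun _ => s) (e' := fun g => g z0) (by (repeat' (first | with_reducible exact IntF.id | with_reducible exact IntF.fst' | with_reducible exact IntF.snd' | with_reducible exact IntF.const _ | with_reducible exact Int.const _ | assumption | with_reducible apply Int.dm | with_reducible apply Int.rg | with_reducible apply Int.fn | with_reducible apply Int.ij | with_reducible apply Int.mv | with_reducible apply Int.gn | with_reducible apply IntF.idr | with_reducible apply IntF.inv' | with_reducible apply IntF.cmp | with_reducible apply IntF.clo | with_reducible apply IntF.iprod | with_reducible apply IntF.crd | with_reducible apply Int.and | with_reducible apply Int.or | with_reducible apply Int.not | with_reducible apply Int.imp | with_reducible apply Int.iff | with_reducible apply Int.ne | with_reducible apply Int.eq | with_reducible apply Int.mem | with_reducible apply Int.subset | with_reducible apply Int.ltN | with_reducible apply Int.leN | with_reducible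 apply Int.fin | with_reducible apply Int.unique | with_reducible apply Int.all | with_reducible apply Int.ex | with_reducible apply IntF.fst | with_reducible apply IntF.snd | with_reducible apply IntF.app | with_reducible apply IntF.ite | with_reducible apply IntF.sep | with_reducible apply IntF.lam | with_reducible apply IntF.insert | with_reducible apply IntF.singleton | with_reducible apply IntF.union | with_reducible apply IntF.inter | with_reducible apply IntF.sdiff | with_reducible apply IntF.isUnion | with_reducible apply IntF.iimage | with_reducible apply IntF.the | with_reducible apply IntF.irec | with_reducible_and_instances apply IntF.add | with_reducible_and_instances apply IntF.mul | with_reducible apply IntF.succ | with_reducible apply IntF.val | with_reducible apply IntF.mk | (with_reducible refine Int.comp ?_ ?_; assumption) | (with_reducible refine Int.comp₂ ?_ ?_ ?_; assumption) | (with_reducible refine Int.comp₃ ?_ ?_ ?_ ?_; assumption) | (with_reducible refine IntF.comp ?_ ?_; assumption) | (with_reducible refine IntF.comp₂ ?_ ?_ ?_; assumption) | (with_reducible refine IntF.comp₃ ?_ ?_ ?_ ?_; assumption) | with_reducible apply IntF.pair))) (by (repeat' (first | with_reducible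 exact IntF.id | with_reducible exact IntF.fst' | with_reducible exact IntF.snd' | with_reducible exact IntF.const _ | with_reducible exact Int.const _ | assumption | with_reducible apply Int.dm | with_reducible apply Int.rg | with_reducible apply Int.fn | with_reducible apply Int.ij | with_reducible apply Int.mv | with_reducible apply Int.gn | with_reducible apply IntF.idr | with_reducible apply IntF.inv' | with_reducible apply IntF.cmp | with_reducible apply IntF.clo | with_reducible apply IntF.iprod | with_reducible apply IntF.crd | with_reducible apply Int.and | with_reducible apply Int.or | with_reducible apply Int.not | with_reducible apply Int.imp | with_reducible apply Int.iff | with_reducible apply Int.ne | with_reducible apply Int.eq | with_reducible apply Int.mem | with_reducible apply Int.subset | with_reducible apply Int.ltN | with_reducible apply Int.leN | with_reducible apply Int.fin | with_reducible apply Int.unique | with_reducible apply Int.all | with_reducible apply Int.ex | with_reducible apply IntF.fst | with_reducible apply IntF.snd | with_reducible apply IntF.app | with_reducible apply IntF.ite | with_reducible apply IntF.sep | with_reducible apply IntF.lam | with_reducible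 apply IntF.insert | with_reducible apply IntF.singleton | with_reducible apply IntF.union | with_reducible apply IntF.inter | with_reducible apply IntF.sdiff | with_reducible apply IntF.isUnion | with_reducible apply IntF.iimage | with_reducible apply IntF.the | with_reducible apply IntF.irec | with_reducible_and_instances apply IntF.add | with_reducible_and_instances apply IntF.mul | with_reducible apply IntF.succ | with_reducible apply IntF.val | with_reducible apply IntF.mk | (with_reducible refine Int.comp ?_ ?_; assumption) | (with_reducible refine Int.comp₂ ?_ ?_ ?_; assumption) | (with_reducible refine Int.comp₃ ?_ ?_ ?_ ?_; assumption) | (with_reducible refine IntF.comp ?_ ?_; assumption) | (with_reducible refine IntF.comp₂ ?_ ?_ ?_; assumption) | (with_reducible refine IntF.comp₃ ?_ ?_ ?_ ?_; assumption) | with_reducible apply IntF.pair)))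
    (fun s => ?_) fun g => ?_
  · exact lam_apply (IntF.const _) _
  · refine IFun.ext' fun m => ?_
    rw [lam_apply (IntF.const _)]
    have h1 : m = z0 := Subtype.ext (le_antisymm (INat.lt_succ_iff.1 m.2) (INat.zero_le _))
    rw [h1]

end

section

attribute [local instance] Helper672.Plain.toL

variable {M : Type u} [Helper672.Plain.LSet.Structure M] [hZ : Helper672.Plain.Zermelo M]
variable {α : Type u₁} {β : Type u₂}

local instance instModelPG2 : IsModel M := Helper672.Plain.isModel_toL

variable [ITy M α] [ITy M β]

theorem isFun_iff {s t z : M} (hs : ∀ z, Mem z s ↔ ∃ x : α, code x = z)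
    (ht : ∀ z, Mem z t ↔ ∃ x : β, code x = z) :
    IsFun z s t ↔ ∃ g : IFun M α β, code g = z := by
  refine ⟨fun h => ?_, ?_⟩
  · obtain ⟨φ, h1, h2⟩ := exists_fun (α := α) (β := β) h (fun x => (hs _).2 ⟨x, rfl⟩)
      fun z hz => (ht z).1 hz
    refine ⟨⟨φ, h1⟩, extM fun q => ?_⟩
    refine (mem_code_fun (f := (⟨φ, h1⟩ : IFun M α β))).trans ⟨?_, fun hq => ?_⟩
    · rintro ⟨a, rfl⟩
      exact app_iff.1 ((h2 a (φ a)).1 rfl)
    · obtain ⟨x, y, hx, hy, hxy⟩ := h.1 q hq
      obtain ⟨a, rfl⟩ := (hs x).1 hx
      obtain ⟨b, rfl⟩ := (ht y).1 hy
      have h3 := (h2 a b).2 ⟨q, hxy, hq⟩
      refine ⟨a, ?_⟩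
      rw [ordPair_iff] at hxy
      rw [hxy]
      exact congrArg (fun b : β => op (code (M := M) a) (code b)) h3.symm
  · rintro ⟨g, rfl⟩
    exact isFun_code g hs fun a => (ht _).2 ⟨_, rfl⟩

theorem mem_Nn {k : INat M} {z : M} : Mem z k.val ↔ ∃ x : Nn M k, code x = z := by
  constructor
  · intro h
    obtain ⟨m, hm, rfl⟩ := mem_nat h
    exact ⟨⟨m, hm⟩, rfl⟩
  · rintro ⟨x, rfl⟩
    exact x.2

/-- The set of all functions. -/
theorem exists_funSet {k : INat M} {p : M} (hp : ∀ z, Mem z p ↔ ∃ x : β, code x = z) :
    ∃ X : M, IsFunSet X k.val p ∧ ∀ z, Mem z X ↔ ∃ g : IFun M (Nn M k) β, code g = z :=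
  ⟨dom M (IFun M (Nn M k) β), fun f => (mem_dom (M := M) (α := IFun M (Nn M k) β)).trans
    (isFun_iff (fun z => mem_Nn) hp).symm, fun z => mem_dom⟩

/-- The main theorem for the second problem. -/
theorem family {w A : M} (hw : IsOmega w) (hA : ∀ n, Mem n w → ∃! x, App A n x)
    (hAm : ∀ n x, Mem n w → App A n x → IsAmorphous x) :
    ∃ n m a p X Y, Mem n w ∧ IsAdj m n n ∧ App A n a ∧ IsPow p a ∧ IsFunSet X n p ∧
      IsFunSet Y m p ∧ (¬ IsDDF X ∨ IsDDF Y) := by
  have hn : Mem (INat.succ (0 : INat M)).val w := (mem_omega hw).2 ⟨_, rfl⟩
  obtain ⟨a, ha, -⟩ := hA _ hn
  have ham := hAm _ _ hn ha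
  obtain ⟨p, hp⟩ := hZ.power a
  have hp' : IsPow p a := hp
  obtain ⟨X, hX, hX'⟩ := exists_funSet (k := INat.succ (0 : INat M)) (β := IPow M (El a))
    fun z => mem_powEl hp'
  obtain ⟨Y, hY, hY'⟩ := exists_funSet (k := INat.succ (INat.succ (0 : INat M)))
    (β := IPow M (El a)) fun z => mem_powEl hp'
  refine ⟨_, (INat.succ (INat.succ (0 : INat M))).val, a, p, X, Y, hn,
    fun z => INat.mem_succ (n := INat.succ (0 : INat M)) (z := z), ha, hp', hX, hY, ?_⟩
  by_cases h : IsDDF Y
  · exact Or.inr h
  · left
    rw [ddi_iff (α := IFun M (Nn M (INat.succ (0 : INat M))) (IPow M (El a))) hX']
    refine ddi_one (ddi_of_sq (amo_of' ham) (ddi_pair ?_))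
    exact (ddi_iff hY').1 h

end

end Pool.Agent.Q207.PG
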