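import Pool.Agent.Q207.PG.Ty

/-!
# The closure operator of a groupoid of finite maps
-/

set_option maxHeartbeats 1000000
set_option linter.all false

namespace Pool.Agent.Q207.PG

open FirstOrder FirstOrder.Language
open Pool.Agent.Helper672.ZFA
open Pool.Agent.H310
open Pool.Agent.Q212.ZA

universe u u₁ u₂ u₃ u₄

variable {M : Type u} [L.Structure M] [hM : IsModel M]
variable {σ : Type u₁} {β : Type u₂} {γ : Type u₃} [ITy M σ] [ITy M β] [ITy M γ]

/-- Groupoids of finite injections between finite sets with the extension property, such that over each finite
set there is a cofinite class. -/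
structure Gpd (G : IPow M (IPow M (σ × σ))) : Prop where
  amo : Amo M σ
  fin : ∀ {p}, p ∈ G → IFin p
  fn : ∀ {p}, p ∈ G → Fn p
  ij : ∀ {p}, p ∈ G → Ij p
  sub : ∀ {p q}, p ∈ G → q ⊆ p → q ∈ G
  idr : ∀ {D : IPow M σ}, IFin D → idr D ∈ G
  inv : ∀ {p}, p ∈ G → inv' p ∈ G
  cmp : ∀ {p q}, p ∈ G → q ∈ G → cmp q p ∈ G
  ext : ∀ {p}, p ∈ G → ∀ a, ∃ b, insert (a, b) p ∈ G
  gen : ∀ {D : IPow M σ}, IFin D → ∃ a, FinP M (fun b => ¬ insert (a, b) (PG.idr D) ∈ G)

/-- `a` is generic over `D`. -/
def Gn (G : IPow M (IPow M (σ × σ))) (D : IPow M σ) (a : σ) : Prop :=
  FinP M (fun b => ¬ insert (a, b) (idr D) ∈ G)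

theorem Int.gn {G : IPow M (IPow M (σ × σ))} {g : γ → IPow M σ} {h : γ → σ} (hg : IntF M g)
    (hh : IntF M h) : Int M (fun c => Gn G (g c) (h c)) := by
  unfold Gn FinP
  (repeat' (first | with_reducible exact IntF.id | with_reducible exact IntF.fst' | with_reducible exact IntF.snd' | with_reducible exact IntF.const _ | with_reducible exact Int.const _ | assumption | with_reducible apply Int.dm | with_reducible apply Int.rg | with_reducible apply Int.fn | with_reducible apply Int.ij | with_reducible apply Int.mv | with_reducible apply Int.gn | with_reducible apply IntF.idr | with_reducible apply IntF.inv' | with_reducible apply IntF.cmp | with_reducible apply IntF.clo | with_reducible apply Int.and | with_reducible apply Int.or | with_reducible apply Int.not | with_reducible apply Int.imp | with_reducible apply Int.iff | with_reducible apply Int.ne | with_reducible apply Int.eq | with_reducible apply Int.mem | with_reducible apply Int.subset | with_reducible apply Int.ltN | with_reducible apply Int.leN | with_reducible apply Int.fin | with_reducible apply Int.unique | with_reducible apply Int.all | with_reducible apply Int.ex | with_reducible apply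 IntF.fst | with_reducible apply IntF.snd | with_reducible apply IntF.app | with_reducible apply IntF.ite | with_reducible apply IntF.sep | with_reducible apply IntF.lam | with_reducible apply IntF.insert | with_reducible apply IntF.singleton | with_reducible apply IntF.union | with_reducible apply IntF.inter | with_reducible apply IntF.sdiff | with_reducible apply IntF.isUnion | with_reducible apply IntF.iimage | with_reducible apply IntF.the | with_reducible apply IntF.irec | with_reducible_and_instances apply IntF.add | with_reducible_and_instances apply IntF.mul | with_reducible apply IntF.succ | with_reducible apply IntF.val | with_reducible apply IntF.mk | (with_reducible refine Int.comp ?_ ?_; assumption) | (with_reducible refine Int.comp₂ ?_ ?_ ?_; assumption) | (with_reducible refine Int.comp₃ ?_ ?_ ?_ ?_; assumption) | (with_reducible refine IntF.comp ?_ ?_; assumption) | (with_reducible refine IntF.comp₂ ?_ ?_ ?_; assumption) | (with_reducible refine IntF.comp₃ ?_ ?_ ?_ ?_; assumption) | with_reducible apply IntF.pair))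

/-- The closure. -/
noncomputable def clo (G : IPow M (IPow M (σ × σ))) (D : IPow M σ) : IPow M σ :=
  sep M fun a => ¬ Gn G D a

theorem mem_clo {G : IPow M (IPow M (σ × σ))} {D : IPow M σ} {a : σ} :
    a ∈ clo G D ↔ ¬ Gn G D a := by
  unfold clo
  rw [mem_sep (by (repeat' (first | with_reducible exact IntF.id | with_reducible exact IntF.fst' | with_reducible exact IntF.snd' | with_reducible exact IntF.const _ | with_reducible exact Int.const _ | assumption | with_reducible apply Int.dm | with_reducible apply Int.rg | with_reducible apply Int.fn | with_reducible apply Int.ij | with_reducible apply Int.mv | with_reducible apply Int.gn | with_reducible apply IntF.idr | with_reducible apply IntF.inv' | with_reducible apply IntF.cmp | with_reducible apply IntF.clo | with_reducible apply Int.and | with_reducible apply Int.or | with_reducible apply Int.not | with_reducible apply Int.imp | with_reducible apply Int.iff | with_reducible apply Int.ne | with_reducible apply Int.eq | with_reducible apply Int.mem | with_reducible apply Int.subset | with_reducible apply Int.ltN | with_reducible apply Int.leN | with_reducible apply Int.fin | with_reducible apply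 Int.unique | with_reducible apply Int.all | with_reducible apply Int.ex | with_reducible apply IntF.fst | with_reducible apply IntF.snd | with_reducible apply IntF.app | with_reducible apply IntF.ite | with_reducible apply IntF.sep | with_reducible apply IntF.lam | with_reducible apply IntF.insert | with_reducible apply IntF.singleton | with_reducible apply IntF.union | with_reducible apply IntF.inter | with_reducible apply IntF.sdiff | with_reducible apply IntF.isUnion | with_reducible apply IntF.iimage | with_reducible apply IntF.the | with_reducible apply IntF.irec | with_reducible_and_instances apply IntF.add | with_reducible_and_instances apply IntF.mul | with_reducible apply IntF.succ | with_reducible apply IntF.val | with_reducible apply IntF.mk | (with_reducible refine Int.comp ?_ ?_; assumption) | (with_reducible refine Int.comp₂ ?_ ?_ ?_; assumption) | (with_reducible refine Int.comp₃ ?_ ?_ ?_ ?_; assumption) | (with_reducible refine IntF.comp ?_ ?_; assumption) | (with_reducible refine IntF.comp₂ ?_ ?_ ?_; assumption) | (with_reducible refine IntF.comp₃ ?_ ?_ ?_ ?_; assumption) | with_reducible apply IntF.pair)))]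

theorem IntF.clo {G : IPow M (IPow M (σ × σ))} {g : γ → IPow M σ} (hg : IntF M g) :
    IntF M (fun c => clo G (g c)) := by
  unfold PG.clo
  (repeat' (first | with_reducible exact IntF.id | with_reducible exact IntF.fst' | with_reducible exact IntF.snd' | with_reducible exact IntF.const _ | with_reducible exact Int.const _ | assumption | with_reducible apply Int.dm | with_reducible apply Int.rg | with_reducible apply Int.fn | with_reducible apply Int.ij | with_reducible apply Int.mv | with_reducible apply Int.gn | with_reducible apply IntF.idr | with_reducible apply IntF.inv' | with_reducible apply IntF.cmp | with_reducible apply IntF.clo | with_reducible apply Int.and | with_reducible apply Int.or | with_reducible apply Int.not | with_reducible apply Int.imp | with_reducible apply Int.iff | with_reducible apply Int.ne | with_reducible apply Int.eq | with_reducible apply Int.mem | with_reducible apply Int.subset | with_reducible apply Int.ltN | with_reducible apply Int.leN | with_reducible apply Int.fin | with_reducible apply Int.unique | with_reducible apply Int.all | with_reducible apply Int.ex | with_reducible apply IntF.fst | with_reducible apply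 IntF.snd | with_reducible apply IntF.app | with_reducible apply IntF.ite | with_reducible apply IntF.sep | with_reducible apply IntF.lam | with_reducible apply IntF.insert | with_reducible apply IntF.singleton | with_reducible apply IntF.union | with_reducible apply IntF.inter | with_reducible apply IntF.sdiff | with_reducible apply IntF.isUnion | with_reducible apply IntF.iimage | with_reducible apply IntF.the | with_reducible apply IntF.irec | with_reducible_and_instances apply IntF.add | with_reducible_and_instances apply IntF.mul | with_reducible apply IntF.succ | with_reducible apply IntF.val | with_reducible apply IntF.mk | (with_reducible refine Int.comp ?_ ?_; assumption) | (with_reducible refine Int.comp₂ ?_ ?_ ?_; assumption) | (with_reducible refine Int.comp₃ ?_ ?_ ?_ ?_; assumption) | (with_reducible refine IntF.comp ?_ ?_; assumption) | (with_reducible refine IntF.comp₂ ?_ ?_ ?_; assumption) | (with_reducible refine IntF.comp₃ ?_ ?_ ?_ ?_; assumption) | with_reducible apply IntF.pair))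

theorem inv_idr (D : IPow M σ) : inv' (idr D) = idr D :=
  IPow.ext' fun ⟨a, b⟩ => by
    rw [mem_inv, mem_idr, mem_idr]
    constructor
    · rintro ⟨rfl, h⟩
      exact ⟨rfl, h⟩
    · rintro ⟨rfl, h⟩
      exact ⟨rfl, h⟩

section

variable {G : IPow M (IPow M (σ × σ))} (hG : Gpd G)

include hG

theorem cls_trans {D : IPow M σ} {a b c : σ} (h1 : insert (a, b) (idr D) ∈ G)
    (h2 : insert (b, c) (idr D) ∈ G) : insert (a, c) (idr D) ∈ G := by
  refine hG.sub (hG.cmp h1 h2) ?_
  rintro ⟨x, y⟩ hx
  rw [mem_cmp]
  rcases mem_insert.1 hx with hx | hx
  · rw [Prod.mk.injEq] at hx
    obtain ⟨rfl, rfl⟩ := hx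
    exact ⟨b, mem_insert.2 (Or.inl rfl), mem_insert.2 (Or.inl rfl)⟩
  · obtain ⟨rfl, hxD⟩ := mem_idr.1 hx
    exact ⟨x, mem_insert.2 (Or.inr hx), mem_insert.2 (Or.inr hx)⟩

theorem cls_symm {D : IPow M σ} {a b : σ} (h1 : insert (a, b) (idr D) ∈ G) :
    insert (b, a) (idr D) ∈ G := by
  have := hG.inv h1
  rwa [insert_inv, inv_idr] at this

theorem Gn.of_rel {D : IPow M σ} {a b : σ} (h : Gn G D a) (h1 : insert (a, b) (idr D) ∈ G) :
    Gn G D b := FinP.mono h fun c hc h2 => hc (cls_trans hG (cls_symm hG h1) h2)

theorem Gn.rel {D : IPow M σ} {a b : σ} (h : Gn G D a) (h1 : Gn G D b) :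
    insert (a, b) (idr D) ∈ G := by
  obtain ⟨c, hc⟩ := exists_not hG.amo.inf (FinP.or h h1)
  push Not at hc
  exact cls_trans hG hc.1 (cls_symm hG hc.2)

theorem fin_ngen {D : IPow M σ} (hD : IFin D) : FinP M (fun a => ¬ Gn G D a) := by
  obtain ⟨a, ha⟩ := hG.gen hD
  refine ha.mono fun b hb h => hb (Gn.of_rel hG (a := a) ha h)

theorem fin_clo {D : IPow M σ} (hD : IFin D) : IFin (clo G D) :=
  (fin_ngen hG hD).fin (by (repeat' (first | with_reducible exact IntF.id | with_reducible exact IntF.fst' | with_reducible exact IntF.snd' | with_reducible exact IntF.const _ | with_reducible exact Int.const _ | assumption | with_reducible apply Int.dm | with_reducible apply Int.rg | with_reducible apply Int.fn | with_reducible apply Int.ij | with_reducible apply Int.mv | with_reducible apply Int.gn | with_reducible apply IntF.idr | with_reducible apply IntF.inv' | with_reducible apply IntF.cmp | with_reducible apply IntF.clo | with_reducible apply Int.and | with_reducible apply Int.or | with_reducible apply Int.not | with_reducible apply Int.imp | with_reducible apply Int.iff | with_reducible apply Int.ne | with_reducible apply Int.eq | with_reducible apply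 Int.mem | with_reducible apply Int.subset | with_reducible apply Int.ltN | with_reducible apply Int.leN | with_reducible apply Int.fin | with_reducible apply Int.unique | with_reducible apply Int.all | with_reducible apply Int.ex | with_reducible apply IntF.fst | with_reducible apply IntF.snd | with_reducible apply IntF.app | with_reducible apply IntF.ite | with_reducible apply IntF.sep | with_reducible apply IntF.lam | with_reducible apply IntF.insert | with_reducible apply IntF.singleton | with_reducible apply IntF.union | with_reducible apply IntF.inter | with_reducible apply IntF.sdiff | with_reducible apply IntF.isUnion | with_reducible apply IntF.iimage | with_reducible apply IntF.the | with_reducible apply IntF.irec | with_reducible_and_instances apply IntF.add | with_reducible_and_instances apply IntF.mul | with_reducible apply IntF.succ | with_reducible apply IntF.val | with_reducible apply IntF.mk | (with_reducible refine Int.comp ?_ ?_; assumption) | (with_reducible refine Int.comp₂ ?_ ?_ ?_; assumption) | (with_reducible refine Int.comp₃ ?_ ?_ ?_ ?_; assumption) | (with_reducible refine IntF.comp ?_ ?_; assumption) | (with_reducible refine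 IntF.comp₂ ?_ ?_ ?_; assumption) | (with_reducible refine IntF.comp₃ ?_ ?_ ?_ ?_; assumption) | with_reducible apply IntF.pair)))

theorem exists_gen {D : IPow M σ} (hD : IFin D) {p : σ → Prop} (hp : FinP M p) :
    ∃ a, Gn G D a ∧ ¬ p a := by
  obtain ⟨a, ha⟩ := exists_not hG.amo.inf ((fin_ngen hG hD).or hp)
  push Not at ha
  exact ⟨a, ha.1, ha.2⟩

theorem ext_fin {p : IPow M (σ × σ)} (hp : p ∈ G) : ∀ S : IPow M σ, IFin S →
    ∃ q, q ∈ G ∧ p ⊆ q ∧ ∀ a, a ∈ S → Dm q a := by
  refine IFin.ind (p := fun S : IPow M σ => ∃ q, q ∈ G ∧ p ⊆ q ∧ ∀ a, a ∈ S → Dm q a)
    (by (repeat' (first | with_reducible exact IntF.id | with_reducible exact IntF.fst' | with_reducible exact IntF.snd' | with_reducible exact IntF.const _ | with_reducible exact Int.const _ | assumption | with_reducible apply Int.dm | with_reducible apply Int.rg | with_reducible apply Int.fn | with_reducible apply Int.ij | with_reducible apply Int.mv | with_reducible apply Int.gn | with_reducible apply IntF.idr | with_reducible apply IntF.inv' | with_reducible apply IntF.cmp | with_reducible apply IntF.clo | with_reducible apply Int.and | with_reducible apply Int.or | with_reducible apply Int.not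 | with_reducible apply Int.imp | with_reducible apply Int.iff | with_reducible apply Int.ne | with_reducible apply Int.eq | with_reducible apply Int.mem | with_reducible apply Int.subset | with_reducible apply Int.ltN | with_reducible apply Int.leN | with_reducible apply Int.fin | with_reducible apply Int.unique | with_reducible apply Int.all | with_reducible apply Int.ex | with_reducible apply IntF.fst | with_reducible apply IntF.snd | with_reducible apply IntF.app | with_reducible apply IntF.ite | with_reducible apply IntF.sep | with_reducible apply IntF.lam | with_reducible apply IntF.insert | with_reducible apply IntF.singleton | with_reducible apply IntF.union | with_reducible apply IntF.inter | with_reducible apply IntF.sdiff | with_reducible apply IntF.isUnion | with_reducible apply IntF.iimage | with_reducible apply IntF.the | with_reducible apply IntF.irec | with_reducible_and_instances apply IntF.add | with_reducible_and_instances apply IntF.mul | with_reducible apply IntF.succ | with_reducible apply IntF.val | with_reducible apply IntF.mk | (with_reducible refine Int.comp ?_ ?_; assumption) | (with_reducible refine Int.comp₂ ?_ ?_ ?_; assumption)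 | (with_reducible refine Int.comp₃ ?_ ?_ ?_ ?_; assumption) | (with_reducible refine IntF.comp ?_ ?_; assumption) | (with_reducible refine IntF.comp₂ ?_ ?_ ?_; assumption) | (with_reducible refine IntF.comp₃ ?_ ?_ ?_ ?_; assumption) | with_reducible apply IntF.pair))) ?_ ?_
  · exact ⟨p, hp, fun x hx => hx, fun a ha => absurd ha (by simp)⟩
  · rintro S a _ _ ⟨q, hq, h1, h2⟩
    obtain ⟨b, hb⟩ := hG.ext hq a
    refine ⟨_, hb, fun x hx => mem_insert.2 (Or.inr (h1 x hx)), fun c hc => ?_⟩
    rcases mem_insert.1 hc with rfl | hc
    · exact ⟨b, mem_insert.2 (Or.inl rfl)⟩
    · obtain ⟨d, hd⟩ := h2 c hc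
      exact ⟨d, mem_insert.2 (Or.inr hd)⟩

theorem ext_both {p : IPow M (σ × σ)} (hp : p ∈ G) {S T : IPow M σ} (hS : IFin S)
    (hT : IFin T) : ∃ q, q ∈ G ∧ p ⊆ q ∧ (∀ a, a ∈ S → Dm q a) ∧ ∀ a, a ∈ T → Rg q a := by
  obtain ⟨q, hq, h1, h2⟩ := ext_fin hG hp S hS
  obtain ⟨r, hr, h3, h4⟩ := ext_fin hG (hG.inv hq) T hT
  refine ⟨inv' r, hG.inv hr, ?_, fun a ha => ?_, fun a ha => rg_inv.2 (h4 a ha)⟩
  · rintro ⟨x, y⟩ hx
    exact mem_inv.2 (h3 _ (mem_inv.2 (h1 _ hx)))
  · obtain ⟨b, hb⟩ := h2 a ha
    exact ⟨b, mem_inv.2 (h3 _ (mem_inv.2 hb))⟩

end

/-- `p` maps `D` onto `E`. -/
def Mp (p : IPow M (σ × σ)) (D E : IPow M σ) : Prop :=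
  (∀ d, d ∈ D → ∃ e, e ∈ E ∧ (d, e) ∈ p) ∧ ∀ e, e ∈ E → ∃ d, d ∈ D ∧ (d, e) ∈ p

omit hM in
theorem Mp.inv [IsModel M] {p : IPow M (σ × σ)} {D E : IPow M σ} (h : Mp p D E) : Mp (inv' p) E D :=
  ⟨fun e he => by
    obtain ⟨d, hd, h1⟩ := h.2 e he
    exact ⟨d, hd, mem_inv.2 h1⟩, fun d hd => by
    obtain ⟨e, he, h1⟩ := h.1 d hd
    exact ⟨e, he, mem_inv.2 h1⟩⟩

theorem Mp.of_idr {p : IPow M (σ × σ)} {D : IPow M σ} (h : idr D ⊆ p) : Mp p D D :=
  ⟨fun d hd => ⟨d, hd, h _ (mem_idr.2 ⟨rfl, hd⟩)⟩, fun d hd =>
    ⟨d, hd, h _ (mem_idr.2 ⟨rfl, hd⟩)⟩⟩

theorem Mp.insert {p : IPow M (σ × σ)} {D E : IPow M σ} (h : Mp p D E) {a b : σ}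
    (hab : (a, b) ∈ p) : Mp p (insert a D) (insert b E) := by
  constructor
  · intro d hd
    rcases mem_insert.1 hd with rfl | hd
    · exact ⟨b, mem_insert.2 (Or.inl rfl), hab⟩
    · obtain ⟨e, he, h1⟩ := h.1 d hd
      exact ⟨e, mem_insert.2 (Or.inr he), h1⟩
  · intro e he
    rcases mem_insert.1 he with rfl | he
    · exact ⟨a, mem_insert.2 (Or.inl rfl), hab⟩
    · obtain ⟨d, hd, h1⟩ := h.2 e he
      exact ⟨d, mem_insert.2 (Or.inr hd), h1⟩

theorem Mp.mono {p q : IPow M (σ × σ)} {D E : IPow M σ} (h : Mp p D E) (hpq : p ⊆ q) :
    Mp q D E :=
  ⟨fun d hd => by
    obtain ⟨e, he, h1⟩ := h.1 d hd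
    exact ⟨e, he, hpq _ h1⟩, fun e he => by
    obtain ⟨d, hd, h1⟩ := h.2 e he
    exact ⟨d, hd, hpq _ h1⟩⟩

section

variable {G : IPow M (IPow M (σ × σ))} (hG : Gpd G)

include hG

theorem Gn.pres {p : IPow M (σ × σ)} (hp : p ∈ G) {D E : IPow M σ} (hDE : Mp p D E) {a b : σ}
    (hab : (a, b) ∈ p) (h : Gn G D a) : Gn G E b := by
  by_contra hn
  have h1 : FinP M (fun c => insert (b, c) (idr E) ∈ G) :=
    (hG.amo.split _ (by (repeat' (first | with_reducible exact IntF.id | with_reducible exact IntF.fst' | with_reducible exact IntF.snd' | with_reducible exact IntF.const _ | with_reducible exact Int.const _ | assumption | with_reducible apply Int.dm | with_reducible apply Int.rg | with_reducible apply Int.fn | with_reducible apply Int.ij | with_reducible apply Int.mv | with_reducible apply Int.gn | with_reducible apply IntF.idr | with_reducible apply IntF.inv' | with_reducible apply IntF.cmp | with_reducible apply IntF.clo | with_reducible apply Int.and | with_reducible apply Int.or | with_reducible apply Int.not | with_reducible apply Int.imp | with_reducible apply Int.iff | with_reducible apply Int.ne | with_reducible apply Int.eq | with_reducible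 apply Int.mem | with_reducible apply Int.subset | with_reducible apply Int.ltN | with_reducible apply Int.leN | with_reducible apply Int.fin | with_reducible apply Int.unique | with_reducible apply Int.all | with_reducible apply Int.ex | with_reducible apply IntF.fst | with_reducible apply IntF.snd | with_reducible apply IntF.app | with_reducible apply IntF.ite | with_reducible apply IntF.sep | with_reducible apply IntF.lam | with_reducible apply IntF.insert | with_reducible apply IntF.singleton | with_reducible apply IntF.union | with_reducible apply IntF.inter | with_reducible apply IntF.sdiff | with_reducible apply IntF.isUnion | with_reducible apply IntF.iimage | with_reducible apply IntF.the | with_reducible apply IntF.irec | with_reducible_and_instances apply IntF.add | with_reducible_and_instances apply IntF.mul | with_reducible apply IntF.succ | with_reducible apply IntF.val | with_reducible apply IntF.mk | (with_reducible refine Int.comp ?_ ?_; assumption) | (with_reducible refine Int.comp₂ ?_ ?_ ?_; assumption) | (with_reducible refine Int.comp₃ ?_ ?_ ?_ ?_; assumption) | (with_reducible refine IntF.comp ?_ ?_; assumption) | (with_reducible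 refine IntF.comp₂ ?_ ?_ ?_; assumption) | (with_reducible refine IntF.comp₃ ?_ ?_ ?_ ?_; assumption) | with_reducible apply IntF.pair)))).resolve_right hn
  have hK : IFin (sep M fun c => insert (b, c) (idr E) ∈ G) := h1.fin (by (repeat' (first | with_reducible exact IntF.id | with_reducible exact IntF.fst' | with_reducible exact IntF.snd' | with_reducible exact IntF.const _ | with_reducible exact Int.const _ | assumption | with_reducible apply Int.dm | with_reducible apply Int.rg | with_reducible apply Int.fn | with_reducible apply Int.ij | with_reducible apply Int.mv | with_reducible apply Int.gn | with_reducible apply IntF.idr | with_reducible apply IntF.inv' | with_reducible apply IntF.cmp | with_reducible apply IntF.clo | with_reducible apply Int.and | with_reducible apply Int.or | with_reducible apply Int.not | with_reducible apply Int.imp | with_reducible apply Int.iff | with_reducible apply Int.ne | with_reducible apply Int.eq | with_reducible apply Int.mem | with_reducible apply Int.subset | with_reducible apply Int.ltN | with_reducible apply Int.leN | with_reducible apply Int.fin | with_reducible apply Int.unique | with_reducible apply Int.all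 | with_reducible apply Int.ex | with_reducible apply IntF.fst | with_reducible apply IntF.snd | with_reducible apply IntF.app | with_reducible apply IntF.ite | with_reducible apply IntF.sep | with_reducible apply IntF.lam | with_reducible apply IntF.insert | with_reducible apply IntF.singleton | with_reducible apply IntF.union | with_reducible apply IntF.inter | with_reducible apply IntF.sdiff | with_reducible apply IntF.isUnion | with_reducible apply IntF.iimage | with_reducible apply IntF.the | with_reducible apply IntF.irec | with_reducible_and_instances apply IntF.add | with_reducible_and_instances apply IntF.mul | with_reducible apply IntF.succ | with_reducible apply IntF.val | with_reducible apply IntF.mk | (with_reducible refine Int.comp ?_ ?_; assumption) | (with_reducible refine Int.comp₂ ?_ ?_ ?_; assumption) | (with_reducible refine Int.comp₃ ?_ ?_ ?_ ?_; assumption) | (with_reducible refine IntF.comp ?_ ?_; assumption) | (with_reducible refine IntF.comp₂ ?_ ?_ ?_; assumption) | (with_reducible refine IntF.comp₃ ?_ ?_ ?_ ?_; assumption) | with_reducible apply IntF.pair)))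
  have hcl : ¬ FinP M (fun c => insert (a, c) (idr D) ∈ G) := fun h2 =>
    hG.amo.inf ((FinP.or h h2).mono fun c _ => (em _).symm)
  obtain ⟨T, hT, hTs, hTc⟩ := exists_sub (by (repeat' (first | with_reducible exact IntF.id | with_reducible exact IntF.fst' | with_reducible exact IntF.snd' | with_reducible exact IntF.const _ | with_reducible exact Int.const _ | assumption | with_reducible apply Int.dm | with_reducible apply Int.rg | with_reducible apply Int.fn | with_reducible apply Int.ij | with_reducible apply Int.mv | with_reducible apply Int.gn | with_reducible apply IntF.idr | with_reducible apply IntF.inv' | with_reducible apply IntF.cmp | with_reducible apply IntF.clo | with_reducible apply Int.and | with_reducible apply Int.or | with_reducible apply Int.not | with_reducible apply Int.imp | with_reducible apply Int.iff | with_reducible apply Int.ne | with_reducible apply Int.eq | with_reducible apply Int.mem | with_reducible apply Int.subset | with_reducible apply Int.ltN | with_reducible apply Int.leN | with_reducible apply Int.fin | with_reducible apply Int.unique | with_reducible apply Int.all | with_reducible apply Int.ex | with_reducible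 apply IntF.fst | with_reducible apply IntF.snd | with_reducible apply IntF.app | with_reducible apply IntF.ite | with_reducible apply IntF.sep | with_reducible apply IntF.lam | with_reducible apply IntF.insert | with_reducible apply IntF.singleton | with_reducible apply IntF.union | with_reducible apply IntF.inter | with_reducible apply IntF.sdiff | with_reducible apply IntF.isUnion | with_reducible apply IntF.iimage | with_reducible apply IntF.the | with_reducible apply IntF.irec | with_reducible_and_instances apply IntF.add | with_reducible_and_instances apply IntF.mul | with_reducible apply IntF.succ | with_reducible apply IntF.val | with_reducible apply IntF.mk | (with_reducible refine Int.comp ?_ ?_; assumption) | (with_reducible refine Int.comp₂ ?_ ?_ ?_; assumption) | (with_reducible refine Int.comp₃ ?_ ?_ ?_ ?_; assumption) | (with_reducible refine IntF.comp ?_ ?_; assumption) | (with_reducible refine IntF.comp₂ ?_ ?_ ?_; assumption) | (with_reducible refine IntF.comp₃ ?_ ?_ ?_ ?_; assumption) | with_reducible apply IntF.pair))) hcl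
    (crd (sep M fun c => insert (b, c) (idr E) ∈ G)).succ
  have hi : Int M (fun q : σ × σ => q ∈ p ∧ q.1 ∈ D) := by (repeat' (first | with_reducible exact IntF.id | with_reducible exact IntF.fst' | with_reducible exact IntF.snd' | with_reducible exact IntF.const _ | with_reducible exact Int.const _ | assumption | with_reducible apply Int.dm | with_reducible apply Int.rg | with_reducible apply Int.fn | with_reducible apply Int.ij | with_reducible apply Int.mv | with_reducible apply Int.gn | with_reducible apply IntF.idr | with_reducible apply IntF.inv' | with_reducible apply IntF.cmp | with_reducible apply IntF.clo | with_reducible apply Int.and | with_reducible apply Int.or | with_reducible apply Int.not | with_reducible apply Int.imp | with_reducible apply Int.iff | with_reducible apply Int.ne | with_reducible apply Int.eq | with_reducible apply Int.mem | with_reducible apply Int.subset | with_reducible apply Int.ltN | with_reducible apply Int.leN | with_reducible apply Int.fin | with_reducible apply Int.unique | with_reducible apply Int.all | with_reducible apply Int.ex | with_reducible apply IntF.fst | with_reducible apply IntF.snd | with_reducible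 apply IntF.app | with_reducible apply IntF.ite | with_reducible apply IntF.sep | with_reducible apply IntF.lam | with_reducible apply IntF.insert | with_reducible apply IntF.singleton | with_reducible apply IntF.union | with_reducible apply IntF.inter | with_reducible apply IntF.sdiff | with_reducible apply IntF.isUnion | with_reducible apply IntF.iimage | with_reducible apply IntF.the | with_reducible apply IntF.irec | with_reducible_and_instances apply IntF.add | with_reducible_and_instances apply IntF.mul | with_reducible apply IntF.succ | with_reducible apply IntF.val | with_reducible apply IntF.mk | (with_reducible refine Int.comp ?_ ?_; assumption) | (with_reducible refine Int.comp₂ ?_ ?_ ?_; assumption) | (with_reducible refine Int.comp₃ ?_ ?_ ?_ ?_; assumption) | (with_reducible refine IntF.comp ?_ ?_; assumption) | (with_reducible refine IntF.comp₂ ?_ ?_ ?_; assumption) | (with_reducible refine IntF.comp₃ ?_ ?_ ?_ ?_; assumption) | with_reducible apply IntF.pair))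
  obtain ⟨q, hq, h2, h3⟩ := ext_fin hG (hG.sub hp (q := sep M fun q => q ∈ p ∧ q.1 ∈ D)
    fun x hx => ((mem_sep hi).1 hx).1) T hT
  have h4 := crd_le (r := fun x : σ × σ => x ∈ q) (by (repeat' (first | with_reducible exact IntF.id | with_reducible exact IntF.fst' | with_reducible exact IntF.snd' | with_reducible exact IntF.const _ | with_reducible exact Int.const _ | assumption | with_reducible apply Int.dm | with_reducible apply Int.rg | with_reducible apply Int.fn | with_reducible apply Int.ij | with_reducible apply Int.mv | with_reducible apply Int.gn | with_reducible apply IntF.idr | with_reducible apply IntF.inv' | with_reducible apply IntF.cmp | with_reducible apply IntF.clo | with_reducible apply Int.and | with_reducible apply Int.or | with_reducible apply Int.not | with_reducible apply Int.imp | with_reducible apply Int.iff | with_reducible apply Int.ne | with_reducible apply Int.eq | with_reducible apply Int.mem | with_reducible apply Int.subset | with_reducible apply Int.ltN | with_reducible apply Int.leN | with_reducible apply Int.fin | with_reducible apply Int.unique | with_reducible apply Int.all | with_reducible apply Int.ex | with_reducible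 apply IntF.fst | with_reducible apply IntF.snd | with_reducible apply IntF.app | with_reducible apply IntF.ite | with_reducible apply IntF.sep | with_reducible apply IntF.lam | with_reducible apply IntF.insert | with_reducible apply IntF.singleton | with_reducible apply IntF.union | with_reducible apply IntF.inter | with_reducible apply IntF.sdiff | with_reducible apply IntF.isUnion | with_reducible apply IntF.iimage | with_reducible apply IntF.the | with_reducible apply IntF.irec | with_reducible_and_instances apply IntF.add | with_reducible_and_instances apply IntF.mul | with_reducible apply IntF.succ | with_reducible apply IntF.val | with_reducible apply IntF.mk | (with_reducible refine Int.comp ?_ ?_; assumption) | (with_reducible refine Int.comp₂ ?_ ?_ ?_; assumption) | (with_reducible refine Int.comp₃ ?_ ?_ ?_ ?_; assumption) | (with_reducible refine IntF.comp ?_ ?_; assumption) | (with_reducible refine IntF.comp₂ ?_ ?_ ?_; assumption) | (with_reducible refine IntF.comp₃ ?_ ?_ ?_ ?_; assumption) | with_reducible apply IntF.pair))) T hT _ hK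
    (fun x y z _ _ _ h5 h6 => hG.ij hq _ _ _ h5 h6) fun c hc => by
      obtain ⟨c', hc'⟩ := h3 c hc
      refine ⟨c', (mem_sep (by (repeat' (first | with_reducible exact IntF.id | with_reducible exact IntF.fst' | with_reducible exact IntF.snd' | with_reducible exact IntF.const _ | with_reducible exact Int.const _ | assumption | with_reducible apply Int.dm | with_reducible apply Int.rg | with_reducible apply Int.fn | with_reducible apply Int.ij | with_reducible apply Int.mv | with_reducible apply Int.gn | with_reducible apply IntF.idr | with_reducible apply IntF.inv' | with_reducible apply IntF.cmp | with_reducible apply IntF.clo | with_reducible apply Int.and | with_reducible apply Int.or | with_reducible apply Int.not | with_reducible apply Int.imp | with_reducible apply Int.iff | with_reducible apply Int.ne | with_reducible apply Int.eq | with_reducible apply Int.mem | with_reducible apply Int.subset | with_reducible apply Int.ltN | with_reducible apply Int.leN | with_reducible apply Int.fin | with_reducible apply Int.unique | with_reducible apply Int.all | with_reducible apply Int.ex | with_reducible apply IntF.fst | with_reducible apply IntF.snd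 | with_reducible apply IntF.app | with_reducible apply IntF.ite | with_reducible apply IntF.sep | with_reducible apply IntF.lam | with_reducible apply IntF.insert | with_reducible apply IntF.singleton | with_reducible apply IntF.union | with_reducible apply IntF.inter | with_reducible apply IntF.sdiff | with_reducible apply IntF.isUnion | with_reducible apply IntF.iimage | with_reducible apply IntF.the | with_reducible apply IntF.irec | with_reducible_and_instances apply IntF.add | with_reducible_and_instances apply IntF.mul | with_reducible apply IntF.succ | with_reducible apply IntF.val | with_reducible apply IntF.mk | (with_reducible refine Int.comp ?_ ?_; assumption) | (with_reducible refine Int.comp₂ ?_ ?_ ?_; assumption) | (with_reducible refine Int.comp₃ ?_ ?_ ?_ ?_; assumption) | (with_reducible refine IntF.comp ?_ ?_; assumption) | (with_reducible refine IntF.comp₂ ?_ ?_ ?_; assumption) | (with_reducible refine IntF.comp₃ ?_ ?_ ?_ ?_; assumption) | with_reducible apply IntF.pair)))).2 ?_, hc'⟩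
      refine hG.sub (hG.cmp (hG.cmp (hG.inv hp) (hTs c hc)) hq) ?_
      rintro ⟨x, y⟩ hx
      rw [mem_cmp]
      rcases mem_insert.1 hx with hx | hx
      · rw [Prod.mk.injEq] at hx
        obtain ⟨rfl, rfl⟩ := hx
        exact ⟨c, mem_cmp.2 ⟨a, mem_inv.2 hab, mem_insert.2 (Or.inl rfl)⟩, hc'⟩
      · obtain ⟨rfl, hxE⟩ := mem_idr.1 hx
        obtain ⟨d, hd, hde⟩ := hDE.2 _ hxE
        exact ⟨d, mem_cmp.2 ⟨d, mem_inv.2 hde, mem_insert.2 (Or.inr (mem_idr.2 ⟨rfl, hd⟩))⟩,
          h2 _ ((mem_sep hi).2 ⟨hde, hd⟩)⟩
  rw [hTc] at h4
  exact absurd h4 (not_le.2 (INat.lt_succ_self _))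

theorem Gn.pres' {p : IPow M (σ × σ)} (hp : p ∈ G) {D E : IPow M σ} (hDE : Mp p D E) {a b : σ}
    (hab : (a, b) ∈ p) : Gn G D a ↔ Gn G E b :=
  ⟨Gn.pres hG hp hDE hab, Gn.pres hG (hG.inv hp) hDE.inv (mem_inv.2 hab)⟩

theorem clo_pres {p : IPow M (σ × σ)} (hp : p ∈ G) {D E : IPow M σ} (hDE : Mp p D E) {a b : σ}
    (hab : (a, b) ∈ p) : a ∈ clo G D ↔ b ∈ clo G E := by
  rw [mem_clo, mem_clo, Gn.pres' hG hp hDE hab]

theorem Mp.clo {p : IPow M (σ × σ)} (hp : p ∈ G) {D E : IPow M σ} (hDE : Mp p D E)
    (h1 : ∀ a, a ∈ clo G D → Dm p a) (h2 : ∀ a, a ∈ clo G E → Rg p a) :
    Mp p (clo G D) (clo G E) :=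
  ⟨fun d hd => by
    obtain ⟨e, he⟩ := h1 d hd
    exact ⟨e, (clo_pres hG hp hDE he).1 hd, he⟩, fun e he => by
    obtain ⟨d, hd⟩ := h2 e he
    exact ⟨d, (clo_pres hG hp hDE hd).2 he, hd⟩⟩

theorem Mp.crd {p : IPow M (σ × σ)} (hp : p ∈ G) {D E : IPow M σ} (hD : IFin D) (hE : IFin E)
    (hDE : Mp p D E) : crd D = crd E := by
  refine le_antisymm ?_ ?_
  · exact crd_le (r := fun x : σ × σ => x ∈ p) (by (repeat' (first | with_reducible exact IntF.id | with_reducible exact IntF.fst' | with_reducible exact IntF.snd' | with_reducible exact IntF.const _ | with_reducible exact Int.const _ | assumption | with_reducible apply Int.dm | with_reducible apply Int.rg | with_reducible apply Int.fn | with_reducible apply Int.ij | with_reducible apply Int.mv | with_reducible apply Int.gn | with_reducible apply IntF.idr | with_reducible apply IntF.inv' | with_reducible apply IntF.cmp | with_reducible apply IntF.clo | with_reducible apply Int.and | with_reducible apply Int.or | with_reducible apply Int.not | with_reducible apply Int.imp | with_reducible apply Int.iff | with_reducible apply Int.ne | with_reducible apply Int.eq | with_reducible apply Int.mem | with_reducible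 apply Int.subset | with_reducible apply Int.ltN | with_reducible apply Int.leN | with_reducible apply Int.fin | with_reducible apply Int.unique | with_reducible apply Int.all | with_reducible apply Int.ex | with_reducible apply IntF.fst | with_reducible apply IntF.snd | with_reducible apply IntF.app | with_reducible apply IntF.ite | with_reducible apply IntF.sep | with_reducible apply IntF.lam | with_reducible apply IntF.insert | with_reducible apply IntF.singleton | with_reducible apply IntF.union | with_reducible apply IntF.inter | with_reducible apply IntF.sdiff | with_reducible apply IntF.isUnion | with_reducible apply IntF.iimage | with_reducible apply IntF.the | with_reducible apply IntF.irec | with_reducible_and_instances apply IntF.add | with_reducible_and_instances apply IntF.mul | with_reducible apply IntF.succ | with_reducible apply IntF.val | with_reducible apply IntF.mk | (with_reducible refine Int.comp ?_ ?_; assumption) | (with_reducible refine Int.comp₂ ?_ ?_ ?_; assumption) | (with_reducible refine Int.comp₃ ?_ ?_ ?_ ?_; assumption) | (with_reducible refine IntF.comp ?_ ?_; assumption) | (with_reducible refine IntF.comp₂ ?_ ?_ ?_; assumption)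 | (with_reducible refine IntF.comp₃ ?_ ?_ ?_ ?_; assumption) | with_reducible apply IntF.pair))) D hD E hE
      (fun x y z _ _ _ h5 h6 => hG.ij hp _ _ _ h5 h6) hDE.1
  · refine crd_le (r := fun x : σ × σ => (x.2, x.1) ∈ p) (by (repeat' (first | with_reducible exact IntF.id | with_reducible exact IntF.fst' | with_reducible exact IntF.snd' | with_reducible exact IntF.const _ | with_reducible exact Int.const _ | assumption | with_reducible apply Int.dm | with_reducible apply Int.rg | with_reducible apply Int.fn | with_reducible apply Int.ij | with_reducible apply Int.mv | with_reducible apply Int.gn | with_reducible apply IntF.idr | with_reducible apply IntF.inv' | with_reducible apply IntF.cmp | with_reducible apply IntF.clo | with_reducible apply Int.and | with_reducible apply Int.or | with_reducible apply Int.not | with_reducible apply Int.imp | with_reducible apply Int.iff | with_reducible apply Int.ne | with_reducible apply Int.eq | with_reducible apply Int.mem | with_reducible apply Int.subset | with_reducible apply Int.ltN | with_reducible apply Int.leN | with_reducible apply Int.fin | with_reducible apply Int.unique | with_reducible apply Int.all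 | with_reducible apply Int.ex | with_reducible apply IntF.fst | with_reducible apply IntF.snd | with_reducible apply IntF.app | with_reducible apply IntF.ite | with_reducible apply IntF.sep | with_reducible apply IntF.lam | with_reducible apply IntF.insert | with_reducible apply IntF.singleton | with_reducible apply IntF.union | with_reducible apply IntF.inter | with_reducible apply IntF.sdiff | with_reducible apply IntF.isUnion | with_reducible apply IntF.iimage | with_reducible apply IntF.the | with_reducible apply IntF.irec | with_reducible_and_instances apply IntF.add | with_reducible_and_instances apply IntF.mul | with_reducible apply IntF.succ | with_reducible apply IntF.val | with_reducible apply IntF.mk | (with_reducible refine Int.comp ?_ ?_; assumption) | (with_reducible refine Int.comp₂ ?_ ?_ ?_; assumption) | (with_reducible refine Int.comp₃ ?_ ?_ ?_ ?_; assumption) | (with_reducible refine IntF.comp ?_ ?_; assumption) | (with_reducible refine IntF.comp₂ ?_ ?_ ?_; assumption) | (with_reducible refine IntF.comp₃ ?_ ?_ ?_ ?_; assumption) | with_reducible apply IntF.pair))) E hE D hD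
      (fun x y z _ _ _ h5 h6 => hG.fn hp _ _ _ h5 h6) hDE.2

theorem sub_clo {D : IPow M σ} : D ⊆ clo G D := by
  intro d hd
  rw [mem_clo]
  intro h
  have h1 : ¬ FinP M (fun b : σ => b ≠ d) := fun h2 =>
    hG.amo.inf ((FinP.or h2 (FinP.eq d)).mono fun c _ => (em (c = d)).symm)
  refine h1 (FinP.mono h fun b hb hbd => hb ?_)
  exact (hG.fn hbd d b d (mem_insert.2 (Or.inl rfl))
    (mem_insert.2 (Or.inr (mem_idr.2 ⟨rfl, hd⟩))))

theorem clo_mono {D E : IPow M σ} (h : D ⊆ E) : clo G D ⊆ clo G E := by
  intro a ha
  rw [mem_clo] at ha ⊢
  intro h1
  refine ha (FinP.mono h1 fun b hb hbd => hb (hG.sub hbd ?_))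
  refine sub_insert (fun x hx => ?_) _
  obtain ⟨x, y⟩ := x
  rw [mem_idr] at hx ⊢
  exact ⟨hx.1, h _ hx.2⟩

theorem clo_clo {D : IPow M σ} (hD : IFin D) : clo G (clo G D) = clo G D := by
  refine IPow.ext' fun a => ⟨fun ha => ?_, fun ha => sub_clo hG a ha⟩
  by_contra hn
  rw [mem_clo, not_not] at hn
  have hcD := fin_clo hG hD
  obtain ⟨b, hb, -⟩ := exists_gen hG hcD (p := fun _ => False) ⟨∅, IFin.empty, fun _ h => h.elim⟩
  have hb' : Gn G D b := by
    by_contra h1
    rw [← mem_clo] at h1
    have := sub_clo hG b h1
    rw [mem_clo] at this
    exact this hb
  obtain ⟨q, hq, h1, h2, h3⟩ := ext_both hG (Gn.rel hG hn hb') hcD hcD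
  have h4 : Mp q D D := Mp.of_idr fun x hx => h1 x (mem_insert.2 (Or.inr hx))
  have h5 := Mp.clo hG hq h4 h2 h3
  rw [mem_clo] at ha
  exact ha ((Gn.pres' hG hq h5 (h1 _ (mem_insert.2 (Or.inl rfl)))).2 hb)

theorem clo_le {D E : IPow M σ} (hE : IFin E) (h : D ⊆ clo G E) : clo G D ⊆ clo G E := by
  intro x hx
  have := clo_mono hG h x hx
  rwa [clo_clo hG hE] at this

theorem mem_clo_insert {D : IPow M σ} (a : σ) : a ∈ clo G (insert a D) :=
  sub_clo hG a (mem_insert.2 (Or.inl rfl))

theorem clo_sub_insert {D : IPow M σ} (a : σ) : clo G D ⊆ clo G (insert a D) :=
  clo_mono hG fun x hx => mem_insert.2 (Or.inr hx)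

theorem exch {S : IPow M σ} (hS : IFin S) {a b : σ} (ha : a ∈ clo G (insert b S))
    (ha' : ¬ a ∈ clo G S) : b ∈ clo G (insert a S) := by
  by_contra hb
  have hb' : Gn G S b := by
    by_contra h1
    rw [← mem_clo] at h1
    exact hb (clo_sub_insert hG a b h1)
  rw [mem_clo, not_not] at ha' hb
  have hSb := fin_clo hG (hS.insert b)
  obtain ⟨T, hT, hTs, hTc⟩ := exists_sub (p := fun c => Gn G S c) (by (repeat' (first | with_reducible exact IntF.id | with_reducible exact IntF.fst' | with_reducible exact IntF.snd' | with_reducible exact IntF.const _ | with_reducible exact Int.const _ | assumption | with_reducible apply Int.dm | with_reducible apply Int.rg | with_reducible apply Int.fn | with_reducible apply Int.ij | with_reducible apply Int.mv | with_reducible apply Int.gn | with_reducible apply IntF.idr | with_reducible apply IntF.inv' | with_reducible apply IntF.cmp | with_reducible apply IntF.clo | with_reducible apply Int.and | with_reducible apply Int.or | with_reducible apply Int.not | with_reducible apply Int.imp | with_reducible apply Int.iff | with_reducible apply Int.ne | with_reducible apply Int.eq | with_reducible apply Int.mem | with_reducible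 apply Int.subset | with_reducible apply Int.ltN | with_reducible apply Int.leN | with_reducible apply Int.fin | with_reducible apply Int.unique | with_reducible apply Int.all | with_reducible apply Int.ex | with_reducible apply IntF.fst | with_reducible apply IntF.snd | with_reducible apply IntF.app | with_reducible apply IntF.ite | with_reducible apply IntF.sep | with_reducible apply IntF.lam | with_reducible apply IntF.insert | with_reducible apply IntF.singleton | with_reducible apply IntF.union | with_reducible apply IntF.inter | with_reducible apply IntF.sdiff | with_reducible apply IntF.isUnion | with_reducible apply IntF.iimage | with_reducible apply IntF.the | with_reducible apply IntF.irec | with_reducible_and_instances apply IntF.add | with_reducible_and_instances apply IntF.mul | with_reducible apply IntF.succ | with_reducible apply IntF.val | with_reducible apply IntF.mk | (with_reducible refine Int.comp ?_ ?_; assumption) | (with_reducible refine Int.comp₂ ?_ ?_ ?_; assumption) | (with_reducible refine Int.comp₃ ?_ ?_ ?_ ?_; assumption) | (with_reducible refine IntF.comp ?_ ?_; assumption) | (with_reducible refine IntF.comp₂ ?_ ?_ ?_; assumption)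 | (with_reducible refine IntF.comp₃ ?_ ?_ ?_ ?_; assumption) | with_reducible apply IntF.pair))) (fun h2 =>
    hG.amo.inf ((FinP.or (fin_ngen hG hS) h2).mono fun c _ => (em _).symm))
    (crd (clo G (insert b S))).succ
  have hW : Int M (fun q : σ × σ => ¬ Gn G (insert q.1 S) q.2) := by (repeat' (first | with_reducible exact IntF.id | with_reducible exact IntF.fst' | with_reducible exact IntF.snd' | with_reducible exact IntF.const _ | with_reducible exact Int.const _ | assumption | with_reducible apply Int.dm | with_reducible apply Int.rg | with_reducible apply Int.fn | with_reducible apply Int.ij | with_reducible apply Int.mv | with_reducible apply Int.gn | with_reducible apply IntF.idr | with_reducible apply IntF.inv' | with_reducible apply IntF.cmp | with_reducible apply IntF.clo | with_reducible apply Int.and | with_reducible apply Int.or | with_reducible apply Int.not | with_reducible apply Int.imp | with_reducible apply Int.iff | with_reducible apply Int.ne | with_reducible apply Int.eq | with_reducible apply Int.mem | with_reducible apply Int.subset | with_reducible apply Int.ltN | with_reducible apply Int.leN | with_reducible apply Int.fin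 | with_reducible apply Int.unique | with_reducible apply Int.all | with_reducible apply Int.ex | with_reducible apply IntF.fst | with_reducible apply IntF.snd | with_reducible apply IntF.app | with_reducible apply IntF.ite | with_reducible apply IntF.sep | with_reducible apply IntF.lam | with_reducible apply IntF.insert | with_reducible apply IntF.singleton | with_reducible apply IntF.union | with_reducible apply IntF.inter | with_reducible apply IntF.sdiff | with_reducible apply IntF.isUnion | with_reducible apply IntF.iimage | with_reducible apply IntF.the | with_reducible apply IntF.irec | with_reducible_and_instances apply IntF.add | with_reducible_and_instances apply IntF.mul | with_reducible apply IntF.succ | with_reducible apply IntF.val | with_reducible apply IntF.mk | (with_reducible refine Int.comp ?_ ?_; assumption) | (with_reducible refine Int.comp₂ ?_ ?_ ?_; assumption) | (with_reducible refine Int.comp₃ ?_ ?_ ?_ ?_; assumption) | (with_reducible refine IntF.comp ?_ ?_; assumption) | (with_reducible refine IntF.comp₂ ?_ ?_ ?_; assumption) | (with_reducible refine IntF.comp₃ ?_ ?_ ?_ ?_; assumption) | with_reducible apply IntF.pair))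
  have h1 := finP_bUnion (p := fun a => a ∈ T) ⟨T, hT, fun _ h => h⟩ hW fun a' _ =>
    fin_ngen hG (hS.insert a')
  obtain ⟨b', hb1, hb2⟩ := exists_gen hG hS h1
  push Not at hb2
  have h3 : T ⊆ clo G (insert b' S) := by
    intro a' ha1
    obtain ⟨q, hq, h4, h5, -⟩ := ext_both hG (Gn.rel hG ha' (hTs a' ha1)) (IFin.singleton b)
      IFin.empty
    obtain ⟨c, hc⟩ := h5 b (mem_singleton.2 rfl)
    have h6 : Mp q (insert a S) (insert a' S) :=
      (Mp.of_idr fun x hx => h4 x (mem_insert.2 (Or.inr hx))).insert
        (h4 _ (mem_insert.2 (Or.inl rfl)))
    have h7 : Gn G (insert a' S) c := Gn.pres hG hq h6 hc hb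
    have h8 := Gn.rel hG h7 (hb2 a' ha1)
    have h9 : insert (b, b') (insert (a, a') (idr S)) ∈ G := by
      refine hG.sub (hG.cmp hq h8) ?_
      rintro ⟨x, y⟩ hx
      rw [mem_cmp]
      rcases mem_insert.1 hx with hx | hx
      · rw [Prod.mk.injEq] at hx
        obtain ⟨rfl, rfl⟩ := hx
        exact ⟨c, hc, mem_insert.2 (Or.inl rfl)⟩
      rcases mem_insert.1 hx with hx | hx
      · rw [Prod.mk.injEq] at hx
        obtain ⟨rfl, rfl⟩ := hx
        exact ⟨y, h4 _ (mem_insert.2 (Or.inl rfl)),
          mem_insert.2 (Or.inr (mem_idr.2 ⟨rfl, mem_insert.2 (Or.inl rfl)⟩))⟩
      · obtain ⟨rfl, hxS⟩ := mem_idr.1 hx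
        exact ⟨x, h4 _ (mem_insert.2 (Or.inr hx)),
          mem_insert.2 (Or.inr (mem_idr.2 ⟨rfl, mem_insert.2 (Or.inr hxS)⟩))⟩
    have h10 : Mp (insert (b, b') (insert (a, a') (idr S))) (insert b S) (insert b' S) :=
      (Mp.of_idr fun x hx => mem_insert.2 (Or.inr (mem_insert.2 (Or.inr hx)))).insert
        (mem_insert.2 (Or.inl rfl))
    exact (clo_pres hG h9 h10 (mem_insert.2 (Or.inr (mem_insert.2 (Or.inl rfl))))).1 ha
  have hSb' := fin_clo hG (hS.insert b')
  have h11 : crd (clo G (insert b S)) = crd (clo G (insert b' S)) := by
    obtain ⟨q, hq, h4, h5, h6⟩ := ext_both hG (Gn.rel hG hb' hb1) hSb hSb'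
    have h7 : Mp q (insert b S) (insert b' S) :=
      (Mp.of_idr fun x hx => h4 x (mem_insert.2 (Or.inr hx))).insert
        (h4 _ (mem_insert.2 (Or.inl rfl)))
    exact Mp.crd hG hq hSb hSb' (Mp.clo hG hq h7 h5 h6)
  have h12 := crd_mono hSb' h3
  rw [hTc, ← h11] at h12
  exact absurd h12 (not_le.2 (INat.lt_succ_self _))

/-- Maximal extensions between closed sets. -/
theorem maxext {T T' : IPow M σ} (hT : IFin T) (hT' : IFin T') (cT : clo G T = T)
    (cT' : clo G T' = T') {p₀ : IPow M (σ × σ)} (hp₀ : p₀ ∈ G)
    (hd : ∀ a, Dm p₀ a → a ∈ T) (hr : ∀ a, Rg p₀ a → a ∈ T') :
    ∃ p, p ∈ G ∧ p₀ ⊆ p ∧ (∀ a, Dm p a → a ∈ T) ∧ (∀ a, Rg p a → a ∈ T') ∧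
      ((∀ a, a ∈ T → Dm p a) ∨ ∀ a, a ∈ T' → Rg p a) := by
  have hi : Int M (fun p : IPow M (σ × σ) => p ∈ G ∧ p₀ ⊆ p ∧ p ⊆ iprod T T') := by (repeat' (first | with_reducible exact IntF.id | with_reducible exact IntF.fst' | with_reducible exact IntF.snd' | with_reducible exact IntF.const _ | with_reducible exact Int.const _ | assumption | with_reducible apply Int.dm | with_reducible apply Int.rg | with_reducible apply Int.fn | with_reducible apply Int.ij | with_reducible apply Int.mv | with_reducible apply Int.gn | with_reducible apply IntF.idr | with_reducible apply IntF.inv' | with_reducible apply IntF.cmp | with_reducible apply IntF.clo | with_reducible apply Int.and | with_reducible apply Int.or | with_reducible apply Int.not | with_reducible apply Int.imp | with_reducible apply Int.iff | with_reducible apply Int.ne | with_reducible apply Int.eq | with_reducible apply Int.mem | with_reducible apply Int.subset | with_reducible apply Int.ltN | with_reducible apply Int.leN | with_reducible apply Int.fin | with_reducible apply Int.unique | with_reducible apply Int.all | with_reducible apply Int.ex | with_reducible apply IntF.fst | with_reducible apply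 IntF.snd | with_reducible apply IntF.app | with_reducible apply IntF.ite | with_reducible apply IntF.sep | with_reducible apply IntF.lam | with_reducible apply IntF.insert | with_reducible apply IntF.singleton | with_reducible apply IntF.union | with_reducible apply IntF.inter | with_reducible apply IntF.sdiff | with_reducible apply IntF.isUnion | with_reducible apply IntF.iimage | with_reducible apply IntF.the | with_reducible apply IntF.irec | with_reducible_and_instances apply IntF.add | with_reducible_and_instances apply IntF.mul | with_reducible apply IntF.succ | with_reducible apply IntF.val | with_reducible apply IntF.mk | (with_reducible refine Int.comp ?_ ?_; assumption) | (with_reducible refine Int.comp₂ ?_ ?_ ?_; assumption) | (with_reducible refine Int.comp₃ ?_ ?_ ?_ ?_; assumption) | (with_reducible refine IntF.comp ?_ ?_; assumption) | (with_reducible refine IntF.comp₂ ?_ ?_ ?_; assumption) | (with_reducible refine IntF.comp₃ ?_ ?_ ?_ ?_; assumption) | with_reducible apply IntF.pair))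
  have hfin : IFin (sep M fun p : IPow M (σ × σ) => p ∈ G ∧ p₀ ⊆ p ∧ p ⊆ iprod T T') :=
    (hT.prod hT').pow.subset fun p hp => mem_ipow.2 ((mem_sep hi).1 hp).2.2
  obtain ⟨p, hp, hmax⟩ := IFin.exists_min (lt := fun p q : IPow M (σ × σ) => q ⊆ p ∧ p ≠ q)
    (by (repeat' (first | with_reducible exact IntF.id | with_reducible exact IntF.fst' | with_reducible exact IntF.snd' | with_reducible exact IntF.const _ | with_reducible exact Int.const _ | assumption | with_reducible apply Int.dm | with_reducible apply Int.rg | with_reducible apply Int.fn | with_reducible apply Int.ij | with_reducible apply Int.mv | with_reducible apply Int.gn | with_reducible apply IntF.idr | with_reducible apply IntF.inv' | with_reducible apply IntF.cmp | with_reducible apply IntF.clo | with_reducible apply Int.and | with_reducible apply Int.or | with_reducible apply Int.not | with_reducible apply Int.imp | with_reducible apply Int.iff | with_reducible apply Int.ne | with_reducible apply Int.eq | with_reducible apply Int.mem | with_reducible apply Int.subset | with_reducible apply Int.ltN | with_reducible apply Int.leN | with_reducible apply Int.fin | with_reducible apply Int.unique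 | with_reducible apply Int.all | with_reducible apply Int.ex | with_reducible apply IntF.fst | with_reducible apply IntF.snd | with_reducible apply IntF.app | with_reducible apply IntF.ite | with_reducible apply IntF.sep | with_reducible apply IntF.lam | with_reducible apply IntF.insert | with_reducible apply IntF.singleton | with_reducible apply IntF.union | with_reducible apply IntF.inter | with_reducible apply IntF.sdiff | with_reducible apply IntF.isUnion | with_reducible apply IntF.iimage | with_reducible apply IntF.the | with_reducible apply IntF.irec | with_reducible_and_instances apply IntF.add | with_reducible_and_instances apply IntF.mul | with_reducible apply IntF.succ | with_reducible apply IntF.val | with_reducible apply IntF.mk | (with_reducible refine Int.comp ?_ ?_; assumption) | (with_reducible refine Int.comp₂ ?_ ?_ ?_; assumption) | (with_reducible refine Int.comp₃ ?_ ?_ ?_ ?_; assumption) | (with_reducible refine IntF.comp ?_ ?_; assumption) | (with_reducible refine IntF.comp₂ ?_ ?_ ?_; assumption) | (with_reducible refine IntF.comp₃ ?_ ?_ ?_ ?_; assumption) | with_reducible apply IntF.pair))) (fun a h => h.2 rfl) (fun a b c h1 h2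 => ⟨fun x hx => h1.1 x (h2.1 x hx), fun h3 => by
      subst h3
      exact h1.2 (IPow.ext' fun x => ⟨fun hx => h2.1 x hx, fun hx => h1.1 x hx⟩)⟩) hfin
    ⟨p₀, (mem_sep hi).2 ⟨hp₀, fun _ h => h, fun ⟨x, y⟩ hx =>
      mem_iprod.2 ⟨hd _ ⟨_, hx⟩, hr _ ⟨_, hx⟩⟩⟩⟩
  obtain ⟨hpG, hpp, hps⟩ := (mem_sep hi).1 hp
  have hdp : ∀ a, Dm p a → a ∈ T := fun a ⟨b, hb⟩ => (mem_iprod.1 (hps _ hb)).1
  have hrp : ∀ a, Rg p a → a ∈ T' := fun a ⟨b, hb⟩ => (mem_iprod.1 (hps _ hb)).2
  refine ⟨p, hpG, hpp, hdp, hrp, ?_⟩
  by_contra hno
  push Not at hno
  obtain ⟨⟨c, hcT, hc⟩, ⟨d, hdT, hd'⟩⟩ := hno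
  -- no proper extension
  have hno : ∀ x y, x ∈ T → y ∈ T' → ¬ (x, y) ∈ p → ¬ insert (x, y) p ∈ G := by
    intro x y hx hy hxy h1
    refine hmax (insert (x, y) p) ((mem_sep hi).2 ⟨h1, fun z hz => mem_insert.2
      (Or.inr (hpp z hz)), fun z hz => ?_⟩) ⟨fun z hz => mem_insert.2 (Or.inr hz), fun h2 =>
        hxy (h2 ▸ mem_insert.2 (Or.inl rfl))⟩
    rcases mem_insert.1 hz with rfl | hz
    · exact mem_iprod.2 ⟨hx, hy⟩
    · exact hps z hz
  have hDi : Int M (fun a : σ => Dm p a) := by (repeat' (first | with_reducible exact IntF.id | with_reducible exact IntF.fst' | with_reducible exact IntF.snd' | with_reducible exact IntF.const _ | with_reducible exact Int.const _ | assumption | with_reducible apply Int.dm | with_reducible apply Int.rg | with_reducible apply Int.fn | with_reducible apply Int.ij | with_reducible apply Int.mv | with_reducible apply Int.gn | with_reducible apply IntF.idr | with_reducible apply IntF.inv' | with_reducible apply IntF.cmp | with_reducible apply IntF.clo | with_reducible apply Int.and | with_reducible apply Int.or | with_reducible apply Int.not | with_reducible apply Int.imp | with_reducible apply Int.iff | with_reducible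 apply Int.ne | with_reducible apply Int.eq | with_reducible apply Int.mem | with_reducible apply Int.subset | with_reducible apply Int.ltN | with_reducible apply Int.leN | with_reducible apply Int.fin | with_reducible apply Int.unique | with_reducible apply Int.all | with_reducible apply Int.ex | with_reducible apply IntF.fst | with_reducible apply IntF.snd | with_reducible apply IntF.app | with_reducible apply IntF.ite | with_reducible apply IntF.sep | with_reducible apply IntF.lam | with_reducible apply IntF.insert | with_reducible apply IntF.singleton | with_reducible apply IntF.union | with_reducible apply IntF.inter | with_reducible apply IntF.sdiff | with_reducible apply IntF.isUnion | with_reducible apply IntF.iimage | with_reducible apply IntF.the | with_reducible apply IntF.irec | with_reducible_and_instances apply IntF.add | with_reducible_and_instances apply IntF.mul | with_reducible apply IntF.succ | with_reducible apply IntF.val | with_reducible apply IntF.mk | (with_reducible refine Int.comp ?_ ?_; assumption) | (with_reducible refine Int.comp₂ ?_ ?_ ?_; assumption) | (with_reducible refine Int.comp₃ ?_ ?_ ?_ ?_; assumption) | (with_reducible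 refine IntF.comp ?_ ?_; assumption) | (with_reducible refine IntF.comp₂ ?_ ?_ ?_; assumption) | (with_reducible refine IntF.comp₃ ?_ ?_ ?_ ?_; assumption) | with_reducible apply IntF.pair))
  have hEi : Int M (fun a : σ => Rg p a) := by (repeat' (first | with_reducible exact IntF.id | with_reducible exact IntF.fst' | with_reducible exact IntF.snd' | with_reducible exact IntF.const _ | with_reducible exact Int.const _ | assumption | with_reducible apply Int.dm | with_reducible apply Int.rg | with_reducible apply Int.fn | with_reducible apply Int.ij | with_reducible apply Int.mv | with_reducible apply Int.gn | with_reducible apply IntF.idr | with_reducible apply IntF.inv' | with_reducible apply IntF.cmp | with_reducible apply IntF.clo | with_reducible apply Int.and | with_reducible apply Int.or | with_reducible apply Int.not | with_reducible apply Int.imp | with_reducible apply Int.iff | with_reducible apply Int.ne | with_reducible apply Int.eq | with_reducible apply Int.mem | with_reducible apply Int.subset | with_reducible apply Int.ltN | with_reducible apply Int.leN | with_reducible apply Int.fin | with_reducible apply Int.unique | with_reducible apply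 Int.all | with_reducible apply Int.ex | with_reducible apply IntF.fst | with_reducible apply IntF.snd | with_reducible apply IntF.app | with_reducible apply IntF.ite | with_reducible apply IntF.sep | with_reducible apply IntF.lam | with_reducible apply IntF.insert | with_reducible apply IntF.singleton | with_reducible apply IntF.union | with_reducible apply IntF.inter | with_reducible apply IntF.sdiff | with_reducible apply IntF.isUnion | with_reducible apply IntF.iimage | with_reducible apply IntF.the | with_reducible apply IntF.irec | with_reducible_and_instances apply IntF.add | with_reducible_and_instances apply IntF.mul | with_reducible apply IntF.succ | with_reducible apply IntF.val | with_reducible apply IntF.mk | (with_reducible refine Int.comp ?_ ?_; assumption) | (with_reducible refine Int.comp₂ ?_ ?_ ?_; assumption) | (with_reducible refine Int.comp₃ ?_ ?_ ?_ ?_; assumption) | (with_reducible refine IntF.comp ?_ ?_; assumption) | (with_reducible refine IntF.comp₂ ?_ ?_ ?_; assumption) | (with_reducible refine IntF.comp₃ ?_ ?_ ?_ ?_; assumption) | with_reducible apply IntF.pair))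
  have hDf : IFin (sep M fun a : σ => Dm p a) := (fin_dm (hG.fin hpG)).fin hDi
  have hEf : IFin (sep M fun a : σ => Rg p a) := (fin_rg (hG.fin hpG)).fin hEi
  have hMp : Mp p (sep M fun a : σ => Dm p a) (sep M fun a : σ => Rg p a) := by
    constructor
    · intro x hx
      obtain ⟨y, hy⟩ := (mem_sep hDi).1 hx
      exact ⟨y, (mem_sep hEi).2 ⟨x, hy⟩, hy⟩
    · intro y hy
      obtain ⟨x, hx⟩ := (mem_sep hEi).1 hy
      exact ⟨x, (mem_sep hDi).2 ⟨y, hx⟩, hx⟩
  have hDT : clo G (sep M fun a : σ => Dm p a) ⊆ T := by
    intro x hx
    rw [← cT]
    exact clo_mono hG (fun z hz => hdp z ((mem_sep hDi).1 hz)) x hx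
  have hET : clo G (sep M fun a : σ => Rg p a) ⊆ T' := by
    intro x hx
    rw [← cT']
    exact clo_mono hG (fun z hz => hrp z ((mem_sep hEi).1 hz)) x hx
  obtain ⟨c', hc'⟩ := hG.ext hpG c
  have hMp' : Mp (insert (c, c') p) (sep M fun a : σ => Dm p a) (sep M fun a : σ => Rg p a) :=
    hMp.mono fun x hx => mem_insert.2 (Or.inr hx)
  by_cases h1 : c ∈ clo G (sep M fun a : σ => Dm p a)
  · have h2 := (clo_pres hG hc' hMp' (mem_insert.2 (Or.inl rfl))).1 h1
    exact hno c c' hcT (hET _ h2) (fun h3 => hc ⟨_, h3⟩) hc'
  · obtain ⟨d', hd''⟩ : ∃ d', insert (d', d) p ∈ G := by
      obtain ⟨d', h3⟩ := hG.ext (hG.inv hpG) d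
      refine ⟨d', ?_⟩
      have := hG.inv h3
      rwa [insert_inv, inv_inv'] at this
    have hMp'' : Mp (insert (d', d) p) (sep M fun a : σ => Dm p a) (sep M fun a : σ => Rg p a) :=
      hMp.mono fun x hx => mem_insert.2 (Or.inr hx)
    by_cases h2 : d ∈ clo G (sep M fun a : σ => Rg p a)
    · have h3 := (clo_pres hG hd'' hMp'' (mem_insert.2 (Or.inl rfl))).2 h2
      exact hno d' d (hDT _ h3) hdT (fun h3 => hd' ⟨_, h3⟩) hd''
    · rw [mem_clo, not_not] at h1 h2
      have h3 := Gn.pres hG hc' hMp' (mem_insert.2 (Or.inl rfl)) h1
      have h4 := Gn.rel hG h3 h2
      refine hno c d hcT hdT (fun h3 => hc ⟨_, h3⟩) (hG.sub (hG.cmp hc' h4) ?_)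
      rintro ⟨x, y⟩ hx
      rw [mem_cmp]
      rcases mem_insert.1 hx with hx | hx
      · rw [Prod.mk.injEq] at hx
        obtain ⟨rfl, rfl⟩ := hx
        exact ⟨c', mem_insert.2 (Or.inl rfl), mem_insert.2 (Or.inl rfl)⟩
      · exact ⟨y, mem_insert.2 (Or.inr hx), mem_insert.2 (Or.inr (mem_idr.2
          ⟨rfl, (mem_sep hEi).2 ⟨x, hx⟩⟩))⟩

/-- Closed sets of the same size are isomorphic over a finite map. -/
theorem homog {T T' : IPow M σ} (hT : IFin T) (hT' : IFin T') (cT : clo G T = T)
    (cT' : clo G T' = T') (hc : crd T ≤ crd T') {p₀ : IPow M (σ × σ)} (hp₀ : p₀ ∈ G)
    (hd : ∀ a, Dm p₀ a → a ∈ T) (hr : ∀ a, Rg p₀ a → a ∈ T') :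
    ∃ p, p ∈ G ∧ p₀ ⊆ p ∧ (∀ a, Dm p a ↔ a ∈ T) ∧ ∀ a, Rg p a → a ∈ T' := by
  obtain ⟨p, hp, h1, h2, h3, h4⟩ := maxext hG hT hT' cT cT' hp₀ hd hr
  refine ⟨p, hp, h1, fun a => ⟨h2 a, ?_⟩, h3⟩
  rcases h4 with h4 | h4
  · exact h4 a
  · intro ha
    by_contra hna
    have hDi : Int M (fun a : σ => Dm p a) := by (repeat' (first | with_reducible exact IntF.id | with_reducible exact IntF.fst' | with_reducible exact IntF.snd' | with_reducible exact IntF.const _ | with_reducible exact Int.const _ | assumption | with_reducible apply Int.dm | with_reducible apply Int.rg | with_reducible apply Int.fn | with_reducible apply Int.ij | with_reducible apply Int.mv | with_reducible apply Int.gn | with_reducible apply IntF.idr | with_reducible apply IntF.inv' | with_reducible apply IntF.cmp | with_reducible apply IntF.clo | with_reducible apply Int.and | with_reducible apply Int.or | with_reducible apply Int.not | with_reducible apply Int.imp | with_reducible apply Int.iff | with_reducible apply Int.ne | with_reducible apply Int.eq | with_reducible apply Int.mem | with_reducible apply Int.subset | with_reducible apply Int.ltN | with_reducible apply Int.leN | with_reducible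 apply Int.fin | with_reducible apply Int.unique | with_reducible apply Int.all | with_reducible apply Int.ex | with_reducible apply IntF.fst | with_reducible apply IntF.snd | with_reducible apply IntF.app | with_reducible apply IntF.ite | with_reducible apply IntF.sep | with_reducible apply IntF.lam | with_reducible apply IntF.insert | with_reducible apply IntF.singleton | with_reducible apply IntF.union | with_reducible apply IntF.inter | with_reducible apply IntF.sdiff | with_reducible apply IntF.isUnion | with_reducible apply IntF.iimage | with_reducible apply IntF.the | with_reducible apply IntF.irec | with_reducible_and_instances apply IntF.add | with_reducible_and_instances apply IntF.mul | with_reducible apply IntF.succ | with_reducible apply IntF.val | with_reducible apply IntF.mk | (with_reducible refine Int.comp ?_ ?_; assumption) | (with_reducible refine Int.comp₂ ?_ ?_ ?_; assumption) | (with_reducible refine Int.comp₃ ?_ ?_ ?_ ?_; assumption) | (with_reducible refine IntF.comp ?_ ?_; assumption) | (with_reducible refine IntF.comp₂ ?_ ?_ ?_; assumption) | (with_reducible refine IntF.comp₃ ?_ ?_ ?_ ?_; assumption) | with_reducible apply IntF.pair))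
    have hDf : IFin (sep M fun a : σ => Dm p a) := (fin_dm (hG.fin hp)).fin hDi
    have h5 : crd T' ≤ crd (sep M fun a : σ => Dm p a) :=
      crd_le (r := fun x : σ × σ => (x.2, x.1) ∈ p) (by (repeat' (first | with_reducible exact IntF.id | with_reducible exact IntF.fst' | with_reducible exact IntF.snd' | with_reducible exact IntF.const _ | with_reducible exact Int.const _ | assumption | with_reducible apply Int.dm | with_reducible apply Int.rg | with_reducible apply Int.fn | with_reducible apply Int.ij | with_reducible apply Int.mv | with_reducible apply Int.gn | with_reducible apply IntF.idr | with_reducible apply IntF.inv' | with_reducible apply IntF.cmp | with_reducible apply IntF.clo | with_reducible apply Int.and | with_reducible apply Int.or | with_reducible apply Int.not | with_reducible apply Int.imp | with_reducible apply Int.iff | with_reducible apply Int.ne | with_reducible apply Int.eq | with_reducible apply Int.mem | with_reducible apply Int.subset | with_reducible apply Int.ltN | with_reducible apply Int.leN | with_reducible apply Int.fin | with_reducible apply Int.unique | with_reducible apply Int.all | with_reducible apply Int.ex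 | with_reducible apply IntF.fst | with_reducible apply IntF.snd | with_reducible apply IntF.app | with_reducible apply IntF.ite | with_reducible apply IntF.sep | with_reducible apply IntF.lam | with_reducible apply IntF.insert | with_reducible apply IntF.singleton | with_reducible apply IntF.union | with_reducible apply IntF.inter | with_reducible apply IntF.sdiff | with_reducible apply IntF.isUnion | with_reducible apply IntF.iimage | with_reducible apply IntF.the | with_reducible apply IntF.irec | with_reducible_and_instances apply IntF.add | with_reducible_and_instances apply IntF.mul | with_reducible apply IntF.succ | with_reducible apply IntF.val | with_reducible apply IntF.mk | (with_reducible refine Int.comp ?_ ?_; assumption) | (with_reducible refine Int.comp₂ ?_ ?_ ?_; assumption) | (with_reducible refine Int.comp₃ ?_ ?_ ?_ ?_; assumption) | (with_reducible refine IntF.comp ?_ ?_; assumption) | (with_reducible refine IntF.comp₂ ?_ ?_ ?_; assumption) | (with_reducible refine IntF.comp₃ ?_ ?_ ?_ ?_; assumption) | with_reducible apply IntF.pair))) T' hT' _ hDf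
        (fun x y z _ _ _ h5 h6 => hG.fn hp _ _ _ h5 h6) fun b hb => by
          obtain ⟨a, ha⟩ := h4 b hb
          exact ⟨a, (mem_sep hDi).2 ⟨b, ha⟩, ha⟩
    have h6 : crd (sep M fun a : σ => Dm p a) < crd T :=
      crd_lt hT (fun x hx => h2 x ((mem_sep hDi).1 hx)) ha fun h7 => hna ((mem_sep hDi).1 h7)
    exact absurd (hc.trans h5) (not_le.2 h6)

end

/-- The groupoid of a function. -/
theorem gpd_GG {f : IPow M σ × IPow M σ → IPow M σ × IPow M σ} (hA : Amo M σ) (hf : IntF M f) :
    Gpd (GG (M := M) f) where
  amo := hA
  fin := GG_fin hf
  fn := GG_fn hf
  ij := GG_ij hf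
  sub := GG_sub hf
  idr := GG_idr hf
  inv := GG_inv hf
  cmp := GG_cmp hA hf
  ext := GG_ext hA
  gen := by
    intro D hD
    have hP := int_PP (M := M) (f := f)
    have hi : Int M (fun q : INat M × σ =>
        FinP M (fun b => ¬ insert (q.2, b) (PG.idr D) ∈ PP f q.1)) := by
      unfold FinP
      (repeat' (first | with_reducible exact IntF.id | with_reducible exact IntF.fst' | with_reducible exact IntF.snd' | with_reducible exact IntF.const _ | with_reducible exact Int.const _ | assumption | with_reducible apply Int.dm | with_reducible apply Int.rg | with_reducible apply Int.fn | with_reducible apply Int.ij | with_reducible apply Int.mv | with_reducible apply Int.gn | with_reducible apply IntF.idr | with_reducible apply IntF.inv' | with_reducible apply IntF.cmp | with_reducible apply IntF.clo | with_reducible apply Int.and | with_reducible apply Int.or | with_reducible apply Int.not | with_reducible apply Int.imp | with_reducible apply Int.iff | with_reducible apply Int.ne | with_reducible apply Int.eq | with_reducible apply Int.mem | with_reducible apply Int.subset | with_reducible apply Int.ltN | with_reducible apply Int.leN | with_reducible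 apply Int.fin | with_reducible apply Int.unique | with_reducible apply Int.all | with_reducible apply Int.ex | with_reducible apply IntF.fst | with_reducible apply IntF.snd | with_reducible apply IntF.app | with_reducible apply IntF.ite | with_reducible apply IntF.sep | with_reducible apply IntF.lam | with_reducible apply IntF.insert | with_reducible apply IntF.singleton | with_reducible apply IntF.union | with_reducible apply IntF.inter | with_reducible apply IntF.sdiff | with_reducible apply IntF.isUnion | with_reducible apply IntF.iimage | with_reducible apply IntF.the | with_reducible apply IntF.irec | with_reducible_and_instances apply IntF.add | with_reducible_and_instances apply IntF.mul | with_reducible apply IntF.succ | with_reducible apply IntF.val | with_reducible apply IntF.mk | (with_reducible refine Int.comp ?_ ?_; assumption) | (with_reducible refine Int.comp₂ ?_ ?_ ?_; assumption) | (with_reducible refine Int.comp₃ ?_ ?_ ?_ ?_; assumption) | (with_reducible refine IntF.comp ?_ ?_; assumption) | (with_reducible refine IntF.comp₂ ?_ ?_ ?_; assumption) | (with_reducible refine IntF.comp₃ ?_ ?_ ?_ ?_; assumption) | with_reducible apply IntF.pair))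
    have h1 : ∀ n : INat M, FinP M (fun a =>
        ¬ FinP M (fun b => ¬ insert (a, b) (PG.idr D) ∈ PP f n)) := by
      intro n
      obtain ⟨a, ha⟩ := exists_class hA hf n hD
      refine ha.mono fun b hb h => hb (ha.mono fun c hc h2 => hc ?_)
      refine PP_sub hf n _ _ (PP_cmp hA.inf hf n _ _ (PP_inv hf n _ h) h2) ?_
      rintro ⟨x, y⟩ hx
      rw [mem_cmp]
      rcases mem_insert.1 hx with hx | hx
      · rw [Prod.mk.injEq] at hx
        obtain ⟨rfl, rfl⟩ := hx
        exact ⟨a, mem_inv.2 (mem_insert.2 (Or.inl rfl)), mem_insert.2 (Or.inl rfl)⟩
      · obtain ⟨rfl, hxD⟩ := mem_idr.1 hx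
        exact ⟨x, mem_inv.2 (mem_insert.2 (Or.inr hx)), mem_insert.2 (Or.inr hx)⟩
    have h2 := hA.nat (fun q => ¬ FinP M (fun b => ¬ insert (q.2, b) (PG.idr D) ∈ PP f q.1))
      hi.not fun n _ => h1 n
    obtain ⟨a, ha⟩ := exists_not hA.inf h2
    have ha' : ∀ n : INat M, FinP M (fun b => ¬ insert (a, b) (PG.idr D) ∈ PP f n) := by
      intro n
      by_contra h3
      exact ha ⟨n, trivial, h3⟩
    refine ⟨a, (hA.nat (fun q => ¬ insert (a, q.2) (PG.idr D) ∈ PP f q.1) (by (repeat' (first | with_reducible exact IntF.id | with_reducible exact IntF.fst' | with_reducible exact IntF.snd' | with_reducible exact IntF.const _ | with_reducible exact Int.const _ | assumption | with_reducible apply Int.dm | with_reducible apply Int.rg | with_reducible apply Int.fn | with_reducible apply Int.ij | with_reducible apply Int.mv | with_reducible apply Int.gn | with_reducible apply IntF.idr | with_reducible apply IntF.inv' | with_reducible apply IntF.cmp | with_reducible apply IntF.clo | with_reducible apply Int.and | with_reducible apply Int.or | with_reducible apply Int.not | with_reducible apply Int.imp | with_reducible apply Int.iff | with_reducible apply Int.ne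 | with_reducible apply Int.eq | with_reducible apply Int.mem | with_reducible apply Int.subset | with_reducible apply Int.ltN | with_reducible apply Int.leN | with_reducible apply Int.fin | with_reducible apply Int.unique | with_reducible apply Int.all | with_reducible apply Int.ex | with_reducible apply IntF.fst | with_reducible apply IntF.snd | with_reducible apply IntF.app | with_reducible apply IntF.ite | with_reducible apply IntF.sep | with_reducible apply IntF.lam | with_reducible apply IntF.insert | with_reducible apply IntF.singleton | with_reducible apply IntF.union | with_reducible apply IntF.inter | with_reducible apply IntF.sdiff | with_reducible apply IntF.isUnion | with_reducible apply IntF.iimage | with_reducible apply IntF.the | with_reducible apply IntF.irec | with_reducible_and_instances apply IntF.add | with_reducible_and_instances apply IntF.mul | with_reducible apply IntF.succ | with_reducible apply IntF.val | with_reducible apply IntF.mk | (with_reducible refine Int.comp ?_ ?_; assumption) | (with_reducible refine Int.comp₂ ?_ ?_ ?_; assumption) | (with_reducible refine Int.comp₃ ?_ ?_ ?_ ?_; assumption) | (with_reducible refine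 IntF.comp ?_ ?_; assumption) | (with_reducible refine IntF.comp₂ ?_ ?_ ?_; assumption) | (with_reducible refine IntF.comp₃ ?_ ?_ ?_ ?_; assumption) | with_reducible apply IntF.pair)))
      fun n _ => ha' n).mono fun b hb => ?_⟩
    by_contra h3
    push Not at h3
    exact hb (mem_GG.2 fun n => h3 n trivial)

end Pool.Agent.Q207.PG
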