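import Pool.Agent.Q212.ZA2
import Pool.Agent.H310R3.NA1

/-!
# Counting in a model
-/

set_option maxHeartbeats 1000000
set_option linter.all false

namespace Pool.Agent.Q207.PG

open FirstOrder FirstOrder.Language
open Pool.Agent.Helper672.ZFA
open Pool.Agent.H310
open Pool.Agent.Q212.ZA

universe u u₁ u₂ u₃ u₄

variable {M : Type u} [L.Structure M] [hM : IsModel M]
variable {α : Type u₁} {β : Type u₂} {γ : Type u₃} [ITy M α] [ITy M β] [ITy M γ]

theorem hcrd' : IntF M (fun s : IPow M α => crd s) := int_crd

theorem IntF.crd {s : γ → IPow M α} (hs : IntF M s) : IntF M (fun c => Q212.ZA.crd (s c)) :=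
  IntF.comp int_crd hs

theorem insert_sdiff {t : IPow M α} {b : α} (hb : b ∈ t) : t = insert b (t \ {b}) :=
  IPow.ext' fun x => by
    rw [mem_insert, mem_sdiff, mem_singleton]
    constructor
    · intro h
      by_cases h1 : x = b
      · exact Or.inl h1
      · exact Or.inr ⟨h, h1⟩
    · rintro (rfl | h)
      · exact hb
      · exact h.1

theorem crd_erase {t : IPow M α} (ht : IFin t) {b : α} (hb : b ∈ t) :
    crd t = (crd (t \ {b})).succ := by
  have h : IFin (t \ {b}) := ht.subset fun x hx => (mem_sdiff.1 hx).1
  conv_lhs => rw [insert_sdiff hb]
  exact crd_insert h fun h1 => (mem_sdiff.1 h1).2 (mem_singleton.2 rfl)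

theorem crd_le {r : α × β → Prop} (hr : Int M r) : ∀ s : IPow M α, IFin s →
    ∀ t : IPow M β, IFin t → (∀ a a' b, a ∈ s → a' ∈ s → b ∈ t → r (a, b) → r (a', b) → a = a') →
      (∀ a, a ∈ s → ∃ b, b ∈ t ∧ r (a, b)) → crd s ≤ crd t := by
  have hr' : Int M (fun q : α × β => r (q.1, q.2)) := hr
  have hc : IntF M (fun s : IPow M α => crd s) := int_crd
  have hc' : IntF M (fun s : IPow M β => crd s) := int_crd
  refine IFin.ind (p := fun s : IPow M α => ∀ t : IPow M β, IFin t →
    (∀ a a' b, a ∈ s → a' ∈ s → b ∈ t → r (a, b) → r (a', b) → a = a') →
      (∀ a, a ∈ s → ∃ b, b ∈ t ∧ r (a, b)) → crd s ≤ crd t) (by (repeat' (first | with_reducible exact IntF.id | with_reducible exact IntF.fst' | with_reducible exact IntF.snd' | with_reducible exact IntF.const _ | with_reducible exact Int.const _ | assumption | with_reducible apply Int.and | with_reducible apply Int.or | with_reducible apply Int.not | with_reducible apply Int.imp | with_reducible apply Int.iff | with_reducible apply Int.ne | with_reducible apply Int.eq | with_reducible apply Int.mem | with_reducible apply Int.subset | with_reducible apply Int.ltN | with_reducible apply Int.leN | with_reducible apply Int.fin | with_reducible apply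 Int.unique | with_reducible apply Int.all | with_reducible apply Int.ex | with_reducible apply IntF.fst | with_reducible apply IntF.snd | with_reducible apply IntF.app | with_reducible apply IntF.ite | with_reducible apply IntF.sep | with_reducible apply IntF.lam | with_reducible apply IntF.insert | with_reducible apply IntF.singleton | with_reducible apply IntF.union | with_reducible apply IntF.inter | with_reducible apply IntF.sdiff | with_reducible apply IntF.isUnion | with_reducible apply IntF.iimage | with_reducible apply IntF.the | with_reducible apply IntF.irec | with_reducible_and_instances apply IntF.add | with_reducible_and_instances apply IntF.mul | with_reducible apply IntF.succ | with_reducible apply IntF.val | with_reducible apply IntF.mk | (with_reducible refine Int.comp ?_ ?_; assumption) | (with_reducible refine Int.comp₂ ?_ ?_ ?_; assumption) | (with_reducible refine Int.comp₃ ?_ ?_ ?_ ?_; assumption) | (with_reducible refine IntF.comp ?_ ?_; assumption) | (with_reducible refine IntF.comp₂ ?_ ?_ ?_; assumption) | (with_reducible refine IntF.comp₃ ?_ ?_ ?_ ?_; assumption) | with_reducible apply IntF.pair))) ?_ ?_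
  · intro t _ _ _
    rw [crd_empty]
    exact INat.zero_le _
  · intro s a hs ha ih t ht inj h
    obtain ⟨b, hb, hab⟩ := h a (mem_insert.2 (Or.inl rfl))
    rw [crd_insert hs ha, crd_erase ht hb]
    have h1 : IFin (t \ {b}) := ht.subset fun x hx => (mem_sdiff.1 hx).1
    have h2 := ih (t \ {b}) h1 (fun a a' c h3 h4 h5 => inj a a' c (mem_insert.2 (Or.inr h3))
      (mem_insert.2 (Or.inr h4)) (mem_sdiff.1 h5).1) (fun a' ha' => by
        obtain ⟨c, hc, hac⟩ := h a' (mem_insert.2 (Or.inr ha'))
        refine ⟨c, mem_sdiff.2 ⟨hc, fun h3 => ?_⟩, hac⟩
        rw [mem_singleton] at h3
        subst h3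
        have := inj a a' c (mem_insert.2 (Or.inl rfl)) (mem_insert.2 (Or.inr ha')) hb hab hac
        exact ha (this ▸ ha'))
    exact INat.succ_le_iff.2 (INat.lt_succ_iff.2 h2)

theorem crd_mono {s t : IPow M α} (ht : IFin t) (h : s ⊆ t) : crd s ≤ crd t :=
  crd_le (r := fun q : α × α => q.1 = q.2) (by (repeat' (first | with_reducible exact IntF.id | with_reducible exact IntF.fst' | with_reducible exact IntF.snd' | with_reducible exact IntF.const _ | with_reducible exact Int.const _ | assumption | with_reducible apply Int.and | with_reducible apply Int.or | with_reducible apply Int.not | with_reducible apply Int.imp | with_reducible apply Int.iff | with_reducible apply Int.ne | with_reducible apply Int.eq | with_reducible apply Int.mem | with_reducible apply Int.subset | with_reducible apply Int.ltN | with_reducible apply Int.leN | with_reducible apply Int.fin | with_reducible apply Int.unique | with_reducible apply Int.all | with_reducible apply Int.ex | with_reducible apply IntF.fst | with_reducible apply IntF.snd | with_reducible apply IntF.app | with_reducible apply IntF.ite | with_reducible apply IntF.sep | with_reducible apply IntF.lam | with_reducible apply IntF.insert | with_reducible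 apply IntF.singleton | with_reducible apply IntF.union | with_reducible apply IntF.inter | with_reducible apply IntF.sdiff | with_reducible apply IntF.isUnion | with_reducible apply IntF.iimage | with_reducible apply IntF.the | with_reducible apply IntF.irec | with_reducible_and_instances apply IntF.add | with_reducible_and_instances apply IntF.mul | with_reducible apply IntF.succ | with_reducible apply IntF.val | with_reducible apply IntF.mk | (with_reducible refine Int.comp ?_ ?_; assumption) | (with_reducible refine Int.comp₂ ?_ ?_ ?_; assumption) | (with_reducible refine Int.comp₃ ?_ ?_ ?_ ?_; assumption) | (with_reducible refine IntF.comp ?_ ?_; assumption) | (with_reducible refine IntF.comp₂ ?_ ?_ ?_; assumption) | (with_reducible refine IntF.comp₃ ?_ ?_ ?_ ?_; assumption) | with_reducible apply IntF.pair))) s (ht.subset h) t ht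
    (fun a a' b _ _ _ h1 h2 => h1.trans h2.symm) (fun a ha => ⟨a, h a ha, rfl⟩)

theorem crd_lt {s t : IPow M α} (ht : IFin t) (h : s ⊆ t) {b : α} (hb : b ∈ t) (hb' : ¬ b ∈ s) :
    crd s < crd t := by
  rw [crd_erase ht hb]
  refine INat.lt_succ_iff.2 (crd_mono (ht.subset fun x hx => (mem_sdiff.1 hx).1) fun x hx =>
    mem_sdiff.2 ⟨h x hx, fun h1 => ?_⟩)
  rw [mem_singleton] at h1
  exact hb' (h1 ▸ hx)

theorem eq_of_crd {s t : IPow M α} (ht : IFin t) (h : s ⊆ t) (hc : crd t ≤ crd s) : s = t :=
  IPow.ext' fun x => ⟨fun hx => h x hx, fun hx => by
    by_contra h1
    exact absurd hc (not_le.2 (crd_lt ht h hx h1))⟩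

theorem crd_surj {r : α × β → Prop} (hr : Int M r) {s : IPow M α} (hs : IFin s)
    {t : IPow M β} (ht : IFin t)
    (inj : ∀ a a' b, a ∈ s → a' ∈ s → b ∈ t → r (a, b) → r (a', b) → a = a')
    (h : ∀ a, a ∈ s → ∃ b, b ∈ t ∧ r (a, b)) (hc : crd t ≤ crd s) :
    ∀ b, b ∈ t → ∃ a, a ∈ s ∧ r (a, b) := by
  intro b hb
  by_contra hn
  push Not at hn
  have h1 : IFin (t \ {b}) := ht.subset fun x hx => (mem_sdiff.1 hx).1
  have h2 : crd s ≤ crd (t \ {b}) := crd_le hr s hs _ h1
    (fun a a' c h3 h4 h5 => inj a a' c h3 h4 (mem_sdiff.1 h5).1) fun a ha => by
      obtain ⟨c, hc, hac⟩ := h a ha
      refine ⟨c, mem_sdiff.2 ⟨hc, fun h3 => ?_⟩, hac⟩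
      rw [mem_singleton] at h3
      subst h3
      exact hn a ha hac
  rw [crd_erase ht hb] at hc
  exact absurd (hc.trans h2) (not_le.2 (INat.lt_succ_self _))

theorem crd_sdiff : ∀ t : IPow M α, IFin t → ∀ s : IPow M α, IFin s → t ⊆ s →
    crd s = crd (s \ t) + crd t := by
  have hc : IntF M (fun s : IPow M α => crd s) := int_crd
  have ha : IntF M (fun q : INat M × INat M => q.1 + q.2) := by (repeat' (first | with_reducible exact IntF.id | with_reducible exact IntF.fst' | with_reducible exact IntF.snd' | with_reducible exact IntF.const _ | with_reducible exact Int.const _ | assumption | with_reducible apply Int.and | with_reducible apply Int.or | with_reducible apply Int.not | with_reducible apply Int.imp | with_reducible apply Int.iff | with_reducible apply Int.ne | with_reducible apply Int.eq | with_reducible apply Int.mem | with_reducible apply Int.subset | with_reducible apply Int.ltN | with_reducible apply Int.leN | with_reducible apply Int.fin | with_reducible apply Int.unique | with_reducible apply Int.all | with_reducible apply Int.ex | with_reducible apply IntF.fst | with_reducible apply IntF.snd | with_reducible apply IntF.app | with_reducible apply IntF.ite | with_reducible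 apply IntF.sep | with_reducible apply IntF.lam | with_reducible apply IntF.insert | with_reducible apply IntF.singleton | with_reducible apply IntF.union | with_reducible apply IntF.inter | with_reducible apply IntF.sdiff | with_reducible apply IntF.isUnion | with_reducible apply IntF.iimage | with_reducible apply IntF.the | with_reducible apply IntF.irec | with_reducible_and_instances apply IntF.add | with_reducible_and_instances apply IntF.mul | with_reducible apply IntF.succ | with_reducible apply IntF.val | with_reducible apply IntF.mk | (with_reducible refine Int.comp ?_ ?_; assumption) | (with_reducible refine Int.comp₂ ?_ ?_ ?_; assumption) | (with_reducible refine Int.comp₃ ?_ ?_ ?_ ?_; assumption) | (with_reducible refine IntF.comp ?_ ?_; assumption) | (with_reducible refine IntF.comp₂ ?_ ?_ ?_; assumption) | (with_reducible refine IntF.comp₃ ?_ ?_ ?_ ?_; assumption) | with_reducible apply IntF.pair))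
  refine IFin.ind (p := fun t : IPow M α => ∀ s : IPow M α, IFin s → t ⊆ s →
    crd s = crd (s \ t) + crd t) (by (repeat' (first | with_reducible exact IntF.id | with_reducible exact IntF.fst' | with_reducible exact IntF.snd' | with_reducible exact IntF.const _ | with_reducible exact Int.const _ | assumption | with_reducible apply Int.and | with_reducible apply Int.or | with_reducible apply Int.not | with_reducible apply Int.imp | with_reducible apply Int.iff | with_reducible apply Int.ne | with_reducible apply Int.eq | with_reducible apply Int.mem | with_reducible apply Int.subset | with_reducible apply Int.ltN | with_reducible apply Int.leN | with_reducible apply Int.fin | with_reducible apply Int.unique | with_reducible apply Int.all | with_reducible apply Int.ex | with_reducible apply IntF.fst | with_reducible apply IntF.snd | with_reducible apply IntF.app | with_reducible apply IntF.ite | with_reducible apply IntF.sep | with_reducible apply IntF.lam | with_reducible apply IntF.insert | with_reducible apply IntF.singleton | with_reducible apply IntF.union | with_reducible apply IntF.inter | with_reducible apply IntF.sdiff | with_reducible apply IntF.isUnion | with_reducible apply IntF.iimage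 | with_reducible apply IntF.the | with_reducible apply IntF.irec | with_reducible_and_instances apply IntF.add | with_reducible_and_instances apply IntF.mul | with_reducible apply IntF.succ | with_reducible apply IntF.val | with_reducible apply IntF.mk | (with_reducible refine Int.comp ?_ ?_; assumption) | (with_reducible refine Int.comp₂ ?_ ?_ ?_; assumption) | (with_reducible refine Int.comp₃ ?_ ?_ ?_ ?_; assumption) | (with_reducible refine IntF.comp ?_ ?_; assumption) | (with_reducible refine IntF.comp₂ ?_ ?_ ?_; assumption) | (with_reducible refine IntF.comp₃ ?_ ?_ ?_ ?_; assumption) | with_reducible apply IntF.pair))) ?_ ?_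
  · intro s _ _
    have : s \ (∅ : IPow M α) = s := IPow.ext' fun x => by simp
    rw [this, crd_empty, INat.add_zero']
  · intro t a ht ha ih s hs hts
    rw [crd_insert ht ha, INat.add_succ', ← INat.succ_add']
    have h1 := ih s hs fun x hx => hts x (mem_insert.2 (Or.inr hx))
    have h2 : a ∈ s \ t := mem_sdiff.2 ⟨hts a (mem_insert.2 (Or.inl rfl)), ha⟩
    have h3 : IFin (s \ t) := hs.subset fun x hx => (mem_sdiff.1 hx).1
    have h4 : (s \ t) \ {a} = s \ insert a t := IPow.ext' fun x => by
      simp only [mem_sdiff, mem_singleton, mem_insert]
      tauto
    rw [h1, crd_erase h3 h2, h4]

theorem exists_sub {p : α → Prop} (hp : Int M p) (hinf : ¬ FinP M p) (n : INat M) :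
    ∃ T : IPow M α, IFin T ∧ (∀ x, x ∈ T → p x) ∧ crd T = n := by
  have hc : IntF M (fun s : IPow M α => crd s) := int_crd
  refine INat.ind (p := fun n : INat M => ∃ T : IPow M α, IFin T ∧ (∀ x, x ∈ T → p x) ∧
    crd T = n) (by (repeat' (first | with_reducible exact IntF.id | with_reducible exact IntF.fst' | with_reducible exact IntF.snd' | with_reducible exact IntF.const _ | with_reducible exact Int.const _ | assumption | with_reducible apply Int.and | with_reducible apply Int.or | with_reducible apply Int.not | with_reducible apply Int.imp | with_reducible apply Int.iff | with_reducible apply Int.ne | with_reducible apply Int.eq | with_reducible apply Int.mem | with_reducible apply Int.subset | with_reducible apply Int.ltN | with_reducible apply Int.leN | with_reducible apply Int.fin | with_reducible apply Int.unique | with_reducible apply Int.all | with_reducible apply Int.ex | with_reducible apply IntF.fst | with_reducible apply IntF.snd | with_reducible apply IntF.app | with_reducible apply IntF.ite | with_reducible apply IntF.sep | with_reducible apply IntF.lam | with_reducible apply IntF.insert | with_reducible apply IntF.singleton | with_reducible apply IntF.union | with_reducible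 apply IntF.inter | with_reducible apply IntF.sdiff | with_reducible apply IntF.isUnion | with_reducible apply IntF.iimage | with_reducible apply IntF.the | with_reducible apply IntF.irec | with_reducible_and_instances apply IntF.add | with_reducible_and_instances apply IntF.mul | with_reducible apply IntF.succ | with_reducible apply IntF.val | with_reducible apply IntF.mk | (with_reducible refine Int.comp ?_ ?_; assumption) | (with_reducible refine Int.comp₂ ?_ ?_ ?_; assumption) | (with_reducible refine Int.comp₃ ?_ ?_ ?_ ?_; assumption) | (with_reducible refine IntF.comp ?_ ?_; assumption) | (with_reducible refine IntF.comp₂ ?_ ?_ ?_; assumption) | (with_reducible refine IntF.comp₃ ?_ ?_ ?_ ?_; assumption) | with_reducible apply IntF.pair))) ?_ ?_ n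
  · exact ⟨∅, IFin.empty, fun x hx => absurd hx (by simp), crd_empty⟩
  · rintro n ⟨T, hT, hTp, rfl⟩
    have : ∃ x, p x ∧ ¬ x ∈ T := by
      by_contra h
      push Not at h
      exact hinf ⟨T, hT, h⟩
    obtain ⟨x, hx, hxT⟩ := this
    refine ⟨insert x T, hT.insert x, fun y hy => ?_, crd_insert hT hxT⟩
    rcases mem_insert.1 hy with rfl | hy
    · exact hx
    · exact hTp y hy

theorem finP_bUnion {p : α → Prop} (hp : FinP M p) {W : α × β → Prop} (hW : Int M W)
    (h : ∀ a, p a → FinP M (fun b => W (a, b))) : FinP M (fun b => ∃ a, p a ∧ W (a, b)) := by
  have hW' : Int M (fun q : α × β => W (q.1, q.2)) := hW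
  obtain ⟨s, hs, hsp⟩ := hp
  have key : ∀ s : IPow M α, IFin s → (∀ a, a ∈ s → FinP M (fun b => W (a, b))) →
      FinP M (fun b => ∃ a, a ∈ s ∧ W (a, b)) := by
    unfold FinP
    refine IFin.ind (p := fun s : IPow M α => (∀ a, a ∈ s → ∃ t : IPow M β, IFin t ∧
      ∀ b, W (a, b) → b ∈ t) → ∃ t : IPow M β, IFin t ∧ ∀ b, (∃ a, a ∈ s ∧ W (a, b)) → b ∈ t)
      (by (repeat' (first | with_reducible exact IntF.id | with_reducible exact IntF.fst' | with_reducible exact IntF.snd' | with_reducible exact IntF.const _ | with_reducible exact Int.const _ | assumption | with_reducible apply Int.and | with_reducible apply Int.or | with_reducible apply Int.not | with_reducible apply Int.imp | with_reducible apply Int.iff | with_reducible apply Int.ne | with_reducible apply Int.eq | with_reducible apply Int.mem | with_reducible apply Int.subset | with_reducible apply Int.ltN | with_reducible apply Int.leN | with_reducible apply Int.fin | with_reducible apply Int.unique | with_reducible apply Int.all | with_reducible apply Int.ex | with_reducible apply IntF.fst | with_reducible apply IntF.snd | with_reducible apply IntF.app | with_reducible apply IntF.ite | with_reducible apply IntF.sep | with_reducible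 apply IntF.lam | with_reducible apply IntF.insert | with_reducible apply IntF.singleton | with_reducible apply IntF.union | with_reducible apply IntF.inter | with_reducible apply IntF.sdiff | with_reducible apply IntF.isUnion | with_reducible apply IntF.iimage | with_reducible apply IntF.the | with_reducible apply IntF.irec | with_reducible_and_instances apply IntF.add | with_reducible_and_instances apply IntF.mul | with_reducible apply IntF.succ | with_reducible apply IntF.val | with_reducible apply IntF.mk | (with_reducible refine Int.comp ?_ ?_; assumption) | (with_reducible refine Int.comp₂ ?_ ?_ ?_; assumption) | (with_reducible refine Int.comp₃ ?_ ?_ ?_ ?_; assumption) | (with_reducible refine IntF.comp ?_ ?_; assumption) | (with_reducible refine IntF.comp₂ ?_ ?_ ?_; assumption) | (with_reducible refine IntF.comp₃ ?_ ?_ ?_ ?_; assumption) | with_reducible apply IntF.pair))) ?_ ?_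
    · intro _
      exact ⟨∅, IFin.empty, fun b ⟨a, ha, _⟩ => absurd ha (by simp)⟩
    · intro s a _ _ ih h
      obtain ⟨t, ht, h1⟩ := ih fun a' ha' => h a' (mem_insert.2 (Or.inr ha'))
      obtain ⟨t', ht', h2⟩ := h a (mem_insert.2 (Or.inl rfl))
      refine ⟨t ∪ t', ht.union ht', fun b => ?_⟩
      rintro ⟨a', ha', hb⟩
      rw [mem_union]
      rcases mem_insert.1 ha' with rfl | ha'
      · exact Or.inr (h2 b hb)
      · exact Or.inl (h1 b ⟨a', ha', hb⟩)
  by_cases hi : ∀ a, a ∈ s → FinP M (fun b => W (a, b))
  · exact (key s hs hi).mono fun b ⟨a, ha, hb⟩ => ⟨a, hsp a ha, hb⟩
  · -- replace `s` by the part where the fibres are finite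
    have hi1 : Int M (fun a => FinP M (fun b => W (a, b))) := by
      unfold FinP
      (repeat' (first | with_reducible exact IntF.id | with_reducible exact IntF.fst' | with_reducible exact IntF.snd' | with_reducible exact IntF.const _ | with_reducible exact Int.const _ | assumption | with_reducible apply Int.and | with_reducible apply Int.or | with_reducible apply Int.not | with_reducible apply Int.imp | with_reducible apply Int.iff | with_reducible apply Int.ne | with_reducible apply Int.eq | with_reducible apply Int.mem | with_reducible apply Int.subset | with_reducible apply Int.ltN | with_reducible apply Int.leN | with_reducible apply Int.fin | with_reducible apply Int.unique | with_reducible apply Int.all | with_reducible apply Int.ex | with_reducible apply IntF.fst | with_reducible apply IntF.snd | with_reducible apply IntF.app | with_reducible apply IntF.ite | with_reducible apply IntF.sep | with_reducible apply IntF.lam | with_reducible apply IntF.insert | with_reducible apply IntF.singleton | with_reducible apply IntF.union | with_reducible apply IntF.inter | with_reducible apply IntF.sdiff | with_reducible apply IntF.isUnion | with_reducible apply IntF.iimage | with_reducible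 apply IntF.the | with_reducible apply IntF.irec | with_reducible_and_instances apply IntF.add | with_reducible_and_instances apply IntF.mul | with_reducible apply IntF.succ | with_reducible apply IntF.val | with_reducible apply IntF.mk | (with_reducible refine Int.comp ?_ ?_; assumption) | (with_reducible refine Int.comp₂ ?_ ?_ ?_; assumption) | (with_reducible refine Int.comp₃ ?_ ?_ ?_ ?_; assumption) | (with_reducible refine IntF.comp ?_ ?_; assumption) | (with_reducible refine IntF.comp₂ ?_ ?_ ?_; assumption) | (with_reducible refine IntF.comp₃ ?_ ?_ ?_ ?_; assumption) | with_reducible apply IntF.pair))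
    have h1 : IFin (sep M fun a => a ∈ s ∧ FinP M (fun b => W (a, b))) := hs.subset fun x hx =>
      ((mem_sep (by (repeat' (first | with_reducible exact IntF.id | with_reducible exact IntF.fst' | with_reducible exact IntF.snd' | with_reducible exact IntF.const _ | with_reducible exact Int.const _ | assumption | with_reducible apply Int.and | with_reducible apply Int.or | with_reducible apply Int.not | with_reducible apply Int.imp | with_reducible apply Int.iff | with_reducible apply Int.ne | with_reducible apply Int.eq | with_reducible apply Int.mem | with_reducible apply Int.subset | with_reducible apply Int.ltN | with_reducible apply Int.leN | with_reducible apply Int.fin | with_reducible apply Int.unique | with_reducible apply Int.all | with_reducible apply Int.ex | with_reducible apply IntF.fst | with_reducible apply IntF.snd | with_reducible apply IntF.app | with_reducible apply IntF.ite | with_reducible apply IntF.sep | with_reducible apply IntF.lam | with_reducible apply IntF.insert | with_reducible apply IntF.singleton | with_reducible apply IntF.union | with_reducible apply IntF.inter | with_reducible apply IntF.sdiff | with_reducible apply IntF.isUnion | with_reducible apply IntF.iimage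 | with_reducible apply IntF.the | with_reducible apply IntF.irec | with_reducible_and_instances apply IntF.add | with_reducible_and_instances apply IntF.mul | with_reducible apply IntF.succ | with_reducible apply IntF.val | with_reducible apply IntF.mk | (with_reducible refine Int.comp ?_ ?_; assumption) | (with_reducible refine Int.comp₂ ?_ ?_ ?_; assumption) | (with_reducible refine Int.comp₃ ?_ ?_ ?_ ?_; assumption) | (with_reducible refine IntF.comp ?_ ?_; assumption) | (with_reducible refine IntF.comp₂ ?_ ?_ ?_; assumption) | (with_reducible refine IntF.comp₃ ?_ ?_ ?_ ?_; assumption) | with_reducible apply IntF.pair)))).1 hx).1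
    refine (key _ h1 fun a ha => ((mem_sep (by (repeat' (first | with_reducible exact IntF.id | with_reducible exact IntF.fst' | with_reducible exact IntF.snd' | with_reducible exact IntF.const _ | with_reducible exact Int.const _ | assumption | with_reducible apply Int.and | with_reducible apply Int.or | with_reducible apply Int.not | with_reducible apply Int.imp | with_reducible apply Int.iff | with_reducible apply Int.ne | with_reducible apply Int.eq | with_reducible apply Int.mem | with_reducible apply Int.subset | with_reducible apply Int.ltN | with_reducible apply Int.leN | with_reducible apply Int.fin | with_reducible apply Int.unique | with_reducible apply Int.all | with_reducible apply Int.ex | with_reducible apply IntF.fst | with_reducible apply IntF.snd | with_reducible apply IntF.app | with_reducible apply IntF.ite | with_reducible apply IntF.sep | with_reducible apply IntF.lam | with_reducible apply IntF.insert | with_reducible apply IntF.singleton | with_reducible apply IntF.union | with_reducible apply IntF.inter | with_reducible apply IntF.sdiff | with_reducible apply IntF.isUnion | with_reducible apply IntF.iimage | with_reducible apply IntF.the | with_reducible apply IntF.irec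 | with_reducible_and_instances apply IntF.add | with_reducible_and_instances apply IntF.mul | with_reducible apply IntF.succ | with_reducible apply IntF.val | with_reducible apply IntF.mk | (with_reducible refine Int.comp ?_ ?_; assumption) | (with_reducible refine Int.comp₂ ?_ ?_ ?_; assumption) | (with_reducible refine Int.comp₃ ?_ ?_ ?_ ?_; assumption) | (with_reducible refine IntF.comp ?_ ?_; assumption) | (with_reducible refine IntF.comp₂ ?_ ?_ ?_; assumption) | (with_reducible refine IntF.comp₃ ?_ ?_ ?_ ?_; assumption) | with_reducible apply IntF.pair)))).1 ha).2).mono fun b ⟨a, ha, hb⟩ =>
      ⟨a, (mem_sep (by (repeat' (first | with_reducible exact IntF.id | with_reducible exact IntF.fst' | with_reducible exact IntF.snd' | with_reducible exact IntF.const _ | with_reducible exact Int.const _ | assumption | with_reducible apply Int.and | with_reducible apply Int.or | with_reducible apply Int.not | with_reducible apply Int.imp | with_reducible apply Int.iff | with_reducible apply Int.ne | with_reducible apply Int.eq | with_reducible apply Int.mem | with_reducible apply Int.subset | with_reducible apply Int.ltN | with_reducible apply Int.leN | with_reducible apply Int.fin | with_reducible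 apply Int.unique | with_reducible apply Int.all | with_reducible apply Int.ex | with_reducible apply IntF.fst | with_reducible apply IntF.snd | with_reducible apply IntF.app | with_reducible apply IntF.ite | with_reducible apply IntF.sep | with_reducible apply IntF.lam | with_reducible apply IntF.insert | with_reducible apply IntF.singleton | with_reducible apply IntF.union | with_reducible apply IntF.inter | with_reducible apply IntF.sdiff | with_reducible apply IntF.isUnion | with_reducible apply IntF.iimage | with_reducible apply IntF.the | with_reducible apply IntF.irec | with_reducible_and_instances apply IntF.add | with_reducible_and_instances apply IntF.mul | with_reducible apply IntF.succ | with_reducible apply IntF.val | with_reducible apply IntF.mk | (with_reducible refine Int.comp ?_ ?_; assumption) | (with_reducible refine Int.comp₂ ?_ ?_ ?_; assumption) | (with_reducible refine Int.comp₃ ?_ ?_ ?_ ?_; assumption) | (with_reducible refine IntF.comp ?_ ?_; assumption) | (with_reducible refine IntF.comp₂ ?_ ?_ ?_; assumption) | (with_reducible refine IntF.comp₃ ?_ ?_ ?_ ?_; assumption) | with_reducible apply IntF.pair)))).2 ⟨hsp a ha, h a ha⟩, hb⟩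

/-- Finite choice. -/
theorem fin_choice {r : α × β → Prop} (hr : Int M r) {s : IPow M α} (hs : IFin s)
    (h : ∀ a, a ∈ s → ∃ b, r (a, b)) :
    ∃ F : IPow M β, IFin F ∧ ∀ a, a ∈ s → ∃ b, b ∈ F ∧ r (a, b) := by
  have hr' : Int M (fun q : α × β => r (q.1, q.2)) := hr
  revert h
  refine IFin.ind (p := fun s : IPow M α => (∀ a, a ∈ s → ∃ b, r (a, b)) →
    ∃ F : IPow M β, IFin F ∧ ∀ a, a ∈ s → ∃ b, b ∈ F ∧ r (a, b)) (by (repeat' (first | with_reducible exact IntF.id | with_reducible exact IntF.fst' | with_reducible exact IntF.snd' | with_reducible exact IntF.const _ | with_reducible exact Int.const _ | assumption | with_reducible apply Int.and | with_reducible apply Int.or | with_reducible apply Int.not | with_reducible apply Int.imp | with_reducible apply Int.iff | with_reducible apply Int.ne | with_reducible apply Int.eq | with_reducible apply Int.mem | with_reducible apply Int.subset | with_reducible apply Int.ltN | with_reducible apply Int.leN | with_reducible apply Int.fin | with_reducible apply Int.unique | with_reducible apply Int.all | with_reducible apply Int.ex | with_reducible apply IntF.fst | with_reducible apply IntF.snd | with_reducible apply IntF.app | with_reducible apply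 IntF.ite | with_reducible apply IntF.sep | with_reducible apply IntF.lam | with_reducible apply IntF.insert | with_reducible apply IntF.singleton | with_reducible apply IntF.union | with_reducible apply IntF.inter | with_reducible apply IntF.sdiff | with_reducible apply IntF.isUnion | with_reducible apply IntF.iimage | with_reducible apply IntF.the | with_reducible apply IntF.irec | with_reducible_and_instances apply IntF.add | with_reducible_and_instances apply IntF.mul | with_reducible apply IntF.succ | with_reducible apply IntF.val | with_reducible apply IntF.mk | (with_reducible refine Int.comp ?_ ?_; assumption) | (with_reducible refine Int.comp₂ ?_ ?_ ?_; assumption) | (with_reducible refine Int.comp₃ ?_ ?_ ?_ ?_; assumption) | (with_reducible refine IntF.comp ?_ ?_; assumption) | (with_reducible refine IntF.comp₂ ?_ ?_ ?_; assumption) | (with_reducible refine IntF.comp₃ ?_ ?_ ?_ ?_; assumption) | with_reducible apply IntF.pair))) ?_ ?_ s hs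
  · intro _
    exact ⟨∅, IFin.empty, fun a ha => absurd ha (by simp)⟩
  · intro s a _ _ ih h
    obtain ⟨F, hF, h1⟩ := ih fun a' ha' => h a' (mem_insert.2 (Or.inr ha'))
    obtain ⟨b, hb⟩ := h a (mem_insert.2 (Or.inl rfl))
    refine ⟨insert b F, hF.insert b, fun a' ha' => ?_⟩
    rcases mem_insert.1 ha' with rfl | ha'
    · exact ⟨b, mem_insert.2 (Or.inl rfl), hb⟩
    · obtain ⟨c, hc, h2⟩ := h1 a' ha'
      exact ⟨c, mem_insert.2 (Or.inr hc), h2⟩

theorem crd_lt_set (n : INat M) : crd (sep M fun m : INat M => m < n) = n := by
  refine crd_eq (e := lam M fun m : INat M => m) ?_
  have h : ∀ m : INat M, lam M (fun m : INat M => m) m = m := fun m => lam_apply IntF.id m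
  refine ⟨fun a ha => ?_, fun a b _ _ hab => ?_, fun m hm => ⟨m, (mem_sep (by (repeat' (first | with_reducible exact IntF.id | with_reducible exact IntF.fst' | with_reducible exact IntF.snd' | with_reducible exact IntF.const _ | with_reducible exact Int.const _ | assumption | with_reducible apply Int.and | with_reducible apply Int.or | with_reducible apply Int.not | with_reducible apply Int.imp | with_reducible apply Int.iff | with_reducible apply Int.ne | with_reducible apply Int.eq | with_reducible apply Int.mem | with_reducible apply Int.subset | with_reducible apply Int.ltN | with_reducible apply Int.leN | with_reducible apply Int.fin | with_reducible apply Int.unique | with_reducible apply Int.all | with_reducible apply Int.ex | with_reducible apply IntF.fst | with_reducible apply IntF.snd | with_reducible apply IntF.app | with_reducible apply IntF.ite | with_reducible apply IntF.sep | with_reducible apply IntF.lam | with_reducible apply IntF.insert | with_reducible apply IntF.singleton | with_reducible apply IntF.union | with_reducible apply IntF.inter | with_reducible apply IntF.sdiff | with_reducible apply IntF.isUnion | with_reducible apply IntF.iimage | with_reducible apply IntF.the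 | with_reducible apply IntF.irec | with_reducible_and_instances apply IntF.add | with_reducible_and_instances apply IntF.mul | with_reducible apply IntF.succ | with_reducible apply IntF.val | with_reducible apply IntF.mk | (with_reducible refine Int.comp ?_ ?_; assumption) | (with_reducible refine Int.comp₂ ?_ ?_ ?_; assumption) | (with_reducible refine Int.comp₃ ?_ ?_ ?_ ?_; assumption) | (with_reducible refine IntF.comp ?_ ?_; assumption) | (with_reducible refine IntF.comp₂ ?_ ?_ ?_; assumption) | (with_reducible refine IntF.comp₃ ?_ ?_ ?_ ?_; assumption) | with_reducible apply IntF.pair)))).2 hm, h m⟩⟩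
  · rw [h]
    exact (mem_sep (p := fun m : INat M => m < n) (by (repeat' (first | with_reducible exact IntF.id | with_reducible exact IntF.fst' | with_reducible exact IntF.snd' | with_reducible exact IntF.const _ | with_reducible exact Int.const _ | assumption | with_reducible apply Int.and | with_reducible apply Int.or | with_reducible apply Int.not | with_reducible apply Int.imp | with_reducible apply Int.iff | with_reducible apply Int.ne | with_reducible apply Int.eq | with_reducible apply Int.mem | with_reducible apply Int.subset | with_reducible apply Int.ltN | with_reducible apply Int.leN | with_reducible apply Int.fin | with_reducible apply Int.unique | with_reducible apply Int.all | with_reducible apply Int.ex | with_reducible apply IntF.fst | with_reducible apply IntF.snd | with_reducible apply IntF.app | with_reducible apply IntF.ite | with_reducible apply IntF.sep | with_reducible apply IntF.lam | with_reducible apply IntF.insert | with_reducible apply IntF.singleton | with_reducible apply IntF.union | with_reducible apply IntF.inter | with_reducible apply IntF.sdiff | with_reducible apply IntF.isUnion | with_reducible apply IntF.iimage | with_reducible apply IntF.the | with_reducible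 apply IntF.irec | with_reducible_and_instances apply IntF.add | with_reducible_and_instances apply IntF.mul | with_reducible apply IntF.succ | with_reducible apply IntF.val | with_reducible apply IntF.mk | (with_reducible refine Int.comp ?_ ?_; assumption) | (with_reducible refine Int.comp₂ ?_ ?_ ?_; assumption) | (with_reducible refine Int.comp₃ ?_ ?_ ?_ ?_; assumption) | (with_reducible refine IntF.comp ?_ ?_; assumption) | (with_reducible refine IntF.comp₂ ?_ ?_ ?_; assumption) | (with_reducible refine IntF.comp₃ ?_ ?_ ?_ ?_; assumption) | with_reducible apply IntF.pair)))).1 ha
  · rwa [h, h] at hab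

theorem fin_lt_set (n : INat M) : IFin (sep M fun m : INat M => m < n) :=
  (finP_lt n).fin (by (repeat' (first | with_reducible exact IntF.id | with_reducible exact IntF.fst' | with_reducible exact IntF.snd' | with_reducible exact IntF.const _ | with_reducible exact Int.const _ | assumption | with_reducible apply Int.and | with_reducible apply Int.or | with_reducible apply Int.not | with_reducible apply Int.imp | with_reducible apply Int.iff | with_reducible apply Int.ne | with_reducible apply Int.eq | with_reducible apply Int.mem | with_reducible apply Int.subset | with_reducible apply Int.ltN | with_reducible apply Int.leN | with_reducible apply Int.fin | with_reducible apply Int.unique | with_reducible apply Int.all | with_reducible apply Int.ex | with_reducible apply IntF.fst | with_reducible apply IntF.snd | with_reducible apply IntF.app | with_reducible apply IntF.ite | with_reducible apply IntF.sep | with_reducible apply IntF.lam | with_reducible apply IntF.insert | with_reducible apply IntF.singleton | with_reducible apply IntF.union | with_reducible apply IntF.inter | with_reducible apply IntF.sdiff | with_reducible apply IntF.isUnion | with_reducible apply IntF.iimage | with_reducible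 apply IntF.the | with_reducible apply IntF.irec | with_reducible_and_instances apply IntF.add | with_reducible_and_instances apply IntF.mul | with_reducible apply IntF.succ | with_reducible apply IntF.val | with_reducible apply IntF.mk | (with_reducible refine Int.comp ?_ ?_; assumption) | (with_reducible refine Int.comp₂ ?_ ?_ ?_; assumption) | (with_reducible refine Int.comp₃ ?_ ?_ ?_ ?_; assumption) | (with_reducible refine IntF.comp ?_ ?_; assumption) | (with_reducible refine IntF.comp₂ ?_ ?_ ?_; assumption) | (with_reducible refine IntF.comp₃ ?_ ?_ ?_ ?_; assumption) | with_reducible apply IntF.pair)))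

end Pool.Agent.Q207.PG
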