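import Pool.Agent.Q207.PG.Cl

/-!
# The degenerate case: independence
-/

set_option maxHeartbeats 1000000
set_option linter.all false

namespace Pool.Agent.Q207.PG

open FirstOrder FirstOrder.Language
open Pool.Agent.Helper672.ZFA
open Pool.Agent.H310
open Pool.Agent.Q212.ZA

universe u u₁ u₂ u₃ u₄

variable {M : Type u} [L.Structure M] [hM : IsModel M]
variable {σ : Type u₁} {β : Type u₂} {γ : Type u₃} [ITy M σ] [ITy M β] [ITy M γ]

section

variable {G : IPow M (IPow M (σ × σ))} (hG : Gpd G)

include hG

/-- Isomorphisms of closures. -/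
theorem iso_ext {p : IPow M (σ × σ)} (hp : p ∈ G) {D E : IPow M σ} (hD : IFin D) (hE : IFin E)
    (h : Mp p D E) : ∃ g, g ∈ G ∧ (∀ x y, (x, y) ∈ p → x ∈ clo G D → (x, y) ∈ g) ∧
      (∀ x, Dm g x ↔ x ∈ clo G D) ∧ ∀ y, Rg g y ↔ y ∈ clo G E := by
  obtain ⟨q, hq, h1, h2, h3⟩ := ext_both hG hp (fin_clo hG hD) (fin_clo hG hE)
  have h4 := h.mono h1
  have hi : Int M (fun r : σ × σ => r ∈ q ∧ r.1 ∈ clo G D) := by (repeat' (first | with_reducible exact IntF.id | with_reducible exact IntF.fst' | with_reducible exact IntF.snd' | with_reducible exact IntF.const _ | with_reducible exact Int.const _ | assumption | with_reducible apply Int.dm | with_reducible apply Int.rg | with_reducible apply Int.fn | with_reducible apply Int.ij | with_reducible apply Int.mv | with_reducible apply Int.gn | with_reducible apply IntF.idr | with_reducible apply IntF.inv' | with_reducible apply IntF.cmp | with_reducible apply IntF.clo | with_reducible apply IntF.iprod | with_reducible apply IntF.crd | with_reducible apply Int.and | with_reducible apply Int.or | with_reducible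 apply Int.not | with_reducible apply Int.imp | with_reducible apply Int.iff | with_reducible apply Int.ne | with_reducible apply Int.eq | with_reducible apply Int.mem | with_reducible apply Int.subset | with_reducible apply Int.ltN | with_reducible apply Int.leN | with_reducible apply Int.fin | with_reducible apply Int.unique | with_reducible apply Int.all | with_reducible apply Int.ex | with_reducible apply IntF.fst | with_reducible apply IntF.snd | with_reducible apply IntF.app | with_reducible apply IntF.ite | with_reducible apply IntF.sep | with_reducible apply IntF.lam | with_reducible apply IntF.insert | with_reducible apply IntF.singleton | with_reducible apply IntF.union | with_reducible apply IntF.inter | with_reducible apply IntF.sdiff | with_reducible apply IntF.isUnion | with_reducible apply IntF.iimage | with_reducible apply IntF.the | with_reducible apply IntF.irec | with_reducible_and_instances apply IntF.add | with_reducible_and_instances apply IntF.mul | with_reducible apply IntF.succ | with_reducible apply IntF.val |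 with_reducible apply IntF.mk | (with_reducible refine Int.comp ?_ ?_; assumption) | (with_reducible refine Int.comp₂ ?_ ?_ ?_; assumption) | (with_reducible refine Int.comp₃ ?_ ?_ ?_ ?_; assumption) | (with_reducible refine IntF.comp ?_ ?_; assumption) | (with_reducible refine IntF.comp₂ ?_ ?_ ?_; assumption) | (with_reducible refine IntF.comp₃ ?_ ?_ ?_ ?_; assumption) | with_reducible apply IntF.pair))
  refine ⟨sep M fun r => r ∈ q ∧ r.1 ∈ clo G D, hG.sub hq fun x hx => ((mem_sep hi).1 hx).1,
    fun x y hxy hx => (mem_sep hi).2 ⟨h1 _ hxy, hx⟩, fun x => ⟨?_, ?_⟩, fun y => ⟨?_, ?_⟩⟩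
  · rintro ⟨y, hy⟩
    exact ((mem_sep hi).1 hy).2
  · intro hx
    obtain ⟨y, hy⟩ := h2 x hx
    exact ⟨y, (mem_sep hi).2 ⟨hy, hx⟩⟩
  · rintro ⟨x, hx⟩
    obtain ⟨h5, h6⟩ := (mem_sep hi).1 hx
    exact (clo_pres hG hq h4 h5).1 h6
  · intro hy
    obtain ⟨x, hx⟩ := h3 y hy
    exact ⟨x, (mem_sep hi).2 ⟨hx, (clo_pres hG hq h4 hx).2 hy⟩⟩

/-- A finite map extends by a pair of generic elements. -/
theorem ext_gen {p : IPow M (σ × σ)} (hp : p ∈ G) {D E : IPow M σ}
    (hd : ∀ x, Dm p x ↔ x ∈ D) (hr : ∀ x, Rg p x ↔ x ∈ E) {a b : σ} (ha : Gn G D a)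
    (hb : Gn G E b) : insert (a, b) p ∈ G := by
  obtain ⟨c, hc⟩ := hG.ext hp a
  have hMp : Mp p D E := ⟨fun x hx => by
    obtain ⟨y, hy⟩ := (hd x).2 hx
    exact ⟨y, (hr y).1 ⟨x, hy⟩, hy⟩, fun y hy => by
    obtain ⟨x, hx⟩ := (hr y).2 hy
    exact ⟨x, (hd x).1 ⟨y, hx⟩, hx⟩⟩
  have h1 := Gn.pres hG hc (hMp.mono fun x hx => mem_insert.2 (Or.inr hx))
    (mem_insert.2 (Or.inl rfl)) ha
  refine hG.sub (hG.cmp hc (Gn.rel hG h1 hb)) ?_
  rintro ⟨x, y⟩ hx
  rw [mem_cmp]
  rcases mem_insert.1 hx with hx | hx
  · rw [Prod.mk.injEq] at hx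
    obtain ⟨rfl, rfl⟩ := hx
    exact ⟨c, mem_insert.2 (Or.inl rfl), mem_insert.2 (Or.inl rfl)⟩
  · exact ⟨y, mem_insert.2 (Or.inr hx), mem_insert.2 (Or.inr (mem_idr.2
      ⟨rfl, (hr y).1 ⟨x, hx⟩⟩))⟩

end

/-- The maps that fix `C` and permute the closure of `C` and `a`. -/
noncomputable def HH (G : IPow M (IPow M (σ × σ))) (C : IPow M σ) (a : σ) :
    IPow M (IPow M (σ × σ)) :=
  sep M fun h => h ∈ G ∧ idr C ⊆ h ∧ (∀ x, Dm h x ↔ x ∈ clo G (insert a C)) ∧
    ∀ x, Rg h x ↔ x ∈ clo G (insert a C)

theorem mem_HH {G : IPow M (IPow M (σ × σ))} {C : IPow M σ} {a : σ} {h : IPow M (σ × σ)} :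
    h ∈ HH G C a ↔ h ∈ G ∧ idr C ⊆ h ∧ (∀ x, Dm h x ↔ x ∈ clo G (insert a C)) ∧
      ∀ x, Rg h x ↔ x ∈ clo G (insert a C) := by
  unfold HH
  rw [mem_sep (by (repeat' (first | with_reducible exact IntF.id | with_reducible exact IntF.fst' | with_reducible exact IntF.snd' | with_reducible exact IntF.const _ | with_reducible exact Int.const _ | assumption | with_reducible apply Int.dm | with_reducible apply Int.rg | with_reducible apply Int.fn | with_reducible apply Int.ij | with_reducible apply Int.mv | with_reducible apply Int.gn | with_reducible apply IntF.idr | with_reducible apply IntF.inv' | with_reducible apply IntF.cmp | with_reducible apply IntF.clo | with_reducible apply IntF.iprod | with_reducible apply IntF.crd | with_reducible apply Int.and | with_reducible apply Int.or | with_reducible apply Int.not | with_reducible apply Int.imp | with_reducible apply Int.iff | with_reducible apply Int.ne | with_reducible apply Int.eq | with_reducible apply Int.mem | with_reducible apply Int.subset | with_reducible apply Int.ltN | with_reducible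 apply Int.leN | with_reducible apply Int.fin | with_reducible apply Int.unique | with_reducible apply Int.all | with_reducible apply Int.ex | with_reducible apply IntF.fst | with_reducible apply IntF.snd | with_reducible apply IntF.app | with_reducible apply IntF.ite | with_reducible apply IntF.sep | with_reducible apply IntF.lam | with_reducible apply IntF.insert | with_reducible apply IntF.singleton | with_reducible apply IntF.union | with_reducible apply IntF.inter | with_reducible apply IntF.sdiff | with_reducible apply IntF.isUnion | with_reducible apply IntF.iimage | with_reducible apply IntF.the | with_reducible apply IntF.irec | with_reducible_and_instances apply IntF.add | with_reducible_and_instances apply IntF.mul | with_reducible apply IntF.succ | with_reducible apply IntF.val | with_reducible apply IntF.mk | (with_reducible refine Int.comp ?_ ?_; assumption) | (with_reducible refine Int.comp₂ ?_ ?_ ?_; assumption) | (with_reducible refine Int.comp₃ ?_ ?_ ?_ ?_; assumption) | (with_reducible refine IntF.comp ?_ ?_; assumption)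 | (with_reducible refine IntF.comp₂ ?_ ?_ ?_; assumption) | (with_reducible refine IntF.comp₃ ?_ ?_ ?_ ?_; assumption) | with_reducible apply IntF.pair)))]

theorem IntF.hh {G : IPow M (IPow M (σ × σ))} {g : γ → IPow M σ} {h : γ → σ} (hg : IntF M g)
    (hh : IntF M h) : IntF M (fun c => HH G (g c) (h c)) := by
  unfold HH
  (repeat' (first | with_reducible exact IntF.id | with_reducible exact IntF.fst' | with_reducible exact IntF.snd' | with_reducible exact IntF.const _ | with_reducible exact Int.const _ | assumption | with_reducible apply Int.dm | with_reducible apply Int.rg | with_reducible apply Int.fn | with_reducible apply Int.ij | with_reducible apply Int.mv | with_reducible apply Int.gn | with_reducible apply IntF.idr | with_reducible apply IntF.inv' | with_reducible apply IntF.cmp | with_reducible apply IntF.clo | with_reducible apply IntF.iprod | with_reducible apply IntF.crd | with_reducible apply Int.and | with_reducible apply Int.or | with_reducible apply Int.not | with_reducible apply Int.imp | with_reducible apply Int.iff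 | with_reducible apply Int.ne | with_reducible apply Int.eq | with_reducible apply Int.mem | with_reducible apply Int.subset | with_reducible apply Int.ltN | with_reducible apply Int.leN | with_reducible apply Int.fin | with_reducible apply Int.unique | with_reducible apply Int.all | with_reducible apply Int.ex | with_reducible apply IntF.fst | with_reducible apply IntF.snd | with_reducible apply IntF.app | with_reducible apply IntF.ite | with_reducible apply IntF.sep | with_reducible apply IntF.lam | with_reducible apply IntF.insert | with_reducible apply IntF.singleton | with_reducible apply IntF.union | with_reducible apply IntF.inter | with_reducible apply IntF.sdiff | with_reducible apply IntF.isUnion | with_reducible apply IntF.iimage | with_reducible apply IntF.the | with_reducible apply IntF.irec | with_reducible_and_instances apply IntF.add | with_reducible_and_instances apply IntF.mul | with_reducible apply IntF.succ | with_reducible apply IntF.val | with_reducible apply IntF.mk | (with_reducible refine Int.comp ?_ ?_; assumption)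 | (with_reducible refine Int.comp₂ ?_ ?_ ?_; assumption) | (with_reducible refine Int.comp₃ ?_ ?_ ?_ ?_; assumption) | (with_reducible refine IntF.comp ?_ ?_; assumption) | (with_reducible refine IntF.comp₂ ?_ ?_ ?_; assumption) | (with_reducible refine IntF.comp₃ ?_ ?_ ?_ ?_; assumption) | with_reducible apply IntF.pair))

/-- Degenerate closure operators. -/
def Deg (G : IPow M (IPow M (σ × σ))) : Prop :=
  ∀ S : IPow M σ, IFin S → (∃ a, a ∈ S) → ∀ c, c ∈ clo G S → ∃ a, a ∈ S ∧ c ∈ clo G {a}

section

variable {G : IPow M (IPow M (σ × σ))} (hG : Gpd G)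

include hG

theorem fin_HH {C : IPow M σ} (hC : IFin C) (a : σ) : IFin (HH G C a) := by
  have h1 := fin_clo hG (hC.insert a)
  refine (h1.prod h1).pow.subset fun h hh => mem_ipow.2 ?_
  rintro ⟨x, y⟩ hxy
  obtain ⟨-, -, h2, h3⟩ := mem_HH.1 hh
  exact mem_iprod.2 ⟨(h2 x).1 ⟨y, hxy⟩, (h3 y).1 ⟨x, hxy⟩⟩

theorem clo_sub {C D : IPow M σ} (hD : IFin D) (cD : clo G D = D) (h : C ⊆ D) : clo G C ⊆ D := by
  intro x hx
  rw [← cD]
  exact clo_mono hG h x hx

theorem gn_iff {D : IPow M σ} (cD : clo G D = D) {a : σ} : Gn G D a ↔ ¬ a ∈ D := by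
  conv_rhs => rw [← cD, mem_clo, not_not]

theorem HH_conj {C : IPow M σ} (hC : IFin C) (cC : clo G C = C) {a b : σ} (ha : ¬ a ∈ C)
    (hb : ¬ b ∈ C) : crd (HH G C b) ≤ crd (HH G C a) := by
  have h0 : insert (a, b) (idr C) ∈ G := Gn.rel hG ((gn_iff hG cC).2 ha) ((gn_iff hG cC).2 hb)
  have hM0 : Mp (insert (a, b) (idr C)) (insert a C) (insert b C) :=
    (Mp.of_idr fun x hx => mem_insert.2 (Or.inr hx)).insert (mem_insert.2 (Or.inl rfl))
  obtain ⟨g, hg, h1, h2, h3⟩ := iso_ext hG h0 (hC.insert a) (hC.insert b) hM0
  have hgC : ∀ x, x ∈ C → (x, x) ∈ g := fun x hx => h1 x x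
    (mem_insert.2 (Or.inr (mem_idr.2 ⟨rfl, hx⟩))) (sub_clo hG x (mem_insert.2 (Or.inr hx)))
  refine crd_le (r := fun q => q.2 = cmp (inv' g) (cmp q.1 g)) (by (repeat' (first | with_reducible exact IntF.id | with_reducible exact IntF.fst' | with_reducible exact IntF.snd' | with_reducible exact IntF.const _ | with_reducible exact Int.const _ | assumption | with_reducible apply Int.dm | with_reducible apply Int.rg | with_reducible apply Int.fn | with_reducible apply Int.ij | with_reducible apply Int.mv | with_reducible apply Int.gn | with_reducible apply IntF.idr | with_reducible apply IntF.inv' | with_reducible apply IntF.cmp | with_reducible apply IntF.clo | with_reducible apply IntF.iprod | with_reducible apply IntF.crd | with_reducible apply Int.and | with_reducible apply Int.or | with_reducible apply Int.not | with_reducible apply Int.imp | with_reducible apply Int.iff | with_reducible apply Int.ne | with_reducible apply Int.eq | with_reducible apply Int.mem | with_reducible apply Int.subset | with_reducible apply Int.ltN | with_reducible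 apply Int.leN | with_reducible apply Int.fin | with_reducible apply Int.unique | with_reducible apply Int.all | with_reducible apply Int.ex | with_reducible apply IntF.fst | with_reducible apply IntF.snd | with_reducible apply IntF.app | with_reducible apply IntF.ite | with_reducible apply IntF.sep | with_reducible apply IntF.lam | with_reducible apply IntF.insert | with_reducible apply IntF.singleton | with_reducible apply IntF.union | with_reducible apply IntF.inter | with_reducible apply IntF.sdiff | with_reducible apply IntF.isUnion | with_reducible apply IntF.iimage | with_reducible apply IntF.the | with_reducible apply IntF.irec | with_reducible_and_instances apply IntF.add | with_reducible_and_instances apply IntF.mul | with_reducible apply IntF.succ | with_reducible apply IntF.val | with_reducible apply IntF.mk | (with_reducible refine Int.comp ?_ ?_; assumption) | (with_reducible refine Int.comp₂ ?_ ?_ ?_; assumption) | (with_reducible refine Int.comp₃ ?_ ?_ ?_ ?_; assumption) | (with_reducible refine IntF.comp ?_ ?_; assumption)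 | (with_reducible refine IntF.comp₂ ?_ ?_ ?_; assumption) | (with_reducible refine IntF.comp₃ ?_ ?_ ?_ ?_; assumption) | with_reducible apply IntF.pair))) _ (fin_HH hG hC b) _
    (fin_HH hG hC a) ?_ ?_
  · intro x y z hx hy _ h4 h5
    dsimp only at h4 h5
    have key : ∀ x y, x ∈ HH G C b → cmp (inv' g) (cmp x g) = cmp (inv' g) (cmp y g) → x ⊆ y := by
      intro x y hx h6
      obtain ⟨-, -, h7, h8⟩ := mem_HH.1 hx
      rintro ⟨s, t⟩ hst
      obtain ⟨s', hs'⟩ := (h3 s).2 ((h7 s).1 ⟨_, hst⟩)
      obtain ⟨t', ht'⟩ := (h3 t).2 ((h8 t).1 ⟨_, hst⟩)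
      have h9 : (s', t') ∈ cmp (inv' g) (cmp x g) :=
        mem_cmp.2 ⟨t, mem_cmp.2 ⟨s, hs', hst⟩, mem_inv.2 ht'⟩
      rw [h6] at h9
      obtain ⟨t₁, h10, h11⟩ := mem_cmp.1 h9
      obtain ⟨s₁, h12, h13⟩ := mem_cmp.1 h10
      rw [hG.fn hg _ _ _ hs' h12, hG.fn hg _ _ _ ht' (mem_inv.1 h11)]
      exact h13
    have h6 := h4.symm.trans h5
    exact IPow.ext' fun q => ⟨fun h => key x y hx h6 q h, fun h => key y x hy h6.symm q h⟩
  · intro h hh
    obtain ⟨h4, h5, h6, h7⟩ := mem_HH.1 hh
    refine ⟨_, mem_HH.2 ⟨hG.cmp (hG.cmp hg h4) (hG.inv hg), ?_, ?_, ?_⟩, rfl⟩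
    · rintro ⟨x, y⟩ hx
      obtain ⟨rfl, hxC⟩ := mem_idr.1 hx
      exact mem_cmp.2 ⟨x, mem_cmp.2 ⟨x, hgC x hxC, h5 _ hx⟩, mem_inv.2 (hgC x hxC)⟩
    · intro x
      constructor
      · rintro ⟨y, hy⟩
        obtain ⟨z, hz, -⟩ := mem_cmp.1 hy
        obtain ⟨w, hw, -⟩ := mem_cmp.1 hz
        exact (h2 x).1 ⟨w, hw⟩
      · intro hx
        obtain ⟨w, hw⟩ := (h2 x).2 hx
        obtain ⟨z, hz⟩ := (h6 w).2 ((h3 w).1 ⟨x, hw⟩)
        obtain ⟨y, hy⟩ := (h3 z).2 ((h7 z).1 ⟨w, hz⟩)
        exact ⟨y, mem_cmp.2 ⟨z, mem_cmp.2 ⟨w, hw, hz⟩, mem_inv.2 hy⟩⟩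
    · intro y
      constructor
      · rintro ⟨x, hx⟩
        obtain ⟨z, -, hz⟩ := mem_cmp.1 hx
        exact (h2 y).1 ⟨z, mem_inv.1 hz⟩
      · intro hy
        obtain ⟨z, hz⟩ := (h2 y).2 hy
        obtain ⟨w, hw⟩ := (h7 z).2 ((h3 z).1 ⟨y, hz⟩)
        obtain ⟨x, hx⟩ := (h3 w).2 ((h6 w).1 ⟨z, hw⟩)
        exact ⟨x, mem_cmp.2 ⟨z, mem_cmp.2 ⟨w, hx, hw⟩, mem_inv.2 hz⟩⟩

theorem Deg.insert (hD' : Deg G) {D : IPow M σ} (hD : IFin D) (cD : clo G D = D) {b x : σ}
    (hx : x ∈ clo G (insert b D)) : x ∈ D ∨ x ∈ clo G {b} := by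
  obtain ⟨a, ha, hax⟩ := hD' _ (hD.insert b) ⟨b, mem_insert.2 (Or.inl rfl)⟩ x hx
  rcases mem_insert.1 ha with rfl | ha
  · exact Or.inr hax
  · refine Or.inl (clo_sub hG hD cD (fun y hy => ?_) x hax)
    rw [mem_singleton] at hy
    exact hy ▸ ha

/-- The restriction to a smaller closed set. -/
theorem HH_res (hDg : Deg G) {C D : IPow M σ} (hC : IFin C) (hD : IFin D) (cD : clo G D = D)
    (hCD : C ⊆ D) {b : σ} (hb : ¬ b ∈ D) {h : IPow M (σ × σ)} (hh : h ∈ HH G D b) :
    (∀ x y, (x, y) ∈ h → x ∈ clo G (insert b C) → y ∈ clo G (insert b C)) ∧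
    (∀ x y, (x, y) ∈ h → y ∈ clo G (insert b C) → x ∈ clo G (insert b C)) := by
  obtain ⟨h1, h2, h3, h4⟩ := mem_HH.1 hh
  have hb' : clo G {b} ⊆ clo G (insert b C) := clo_mono hG fun x hx =>
    mem_insert.2 (Or.inl (mem_singleton.1 hx))
  constructor
  · intro x y hxy hx
    by_cases hxD : x ∈ D
    · rw [← hG.fn h1 _ _ _ (h2 _ (mem_idr.2 ⟨rfl, hxD⟩)) hxy]
      exact hx
    · rcases Deg.insert hG hDg hD cD ((h4 y).1 ⟨x, hxy⟩) with h5 | h5
      · have := hG.ij h1 _ _ _ hxy (h2 _ (mem_idr.2 ⟨rfl, h5⟩))
        exact absurd h5 (this ▸ hxD)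
      · exact hb' y h5
  · intro x y hxy hy
    by_cases hyD : y ∈ D
    · rw [hG.ij h1 _ _ _ hxy (h2 _ (mem_idr.2 ⟨rfl, hyD⟩))]
      exact hy
    · rcases Deg.insert hG hDg hD cD ((h3 x).1 ⟨y, hxy⟩) with h5 | h5
      · have := hG.fn h1 _ _ _ (h2 _ (mem_idr.2 ⟨rfl, h5⟩)) hxy
        exact absurd h5 (this ▸ hyD)
      · exact hb' x h5

/-- A closed set over which the blocks are independent. -/
theorem exists_ind0 (hDg : Deg G) : ∃ C : IPow M σ, IFin C ∧ clo G C = C ∧
    ∀ D : IPow M σ, IFin D → clo G D = D → C ⊆ D → ∀ b, ¬ b ∈ D → ∀ h, h ∈ HH G C b →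
      h ∪ idr D ∈ G := by
  have hhh : IntF M (fun q : IPow M σ × σ => HH G q.1 q.2) := IntF.hh IntF.fst' IntF.snd'
  have hi : Int M (fun n : INat M => ∃ C : IPow M σ, ∃ a, (IFin C ∧ clo G C = C) ∧ ¬ a ∈ C ∧
    crd (HH G C a) = n) := by
    have h1 : IntF M (fun q : IPow M σ × σ => crd (HH G q.1 q.2)) := IntF.crd hhh
    (repeat' (first | with_reducible exact IntF.id | with_reducible exact IntF.fst' | with_reducible exact IntF.snd' | with_reducible exact IntF.const _ | with_reducible exact Int.const _ | assumption | with_reducible apply Int.dm | with_reducible apply Int.rg | with_reducible apply Int.fn | with_reducible apply Int.ij | with_reducible apply Int.mv | with_reducible apply Int.gn | with_reducible apply IntF.idr | with_reducible apply IntF.inv' | with_reducible apply IntF.cmp | with_reducible apply IntF.clo | with_reducible apply IntF.iprod | with_reducible apply IntF.crd | with_reducible apply Int.and | with_reducible apply Int.or | with_reducible apply Int.not | with_reducible apply Int.imp | with_reducible apply Int.iff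 | with_reducible apply Int.ne | with_reducible apply Int.eq | with_reducible apply Int.mem | with_reducible apply Int.subset | with_reducible apply Int.ltN | with_reducible apply Int.leN | with_reducible apply Int.fin | with_reducible apply Int.unique | with_reducible apply Int.all | with_reducible apply Int.ex | with_reducible apply IntF.fst | with_reducible apply IntF.snd | with_reducible apply IntF.app | with_reducible apply IntF.ite | with_reducible apply IntF.sep | with_reducible apply IntF.lam | with_reducible apply IntF.insert | with_reducible apply IntF.singleton | with_reducible apply IntF.union | with_reducible apply IntF.inter | with_reducible apply IntF.sdiff | with_reducible apply IntF.isUnion | with_reducible apply IntF.iimage | with_reducible apply IntF.the | with_reducible apply IntF.irec | with_reducible_and_instances apply IntF.add | with_reducible_and_instances apply IntF.mul | with_reducible apply IntF.succ | with_reducible apply IntF.val | with_reducible apply IntF.mk | (with_reducible refine Int.comp ?_ ?_; assumption)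 | (with_reducible refine Int.comp₂ ?_ ?_ ?_; assumption) | (with_reducible refine Int.comp₃ ?_ ?_ ?_ ?_; assumption) | (with_reducible refine IntF.comp ?_ ?_; assumption) | (with_reducible refine IntF.comp₂ ?_ ?_ ?_; assumption) | (with_reducible refine IntF.comp₃ ?_ ?_ ?_ ?_; assumption) | with_reducible apply IntF.pair))
  have hne : ∃ n : INat M, ∃ C : IPow M σ, ∃ a, (IFin C ∧ clo G C = C) ∧ ¬ a ∈ C ∧
      crd (HH G C a) = n := by
    have h1 := fin_clo hG (D := (∅ : IPow M σ)) IFin.empty
    obtain ⟨a, ha⟩ := exists_not hG.amo.inf ⟨_, h1, fun _ h => h⟩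
    exact ⟨_, clo G ∅, a, ⟨h1, clo_clo hG IFin.empty⟩, ha, rfl⟩
  obtain ⟨n, ⟨C, a₀, ⟨hC, cC⟩, ha₀, rfl⟩, hmin⟩ := INat.exists_least hi hne
  refine ⟨C, hC, cC, fun D hD cD hCD b hb h hh => ?_⟩
  have hb' : ¬ b ∈ C := fun h1 => hb (hCD b h1)
  have h1 : crd (HH G C b) ≤ crd (HH G D b) :=
    (HH_conj hG hC cC ha₀ hb').trans (hmin _ ⟨D, b, ⟨hD, cD⟩, hb, rfl⟩)
  have hCbDb : clo G (insert b C) ⊆ clo G (insert b D) := clo_mono hG (sub_insert hCD b)
  have h2 := crd_surj (r := fun q : IPow M (σ × σ) × IPow M (σ × σ) =>
      q.2 = q.1 ∩ iprod (clo G (insert b C)) (clo G (insert b C))) (by (repeat' (first | with_reducible exact IntF.id | with_reducible exact IntF.fst' | with_reducible exact IntF.snd' | with_reducible exact IntF.const _ | with_reducible exact Int.const _ | assumption | with_reducible apply Int.dm | with_reducible apply Int.rg | with_reducible apply Int.fn | with_reducible apply Int.ij | with_reducible apply Int.mv | with_reducible apply Int.gn | with_reducible apply IntF.idr | with_reducible apply IntF.inv' | with_reducible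 apply IntF.cmp | with_reducible apply IntF.clo | with_reducible apply IntF.iprod | with_reducible apply IntF.crd | with_reducible apply Int.and | with_reducible apply Int.or | with_reducible apply Int.not | with_reducible apply Int.imp | with_reducible apply Int.iff | with_reducible apply Int.ne | with_reducible apply Int.eq | with_reducible apply Int.mem | with_reducible apply Int.subset | with_reducible apply Int.ltN | with_reducible apply Int.leN | with_reducible apply Int.fin | with_reducible apply Int.unique | with_reducible apply Int.all | with_reducible apply Int.ex | with_reducible apply IntF.fst | with_reducible apply IntF.snd | with_reducible apply IntF.app | with_reducible apply IntF.ite | with_reducible apply IntF.sep | with_reducible apply IntF.lam | with_reducible apply IntF.insert | with_reducible apply IntF.singleton | with_reducible apply IntF.union | with_reducible apply IntF.inter | with_reducible apply IntF.sdiff | with_reducible apply IntF.isUnion | with_reducible apply IntF.iimage | with_reducible apply IntF.the |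 with_reducible apply IntF.irec | with_reducible_and_instances apply IntF.add | with_reducible_and_instances apply IntF.mul | with_reducible apply IntF.succ | with_reducible apply IntF.val | with_reducible apply IntF.mk | (with_reducible refine Int.comp ?_ ?_; assumption) | (with_reducible refine Int.comp₂ ?_ ?_ ?_; assumption) | (with_reducible refine Int.comp₃ ?_ ?_ ?_ ?_; assumption) | (with_reducible refine IntF.comp ?_ ?_; assumption) | (with_reducible refine IntF.comp₂ ?_ ?_ ?_; assumption) | (with_reducible refine IntF.comp₃ ?_ ?_ ?_ ?_; assumption) | with_reducible apply IntF.pair))) (fin_HH hG hD b)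
    (fin_HH hG hC b) ?_ ?_ h1 h hh
  · obtain ⟨h', hh', h3⟩ := h2
    obtain ⟨h4, h5, -, -⟩ := mem_HH.1 hh'
    refine hG.sub h4 fun x hx => ?_
    rcases mem_union.1 hx with hx | hx
    · dsimp only at h3
      rw [h3] at hx
      exact (mem_inter.1 hx).1
    · exact h5 x hx
  · intro x y z hx hy _ h4 h5
    dsimp only at h4 h5
    have key : ∀ x y, x ∈ HH G D b → y ∈ HH G D b →
        x ∩ iprod (clo G (insert b C)) (clo G (insert b C)) =
          y ∩ iprod (clo G (insert b C)) (clo G (insert b C)) → x ⊆ y := by
      intro x y hx hy h6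
      obtain ⟨h7, h8, h9, h10⟩ := mem_HH.1 hx
      rintro ⟨s, t⟩ hst
      by_cases hs : s ∈ D
      · rw [← hG.fn h7 _ _ _ (h8 _ (mem_idr.2 ⟨rfl, hs⟩)) hst]
        exact (mem_HH.1 hy).2.1 _ (mem_idr.2 ⟨rfl, hs⟩)
      · have h11 : s ∈ clo G (insert b C) := by
          rcases Deg.insert hG hDg hD cD ((h9 s).1 ⟨t, hst⟩) with h12 | h12
          · exact absurd h12 hs
          · exact clo_mono hG (fun x hx => mem_insert.2 (Or.inl (mem_singleton.1 hx))) s h12
        have h12 := (HH_res hG hDg hC hD cD hCD hb hx).1 s t hst h11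
        have h13 : (s, t) ∈ x ∩ iprod (clo G (insert b C)) (clo G (insert b C)) :=
          mem_inter.2 ⟨hst, mem_iprod.2 ⟨h11, h12⟩⟩
        rw [h6] at h13
        exact (mem_inter.1 h13).1
    have h6 := h4.symm.trans h5
    exact IPow.ext' fun q => ⟨fun h => key x y hx hy h6 q h, fun h => key y x hy hx h6.symm q h⟩
  · intro h' hh'
    obtain ⟨h4, h5, h6, h7⟩ := mem_HH.1 hh'
    obtain ⟨h8, h9⟩ := HH_res hG hDg hC hD cD hCD hb hh'
    refine ⟨_, mem_HH.2 ⟨hG.sub h4 fun x hx => (mem_inter.1 hx).1, ?_, ?_, ?_⟩, rfl⟩
    · rintro ⟨x, y⟩ hx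
      obtain ⟨rfl, hxC⟩ := mem_idr.1 hx
      have : x ∈ clo G (insert b C) := sub_clo hG x (mem_insert.2 (Or.inr hxC))
      exact mem_inter.2 ⟨h5 _ (mem_idr.2 ⟨rfl, hCD x hxC⟩), mem_iprod.2 ⟨this, this⟩⟩
    · intro x
      constructor
      · rintro ⟨y, hy⟩
        exact (mem_iprod.1 (mem_inter.1 hy).2).1
      · intro hx
        obtain ⟨y, hy⟩ := (h6 x).2 (hCbDb x hx)
        exact ⟨y, mem_inter.2 ⟨hy, mem_iprod.2 ⟨hx, h8 x y hy hx⟩⟩⟩
    · intro y
      constructor
      · rintro ⟨x, hx⟩
        exact (mem_iprod.1 (mem_inter.1 hx).2).2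
      · intro hy
        obtain ⟨x, hx⟩ := (h7 y).2 (hCbDb y hy)
        exact ⟨x, mem_inter.2 ⟨hx, mem_iprod.2 ⟨h9 x y hx hy, hy⟩⟩⟩

/-- Amalgamation. -/
theorem indep {C : IPow M σ} (hC : IFin C) (cC : clo G C = C)
    (hI : ∀ D : IPow M σ, IFin D → clo G D = D → C ⊆ D → ∀ b, ¬ b ∈ D → ∀ h, h ∈ HH G C b →
      h ∪ idr D ∈ G) {p r : IPow M (σ × σ)} (hp : p ∈ G) (hpC : idr C ⊆ p) (hr : r ∈ G)
    (hrC : idr C ⊆ r) {D E : IPow M σ} (hD : IFin D) (cD : clo G D = D)
    (cE : clo G E = E) (hdp : ∀ x, Dm p x ↔ x ∈ D) (hrp : ∀ x, Rg p x ↔ x ∈ E) {a b : σ}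
    (hab : (a, b) ∈ r) (ha : ¬ a ∈ D) (hb : ¬ b ∈ E)
    (hdr : ∀ x, Dm r x ↔ x ∈ clo G (insert a C)) (hrr : ∀ x, Rg r x ↔ x ∈ clo G (insert b C)) :
    p ∪ r ∈ G := by
  have h1 : insert (a, b) p ∈ G := ext_gen hG hp hdp hrp ((gn_iff hG cD).2 ha)
    ((gn_iff hG cE).2 hb)
  have hCD : C ⊆ D := fun x hx => (hdp x).1 ⟨x, hpC _ (mem_idr.2 ⟨rfl, hx⟩)⟩
  have hfa := fin_clo hG (hC.insert a)
  have hfb := fin_clo hG (hC.insert b)
  obtain ⟨q, hq, h2, h3, h4⟩ := ext_both hG h1 hfa hfb
  have h5 : Mp q (insert a C) (insert b C) :=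
    (Mp.of_idr fun x hx => h2 x (mem_insert.2 (Or.inr (hpC x hx)))).insert
      (h2 _ (mem_insert.2 (Or.inl rfl)))
  have hi : Int M (fun w : σ × σ => w.1 ∈ clo G (insert a C) ∧ ∃ y, (w.1, y) ∈ q ∧
    (w.2, y) ∈ r) := by (repeat' (first | with_reducible exact IntF.id | with_reducible exact IntF.fst' | with_reducible exact IntF.snd' | with_reducible exact IntF.const _ | with_reducible exact Int.const _ | assumption | with_reducible apply Int.dm | with_reducible apply Int.rg | with_reducible apply Int.fn | with_reducible apply Int.ij | with_reducible apply Int.mv | with_reducible apply Int.gn | with_reducible apply IntF.idr | with_reducible apply IntF.inv' | with_reducible apply IntF.cmp | with_reducible apply IntF.clo | with_reducible apply IntF.iprod | with_reducible apply IntF.crd | with_reducible apply Int.and | with_reducible apply Int.or | with_reducible apply Int.not | with_reducible apply Int.imp | with_reducible apply Int.iff | with_reducible apply Int.ne | with_reducible apply Int.eq | with_reducible apply Int.mem | with_reducible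 apply Int.subset | with_reducible apply Int.ltN | with_reducible apply Int.leN | with_reducible apply Int.fin | with_reducible apply Int.unique | with_reducible apply Int.all | with_reducible apply Int.ex | with_reducible apply IntF.fst | with_reducible apply IntF.snd | with_reducible apply IntF.app | with_reducible apply IntF.ite | with_reducible apply IntF.sep | with_reducible apply IntF.lam | with_reducible apply IntF.insert | with_reducible apply IntF.singleton | with_reducible apply IntF.union | with_reducible apply IntF.inter | with_reducible apply IntF.sdiff | with_reducible apply IntF.isUnion | with_reducible apply IntF.iimage | with_reducible apply IntF.the | with_reducible apply IntF.irec | with_reducible_and_instances apply IntF.add | with_reducible_and_instances apply IntF.mul | with_reducible apply IntF.succ | with_reducible apply IntF.val | with_reducible apply IntF.mk | (with_reducible refine Int.comp ?_ ?_; assumption) | (with_reducible refine Int.comp₂ ?_ ?_ ?_; assumption) | (with_reducible refine Int.comp₃ ?_ ?_ ?_ ?_;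 assumption) | (with_reducible refine IntF.comp ?_ ?_; assumption) | (with_reducible refine IntF.comp₂ ?_ ?_ ?_; assumption) | (with_reducible refine IntF.comp₃ ?_ ?_ ?_ ?_; assumption) | with_reducible apply IntF.pair))
  have h6 : (sep M fun w : σ × σ => w.1 ∈ clo G (insert a C) ∧ ∃ y, (w.1, y) ∈ q ∧
      (w.2, y) ∈ r) ∈ HH G C a := by
    refine mem_HH.2 ⟨hG.sub (hG.cmp hq (hG.inv hr)) ?_, ?_, ?_, ?_⟩
    · rintro ⟨x, z⟩ hx
      obtain ⟨-, y, h7, h8⟩ := (mem_sep hi).1 hx
      exact mem_cmp.2 ⟨y, h7, mem_inv.2 h8⟩
    · rintro ⟨x, z⟩ hx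
      obtain ⟨rfl, hxC⟩ := mem_idr.1 hx
      exact (mem_sep hi).2 ⟨sub_clo hG x (mem_insert.2 (Or.inr hxC)), x,
        h2 _ (mem_insert.2 (Or.inr (hpC _ hx))), hrC _ hx⟩
    · intro x
      constructor
      · rintro ⟨z, hz⟩
        exact ((mem_sep hi).1 hz).1
      · intro hx
        obtain ⟨y, hy⟩ := h3 x hx
        obtain ⟨z, hz⟩ := (hrr y).2 ((clo_pres hG hq h5 hy).1 hx)
        exact ⟨z, (mem_sep hi).2 ⟨hx, y, hy, hz⟩⟩
    · intro z
      constructor
      · rintro ⟨x, hx⟩
        obtain ⟨-, y, -, h8⟩ := (mem_sep hi).1 hx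
        exact (hdr z).1 ⟨y, h8⟩
      · intro hz
        obtain ⟨y, hy⟩ := (hdr z).2 hz
        obtain ⟨x, hx⟩ := h4 y ((hrr y).1 ⟨z, hy⟩)
        exact ⟨x, (mem_sep hi).2 ⟨(clo_pres hG hq h5 hx).2 ((hrr y).1 ⟨z, hy⟩), y, hx, hy⟩⟩
  refine hG.sub (hG.cmp (hG.inv (hI D hD cD hCD a ha _ h6)) hq) ?_
  rintro ⟨x, y⟩ hx
  rw [mem_cmp]
  rcases mem_union.1 hx with hx | hx
  · exact ⟨x, mem_inv.2 (mem_union.2 (Or.inr (mem_idr.2 ⟨rfl, (hdp x).1 ⟨y, hx⟩⟩))),
      h2 _ (mem_insert.2 (Or.inr hx))⟩
  · have h7 := (hrr y).1 ⟨x, hx⟩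
    obtain ⟨z, hz⟩ := h4 y h7
    exact ⟨z, mem_inv.2 (mem_union.2 (Or.inl ((mem_sep hi).2
      ⟨(clo_pres hG hq h5 hz).2 h7, y, hz, hx⟩))), hz⟩

end

end Pool.Agent.Q207.PG
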