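import Pool.Agent.Q207.PG.Dg

/-!
# The degenerate case: a bound for the forward orbits
-/

set_option maxHeartbeats 1000000
set_option linter.all false

namespace Pool.Agent.Q207.PG

open FirstOrder FirstOrder.Language
open Pool.Agent.Helper672.ZFA
open Pool.Agent.H310
open Pool.Agent.Q212.ZA

universe u u₁ u₂ u₃ u₄

variable {M : Type u} [L.Structure M] [hM : IsModel M]
variable {σ : Type u₁} {β : Type u₂} {γ : Type u₃} [ITy M σ] [ITy M β] [ITy M γ]

theorem exists_supp (hA : Amo M σ) (s : IPow M σ) :
    ∃ S : IPow M σ, IFin S ∧ ∀ a a', ¬ a ∈ S → ¬ a' ∈ S → (a ∈ s ↔ a' ∈ s) := by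
  rcases hA.split (fun a => a ∈ s) (by (repeat' (first | with_reducible exact IntF.id | with_reducible exact IntF.fst' | with_reducible exact IntF.snd' | with_reducible exact IntF.const _ | with_reducible exact Int.const _ | assumption | with_reducible apply Int.dm | with_reducible apply Int.rg | with_reducible apply Int.fn | with_reducible apply Int.ij | with_reducible apply Int.mv | with_reducible apply Int.gn | with_reducible apply IntF.idr | with_reducible apply IntF.inv' | with_reducible apply IntF.cmp | with_reducible apply IntF.clo | with_reducible apply IntF.iprod | with_reducible apply IntF.crd | with_reducible apply Int.and | with_reducible apply Int.or | with_reducible apply Int.not | with_reducible apply Int.imp | with_reducible apply Int.iff | with_reducible apply Int.ne | with_reducible apply Int.eq | with_reducible apply Int.mem | with_reducible apply Int.subset | with_reducible apply Int.ltN | with_reducible apply Int.leN | with_reducible apply Int.fin | with_reducible apply Int.unique | with_reducible apply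 Int.all | with_reducible apply Int.ex | with_reducible apply IntF.fst | with_reducible apply IntF.snd | with_reducible apply IntF.app | with_reducible apply IntF.ite | with_reducible apply IntF.sep | with_reducible apply IntF.lam | with_reducible apply IntF.insert | with_reducible apply IntF.singleton | with_reducible apply IntF.union | with_reducible apply IntF.inter | with_reducible apply IntF.sdiff | with_reducible apply IntF.isUnion | with_reducible apply IntF.iimage | with_reducible apply IntF.the | with_reducible apply IntF.irec | with_reducible_and_instances apply IntF.add | with_reducible_and_instances apply IntF.mul | with_reducible apply IntF.succ | with_reducible apply IntF.val | with_reducible apply IntF.mk | (with_reducible refine Int.comp ?_ ?_; assumption) | (with_reducible refine Int.comp₂ ?_ ?_ ?_; assumption) | (with_reducible refine Int.comp₃ ?_ ?_ ?_ ?_; assumption) | (with_reducible refine IntF.comp ?_ ?_; assumption) | (with_reducible refine IntF.comp₂ ?_ ?_ ?_; assumption) | (with_reducible refine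 IntF.comp₃ ?_ ?_ ?_ ?_; assumption) | with_reducible apply IntF.pair))) with h | h
  · obtain ⟨S, hS, h1⟩ := h
    exact ⟨S, hS, fun a a' ha ha' => ⟨fun h2 => absurd (h1 a h2) ha,
      fun h2 => absurd (h1 a' h2) ha'⟩⟩
  · obtain ⟨S, hS, h1⟩ := h
    refine ⟨S, hS, fun a a' ha ha' => ⟨fun _ => ?_, fun _ => ?_⟩⟩
    · by_contra h2
      exact ha' (h1 a' h2)
    · by_contra h2
      exact ha (h1 a h2)

/-- Supports of pairs. -/
def Spp (S : IPow M σ) (v : IPow M σ × IPow M σ) : Prop :=
  ∀ a a', ¬ a ∈ S → ¬ a' ∈ S → (a ∈ v.1 ↔ a' ∈ v.1) ∧ (a ∈ v.2 ↔ a' ∈ v.2)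

theorem exists_spp (hA : Amo M σ) (v : IPow M σ × IPow M σ) : ∃ S, IFin S ∧ Spp S v := by
  obtain ⟨S, hS, h1⟩ := exists_supp hA v.1
  obtain ⟨T, hT, h2⟩ := exists_supp hA v.2
  refine ⟨S ∪ T, hS.union hT, fun a a' ha ha' => ?_⟩
  rw [mem_union] at ha ha'
  push Not at ha ha'
  exact ⟨h1 a a' ha.1 ha'.1, h2 a a' ha.2 ha'.2⟩

theorem mv_self {q : IPow M (σ × σ)} {v : IPow M σ × IPow M σ} {S : IPow M σ} (hS : Spp S v)
    (h1 : ∀ a b, (a, b) ∈ q → (a ∈ v.1 ↔ b ∈ v.1) ∧ (a ∈ v.2 ↔ b ∈ v.2))
    (h2 : ∀ a, a ∈ S → Dm q a) (h3 : ∀ a, a ∈ S → Rg q a) : Mv q v v := by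
  have key : ∀ a b, ((a, b) ∈ q ∨ (¬ Dm q a ∧ ¬ Rg q b)) →
      (a ∈ v.1 ↔ b ∈ v.1) ∧ (a ∈ v.2 ↔ b ∈ v.2) := by
    rintro a b (h | ⟨h4, h5⟩)
    · exact h1 a b h
    · exact hS a b (fun h => h4 (h2 a h)) fun h => h5 (h3 b h)
  exact ⟨fun a b h => (key a b h).1, fun a b h => (key a b h).2⟩

/-- The type of `a` over `v`. -/
noncomputable def tau (G : IPow M (IPow M (σ × σ))) (C E : IPow M σ) (v : IPow M σ × IPow M σ)
    (a : σ) : IPow M (σ × (IPow M σ × IPow M σ)) :=
  sep M fun r => ∃ q, (q ∈ G ∧ idr C ⊆ q) ∧ (a, r.1) ∈ q ∧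
    ((∀ x, x ∈ clo G (insert a C) → Dm q x) ∧ ∀ y, y ∈ E → Rg q y) ∧
    ((r.1 ∈ E ∧ r.2.1 ⊆ E) ∧ r.2.2 ⊆ E) ∧
    ∀ z e, (z, e) ∈ q → e ∈ E → ((z ∈ v.1 ↔ e ∈ r.2.1) ∧ (z ∈ v.2 ↔ e ∈ r.2.2))

theorem mem_tau {G : IPow M (IPow M (σ × σ))} {C E : IPow M σ} {v : IPow M σ × IPow M σ}
    {a : σ} {r : σ × (IPow M σ × IPow M σ)} : r ∈ tau G C E v a ↔ ∃ q, (q ∈ G ∧ idr C ⊆ q) ∧
    (a, r.1) ∈ q ∧
    ((∀ x, x ∈ clo G (insert a C) → Dm q x) ∧ ∀ y, y ∈ E → Rg q y) ∧
    ((r.1 ∈ E ∧ r.2.1 ⊆ E) ∧ r.2.2 ⊆ E) ∧
    ∀ z e, (z, e) ∈ q → e ∈ E → ((z ∈ v.1 ↔ e ∈ r.2.1) ∧ (z ∈ v.2 ↔ e ∈ r.2.2)) := by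
  unfold tau
  rw [mem_sep (by (repeat' (first | with_reducible exact IntF.id | with_reducible exact IntF.fst' | with_reducible exact IntF.snd' | with_reducible exact IntF.const _ | with_reducible exact Int.const _ | assumption | with_reducible apply Int.dm | with_reducible apply Int.rg | with_reducible apply Int.fn | with_reducible apply Int.ij | with_reducible apply Int.mv | with_reducible apply Int.gn | with_reducible apply IntF.idr | with_reducible apply IntF.inv' | with_reducible apply IntF.cmp | with_reducible apply IntF.clo | with_reducible apply IntF.iprod | with_reducible apply IntF.crd | with_reducible apply Int.and | with_reducible apply Int.or | with_reducible apply Int.not | with_reducible apply Int.imp | with_reducible apply Int.iff | with_reducible apply Int.ne | with_reducible apply Int.eq | with_reducible apply Int.mem | with_reducible apply Int.subset | with_reducible apply Int.ltN | with_reducible apply Int.leN | with_reducible apply Int.fin | with_reducible apply Int.unique | with_reducible apply Int.all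 | with_reducible apply Int.ex | with_reducible apply IntF.fst | with_reducible apply IntF.snd | with_reducible apply IntF.app | with_reducible apply IntF.ite | with_reducible apply IntF.sep | with_reducible apply IntF.lam | with_reducible apply IntF.insert | with_reducible apply IntF.singleton | with_reducible apply IntF.union | with_reducible apply IntF.inter | with_reducible apply IntF.sdiff | with_reducible apply IntF.isUnion | with_reducible apply IntF.iimage | with_reducible apply IntF.the | with_reducible apply IntF.irec | with_reducible_and_instances apply IntF.add | with_reducible_and_instances apply IntF.mul | with_reducible apply IntF.succ | with_reducible apply IntF.val | with_reducible apply IntF.mk | (with_reducible refine Int.comp ?_ ?_; assumption) | (with_reducible refine Int.comp₂ ?_ ?_ ?_; assumption) | (with_reducible refine Int.comp₃ ?_ ?_ ?_ ?_; assumption) | (with_reducible refine IntF.comp ?_ ?_; assumption) | (with_reducible refine IntF.comp₂ ?_ ?_ ?_; assumption) | (with_reducible refine IntF.comp₃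 ?_ ?_ ?_ ?_; assumption) | with_reducible apply IntF.pair)))]

theorem int_tau (G : IPow M (IPow M (σ × σ))) (C E : IPow M σ) (v : IPow M σ × IPow M σ) :
    IntF M (fun a => tau G C E v a) := by
  unfold tau
  (repeat' (first | with_reducible exact IntF.id | with_reducible exact IntF.fst' | with_reducible exact IntF.snd' | with_reducible exact IntF.const _ | with_reducible exact Int.const _ | assumption | with_reducible apply Int.dm | with_reducible apply Int.rg | with_reducible apply Int.fn | with_reducible apply Int.ij | with_reducible apply Int.mv | with_reducible apply Int.gn | with_reducible apply IntF.idr | with_reducible apply IntF.inv' | with_reducible apply IntF.cmp | with_reducible apply IntF.clo | with_reducible apply IntF.iprod | with_reducible apply IntF.crd | with_reducible apply Int.and | with_reducible apply Int.or | with_reducible apply Int.not | with_reducible apply Int.imp | with_reducible apply Int.iff | with_reducible apply Int.ne | with_reducible apply Int.eq | with_reducible apply Int.mem | with_reducible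 apply Int.subset | with_reducible apply Int.ltN | with_reducible apply Int.leN | with_reducible apply Int.fin | with_reducible apply Int.unique | with_reducible apply Int.all | with_reducible apply Int.ex | with_reducible apply IntF.fst | with_reducible apply IntF.snd | with_reducible apply IntF.app | with_reducible apply IntF.ite | with_reducible apply IntF.sep | with_reducible apply IntF.lam | with_reducible apply IntF.insert | with_reducible apply IntF.singleton | with_reducible apply IntF.union | with_reducible apply IntF.inter | with_reducible apply IntF.sdiff | with_reducible apply IntF.isUnion | with_reducible apply IntF.iimage | with_reducible apply IntF.the | with_reducible apply IntF.irec | with_reducible_and_instances apply IntF.add | with_reducible_and_instances apply IntF.mul | with_reducible apply IntF.succ | with_reducible apply IntF.val | with_reducible apply IntF.mk | (with_reducible refine Int.comp ?_ ?_; assumption) | (with_reducible refine Int.comp₂ ?_ ?_ ?_; assumption) | (with_reducible refine Int.comp₃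 ?_ ?_ ?_ ?_; assumption) | (with_reducible refine IntF.comp ?_ ?_; assumption) | (with_reducible refine IntF.comp₂ ?_ ?_ ?_; assumption) | (with_reducible refine IntF.comp₃ ?_ ?_ ?_ ?_; assumption) | with_reducible apply IntF.pair))

section

variable {G : IPow M (IPow M (σ × σ))} (hG : Gpd G)

include hG

theorem tau_ne {C : IPow M σ} (hC : IFin C) (cC : clo G C = C) {a₀ : σ} (ha₀ : ¬ a₀ ∈ C)
    (v : IPow M σ × IPow M σ) (a : σ) : ∃ r, r ∈ tau G C (clo G (insert a₀ C)) v a := by
  have hE := fin_clo hG (hC.insert a₀)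
  have hE' := fin_clo hG (hC.insert a)
  obtain ⟨p, hp, hpC, c, hc, hcE⟩ : ∃ p, p ∈ G ∧ idr C ⊆ p ∧ ∃ c, (a, c) ∈ p ∧
      c ∈ clo G (insert a₀ C) := by
    by_cases ha : a ∈ C
    · exact ⟨idr C, hG.idr hC, fun _ h => h, a, mem_idr.2 ⟨rfl, ha⟩,
        sub_clo hG a (mem_insert.2 (Or.inr ha))⟩
    · exact ⟨_, Gn.rel hG ((gn_iff hG cC).2 ha) ((gn_iff hG cC).2 ha₀),
        fun x hx => mem_insert.2 (Or.inr hx), a₀, mem_insert.2 (Or.inl rfl),
        mem_clo_insert hG a₀⟩
  obtain ⟨q, hq, h1, h2, h3⟩ := ext_both hG hp hE' hE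
  have hi1 : Int M (fun e : σ => e ∈ clo G (insert a₀ C) ∧ ∃ z, (z, e) ∈ q ∧ z ∈ v.1) := by (repeat' (first | with_reducible exact IntF.id | with_reducible exact IntF.fst' | with_reducible exact IntF.snd' | with_reducible exact IntF.const _ | with_reducible exact Int.const _ | assumption | with_reducible apply Int.dm | with_reducible apply Int.rg | with_reducible apply Int.fn | with_reducible apply Int.ij | with_reducible apply Int.mv | with_reducible apply Int.gn | with_reducible apply IntF.idr | with_reducible apply IntF.inv' | with_reducible apply IntF.cmp | with_reducible apply IntF.clo | with_reducible apply IntF.iprod | with_reducible apply IntF.crd | with_reducible apply Int.and | with_reducible apply Int.or | with_reducible apply Int.not | with_reducible apply Int.imp | with_reducible apply Int.iff | with_reducible apply Int.ne | with_reducible apply Int.eq | with_reducible apply Int.mem | with_reducible apply Int.subset | with_reducible apply Int.ltN | with_reducible apply Int.leN | with_reducible apply Int.fin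 | with_reducible apply Int.unique | with_reducible apply Int.all | with_reducible apply Int.ex | with_reducible apply IntF.fst | with_reducible apply IntF.snd | with_reducible apply IntF.app | with_reducible apply IntF.ite | with_reducible apply IntF.sep | with_reducible apply IntF.lam | with_reducible apply IntF.insert | with_reducible apply IntF.singleton | with_reducible apply IntF.union | with_reducible apply IntF.inter | with_reducible apply IntF.sdiff | with_reducible apply IntF.isUnion | with_reducible apply IntF.iimage | with_reducible apply IntF.the | with_reducible apply IntF.irec | with_reducible_and_instances apply IntF.add | with_reducible_and_instances apply IntF.mul | with_reducible apply IntF.succ | with_reducible apply IntF.val | with_reducible apply IntF.mk | (with_reducible refine Int.comp ?_ ?_; assumption) | (with_reducible refine Int.comp₂ ?_ ?_ ?_; assumption) | (with_reducible refine Int.comp₃ ?_ ?_ ?_ ?_; assumption) | (with_reducible refine IntF.comp ?_ ?_; assumption) | (with_reducible refine IntF.comp₂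 ?_ ?_ ?_; assumption) | (with_reducible refine IntF.comp₃ ?_ ?_ ?_ ?_; assumption) | with_reducible apply IntF.pair))
  have hi2 : Int M (fun e : σ => e ∈ clo G (insert a₀ C) ∧ ∃ z, (z, e) ∈ q ∧ z ∈ v.2) := by (repeat' (first | with_reducible exact IntF.id | with_reducible exact IntF.fst' | with_reducible exact IntF.snd' | with_reducible exact IntF.const _ | with_reducible exact Int.const _ | assumption | with_reducible apply Int.dm | with_reducible apply Int.rg | with_reducible apply Int.fn | with_reducible apply Int.ij | with_reducible apply Int.mv | with_reducible apply Int.gn | with_reducible apply IntF.idr | with_reducible apply IntF.inv' | with_reducible apply IntF.cmp | with_reducible apply IntF.clo | with_reducible apply IntF.iprod | with_reducible apply IntF.crd | with_reducible apply Int.and | with_reducible apply Int.or | with_reducible apply Int.not | with_reducible apply Int.imp | with_reducible apply Int.iff | with_reducible apply Int.ne | with_reducible apply Int.eq | with_reducible apply Int.mem | with_reducible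 apply Int.subset | with_reducible apply Int.ltN | with_reducible apply Int.leN | with_reducible apply Int.fin | with_reducible apply Int.unique | with_reducible apply Int.all | with_reducible apply Int.ex | with_reducible apply IntF.fst | with_reducible apply IntF.snd | with_reducible apply IntF.app | with_reducible apply IntF.ite | with_reducible apply IntF.sep | with_reducible apply IntF.lam | with_reducible apply IntF.insert | with_reducible apply IntF.singleton | with_reducible apply IntF.union | with_reducible apply IntF.inter | with_reducible apply IntF.sdiff | with_reducible apply IntF.isUnion | with_reducible apply IntF.iimage | with_reducible apply IntF.the | with_reducible apply IntF.irec | with_reducible_and_instances apply IntF.add | with_reducible_and_instances apply IntF.mul | with_reducible apply IntF.succ | with_reducible apply IntF.val | with_reducible apply IntF.mk | (with_reducible refine Int.comp ?_ ?_; assumption) | (with_reducible refine Int.comp₂ ?_ ?_ ?_; assumption) | (with_reducible refine Int.comp₃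 ?_ ?_ ?_ ?_; assumption) | (with_reducible refine IntF.comp ?_ ?_; assumption) | (with_reducible refine IntF.comp₂ ?_ ?_ ?_; assumption) | (with_reducible refine IntF.comp₃ ?_ ?_ ?_ ?_; assumption) | with_reducible apply IntF.pair))
  refine ⟨(c, (sep M fun e : σ => e ∈ clo G (insert a₀ C) ∧ ∃ z, (z, e) ∈ q ∧ z ∈ v.1,
    sep M fun e : σ => e ∈ clo G (insert a₀ C) ∧ ∃ z, (z, e) ∈ q ∧ z ∈ v.2)),
    mem_tau.2 ⟨q, ⟨hq, fun x hx => h1 _ (hpC x hx)⟩, h1 _ hc, ⟨h2, h3⟩,
      ⟨⟨hcE, fun x hx => ((mem_sep hi1).1 hx).1⟩, fun x hx => ((mem_sep hi2).1 hx).1⟩, ?_⟩⟩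
  intro z e hze he
  constructor
  · constructor
    · intro hz
      exact (mem_sep hi1).2 ⟨he, z, hze, hz⟩
    · intro h4
      obtain ⟨-, z', hz', h5⟩ := (mem_sep hi1).1 h4
      rw [hG.ij hq _ _ _ hze hz']
      exact h5
  · constructor
    · intro hz
      exact (mem_sep hi2).2 ⟨he, z, hze, hz⟩
    · intro h4
      obtain ⟨-, z', hz', h5⟩ := (mem_sep hi2).1 h4
      rw [hG.ij hq _ _ _ hze hz']
      exact h5

theorem tau_eq (hDg : Deg G) {C : IPow M σ} (hC : IFin C) (cC : clo G C = C)
    (hI : ∀ D : IPow M σ, IFin D → clo G D = D → C ⊆ D → ∀ b, ¬ b ∈ D → ∀ h, h ∈ HH G C b →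
      h ∪ idr D ∈ G) {a₀ : σ} (ha₀ : ¬ a₀ ∈ C) {v : IPow M σ × IPow M σ} {a b : σ}
    (h : tau G C (clo G (insert a₀ C)) v a = tau G C (clo G (insert a₀ C)) v b) :
    ∃ q, q ∈ G ∧ (a, b) ∈ q ∧ Mv q v v := by
  obtain ⟨S, hS, hSv⟩ := exists_spp hG.amo v
  obtain ⟨⟨c, s, t⟩, hr⟩ := tau_ne hG hC cC ha₀ v a
  have hr' := hr
  rw [h] at hr'
  obtain ⟨qa, ⟨h1, h2⟩, h3, ⟨h4, h5⟩, ⟨⟨h6, -⟩, -⟩, h7⟩ := mem_tau.1 hr
  obtain ⟨qb, ⟨h1', h2'⟩, h3', ⟨h4', h5'⟩, -, h7'⟩ := mem_tau.1 hr'
  dsimp only at h3 h3' h6 h7 h7'
  have hidr : a = b → ∃ q, q ∈ G ∧ (a, b) ∈ q ∧ Mv q v v := by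
    rintro rfl
    refine ⟨idr (insert a S), hG.idr (hS.insert a), mem_idr.2 ⟨rfl, mem_insert.2 (Or.inl rfl)⟩,
      mv_self hSv ?_ ?_ ?_⟩
    · intro x y hxy
      rw [(mem_idr.1 hxy).1]
      exact ⟨Iff.rfl, Iff.rfl⟩
    · exact fun x hx => ⟨x, mem_idr.2 ⟨rfl, mem_insert.2 (Or.inr hx)⟩⟩
    · exact fun x hx => ⟨x, mem_idr.2 ⟨rfl, mem_insert.2 (Or.inr hx)⟩⟩
  by_cases ha : a ∈ C
  · have h8 : c = a := hG.fn h1 _ _ _ h3 (h2 _ (mem_idr.2 ⟨rfl, ha⟩))
    subst h8
    exact hidr (hG.ij h1' _ _ _ h3' (h2' _ (mem_idr.2 ⟨rfl, ha⟩))).symm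
  by_cases hb : b ∈ C
  · have h8 : c = b := hG.fn h1' _ _ _ h3' (h2' _ (mem_idr.2 ⟨rfl, hb⟩))
    subst h8
    exact hidr (hG.ij h1 _ _ _ h3 (h2 _ (mem_idr.2 ⟨rfl, hb⟩)))
  -- the isomorphism of the blocks
  have hMa : Mp qa (insert a C) (insert c C) := (Mp.of_idr h2).insert h3
  have hMb : Mp qb (insert b C) (insert c C) := (Mp.of_idr h2').insert h3'
  have hcC : ¬ c ∈ C := fun h8 => ha (by
    have := hG.ij h1 _ _ _ h3 (h2 _ (mem_idr.2 ⟨rfl, h8⟩))
    rwa [this])
  have hcE : clo G (insert c C) = clo G (insert a₀ C) := by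
    refine IPow.ext' fun x => ⟨fun hx => ?_, fun hx => ?_⟩
    · refine clo_le hG (hC.insert a₀) ?_ x hx
      intro y hy
      rcases mem_insert.1 hy with rfl | hy
      · exact h6
      · exact sub_clo hG y (mem_insert.2 (Or.inr hy))
    · have h8 : a₀ ∈ clo G (insert c C) := exch hG hC h6 (by rwa [cC])
      refine clo_le hG (hC.insert c) ?_ x hx
      intro y hy
      rcases mem_insert.1 hy with rfl | hy
      · exact h8
      · exact sub_clo hG y (mem_insert.2 (Or.inr hy))
  have hi : Int M (fun w : σ × σ => w.1 ∈ clo G (insert a C) ∧ ∃ e, (w.1, e) ∈ qa ∧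
    (w.2, e) ∈ qb) := by (repeat' (first | with_reducible exact IntF.id | with_reducible exact IntF.fst' | with_reducible exact IntF.snd' | with_reducible exact IntF.const _ | with_reducible exact Int.const _ | assumption | with_reducible apply Int.dm | with_reducible apply Int.rg | with_reducible apply Int.fn | with_reducible apply Int.ij | with_reducible apply Int.mv | with_reducible apply Int.gn | with_reducible apply IntF.idr | with_reducible apply IntF.inv' | with_reducible apply IntF.cmp | with_reducible apply IntF.clo | with_reducible apply IntF.iprod | with_reducible apply IntF.crd | with_reducible apply Int.and | with_reducible apply Int.or | with_reducible apply Int.not | with_reducible apply Int.imp | with_reducible apply Int.iff | with_reducible apply Int.ne | with_reducible apply Int.eq | with_reducible apply Int.mem | with_reducible apply Int.subset | with_reducible apply Int.ltN | with_reducible apply Int.leN | with_reducible apply Int.fin | with_reducible apply Int.unique | with_reducible apply Int.all |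 with_reducible apply Int.ex | with_reducible apply IntF.fst | with_reducible apply IntF.snd | with_reducible apply IntF.app | with_reducible apply IntF.ite | with_reducible apply IntF.sep | with_reducible apply IntF.lam | with_reducible apply IntF.insert | with_reducible apply IntF.singleton | with_reducible apply IntF.union | with_reducible apply IntF.inter | with_reducible apply IntF.sdiff | with_reducible apply IntF.isUnion | with_reducible apply IntF.iimage | with_reducible apply IntF.the | with_reducible apply IntF.irec | with_reducible_and_instances apply IntF.add | with_reducible_and_instances apply IntF.mul | with_reducible apply IntF.succ | with_reducible apply IntF.val | with_reducible apply IntF.mk | (with_reducible refine Int.comp ?_ ?_; assumption) | (with_reducible refine Int.comp₂ ?_ ?_ ?_; assumption) | (with_reducible refine Int.comp₃ ?_ ?_ ?_ ?_; assumption) | (with_reducible refine IntF.comp ?_ ?_; assumption) | (with_reducible refine IntF.comp₂ ?_ ?_ ?_; assumption) | (with_reducible refine IntF.comp₃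 ?_ ?_ ?_ ?_; assumption) | with_reducible apply IntF.pair))
  obtain ⟨r, hrd⟩ : ∃ r : IPow M (σ × σ), ∀ x y, (x, y) ∈ r ↔ x ∈ clo G (insert a C) ∧
      ∃ e, (x, e) ∈ qa ∧ (y, e) ∈ qb := ⟨_, fun x y => mem_sep (a := (x, y)) hi⟩
  have hrG : r ∈ G := hG.sub (hG.cmp h1 (hG.inv h1')) (by
    rintro ⟨x, y⟩ hx
    obtain ⟨-, e, h8, h9⟩ := (hrd x y).1 hx
    exact mem_cmp.2 ⟨e, h8, mem_inv.2 h9⟩)
  have hrC : idr C ⊆ r := by
    rintro ⟨x, y⟩ hx
    have hx' := hx
    obtain ⟨rfl, hxC⟩ := mem_idr.1 hx
    exact (hrd x x).2 ⟨sub_clo hG x (mem_insert.2 (Or.inr hxC)), x, h2 _ hx', h2' _ hx'⟩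
  have hrab : (a, b) ∈ r := (hrd a b).2 ⟨mem_clo_insert hG a, c, h3, h3'⟩
  have hrD : ∀ x, Dm r x ↔ x ∈ clo G (insert a C) := by
    intro x
    constructor
    · rintro ⟨y, hy⟩
      exact ((hrd x y).1 hy).1
    · intro hx
      obtain ⟨e, he⟩ := h4 x hx
      have h8 : e ∈ clo G (insert c C) := (clo_pres hG h1 hMa he).1 hx
      obtain ⟨y, hy⟩ := h5' e (hcE ▸ h8)
      exact ⟨y, (hrd x y).2 ⟨hx, e, he, hy⟩⟩
  have hrR : ∀ y, Rg r y ↔ y ∈ clo G (insert b C) := by
    intro y
    constructor
    · rintro ⟨x, hx⟩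
      obtain ⟨h8, e, h9, h10⟩ := (hrd x y).1 hx
      exact (clo_pres hG h1' hMb h10).2 ((clo_pres hG h1 hMa h9).1 h8)
    · intro hy
      obtain ⟨e, he⟩ := h4' y hy
      have h8 : e ∈ clo G (insert c C) := (clo_pres hG h1' hMb he).1 hy
      obtain ⟨x, hx⟩ := h5 e (hcE ▸ h8)
      exact ⟨x, (hrd x y).2 ⟨(clo_pres hG h1 hMa hx).2 h8, e, hx, he⟩⟩
  have hrl : ∀ x y, (x, y) ∈ r → (x ∈ v.1 ↔ y ∈ v.1) ∧ (x ∈ v.2 ↔ y ∈ v.2) := by
    intro x y hxy
    obtain ⟨h8, e, h9, h10⟩ := (hrd x y).1 hxy
    have h11 : e ∈ clo G (insert a₀ C) := hcE ▸ (clo_pres hG h1 hMa h9).1 h8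
    exact ⟨(h7 x e h9 h11).1.trans (h7' y e h10 h11).1.symm,
      (h7 x e h9 h11).2.trans (h7' y e h10 h11).2.symm⟩
  -- the rest
  have hfa := fin_clo hG (hC.insert a)
  have hfb := fin_clo hG (hC.insert b)
  obtain ⟨S', hS'd⟩ : ∃ S' : IPow M σ, S' = S \ (clo G (insert a C) ∪ clo G (insert b C)) :=
    ⟨_, rfl⟩
  have hS' : IFin (C ∪ S') := hC.union (hS'd ▸ hS.subset fun x hx => (mem_sdiff.1 hx).1)
  obtain ⟨W, hWd⟩ : ∃ W : IPow M σ, W = clo G (C ∪ S') := ⟨_, rfl⟩
  have hW : IFin W := hWd ▸ fin_clo hG hS'
  have cW : clo G W = W := by rw [hWd, clo_clo hG hS']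
  have hCW : C ⊆ W := fun x hx => hWd ▸ sub_clo hG x (mem_union.2 (Or.inl hx))
  have h0C : ∀ x, x ∈ clo G ∅ → x ∈ C := fun x hx =>
    clo_sub hG hC cC (fun y hy => absurd hy (by simp)) x hx
  have hnW : ∀ x, ¬ x ∈ C → clo G (insert x C) ⊆ clo G (insert a C) ∪ clo G (insert b C) →
      ¬ x ∈ W := by
    intro x hx hx' hxW
    rw [hWd] at hxW
    by_cases hne : ∃ y, y ∈ C ∪ S'
    · obtain ⟨y, hy, hxy⟩ := hDg _ hS' hne x hxW
      rcases mem_union.1 hy with hy | hy
      · exact hx (clo_sub hG hC cC (fun z hz => by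
          rw [mem_singleton] at hz
          exact hz ▸ hy) x hxy)
      · have hx0 : ¬ x ∈ clo G ∅ := fun h8 => hx (h0C x h8)
        have h8 : ({y} : IPow M σ) = insert y ∅ := IPow.ext' fun z => by simp
        rw [h8] at hxy
        have h9 := exch hG IFin.empty hxy hx0
        have h10 : y ∈ clo G (insert x C) :=
          clo_mono hG (sub_insert (fun z hz => absurd hz (by simp)) x) y h9
        rw [hS'd] at hy
        exact (mem_sdiff.1 hy).2 (hx' y h10)
    · push Not at hne
      refine hx (h0C x (clo_mono hG (fun y hy => absurd hy (hne y)) x hxW))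
  have haW : ¬ a ∈ W := hnW a ha fun x hx => mem_union.2 (Or.inl hx)
  have hbW : ¬ b ∈ W := hnW b hb fun x hx => mem_union.2 (Or.inr hx)
  have hSW : ∀ x, x ∈ S → x ∈ W ∨ x ∈ clo G (insert a C) ∨ x ∈ clo G (insert b C) := by
    intro x hx
    by_cases h8 : x ∈ clo G (insert a C) ∪ clo G (insert b C)
    · exact Or.inr (mem_union.1 h8)
    · left
      rw [hWd]
      exact sub_clo hG x (mem_union.2 (Or.inr (hS'd ▸ mem_sdiff.2 ⟨hx, h8⟩)))
  have hWC : idr C ⊆ idr W := by
    rintro ⟨x, y⟩ hx
    obtain ⟨rfl, hxC⟩ := mem_idr.1 hx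
    exact mem_idr.2 ⟨rfl, hCW x hxC⟩
  have hdW : ∀ x, Dm (idr W) x ↔ x ∈ W := fun x =>
    ⟨fun ⟨y, hy⟩ => (mem_idr.1 hy).2, fun hx => ⟨x, mem_idr.2 ⟨rfl, hx⟩⟩⟩
  have hrW : ∀ x, Rg (idr W) x ↔ x ∈ W := fun x =>
    ⟨fun ⟨y, hy⟩ => (mem_idr.1 hy).1 ▸ (mem_idr.1 hy).2, fun hx => ⟨x, mem_idr.2 ⟨rfl, hx⟩⟩⟩
  have hp1 : idr W ∪ r ∈ G := indep hG hC cC hI (hG.idr hW) hWC hrG hrC hW cW cW hdW hrW hrab
    haW hbW hrD hrR
  have hp1l : ∀ x y, (x, y) ∈ idr W ∪ r → (x ∈ v.1 ↔ y ∈ v.1) ∧ (x ∈ v.2 ↔ y ∈ v.2) := by
    intro x y hxy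
    rcases mem_union.1 hxy with hxy | hxy
    · rw [(mem_idr.1 hxy).1]
      exact ⟨Iff.rfl, Iff.rfl⟩
    · exact hrl x y hxy
  by_cases hba : b ∈ clo G (insert a C)
  · -- the same block
    have hab : a ∈ clo G (insert b C) := exch hG hC hba (by rwa [cC])
    have hsub1 : clo G (insert b C) ⊆ clo G (insert a C) := clo_le hG (hC.insert a) (by
      intro y hy
      rcases mem_insert.1 hy with rfl | hy
      · exact hba
      · exact sub_clo hG y (mem_insert.2 (Or.inr hy)))
    have hsub2 : clo G (insert a C) ⊆ clo G (insert b C) := clo_le hG (hC.insert b) (by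
      intro y hy
      rcases mem_insert.1 hy with rfl | hy
      · exact hab
      · exact sub_clo hG y (mem_insert.2 (Or.inr hy)))
    refine ⟨_, hp1, mem_union.2 (Or.inr hrab), mv_self hSv hp1l (fun x hx => ?_) fun x hx => ?_⟩
    · rcases hSW x hx with h8 | h8 | h8
      · exact ⟨x, mem_union.2 (Or.inl (mem_idr.2 ⟨rfl, h8⟩))⟩
      · obtain ⟨y, hy⟩ := (hrD x).2 h8
        exact ⟨y, mem_union.2 (Or.inr hy)⟩
      · obtain ⟨y, hy⟩ := (hrD x).2 (hsub1 x h8)
        exact ⟨y, mem_union.2 (Or.inr hy)⟩
    · rcases hSW x hx with h8 | h8 | h8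
      · exact ⟨x, mem_union.2 (Or.inl (mem_idr.2 ⟨rfl, h8⟩))⟩
      · obtain ⟨y, hy⟩ := (hrR x).2 (hsub2 x h8)
        exact ⟨y, mem_union.2 (Or.inr hy)⟩
      · obtain ⟨y, hy⟩ := (hrR x).2 h8
        exact ⟨y, mem_union.2 (Or.inr hy)⟩
  · -- different blocks
    have hab : ¬ a ∈ clo G (insert b C) := fun h8 => hba (exch hG hC h8 (by rwa [cC]))
    have hclW : ∀ z, ¬ z ∈ C → ∀ x, x ∈ clo G (insert z W) ↔ x ∈ W ∨ x ∈ clo G (insert z C) := by
      intro z hz x
      constructor
      · intro hx
        rcases Deg.insert hG hDg hW cW hx with h8 | h8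
        · exact Or.inl h8
        · exact Or.inr (clo_mono hG (fun y hy => mem_insert.2 (Or.inl (mem_singleton.1 hy))) x h8)
      · rintro (hx | hx)
        · exact sub_clo hG x (mem_insert.2 (Or.inr hx))
        · exact clo_mono hG (sub_insert hCW z) x hx
    have hd1 : ∀ x, Dm (idr W ∪ r) x ↔ x ∈ clo G (insert a W) := by
      intro x
      rw [hclW a ha]
      constructor
      · rintro ⟨y, hy⟩
        rcases mem_union.1 hy with hy | hy
        · exact Or.inl (mem_idr.1 hy).2
        · exact Or.inr ((hrD x).1 ⟨y, hy⟩)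
      · rintro (hx | hx)
        · exact ⟨x, mem_union.2 (Or.inl (mem_idr.2 ⟨rfl, hx⟩))⟩
        · obtain ⟨y, hy⟩ := (hrD x).2 hx
          exact ⟨y, mem_union.2 (Or.inr hy)⟩
    have hr1 : ∀ x, Rg (idr W ∪ r) x ↔ x ∈ clo G (insert b W) := by
      intro x
      rw [hclW b hb]
      constructor
      · rintro ⟨y, hy⟩
        rcases mem_union.1 hy with hy | hy
        · exact Or.inl ((mem_idr.1 hy).1 ▸ (mem_idr.1 hy).2)
        · exact Or.inr ((hrR x).1 ⟨y, hy⟩)
      · rintro (hx | hx)
        · exact ⟨x, mem_union.2 (Or.inl (mem_idr.2 ⟨rfl, hx⟩))⟩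
        · obtain ⟨y, hy⟩ := (hrR x).2 hx
          exact ⟨y, mem_union.2 (Or.inr hy)⟩
    have hq : (idr W ∪ r) ∪ inv' r ∈ G := by
      refine indep hG hC cC hI hp1 (fun x hx => mem_union.2 (Or.inl (hWC x hx))) (hG.inv hrG) ?_
        (fin_clo hG (hW.insert a)) (clo_clo hG (hW.insert a)) (clo_clo hG (hW.insert b))
        hd1 hr1 (a := b) (b := a) (mem_inv.2 hrab) ?_ ?_ (fun x => dm_inv.trans (hrR x))
        fun x => rg_inv.trans (hrD x)
      · rintro ⟨x, y⟩ hx
        have hx' := hx
        obtain ⟨rfl, -⟩ := mem_idr.1 hx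
        exact mem_inv.2 (hrC _ hx')
      · rw [hclW a ha]
        push Not
        exact ⟨hbW, hba⟩
      · rw [hclW b hb]
        push Not
        exact ⟨haW, hab⟩
    refine ⟨_, hq, mem_union.2 (Or.inl (mem_union.2 (Or.inr hrab))), mv_self hSv ?_ ?_ ?_⟩
    · intro x y hxy
      rcases mem_union.1 hxy with hxy | hxy
      · exact hp1l x y hxy
      · have := hrl y x (mem_inv.1 hxy)
        exact ⟨this.1.symm, this.2.symm⟩
    · intro x hx
      rcases hSW x hx with h8 | h8 | h8
      · exact ⟨x, mem_union.2 (Or.inl (mem_union.2 (Or.inl (mem_idr.2 ⟨rfl, h8⟩))))⟩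
      · obtain ⟨y, hy⟩ := (hrD x).2 h8
        exact ⟨y, mem_union.2 (Or.inl (mem_union.2 (Or.inr hy)))⟩
      · obtain ⟨y, hy⟩ := (hrR x).2 h8
        exact ⟨y, mem_union.2 (Or.inr (mem_inv.2 hy))⟩
    · intro x hx
      rcases hSW x hx with h8 | h8 | h8
      · exact ⟨x, mem_union.2 (Or.inl (mem_union.2 (Or.inl (mem_idr.2 ⟨rfl, h8⟩))))⟩
      · obtain ⟨y, hy⟩ := (hrD x).2 h8
        exact ⟨y, mem_union.2 (Or.inr (mem_inv.2 hy))⟩
      · obtain ⟨y, hy⟩ := (hrR x).2 h8
        exact ⟨y, mem_union.2 (Or.inl (mem_union.2 (Or.inr hy)))⟩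

end

end Pool.Agent.Q207.PG
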