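import Pool.Agent.Q207.PG.Rel

/-!
# The groupoid of finite elementary maps
-/

set_option maxHeartbeats 1000000
set_option linter.all false

namespace Pool.Agent.Q207.PG

open FirstOrder FirstOrder.Language
open Pool.Agent.Helper672.ZFA
open Pool.Agent.H310
open Pool.Agent.Q212.ZA

universe u u₁ u₂ u₃ u₄

variable {M : Type u} [L.Structure M] [hM : IsModel M]
variable {σ : Type u₁} {β : Type u₂} {γ : Type u₃} [ITy M σ] [ITy M β] [ITy M γ]

variable (f : IPow M σ × IPow M σ → IPow M σ × IPow M σ)

/-- Atomic condition. -/
def At0 (p : IPow M (σ × σ)) : Prop :=
  (IFin p ∧ Fn p ∧ Ij p) ∧
    ∀ x y x' y' : IPow M σ × IPow M σ, Mv p x x' → Mv p y y' → (f x = y ↔ f x' = y')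

/-- The next level. -/
noncomputable def nxt (S : IPow M (IPow M (σ × σ))) : IPow M (IPow M (σ × σ)) :=
  sep M fun p => p ∈ S ∧ (∀ a, ∃ b, insert (a, b) p ∈ S) ∧ ∀ b, ∃ a, insert (a, b) p ∈ S

/-- The levels. -/
noncomputable def PP (n : INat M) : IPow M (IPow M (σ × σ)) :=
  irec (sep M (At0 f)) (fun _ S => nxt S) n

/-- The groupoid. -/
noncomputable def GG : IPow M (IPow M (σ × σ)) := sep M fun p => ∀ n, p ∈ PP f n

variable {f}

theorem int_At0 (hf : IntF M f) : Int M (At0 (M := M) f) := by
  have h : Int M (fun p : IPow M (σ × σ) => (IFin p ∧ Fn p ∧ Ij p) ∧
    ∀ x y x' y' : IPow M σ × IPow M σ, Mv p x x' → Mv p y y' → (f x = y ↔ f x' = y')) := by (repeat' (first | with_reducible exact IntF.id | with_reducible exact IntF.fst' | with_reducible exact IntF.snd' | with_reducible exact IntF.const _ | with_reducible exact Int.const _ | assumption | with_reducible apply Int.dm | with_reducible apply Int.rg | with_reducible apply Int.fn | with_reducible apply Int.ij | with_reducible apply Int.mv | with_reducible apply IntF.idr | with_reducible apply IntF.inv' | with_reducible apply IntF.cmp | with_reducible apply IntF.irec | with_reducible apply Int.and | with_reducible apply Int.or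 | with_reducible apply Int.not | with_reducible apply Int.imp | with_reducible apply Int.iff | with_reducible apply Int.ne | with_reducible apply Int.eq | with_reducible apply Int.mem | with_reducible apply Int.subset | with_reducible apply Int.ltN | with_reducible apply Int.leN | with_reducible apply Int.fin | with_reducible apply Int.unique | with_reducible apply Int.all | with_reducible apply Int.ex | with_reducible apply IntF.fst | with_reducible apply IntF.snd | with_reducible apply IntF.app | with_reducible apply IntF.ite | with_reducible apply IntF.sep | with_reducible apply IntF.lam | with_reducible apply IntF.insert | with_reducible apply IntF.singleton | with_reducible apply IntF.union | with_reducible apply IntF.inter | with_reducible apply IntF.sdiff | with_reducible apply IntF.isUnion | with_reducible apply IntF.iimage | with_reducible apply IntF.the | with_reducible apply IntF.irec | with_reducible_and_instances apply IntF.add | with_reducible_and_instances apply IntF.mul | with_reducible apply IntF.succ | with_reducible apply IntF.val | with_reducible apply IntF.mk | (with_reducible refine Int.comp ?_ ?_; assumption) | (with_reducible refine Int.comp₂ ?_ ?_ ?_; assumption)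 | (with_reducible refine Int.comp₃ ?_ ?_ ?_ ?_; assumption) | (with_reducible refine IntF.comp ?_ ?_; assumption) | (with_reducible refine IntF.comp₂ ?_ ?_ ?_; assumption) | (with_reducible refine IntF.comp₃ ?_ ?_ ?_ ?_; assumption) | with_reducible apply IntF.pair))
  exact h

theorem mem_nxt {S : IPow M (IPow M (σ × σ))} {p : IPow M (σ × σ)} : p ∈ nxt S ↔
    p ∈ S ∧ (∀ a, ∃ b, insert (a, b) p ∈ S) ∧ ∀ b, ∃ a, insert (a, b) p ∈ S := by
  unfold nxt
  rw [mem_sep (by (repeat' (first | with_reducible exact IntF.id | with_reducible exact IntF.fst' | with_reducible exact IntF.snd' | with_reducible exact IntF.const _ | with_reducible exact Int.const _ | assumption | with_reducible apply Int.dm | with_reducible apply Int.rg | with_reducible apply Int.fn | with_reducible apply Int.ij | with_reducible apply Int.mv | with_reducible apply IntF.idr | with_reducible apply IntF.inv' | with_reducible apply IntF.cmp | with_reducible apply IntF.irec | with_reducible apply Int.and | with_reducible apply Int.or | with_reducible apply Int.not | with_reducible apply Int.imp | with_reducible apply Int.iff | with_reducible apply Int.ne | with_reducible apply Int.eq | with_reducible apply Int.mem |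 with_reducible apply Int.subset | with_reducible apply Int.ltN | with_reducible apply Int.leN | with_reducible apply Int.fin | with_reducible apply Int.unique | with_reducible apply Int.all | with_reducible apply Int.ex | with_reducible apply IntF.fst | with_reducible apply IntF.snd | with_reducible apply IntF.app | with_reducible apply IntF.ite | with_reducible apply IntF.sep | with_reducible apply IntF.lam | with_reducible apply IntF.insert | with_reducible apply IntF.singleton | with_reducible apply IntF.union | with_reducible apply IntF.inter | with_reducible apply IntF.sdiff | with_reducible apply IntF.isUnion | with_reducible apply IntF.iimage | with_reducible apply IntF.the | with_reducible apply IntF.irec | with_reducible_and_instances apply IntF.add | with_reducible_and_instances apply IntF.mul | with_reducible apply IntF.succ | with_reducible apply IntF.val | with_reducible apply IntF.mk | (with_reducible refine Int.comp ?_ ?_; assumption) | (with_reducible refine Int.comp₂ ?_ ?_ ?_; assumption) | (with_reducible refine Int.comp₃ ?_ ?_ ?_ ?_; assumption) | (with_reducible refine IntF.comp ?_ ?_; assumption) | (with_reducible refine IntF.comp₂ ?_ ?_ ?_; assumption) | (with_reducible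 refine IntF.comp₃ ?_ ?_ ?_ ?_; assumption) | with_reducible apply IntF.pair)))]

theorem int_nxt : IntF M (fun S : IPow M (IPow M (σ × σ)) => nxt S) := by
  unfold nxt
  (repeat' (first | with_reducible exact IntF.id | with_reducible exact IntF.fst' | with_reducible exact IntF.snd' | with_reducible exact IntF.const _ | with_reducible exact Int.const _ | assumption | with_reducible apply Int.dm | with_reducible apply Int.rg | with_reducible apply Int.fn | with_reducible apply Int.ij | with_reducible apply Int.mv | with_reducible apply IntF.idr | with_reducible apply IntF.inv' | with_reducible apply IntF.cmp | with_reducible apply IntF.irec | with_reducible apply Int.and | with_reducible apply Int.or | with_reducible apply Int.not | with_reducible apply Int.imp | with_reducible apply Int.iff | with_reducible apply Int.ne | with_reducible apply Int.eq | with_reducible apply Int.mem | with_reducible apply Int.subset | with_reducible apply Int.ltN | with_reducible apply Int.leN | with_reducible apply Int.fin | with_reducible apply Int.unique | with_reducible apply Int.all | with_reducible apply Int.ex | with_reducible apply IntF.fst | with_reducible apply IntF.snd | with_reducible apply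 IntF.app | with_reducible apply IntF.ite | with_reducible apply IntF.sep | with_reducible apply IntF.lam | with_reducible apply IntF.insert | with_reducible apply IntF.singleton | with_reducible apply IntF.union | with_reducible apply IntF.inter | with_reducible apply IntF.sdiff | with_reducible apply IntF.isUnion | with_reducible apply IntF.iimage | with_reducible apply IntF.the | with_reducible apply IntF.irec | with_reducible_and_instances apply IntF.add | with_reducible_and_instances apply IntF.mul | with_reducible apply IntF.succ | with_reducible apply IntF.val | with_reducible apply IntF.mk | (with_reducible refine Int.comp ?_ ?_; assumption) | (with_reducible refine Int.comp₂ ?_ ?_ ?_; assumption) | (with_reducible refine Int.comp₃ ?_ ?_ ?_ ?_; assumption) | (with_reducible refine IntF.comp ?_ ?_; assumption) | (with_reducible refine IntF.comp₂ ?_ ?_ ?_; assumption) | (with_reducible refine IntF.comp₃ ?_ ?_ ?_ ?_; assumption) | with_reducible apply IntF.pair))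

theorem int_nxt' : IntF M (fun q : INat M × IPow M (IPow M (σ × σ)) => nxt q.2) :=
  IntF.comp int_nxt IntF.snd'

theorem int_PP : IntF M (fun n : INat M => PP f n) := by
  unfold PP
  have h := int_nxt (M := M) (σ := σ)
  (repeat' (first | with_reducible exact IntF.id | with_reducible exact IntF.fst' | with_reducible exact IntF.snd' | with_reducible exact IntF.const _ | with_reducible exact Int.const _ | assumption | with_reducible apply Int.dm | with_reducible apply Int.rg | with_reducible apply Int.fn | with_reducible apply Int.ij | with_reducible apply Int.mv | with_reducible apply IntF.idr | with_reducible apply IntF.inv' | with_reducible apply IntF.cmp | with_reducible apply IntF.irec | with_reducible apply Int.and | with_reducible apply Int.or | with_reducible apply Int.not | with_reducible apply Int.imp | with_reducible apply Int.iff | with_reducible apply Int.ne | with_reducible apply Int.eq | with_reducible apply Int.mem | with_reducible apply Int.subset | with_reducible apply Int.ltN | with_reducible apply Int.leN | with_reducible apply Int.fin | with_reducible apply Int.unique | with_reducible apply Int.all | with_reducible apply Int.ex | with_reducible apply IntF.fst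 | with_reducible apply IntF.snd | with_reducible apply IntF.app | with_reducible apply IntF.ite | with_reducible apply IntF.sep | with_reducible apply IntF.lam | with_reducible apply IntF.insert | with_reducible apply IntF.singleton | with_reducible apply IntF.union | with_reducible apply IntF.inter | with_reducible apply IntF.sdiff | with_reducible apply IntF.isUnion | with_reducible apply IntF.iimage | with_reducible apply IntF.the | with_reducible apply IntF.irec | with_reducible_and_instances apply IntF.add | with_reducible_and_instances apply IntF.mul | with_reducible apply IntF.succ | with_reducible apply IntF.val | with_reducible apply IntF.mk | (with_reducible refine Int.comp ?_ ?_; assumption) | (with_reducible refine Int.comp₂ ?_ ?_ ?_; assumption) | (with_reducible refine Int.comp₃ ?_ ?_ ?_ ?_; assumption) | (with_reducible refine IntF.comp ?_ ?_; assumption) | (with_reducible refine IntF.comp₂ ?_ ?_ ?_; assumption) | (with_reducible refine IntF.comp₃ ?_ ?_ ?_ ?_; assumption) | with_reducible apply IntF.pair))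

theorem PP_zero : PP f 0 = sep M (At0 (M := M) f) := irec_zero int_nxt'

theorem PP_succ (n : INat M) : PP f n.succ = nxt (PP f n) := irec_succ int_nxt' n

theorem mem_PP_zero (hf : IntF M f) {p : IPow M (σ × σ)} : p ∈ PP f 0 ↔ At0 f p := by
  rw [PP_zero, mem_sep (int_At0 hf)]

theorem mem_PP_succ {n : INat M} {p : IPow M (σ × σ)} : p ∈ PP f n.succ ↔
    p ∈ PP f n ∧ (∀ a, ∃ b, insert (a, b) p ∈ PP f n) ∧ ∀ b, ∃ a, insert (a, b) p ∈ PP f n := by
  rw [PP_succ, mem_nxt]

theorem mem_GG {p : IPow M (σ × σ)} : p ∈ GG f ↔ ∀ n, p ∈ PP f n := by
  unfold GG
  have h := int_PP (M := M) (f := f)
  rw [mem_sep (by (repeat' (first | with_reducible exact IntF.id | with_reducible exact IntF.fst' | with_reducible exact IntF.snd' | with_reducible exact IntF.const _ | with_reducible exact Int.const _ | assumption | with_reducible apply Int.dm | with_reducible apply Int.rg | with_reducible apply Int.fn | with_reducible apply Int.ij | with_reducible apply Int.mv | with_reducible apply IntF.idr | with_reducible apply IntF.inv' | with_reducible apply IntF.cmp | with_reducible apply IntF.irec | with_reducible apply Int.and | with_reducible apply Int.or | with_reducible apply Int.not | with_reducible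 apply Int.imp | with_reducible apply Int.iff | with_reducible apply Int.ne | with_reducible apply Int.eq | with_reducible apply Int.mem | with_reducible apply Int.subset | with_reducible apply Int.ltN | with_reducible apply Int.leN | with_reducible apply Int.fin | with_reducible apply Int.unique | with_reducible apply Int.all | with_reducible apply Int.ex | with_reducible apply IntF.fst | with_reducible apply IntF.snd | with_reducible apply IntF.app | with_reducible apply IntF.ite | with_reducible apply IntF.sep | with_reducible apply IntF.lam | with_reducible apply IntF.insert | with_reducible apply IntF.singleton | with_reducible apply IntF.union | with_reducible apply IntF.inter | with_reducible apply IntF.sdiff | with_reducible apply IntF.isUnion | with_reducible apply IntF.iimage | with_reducible apply IntF.the | with_reducible apply IntF.irec | with_reducible_and_instances apply IntF.add | with_reducible_and_instances apply IntF.mul | with_reducible apply IntF.succ | with_reducible apply IntF.val | with_reducible apply IntF.mk | (with_reducible refine Int.comp ?_ ?_; assumption) | (with_reducible refine Int.comp₂ ?_ ?_ ?_; assumption) | (with_reducible refine Int.comp₃ ?_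 ?_ ?_ ?_; assumption) | (with_reducible refine IntF.comp ?_ ?_; assumption) | (with_reducible refine IntF.comp₂ ?_ ?_ ?_; assumption) | (with_reducible refine IntF.comp₃ ?_ ?_ ?_ ?_; assumption) | with_reducible apply IntF.pair)))]

theorem PP_anti {m n : INat M} (hmn : m ≤ n) {p : IPow M (σ × σ)} (hp : p ∈ PP f n) :
    p ∈ PP f m := by
  have h := int_PP (M := M) (f := f)
  revert hmn hp
  refine INat.ind (p := fun n : INat M => m ≤ n → p ∈ PP f n → p ∈ PP f m) (by (repeat' (first | with_reducible exact IntF.id | with_reducible exact IntF.fst' | with_reducible exact IntF.snd' | with_reducible exact IntF.const _ | with_reducible exact Int.const _ | assumption | with_reducible apply Int.dm | with_reducible apply Int.rg | with_reducible apply Int.fn | with_reducible apply Int.ij | with_reducible apply Int.mv | with_reducible apply IntF.idr | with_reducible apply IntF.inv' | with_reducible apply IntF.cmp | with_reducible apply IntF.irec | with_reducible apply Int.and | with_reducible apply Int.or | with_reducible apply Int.not | with_reducible apply Int.imp | with_reducible apply Int.iff | with_reducible apply Int.ne | with_reducible apply Int.eq | with_reducible apply Int.mem | with_reducible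 apply Int.subset | with_reducible apply Int.ltN | with_reducible apply Int.leN | with_reducible apply Int.fin | with_reducible apply Int.unique | with_reducible apply Int.all | with_reducible apply Int.ex | with_reducible apply IntF.fst | with_reducible apply IntF.snd | with_reducible apply IntF.app | with_reducible apply IntF.ite | with_reducible apply IntF.sep | with_reducible apply IntF.lam | with_reducible apply IntF.insert | with_reducible apply IntF.singleton | with_reducible apply IntF.union | with_reducible apply IntF.inter | with_reducible apply IntF.sdiff | with_reducible apply IntF.isUnion | with_reducible apply IntF.iimage | with_reducible apply IntF.the | with_reducible apply IntF.irec | with_reducible_and_instances apply IntF.add | with_reducible_and_instances apply IntF.mul | with_reducible apply IntF.succ | with_reducible apply IntF.val | with_reducible apply IntF.mk | (with_reducible refine Int.comp ?_ ?_; assumption) | (with_reducible refine Int.comp₂ ?_ ?_ ?_; assumption) | (with_reducible refine Int.comp₃ ?_ ?_ ?_ ?_; assumption) | (with_reducible refine IntF.comp ?_ ?_; assumption) | (with_reducible refine IntF.comp₂ ?_ ?_ ?_; assumption) | (with_reducible refine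 IntF.comp₃ ?_ ?_ ?_ ?_; assumption) | with_reducible apply IntF.pair))) ?_ ?_ n
  · intro h1 h2
    have : m = 0 := le_antisymm h1 (INat.zero_le _)
    rw [this]
    exact h2
  · intro n ih h1 h2
    rcases INat.le_iff'.1 h1 with h3 | h3
    · exact ih (INat.lt_succ_iff.1 h3) (mem_PP_succ.1 h2).1
    · rw [h3]
      exact h2

/-- The basic properties of a member of a level. -/
theorem PP_basic (hf : IntF M f) {n : INat M} {p : IPow M (σ × σ)} (hp : p ∈ PP f n) :
    At0 f p := (mem_PP_zero hf).1 (PP_anti (INat.zero_le n) hp)

theorem PP_fin (hf : IntF M f) {n : INat M} {p : IPow M (σ × σ)} (hp : p ∈ PP f n) :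
    IFin p := (PP_basic hf hp).1.1

theorem PP_fn (hf : IntF M f) {n : INat M} {p : IPow M (σ × σ)} (hp : p ∈ PP f n) :
    Fn p := (PP_basic hf hp).1.2.1

theorem PP_ij (hf : IntF M f) {n : INat M} {p : IPow M (σ × σ)} (hp : p ∈ PP f n) :
    Ij p := (PP_basic hf hp).1.2.2

theorem sub_insert {α : Type*} [ITy M α] {s t : IPow M α} (h : s ⊆ t) (a : α) :
    insert a s ⊆ insert a t := fun x hx => by
  rcases mem_insert.1 hx with rfl | hx
  · exact mem_insert.2 (Or.inl rfl)
  · exact mem_insert.2 (Or.inr (h x hx))

theorem PP_sub (hf : IntF M f) (n : INat M) : ∀ p q : IPow M (σ × σ), p ∈ PP f n → q ⊆ p →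
    q ∈ PP f n := by
  have h := int_PP (M := M) (f := f)
  refine INat.ind (p := fun n : INat M => ∀ p q : IPow M (σ × σ), p ∈ PP f n → q ⊆ p →
    q ∈ PP f n) (by (repeat' (first | with_reducible exact IntF.id | with_reducible exact IntF.fst' | with_reducible exact IntF.snd' | with_reducible exact IntF.const _ | with_reducible exact Int.const _ | assumption | with_reducible apply Int.dm | with_reducible apply Int.rg | with_reducible apply Int.fn | with_reducible apply Int.ij | with_reducible apply Int.mv | with_reducible apply IntF.idr | with_reducible apply IntF.inv' | with_reducible apply IntF.cmp | with_reducible apply IntF.irec | with_reducible apply Int.and | with_reducible apply Int.or | with_reducible apply Int.not | with_reducible apply Int.imp | with_reducible apply Int.iff | with_reducible apply Int.ne | with_reducible apply Int.eq | with_reducible apply Int.mem | with_reducible apply Int.subset | with_reducible apply Int.ltN | with_reducible apply Int.leN | with_reducible apply Int.fin | with_reducible apply Int.unique | with_reducible apply Int.all | with_reducible apply Int.ex | with_reducible apply IntF.fst | with_reducible apply IntF.snd | with_reducible apply IntF.app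 | with_reducible apply IntF.ite | with_reducible apply IntF.sep | with_reducible apply IntF.lam | with_reducible apply IntF.insert | with_reducible apply IntF.singleton | with_reducible apply IntF.union | with_reducible apply IntF.inter | with_reducible apply IntF.sdiff | with_reducible apply IntF.isUnion | with_reducible apply IntF.iimage | with_reducible apply IntF.the | with_reducible apply IntF.irec | with_reducible_and_instances apply IntF.add | with_reducible_and_instances apply IntF.mul | with_reducible apply IntF.succ | with_reducible apply IntF.val | with_reducible apply IntF.mk | (with_reducible refine Int.comp ?_ ?_; assumption) | (with_reducible refine Int.comp₂ ?_ ?_ ?_; assumption) | (with_reducible refine Int.comp₃ ?_ ?_ ?_ ?_; assumption) | (with_reducible refine IntF.comp ?_ ?_; assumption) | (with_reducible refine IntF.comp₂ ?_ ?_ ?_; assumption) | (with_reducible refine IntF.comp₃ ?_ ?_ ?_ ?_; assumption) | with_reducible apply IntF.pair))) ?_ ?_ n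
  · intro p q hp hq
    rw [mem_PP_zero hf] at hp ⊢
    obtain ⟨⟨h1, h2, h3⟩, h4⟩ := hp
    exact ⟨⟨h1.subset hq, fn_mono hq h2, ij_mono hq h3⟩, fun x y x' y' h5 h6 =>
      h4 x y x' y' (h5.mono h2 h3 hq) (h6.mono h2 h3 hq)⟩
  · intro n ih p q hp hq
    rw [mem_PP_succ] at hp ⊢
    refine ⟨ih p q hp.1 hq, fun a => ?_, fun b => ?_⟩
    · obtain ⟨b, hb⟩ := hp.2.1 a
      exact ⟨b, ih _ _ hb (sub_insert hq _)⟩
    · obtain ⟨a, ha⟩ := hp.2.2 b
      exact ⟨a, ih _ _ ha (sub_insert hq _)⟩

theorem insert_idr (D : IPow M σ) (a : σ) : insert (a, a) (idr D) = idr (insert a D) :=
  IPow.ext' fun ⟨x, y⟩ => by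
    rw [mem_insert, mem_idr, mem_idr, mem_insert, Prod.mk.injEq]
    constructor
    · rintro (⟨rfl, rfl⟩ | ⟨rfl, h⟩)
      · exact ⟨rfl, Or.inl rfl⟩
      · exact ⟨rfl, Or.inr h⟩
    · rintro ⟨rfl, rfl | h⟩
      · exact Or.inl ⟨rfl, rfl⟩
      · exact Or.inr ⟨rfl, h⟩

theorem PP_idr (hf : IntF M f) (n : INat M) : ∀ D : IPow M σ, IFin D → idr D ∈ PP f n := by
  have h := int_PP (M := M) (f := f)
  refine INat.ind (p := fun n : INat M => ∀ D : IPow M σ, IFin D → idr D ∈ PP f n) (by (repeat' (first | with_reducible exact IntF.id | with_reducible exact IntF.fst' | with_reducible exact IntF.snd' | with_reducible exact IntF.const _ | with_reducible exact Int.const _ | assumption | with_reducible apply Int.dm | with_reducible apply Int.rg | with_reducible apply Int.fn | with_reducible apply Int.ij | with_reducible apply Int.mv | with_reducible apply IntF.idr | with_reducible apply IntF.inv' | with_reducible apply IntF.cmp | with_reducible apply IntF.irec | with_reducible apply Int.and | with_reducible apply Int.or | with_reducible apply Int.not | with_reducible apply Int.imp | with_reducible apply Int.iff | with_reducible apply Int.ne | with_reducible apply Int.eq | with_reducible apply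 Int.mem | with_reducible apply Int.subset | with_reducible apply Int.ltN | with_reducible apply Int.leN | with_reducible apply Int.fin | with_reducible apply Int.unique | with_reducible apply Int.all | with_reducible apply Int.ex | with_reducible apply IntF.fst | with_reducible apply IntF.snd | with_reducible apply IntF.app | with_reducible apply IntF.ite | with_reducible apply IntF.sep | with_reducible apply IntF.lam | with_reducible apply IntF.insert | with_reducible apply IntF.singleton | with_reducible apply IntF.union | with_reducible apply IntF.inter | with_reducible apply IntF.sdiff | with_reducible apply IntF.isUnion | with_reducible apply IntF.iimage | with_reducible apply IntF.the | with_reducible apply IntF.irec | with_reducible_and_instances apply IntF.add | with_reducible_and_instances apply IntF.mul | with_reducible apply IntF.succ | with_reducible apply IntF.val | with_reducible apply IntF.mk | (with_reducible refine Int.comp ?_ ?_; assumption) | (with_reducible refine Int.comp₂ ?_ ?_ ?_; assumption) | (with_reducible refine Int.comp₃ ?_ ?_ ?_ ?_; assumption) | (with_reducible refine IntF.comp ?_ ?_; assumption) | (with_reducible refine IntF.comp₂ ?_ ?_ ?_; assumption)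 | (with_reducible refine IntF.comp₃ ?_ ?_ ?_ ?_; assumption) | with_reducible apply IntF.pair)))
    ?_ ?_ n
  · intro D hD
    rw [mem_PP_zero hf]
    refine ⟨⟨fin_idr hD, fn_idr D, ij_idr D⟩, fun x y x' y' h1 h2 => ?_⟩
    rw [h1.idr, h2.idr]
  · intro n ih D hD
    rw [mem_PP_succ]
    refine ⟨ih D hD, fun a => ⟨a, ?_⟩, fun a => ⟨a, ?_⟩⟩
    · rw [insert_idr]
      exact ih _ (hD.insert a)
    · rw [insert_idr]
      exact ih _ (hD.insert a)

theorem insert_inv (p : IPow M (σ × σ)) (a b : σ) :
    inv' (insert (a, b) p) = insert (b, a) (inv' p) :=
  IPow.ext' fun ⟨x, y⟩ => by
    rw [mem_inv, mem_insert, mem_insert, mem_inv, Prod.mk.injEq, Prod.mk.injEq]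
    tauto

theorem PP_inv (hf : IntF M f) (n : INat M) : ∀ p : IPow M (σ × σ), p ∈ PP f n →
    inv' p ∈ PP f n := by
  have h := int_PP (M := M) (f := f)
  refine INat.ind (p := fun n : INat M => ∀ p : IPow M (σ × σ), p ∈ PP f n →
    inv' p ∈ PP f n) (by (repeat' (first | with_reducible exact IntF.id | with_reducible exact IntF.fst' | with_reducible exact IntF.snd' | with_reducible exact IntF.const _ | with_reducible exact Int.const _ | assumption | with_reducible apply Int.dm | with_reducible apply Int.rg | with_reducible apply Int.fn | with_reducible apply Int.ij | with_reducible apply Int.mv | with_reducible apply IntF.idr | with_reducible apply IntF.inv' | with_reducible apply IntF.cmp | with_reducible apply IntF.irec | with_reducible apply Int.and | with_reducible apply Int.or | with_reducible apply Int.not | with_reducible apply Int.imp | with_reducible apply Int.iff | with_reducible apply Int.ne | with_reducible apply Int.eq | with_reducible apply Int.mem | with_reducible apply Int.subset | with_reducible apply Int.ltN | with_reducible apply Int.leN | with_reducible apply Int.fin | with_reducible apply Int.unique | with_reducible apply Int.all | with_reducible apply Int.ex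 | with_reducible apply IntF.fst | with_reducible apply IntF.snd | with_reducible apply IntF.app | with_reducible apply IntF.ite | with_reducible apply IntF.sep | with_reducible apply IntF.lam | with_reducible apply IntF.insert | with_reducible apply IntF.singleton | with_reducible apply IntF.union | with_reducible apply IntF.inter | with_reducible apply IntF.sdiff | with_reducible apply IntF.isUnion | with_reducible apply IntF.iimage | with_reducible apply IntF.the | with_reducible apply IntF.irec | with_reducible_and_instances apply IntF.add | with_reducible_and_instances apply IntF.mul | with_reducible apply IntF.succ | with_reducible apply IntF.val | with_reducible apply IntF.mk | (with_reducible refine Int.comp ?_ ?_; assumption) | (with_reducible refine Int.comp₂ ?_ ?_ ?_; assumption) | (with_reducible refine Int.comp₃ ?_ ?_ ?_ ?_; assumption) | (with_reducible refine IntF.comp ?_ ?_; assumption) | (with_reducible refine IntF.comp₂ ?_ ?_ ?_; assumption) | (with_reducible refine IntF.comp₃ ?_ ?_ ?_ ?_; assumption) | with_reducible apply IntF.pair))) ?_ ?_ n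
  · intro p hp
    rw [mem_PP_zero hf] at hp ⊢
    obtain ⟨⟨h1, h2, h3⟩, h4⟩ := hp
    refine ⟨⟨fin_inv h1, fn_inv h3, ij_inv h2⟩, fun x y x' y' h5 h6 => ?_⟩
    have h7 := h5.inv
    have h8 := h6.inv
    rw [inv_inv'] at h7 h8
    exact (h4 _ _ _ _ h7 h8).symm
  · intro n ih p hp
    rw [mem_PP_succ] at hp ⊢
    refine ⟨ih p hp.1, fun a => ?_, fun b => ?_⟩
    · obtain ⟨b, hb⟩ := hp.2.2 a
      refine ⟨b, ?_⟩
      rw [← insert_inv]
      exact ih _ hb
    · obtain ⟨a, ha⟩ := hp.2.1 b
      refine ⟨a, ?_⟩
      rw [← insert_inv]
      exact ih _ ha

theorem PP_cmp (hinf : ¬ FinP M (fun _ : σ => True)) (hf : IntF M f) (n : INat M) :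
    ∀ p q : IPow M (σ × σ), p ∈ PP f n → q ∈ PP f n → cmp q p ∈ PP f n := by
  have h := int_PP (M := M) (f := f)
  refine INat.ind (p := fun n : INat M => ∀ p q : IPow M (σ × σ), p ∈ PP f n → q ∈ PP f n →
    cmp q p ∈ PP f n) (by (repeat' (first | with_reducible exact IntF.id | with_reducible exact IntF.fst' | with_reducible exact IntF.snd' | with_reducible exact IntF.const _ | with_reducible exact Int.const _ | assumption | with_reducible apply Int.dm | with_reducible apply Int.rg | with_reducible apply Int.fn | with_reducible apply Int.ij | with_reducible apply Int.mv | with_reducible apply IntF.idr | with_reducible apply IntF.inv' | with_reducible apply IntF.cmp | with_reducible apply IntF.irec | with_reducible apply Int.and | with_reducible apply Int.or | with_reducible apply Int.not | with_reducible apply Int.imp | with_reducible apply Int.iff | with_reducible apply Int.ne | with_reducible apply Int.eq | with_reducible apply Int.mem | with_reducible apply Int.subset | with_reducible apply Int.ltN | with_reducible apply Int.leN | with_reducible apply Int.fin | with_reducible apply Int.unique | with_reducible apply Int.all | with_reducible apply Int.ex | with_reducible apply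 IntF.fst | with_reducible apply IntF.snd | with_reducible apply IntF.app | with_reducible apply IntF.ite | with_reducible apply IntF.sep | with_reducible apply IntF.lam | with_reducible apply IntF.insert | with_reducible apply IntF.singleton | with_reducible apply IntF.union | with_reducible apply IntF.inter | with_reducible apply IntF.sdiff | with_reducible apply IntF.isUnion | with_reducible apply IntF.iimage | with_reducible apply IntF.the | with_reducible apply IntF.irec | with_reducible_and_instances apply IntF.add | with_reducible_and_instances apply IntF.mul | with_reducible apply IntF.succ | with_reducible apply IntF.val | with_reducible apply IntF.mk | (with_reducible refine Int.comp ?_ ?_; assumption) | (with_reducible refine Int.comp₂ ?_ ?_ ?_; assumption) | (with_reducible refine Int.comp₃ ?_ ?_ ?_ ?_; assumption) | (with_reducible refine IntF.comp ?_ ?_; assumption) | (with_reducible refine IntF.comp₂ ?_ ?_ ?_; assumption) | (with_reducible refine IntF.comp₃ ?_ ?_ ?_ ?_; assumption) | with_reducible apply IntF.pair))) ?_ ?_ n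
  · intro p q hp hq
    rw [mem_PP_zero hf] at hp hq ⊢
    obtain ⟨⟨h1, h2, h3⟩, h4⟩ := hp
    obtain ⟨⟨h1', h2', h3'⟩, h4'⟩ := hq
    refine ⟨⟨fin_cmp h1 h1', fn_cmp h2 h2', ij_cmp h3 h3'⟩, fun x y x' y' h5 h6 => ?_⟩
    obtain ⟨z, h7, h8⟩ := h5.split hinf h1 h1' h2 h3 h2' h3'
    obtain ⟨w, h9, h10⟩ := h6.split hinf h1 h1' h2 h3 h2' h3'
    exact (h4 _ _ _ _ h7 h9).trans (h4' _ _ _ _ h8 h10)
  · intro n ih p q hp hq
    rw [mem_PP_succ] at hp hq ⊢
    refine ⟨ih p q hp.1 hq.1, fun a => ?_, fun c => ?_⟩
    · obtain ⟨b, hb⟩ := hp.2.1 a
      obtain ⟨c, hc⟩ := hq.2.1 b
      refine ⟨c, PP_sub hf n _ _ (ih _ _ hb hc) ?_⟩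
      rintro ⟨x, y⟩ hx
      rw [mem_cmp]
      rcases mem_insert.1 hx with hx | hx
      · rw [Prod.mk.injEq] at hx
        obtain ⟨rfl, rfl⟩ := hx
        exact ⟨b, mem_insert.2 (Or.inl rfl), mem_insert.2 (Or.inl rfl)⟩
      · obtain ⟨z, h1, h2⟩ := mem_cmp.1 hx
        exact ⟨z, mem_insert.2 (Or.inr h1), mem_insert.2 (Or.inr h2)⟩
    · obtain ⟨b, hb⟩ := hq.2.2 c
      obtain ⟨a, ha⟩ := hp.2.2 b
      refine ⟨a, PP_sub hf n _ _ (ih _ _ ha hb) ?_⟩
      rintro ⟨x, y⟩ hx
      rw [mem_cmp]
      rcases mem_insert.1 hx with hx | hx
      · rw [Prod.mk.injEq] at hx
        obtain ⟨rfl, rfl⟩ := hx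
        exact ⟨b, mem_insert.2 (Or.inl rfl), mem_insert.2 (Or.inl rfl)⟩
      · obtain ⟨z, h1, h2⟩ := mem_cmp.1 hx
        exact ⟨z, mem_insert.2 (Or.inr h1), mem_insert.2 (Or.inr h2)⟩

/-- Decreasing sequences of nonempty sets have nonempty intersection. -/
theorem dec_inter (hA : Amo M σ) {B : INat M × σ → Prop} (hB : Int M B)
    (hdec : ∀ m n b, m ≤ n → B (n, b) → B (m, b)) (hne : ∀ n, ∃ b, B (n, b)) :
    ∃ b, ∀ n, B (n, b) := by
  have hB' : Int M (fun q : INat M × σ => B (q.1, q.2)) := hB
  by_cases hall : ∀ n, FinP M (fun b => ¬ B (n, b))
  · have h1 := hA.nat (fun q => ¬ B (q.1, q.2)) (by (repeat' (first | with_reducible exact IntF.id | with_reducible exact IntF.fst' | with_reducible exact IntF.snd' | with_reducible exact IntF.const _ | with_reducible exact Int.const _ | assumption | with_reducible apply Int.dm | with_reducible apply Int.rg | with_reducible apply Int.fn | with_reducible apply Int.ij | with_reducible apply Int.mv | with_reducible apply IntF.idr | with_reducible apply IntF.inv' | with_reducible apply IntF.cmp | with_reducible apply IntF.irec | with_reducible apply Int.and | with_reducible apply Int.or | with_reducible apply Int.not | with_reducible apply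 Int.imp | with_reducible apply Int.iff | with_reducible apply Int.ne | with_reducible apply Int.eq | with_reducible apply Int.mem | with_reducible apply Int.subset | with_reducible apply Int.ltN | with_reducible apply Int.leN | with_reducible apply Int.fin | with_reducible apply Int.unique | with_reducible apply Int.all | with_reducible apply Int.ex | with_reducible apply IntF.fst | with_reducible apply IntF.snd | with_reducible apply IntF.app | with_reducible apply IntF.ite | with_reducible apply IntF.sep | with_reducible apply IntF.lam | with_reducible apply IntF.insert | with_reducible apply IntF.singleton | with_reducible apply IntF.union | with_reducible apply IntF.inter | with_reducible apply IntF.sdiff | with_reducible apply IntF.isUnion | with_reducible apply IntF.iimage | with_reducible apply IntF.the | with_reducible apply IntF.irec | with_reducible_and_instances apply IntF.add | with_reducible_and_instances apply IntF.mul | with_reducible apply IntF.succ | with_reducible apply IntF.val | with_reducible apply IntF.mk | (with_reducible refine Int.comp ?_ ?_; assumption) | (with_reducible refine Int.comp₂ ?_ ?_ ?_; assumption) | (with_reducible refine Int.comp₃ ?_ ?_ ?_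 ?_; assumption) | (with_reducible refine IntF.comp ?_ ?_; assumption) | (with_reducible refine IntF.comp₂ ?_ ?_ ?_; assumption) | (with_reducible refine IntF.comp₃ ?_ ?_ ?_ ?_; assumption) | with_reducible apply IntF.pair))) fun n _ => hall n
    obtain ⟨b, hb⟩ := exists_not hA.inf h1
    refine ⟨b, fun n => ?_⟩
    by_contra h2
    exact hb ⟨n, trivial, h2⟩
  · push Not at hall
    obtain ⟨n, hn⟩ := hall
    have h1 : FinP M (fun b => B (n, b)) := (hA.split _ (by (repeat' (first | with_reducible exact IntF.id | with_reducible exact IntF.fst' | with_reducible exact IntF.snd' | with_reducible exact IntF.const _ | with_reducible exact Int.const _ | assumption | with_reducible apply Int.dm | with_reducible apply Int.rg | with_reducible apply Int.fn | with_reducible apply Int.ij | with_reducible apply Int.mv | with_reducible apply IntF.idr | with_reducible apply IntF.inv' | with_reducible apply IntF.cmp | with_reducible apply IntF.irec | with_reducible apply Int.and | with_reducible apply Int.or | with_reducible apply Int.not | with_reducible apply Int.imp | with_reducible apply Int.iff | with_reducible apply Int.ne | with_reducible apply Int.eq | with_reducible apply Int.mem | with_reducible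 apply Int.subset | with_reducible apply Int.ltN | with_reducible apply Int.leN | with_reducible apply Int.fin | with_reducible apply Int.unique | with_reducible apply Int.all | with_reducible apply Int.ex | with_reducible apply IntF.fst | with_reducible apply IntF.snd | with_reducible apply IntF.app | with_reducible apply IntF.ite | with_reducible apply IntF.sep | with_reducible apply IntF.lam | with_reducible apply IntF.insert | with_reducible apply IntF.singleton | with_reducible apply IntF.union | with_reducible apply IntF.inter | with_reducible apply IntF.sdiff | with_reducible apply IntF.isUnion | with_reducible apply IntF.iimage | with_reducible apply IntF.the | with_reducible apply IntF.irec | with_reducible_and_instances apply IntF.add | with_reducible_and_instances apply IntF.mul | with_reducible apply IntF.succ | with_reducible apply IntF.val | with_reducible apply IntF.mk | (with_reducible refine Int.comp ?_ ?_; assumption) | (with_reducible refine Int.comp₂ ?_ ?_ ?_; assumption) | (with_reducible refine Int.comp₃ ?_ ?_ ?_ ?_; assumption) | (with_reducible refine IntF.comp ?_ ?_; assumption) | (with_reducible refine IntF.comp₂ ?_ ?_ ?_; assumption) | (with_reducible refine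 IntF.comp₃ ?_ ?_ ?_ ?_; assumption) | with_reducible apply IntF.pair)))).resolve_right hn
    by_contra hno
    push Not at hno
    have h2 : IFin (sep M fun b => B (n, b)) := h1.fin (by (repeat' (first | with_reducible exact IntF.id | with_reducible exact IntF.fst' | with_reducible exact IntF.snd' | with_reducible exact IntF.const _ | with_reducible exact Int.const _ | assumption | with_reducible apply Int.dm | with_reducible apply Int.rg | with_reducible apply Int.fn | with_reducible apply Int.ij | with_reducible apply Int.mv | with_reducible apply IntF.idr | with_reducible apply IntF.inv' | with_reducible apply IntF.cmp | with_reducible apply IntF.irec | with_reducible apply Int.and | with_reducible apply Int.or | with_reducible apply Int.not | with_reducible apply Int.imp | with_reducible apply Int.iff | with_reducible apply Int.ne | with_reducible apply Int.eq | with_reducible apply Int.mem | with_reducible apply Int.subset | with_reducible apply Int.ltN | with_reducible apply Int.leN | with_reducible apply Int.fin | with_reducible apply Int.unique | with_reducible apply Int.all | with_reducible apply Int.ex | with_reducible apply IntF.fst | with_reducible apply IntF.snd |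 with_reducible apply IntF.app | with_reducible apply IntF.ite | with_reducible apply IntF.sep | with_reducible apply IntF.lam | with_reducible apply IntF.insert | with_reducible apply IntF.singleton | with_reducible apply IntF.union | with_reducible apply IntF.inter | with_reducible apply IntF.sdiff | with_reducible apply IntF.isUnion | with_reducible apply IntF.iimage | with_reducible apply IntF.the | with_reducible apply IntF.irec | with_reducible_and_instances apply IntF.add | with_reducible_and_instances apply IntF.mul | with_reducible apply IntF.succ | with_reducible apply IntF.val | with_reducible apply IntF.mk | (with_reducible refine Int.comp ?_ ?_; assumption) | (with_reducible refine Int.comp₂ ?_ ?_ ?_; assumption) | (with_reducible refine Int.comp₃ ?_ ?_ ?_ ?_; assumption) | (with_reducible refine IntF.comp ?_ ?_; assumption) | (with_reducible refine IntF.comp₂ ?_ ?_ ?_; assumption) | (with_reducible refine IntF.comp₃ ?_ ?_ ?_ ?_; assumption) | with_reducible apply IntF.pair)))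
    obtain ⟨k, hk⟩ := IFin.exists_bound (r := fun b k => ¬ B (k, b)) (by (repeat' (first | with_reducible exact IntF.id | with_reducible exact IntF.fst' | with_reducible exact IntF.snd' | with_reducible exact IntF.const _ | with_reducible exact Int.const _ | assumption | with_reducible apply Int.dm | with_reducible apply Int.rg | with_reducible apply Int.fn | with_reducible apply Int.ij | with_reducible apply Int.mv | with_reducible apply IntF.idr | with_reducible apply IntF.inv' | with_reducible apply IntF.cmp | with_reducible apply IntF.irec | with_reducible apply Int.and | with_reducible apply Int.or | with_reducible apply Int.not | with_reducible apply Int.imp | with_reducible apply Int.iff | with_reducible apply Int.ne | with_reducible apply Int.eq | with_reducible apply Int.mem | with_reducible apply Int.subset | with_reducible apply Int.ltN | with_reducible apply Int.leN | with_reducible apply Int.fin | with_reducible apply Int.unique | with_reducible apply Int.all | with_reducible apply Int.ex | with_reducible apply IntF.fst | with_reducible apply IntF.snd | with_reducible apply IntF.app | with_reducible apply IntF.ite | with_reducible apply IntF.sep | with_reducible apply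 IntF.lam | with_reducible apply IntF.insert | with_reducible apply IntF.singleton | with_reducible apply IntF.union | with_reducible apply IntF.inter | with_reducible apply IntF.sdiff | with_reducible apply IntF.isUnion | with_reducible apply IntF.iimage | with_reducible apply IntF.the | with_reducible apply IntF.irec | with_reducible_and_instances apply IntF.add | with_reducible_and_instances apply IntF.mul | with_reducible apply IntF.succ | with_reducible apply IntF.val | with_reducible apply IntF.mk | (with_reducible refine Int.comp ?_ ?_; assumption) | (with_reducible refine Int.comp₂ ?_ ?_ ?_; assumption) | (with_reducible refine Int.comp₃ ?_ ?_ ?_ ?_; assumption) | (with_reducible refine IntF.comp ?_ ?_; assumption) | (with_reducible refine IntF.comp₂ ?_ ?_ ?_; assumption) | (with_reducible refine IntF.comp₃ ?_ ?_ ?_ ?_; assumption) | with_reducible apply IntF.pair)))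
      (fun j k => ⟨max j k, fun a ha => by
        rcases ha with ha | ha
        · exact fun h3 => ha (hdec _ _ _ (le_max_left _ _) h3)
        · exact fun h3 => ha (hdec _ _ _ (le_max_right _ _) h3)⟩) ⟨0⟩ h2
      fun b _ => hno b
    obtain ⟨b, hb⟩ := hne (max n k)
    exact hk b ((mem_sep (by (repeat' (first | with_reducible exact IntF.id | with_reducible exact IntF.fst' | with_reducible exact IntF.snd' | with_reducible exact IntF.const _ | with_reducible exact Int.const _ | assumption | with_reducible apply Int.dm | with_reducible apply Int.rg | with_reducible apply Int.fn | with_reducible apply Int.ij | with_reducible apply Int.mv | with_reducible apply IntF.idr | with_reducible apply IntF.inv' | with_reducible apply IntF.cmp | with_reducible apply IntF.irec | with_reducible apply Int.and | with_reducible apply Int.or | with_reducible apply Int.not | with_reducible apply Int.imp | with_reducible apply Int.iff | with_reducible apply Int.ne | with_reducible apply Int.eq | with_reducible apply Int.mem | with_reducible apply Int.subset | with_reducible apply Int.ltN | with_reducible apply Int.leN | with_reducible apply Int.fin | with_reducible apply Int.unique | with_reducible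 apply Int.all | with_reducible apply Int.ex | with_reducible apply IntF.fst | with_reducible apply IntF.snd | with_reducible apply IntF.app | with_reducible apply IntF.ite | with_reducible apply IntF.sep | with_reducible apply IntF.lam | with_reducible apply IntF.insert | with_reducible apply IntF.singleton | with_reducible apply IntF.union | with_reducible apply IntF.inter | with_reducible apply IntF.sdiff | with_reducible apply IntF.isUnion | with_reducible apply IntF.iimage | with_reducible apply IntF.the | with_reducible apply IntF.irec | with_reducible_and_instances apply IntF.add | with_reducible_and_instances apply IntF.mul | with_reducible apply IntF.succ | with_reducible apply IntF.val | with_reducible apply IntF.mk | (with_reducible refine Int.comp ?_ ?_; assumption) | (with_reducible refine Int.comp₂ ?_ ?_ ?_; assumption) | (with_reducible refine Int.comp₃ ?_ ?_ ?_ ?_; assumption) | (with_reducible refine IntF.comp ?_ ?_; assumption) | (with_reducible refine IntF.comp₂ ?_ ?_ ?_; assumption) | (with_reducible refine IntF.comp₃ ?_ ?_ ?_ ?_; assumption) | with_reducible apply IntF.pair)))).2 (hdec _ _ _ (le_max_left _ _) hb))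
      (hdec _ _ _ (le_max_right _ _) hb)

/-- Extension. -/
theorem GG_ext (hA : Amo M σ) {p : IPow M (σ × σ)} (hp : p ∈ GG f) (a : σ) :
    ∃ b, insert (a, b) p ∈ GG f := by
  have h := int_PP (M := M) (f := f)
  obtain ⟨b, hb⟩ := dec_inter hA (B := fun q : INat M × σ => insert (a, q.2) p ∈ PP f q.1)
    (by (repeat' (first | with_reducible exact IntF.id | with_reducible exact IntF.fst' | with_reducible exact IntF.snd' | with_reducible exact IntF.const _ | with_reducible exact Int.const _ | assumption | with_reducible apply Int.dm | with_reducible apply Int.rg | with_reducible apply Int.fn | with_reducible apply Int.ij | with_reducible apply Int.mv | with_reducible apply IntF.idr | with_reducible apply IntF.inv' | with_reducible apply IntF.cmp | with_reducible apply IntF.irec | with_reducible apply Int.and | with_reducible apply Int.or | with_reducible apply Int.not | with_reducible apply Int.imp | with_reducible apply Int.iff | with_reducible apply Int.ne | with_reducible apply Int.eq | with_reducible apply Int.mem | with_reducible apply Int.subset | with_reducible apply Int.ltN | with_reducible apply Int.leN | with_reducible apply Int.fin | with_reducible apply Int.unique | with_reducible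 apply Int.all | with_reducible apply Int.ex | with_reducible apply IntF.fst | with_reducible apply IntF.snd | with_reducible apply IntF.app | with_reducible apply IntF.ite | with_reducible apply IntF.sep | with_reducible apply IntF.lam | with_reducible apply IntF.insert | with_reducible apply IntF.singleton | with_reducible apply IntF.union | with_reducible apply IntF.inter | with_reducible apply IntF.sdiff | with_reducible apply IntF.isUnion | with_reducible apply IntF.iimage | with_reducible apply IntF.the | with_reducible apply IntF.irec | with_reducible_and_instances apply IntF.add | with_reducible_and_instances apply IntF.mul | with_reducible apply IntF.succ | with_reducible apply IntF.val | with_reducible apply IntF.mk | (with_reducible refine Int.comp ?_ ?_; assumption) | (with_reducible refine Int.comp₂ ?_ ?_ ?_; assumption) | (with_reducible refine Int.comp₃ ?_ ?_ ?_ ?_; assumption) | (with_reducible refine IntF.comp ?_ ?_; assumption) | (with_reducible refine IntF.comp₂ ?_ ?_ ?_; assumption) | (with_reducible refine IntF.comp₃ ?_ ?_ ?_ ?_; assumption) | with_reducible apply IntF.pair))) (fun m n b hmn h1 => PP_anti hmn h1) fun n =>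
      (mem_PP_succ.1 (mem_GG.1 hp n.succ)).2.1 a
  exact ⟨b, mem_GG.2 hb⟩

theorem GG_sub (hf : IntF M f) {p q : IPow M (σ × σ)} (hp : p ∈ GG f) (h : q ⊆ p) : q ∈ GG f :=
  mem_GG.2 fun n => PP_sub hf n p q (mem_GG.1 hp n) h

theorem GG_idr (hf : IntF M f) {D : IPow M σ} (hD : IFin D) : idr D ∈ GG f :=
  mem_GG.2 fun n => PP_idr hf n D hD

theorem GG_inv (hf : IntF M f) {p : IPow M (σ × σ)} (hp : p ∈ GG f) : inv' p ∈ GG f :=
  mem_GG.2 fun n => PP_inv hf n p (mem_GG.1 hp n)

theorem GG_cmp (hA : Amo M σ) (hf : IntF M f) {p q : IPow M (σ × σ)} (hp : p ∈ GG f)
    (hq : q ∈ GG f) : cmp q p ∈ GG f :=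
  mem_GG.2 fun n => PP_cmp hA.inf hf n p q (mem_GG.1 hp n) (mem_GG.1 hq n)

theorem GG_fin (hf : IntF M f) {p : IPow M (σ × σ)} (hp : p ∈ GG f) : IFin p :=
  PP_fin hf (mem_GG.1 hp 0)

theorem GG_fn (hf : IntF M f) {p : IPow M (σ × σ)} (hp : p ∈ GG f) : Fn p :=
  PP_fn hf (mem_GG.1 hp 0)

theorem GG_ij (hf : IntF M f) {p : IPow M (σ × σ)} (hp : p ∈ GG f) : Ij p :=
  PP_ij hf (mem_GG.1 hp 0)

theorem GG_at (hf : IntF M f) {p : IPow M (σ × σ)} (hp : p ∈ GG f)
    {x y x' y' : IPow M σ × IPow M σ} (h1 : Mv p x x') (h2 : Mv p y y') :
    (f x = y ↔ f x' = y') := (PP_basic hf (mem_GG.1 hp 0)).2 x y x' y' h1 h2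

end Pool.Agent.Q207.PG
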