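import Pool.Agent.Q207.PG.Cnt

/-!
# Finite injections between finite sets of an internal type
-/

set_option maxHeartbeats 1000000
set_option linter.all false

namespace Pool.Agent.Q207.PG

open FirstOrder FirstOrder.Language
open Pool.Agent.Helper672.ZFA
open Pool.Agent.H310
open Pool.Agent.Q212.ZA

universe u u₁ u₂ u₃ u₄

variable {M : Type u} [L.Structure M] [hM : IsModel M]
variable {σ : Type u₁} {β : Type u₂} {γ : Type u₃} [ITy M σ] [ITy M β] [ITy M γ]

/-- The domain. -/
def Dm (p : IPow M (σ × σ)) (a : σ) : Prop := ∃ b, (a, b) ∈ p

/-- The range. -/
def Rg (p : IPow M (σ × σ)) (b : σ) : Prop := ∃ a, (a, b) ∈ p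

/-- Functional relations. -/
def Fn (p : IPow M (σ × σ)) : Prop := ∀ a b c, (a, b) ∈ p → (a, c) ∈ p → b = c

/-- Injective relations. -/
def Ij (p : IPow M (σ × σ)) : Prop := ∀ a b c, (a, c) ∈ p → (b, c) ∈ p → a = b

theorem Int.dm {f : γ → IPow M (σ × σ)} {g : γ → σ} (hf : IntF M f) (hg : IntF M g) :
    Int M (fun c => Dm (f c) (g c)) := by
  unfold Dm
  (repeat' (first | with_reducible exact IntF.id | with_reducible exact IntF.fst' | with_reducible exact IntF.snd' | with_reducible exact IntF.const _ | with_reducible exact Int.const _ | assumption | with_reducible apply Int.dm | with_reducible apply Int.rg | with_reducible apply Int.fn | with_reducible apply Int.ij | with_reducible apply Int.mv | with_reducible apply IntF.idr | with_reducible apply IntF.inv' | with_reducible apply IntF.cmp | with_reducible apply Int.and | with_reducible apply Int.or | with_reducible apply Int.not | with_reducible apply Int.imp | with_reducible apply Int.iff | with_reducible apply Int.ne | with_reducible apply Int.eq | with_reducible apply Int.mem | with_reducible apply Int.subset | with_reducible apply Int.ltN | with_reducible apply Int.leN | with_reducible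 apply Int.fin | with_reducible apply Int.unique | with_reducible apply Int.all | with_reducible apply Int.ex | with_reducible apply IntF.fst | with_reducible apply IntF.snd | with_reducible apply IntF.app | with_reducible apply IntF.ite | with_reducible apply IntF.sep | with_reducible apply IntF.lam | with_reducible apply IntF.insert | with_reducible apply IntF.singleton | with_reducible apply IntF.union | with_reducible apply IntF.inter | with_reducible apply IntF.sdiff | with_reducible apply IntF.isUnion | with_reducible apply IntF.iimage | with_reducible apply IntF.the | with_reducible apply IntF.irec | with_reducible_and_instances apply IntF.add | with_reducible_and_instances apply IntF.mul | with_reducible apply IntF.succ | with_reducible apply IntF.val | with_reducible apply IntF.mk | (with_reducible refine Int.comp ?_ ?_; assumption) | (with_reducible refine Int.comp₂ ?_ ?_ ?_; assumption) | (with_reducible refine Int.comp₃ ?_ ?_ ?_ ?_; assumption) | (with_reducible refine IntF.comp ?_ ?_; assumption) | (with_reducible refine IntF.comp₂ ?_ ?_ ?_; assumption) | (with_reducible refine IntF.comp₃ ?_ ?_ ?_ ?_; assumption) | with_reducible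 apply IntF.pair))

theorem Int.rg {f : γ → IPow M (σ × σ)} {g : γ → σ} (hf : IntF M f) (hg : IntF M g) :
    Int M (fun c => Rg (f c) (g c)) := by
  unfold Rg
  (repeat' (first | with_reducible exact IntF.id | with_reducible exact IntF.fst' | with_reducible exact IntF.snd' | with_reducible exact IntF.const _ | with_reducible exact Int.const _ | assumption | with_reducible apply Int.dm | with_reducible apply Int.rg | with_reducible apply Int.fn | with_reducible apply Int.ij | with_reducible apply Int.mv | with_reducible apply IntF.idr | with_reducible apply IntF.inv' | with_reducible apply IntF.cmp | with_reducible apply Int.and | with_reducible apply Int.or | with_reducible apply Int.not | with_reducible apply Int.imp | with_reducible apply Int.iff | with_reducible apply Int.ne | with_reducible apply Int.eq | with_reducible apply Int.mem | with_reducible apply Int.subset | with_reducible apply Int.ltN | with_reducible apply Int.leN | with_reducible apply Int.fin | with_reducible apply Int.unique | with_reducible apply Int.all | with_reducible apply Int.ex | with_reducible apply IntF.fst | with_reducible apply IntF.snd | with_reducible apply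 IntF.app | with_reducible apply IntF.ite | with_reducible apply IntF.sep | with_reducible apply IntF.lam | with_reducible apply IntF.insert | with_reducible apply IntF.singleton | with_reducible apply IntF.union | with_reducible apply IntF.inter | with_reducible apply IntF.sdiff | with_reducible apply IntF.isUnion | with_reducible apply IntF.iimage | with_reducible apply IntF.the | with_reducible apply IntF.irec | with_reducible_and_instances apply IntF.add | with_reducible_and_instances apply IntF.mul | with_reducible apply IntF.succ | with_reducible apply IntF.val | with_reducible apply IntF.mk | (with_reducible refine Int.comp ?_ ?_; assumption) | (with_reducible refine Int.comp₂ ?_ ?_ ?_; assumption) | (with_reducible refine Int.comp₃ ?_ ?_ ?_ ?_; assumption) | (with_reducible refine IntF.comp ?_ ?_; assumption) | (with_reducible refine IntF.comp₂ ?_ ?_ ?_; assumption) | (with_reducible refine IntF.comp₃ ?_ ?_ ?_ ?_; assumption) | with_reducible apply IntF.pair))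

theorem Int.fn {f : γ → IPow M (σ × σ)} (hf : IntF M f) :
    Int M (fun c => Fn (f c)) := by
  unfold Fn
  (repeat' (first | with_reducible exact IntF.id | with_reducible exact IntF.fst' | with_reducible exact IntF.snd' | with_reducible exact IntF.const _ | with_reducible exact Int.const _ | assumption | with_reducible apply Int.dm | with_reducible apply Int.rg | with_reducible apply Int.fn | with_reducible apply Int.ij | with_reducible apply Int.mv | with_reducible apply IntF.idr | with_reducible apply IntF.inv' | with_reducible apply IntF.cmp | with_reducible apply Int.and | with_reducible apply Int.or | with_reducible apply Int.not | with_reducible apply Int.imp | with_reducible apply Int.iff | with_reducible apply Int.ne | with_reducible apply Int.eq | with_reducible apply Int.mem | with_reducible apply Int.subset | with_reducible apply Int.ltN | with_reducible apply Int.leN | with_reducible apply Int.fin | with_reducible apply Int.unique | with_reducible apply Int.all | with_reducible apply Int.ex | with_reducible apply IntF.fst | with_reducible apply IntF.snd | with_reducible apply IntF.app | with_reducible apply IntF.ite | with_reducible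 apply IntF.sep | with_reducible apply IntF.lam | with_reducible apply IntF.insert | with_reducible apply IntF.singleton | with_reducible apply IntF.union | with_reducible apply IntF.inter | with_reducible apply IntF.sdiff | with_reducible apply IntF.isUnion | with_reducible apply IntF.iimage | with_reducible apply IntF.the | with_reducible apply IntF.irec | with_reducible_and_instances apply IntF.add | with_reducible_and_instances apply IntF.mul | with_reducible apply IntF.succ | with_reducible apply IntF.val | with_reducible apply IntF.mk | (with_reducible refine Int.comp ?_ ?_; assumption) | (with_reducible refine Int.comp₂ ?_ ?_ ?_; assumption) | (with_reducible refine Int.comp₃ ?_ ?_ ?_ ?_; assumption) | (with_reducible refine IntF.comp ?_ ?_; assumption) | (with_reducible refine IntF.comp₂ ?_ ?_ ?_; assumption) | (with_reducible refine IntF.comp₃ ?_ ?_ ?_ ?_; assumption) | with_reducible apply IntF.pair))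

theorem Int.ij {f : γ → IPow M (σ × σ)} (hf : IntF M f) :
    Int M (fun c => Ij (f c)) := by
  unfold Ij
  (repeat' (first | with_reducible exact IntF.id | with_reducible exact IntF.fst' | with_reducible exact IntF.snd' | with_reducible exact IntF.const _ | with_reducible exact Int.const _ | assumption | with_reducible apply Int.dm | with_reducible apply Int.rg | with_reducible apply Int.fn | with_reducible apply Int.ij | with_reducible apply Int.mv | with_reducible apply IntF.idr | with_reducible apply IntF.inv' | with_reducible apply IntF.cmp | with_reducible apply Int.and | with_reducible apply Int.or | with_reducible apply Int.not | with_reducible apply Int.imp | with_reducible apply Int.iff | with_reducible apply Int.ne | with_reducible apply Int.eq | with_reducible apply Int.mem | with_reducible apply Int.subset | with_reducible apply Int.ltN | with_reducible apply Int.leN | with_reducible apply Int.fin | with_reducible apply Int.unique | with_reducible apply Int.all | with_reducible apply Int.ex | with_reducible apply IntF.fst | with_reducible apply IntF.snd | with_reducible apply IntF.app | with_reducible apply IntF.ite | with_reducible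 apply IntF.sep | with_reducible apply IntF.lam | with_reducible apply IntF.insert | with_reducible apply IntF.singleton | with_reducible apply IntF.union | with_reducible apply IntF.inter | with_reducible apply IntF.sdiff | with_reducible apply IntF.isUnion | with_reducible apply IntF.iimage | with_reducible apply IntF.the | with_reducible apply IntF.irec | with_reducible_and_instances apply IntF.add | with_reducible_and_instances apply IntF.mul | with_reducible apply IntF.succ | with_reducible apply IntF.val | with_reducible apply IntF.mk | (with_reducible refine Int.comp ?_ ?_; assumption) | (with_reducible refine Int.comp₂ ?_ ?_ ?_; assumption) | (with_reducible refine Int.comp₃ ?_ ?_ ?_ ?_; assumption) | (with_reducible refine IntF.comp ?_ ?_; assumption) | (with_reducible refine IntF.comp₂ ?_ ?_ ?_; assumption) | (with_reducible refine IntF.comp₃ ?_ ?_ ?_ ?_; assumption) | with_reducible apply IntF.pair))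

/-- Pairs of subsets. -/
abbrev XX (M : Type u) [L.Structure M] [IsModel M] (σ : Type u₁) [ITy M σ] : Type u₁ :=
  IPow M σ × IPow M σ

/-- `p` carries the set `s` to the set `t`. -/
def Mv1 (p : IPow M (σ × σ)) (s t : IPow M σ) : Prop :=
  ∀ a b, ((a, b) ∈ p ∨ (¬ Dm p a ∧ ¬ Rg p b)) → (a ∈ s ↔ b ∈ t)

/-- `p` carries `x` to `y`. -/
def Mv (p : IPow M (σ × σ)) (x y : IPow M σ × IPow M σ) : Prop :=
  Mv1 p x.1 y.1 ∧ Mv1 p x.2 y.2

theorem Int.mv {f : γ → IPow M (σ × σ)} {g h : γ → IPow M σ × IPow M σ} (hf : IntF M f)
    (hg : IntF M g) (hh : IntF M h) : Int M (fun c => Mv (f c) (g c) (h c)) := by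
  unfold Mv Mv1
  (repeat' (first | with_reducible exact IntF.id | with_reducible exact IntF.fst' | with_reducible exact IntF.snd' | with_reducible exact IntF.const _ | with_reducible exact Int.const _ | assumption | with_reducible apply Int.dm | with_reducible apply Int.rg | with_reducible apply Int.fn | with_reducible apply Int.ij | with_reducible apply Int.mv | with_reducible apply IntF.idr | with_reducible apply IntF.inv' | with_reducible apply IntF.cmp | with_reducible apply Int.and | with_reducible apply Int.or | with_reducible apply Int.not | with_reducible apply Int.imp | with_reducible apply Int.iff | with_reducible apply Int.ne | with_reducible apply Int.eq | with_reducible apply Int.mem | with_reducible apply Int.subset | with_reducible apply Int.ltN | with_reducible apply Int.leN | with_reducible apply Int.fin | with_reducible apply Int.unique | with_reducible apply Int.all | with_reducible apply Int.ex | with_reducible apply IntF.fst | with_reducible apply IntF.snd | with_reducible apply IntF.app | with_reducible apply IntF.ite | with_reducible apply IntF.sep | with_reducible apply IntF.lam | with_reducible apply IntF.insert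 | with_reducible apply IntF.singleton | with_reducible apply IntF.union | with_reducible apply IntF.inter | with_reducible apply IntF.sdiff | with_reducible apply IntF.isUnion | with_reducible apply IntF.iimage | with_reducible apply IntF.the | with_reducible apply IntF.irec | with_reducible_and_instances apply IntF.add | with_reducible_and_instances apply IntF.mul | with_reducible apply IntF.succ | with_reducible apply IntF.val | with_reducible apply IntF.mk | (with_reducible refine Int.comp ?_ ?_; assumption) | (with_reducible refine Int.comp₂ ?_ ?_ ?_; assumption) | (with_reducible refine Int.comp₃ ?_ ?_ ?_ ?_; assumption) | (with_reducible refine IntF.comp ?_ ?_; assumption) | (with_reducible refine IntF.comp₂ ?_ ?_ ?_; assumption) | (with_reducible refine IntF.comp₃ ?_ ?_ ?_ ?_; assumption) | with_reducible apply IntF.pair))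

/-- The identity on a set. -/
noncomputable def idr (D : IPow M σ) : IPow M (σ × σ) := sep M fun q => q.1 = q.2 ∧ q.1 ∈ D

theorem mem_idr {D : IPow M σ} {a b : σ} : (a, b) ∈ idr D ↔ a = b ∧ a ∈ D := by
  unfold idr
  rw [mem_sep (by (repeat' (first | with_reducible exact IntF.id | with_reducible exact IntF.fst' | with_reducible exact IntF.snd' | with_reducible exact IntF.const _ | with_reducible exact Int.const _ | assumption | with_reducible apply Int.dm | with_reducible apply Int.rg | with_reducible apply Int.fn | with_reducible apply Int.ij | with_reducible apply Int.mv | with_reducible apply IntF.idr | with_reducible apply IntF.inv' | with_reducible apply IntF.cmp | with_reducible apply Int.and | with_reducible apply Int.or | with_reducible apply Int.not | with_reducible apply Int.imp | with_reducible apply Int.iff | with_reducible apply Int.ne | with_reducible apply Int.eq | with_reducible apply Int.mem | with_reducible apply Int.subset | with_reducible apply Int.ltN | with_reducible apply Int.leN | with_reducible apply Int.fin | with_reducible apply Int.unique | with_reducible apply Int.all | with_reducible apply Int.ex | with_reducible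 apply IntF.fst | with_reducible apply IntF.snd | with_reducible apply IntF.app | with_reducible apply IntF.ite | with_reducible apply IntF.sep | with_reducible apply IntF.lam | with_reducible apply IntF.insert | with_reducible apply IntF.singleton | with_reducible apply IntF.union | with_reducible apply IntF.inter | with_reducible apply IntF.sdiff | with_reducible apply IntF.isUnion | with_reducible apply IntF.iimage | with_reducible apply IntF.the | with_reducible apply IntF.irec | with_reducible_and_instances apply IntF.add | with_reducible_and_instances apply IntF.mul | with_reducible apply IntF.succ | with_reducible apply IntF.val | with_reducible apply IntF.mk | (with_reducible refine Int.comp ?_ ?_; assumption) | (with_reducible refine Int.comp₂ ?_ ?_ ?_; assumption) | (with_reducible refine Int.comp₃ ?_ ?_ ?_ ?_; assumption) | (with_reducible refine IntF.comp ?_ ?_; assumption) | (with_reducible refine IntF.comp₂ ?_ ?_ ?_; assumption) | (with_reducible refine IntF.comp₃ ?_ ?_ ?_ ?_; assumption) | with_reducible apply IntF.pair)))]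

theorem IntF.idr {f : γ → IPow M σ} (hf : IntF M f) : IntF M (fun c => idr (f c)) := by
  unfold PG.idr
  (repeat' (first | with_reducible exact IntF.id | with_reducible exact IntF.fst' | with_reducible exact IntF.snd' | with_reducible exact IntF.const _ | with_reducible exact Int.const _ | assumption | with_reducible apply Int.dm | with_reducible apply Int.rg | with_reducible apply Int.fn | with_reducible apply Int.ij | with_reducible apply Int.mv | with_reducible apply IntF.idr | with_reducible apply IntF.inv' | with_reducible apply IntF.cmp | with_reducible apply Int.and | with_reducible apply Int.or | with_reducible apply Int.not | with_reducible apply Int.imp | with_reducible apply Int.iff | with_reducible apply Int.ne | with_reducible apply Int.eq | with_reducible apply Int.mem | with_reducible apply Int.subset | with_reducible apply Int.ltN | with_reducible apply Int.leN | with_reducible apply Int.fin | with_reducible apply Int.unique | with_reducible apply Int.all | with_reducible apply Int.ex | with_reducible apply IntF.fst | with_reducible apply IntF.snd | with_reducible apply IntF.app | with_reducible apply IntF.ite | with_reducible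 apply IntF.sep | with_reducible apply IntF.lam | with_reducible apply IntF.insert | with_reducible apply IntF.singleton | with_reducible apply IntF.union | with_reducible apply IntF.inter | with_reducible apply IntF.sdiff | with_reducible apply IntF.isUnion | with_reducible apply IntF.iimage | with_reducible apply IntF.the | with_reducible apply IntF.irec | with_reducible_and_instances apply IntF.add | with_reducible_and_instances apply IntF.mul | with_reducible apply IntF.succ | with_reducible apply IntF.val | with_reducible apply IntF.mk | (with_reducible refine Int.comp ?_ ?_; assumption) | (with_reducible refine Int.comp₂ ?_ ?_ ?_; assumption) | (with_reducible refine Int.comp₃ ?_ ?_ ?_ ?_; assumption) | (with_reducible refine IntF.comp ?_ ?_; assumption) | (with_reducible refine IntF.comp₂ ?_ ?_ ?_; assumption) | (with_reducible refine IntF.comp₃ ?_ ?_ ?_ ?_; assumption) | with_reducible apply IntF.pair))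

/-- The inverse. -/
noncomputable def inv' (p : IPow M (σ × σ)) : IPow M (σ × σ) := sep M fun q => (q.2, q.1) ∈ p

theorem mem_inv {p : IPow M (σ × σ)} {a b : σ} : (a, b) ∈ inv' p ↔ (b, a) ∈ p := by
  unfold inv'
  rw [mem_sep (by (repeat' (first | with_reducible exact IntF.id | with_reducible exact IntF.fst' | with_reducible exact IntF.snd' | with_reducible exact IntF.const _ | with_reducible exact Int.const _ | assumption | with_reducible apply Int.dm | with_reducible apply Int.rg | with_reducible apply Int.fn | with_reducible apply Int.ij | with_reducible apply Int.mv | with_reducible apply IntF.idr | with_reducible apply IntF.inv' | with_reducible apply IntF.cmp | with_reducible apply Int.and | with_reducible apply Int.or | with_reducible apply Int.not | with_reducible apply Int.imp | with_reducible apply Int.iff | with_reducible apply Int.ne | with_reducible apply Int.eq | with_reducible apply Int.mem | with_reducible apply Int.subset | with_reducible apply Int.ltN | with_reducible apply Int.leN | with_reducible apply Int.fin | with_reducible apply Int.unique | with_reducible apply Int.all | with_reducible apply Int.ex | with_reducible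 apply IntF.fst | with_reducible apply IntF.snd | with_reducible apply IntF.app | with_reducible apply IntF.ite | with_reducible apply IntF.sep | with_reducible apply IntF.lam | with_reducible apply IntF.insert | with_reducible apply IntF.singleton | with_reducible apply IntF.union | with_reducible apply IntF.inter | with_reducible apply IntF.sdiff | with_reducible apply IntF.isUnion | with_reducible apply IntF.iimage | with_reducible apply IntF.the | with_reducible apply IntF.irec | with_reducible_and_instances apply IntF.add | with_reducible_and_instances apply IntF.mul | with_reducible apply IntF.succ | with_reducible apply IntF.val | with_reducible apply IntF.mk | (with_reducible refine Int.comp ?_ ?_; assumption) | (with_reducible refine Int.comp₂ ?_ ?_ ?_; assumption) | (with_reducible refine Int.comp₃ ?_ ?_ ?_ ?_; assumption) | (with_reducible refine IntF.comp ?_ ?_; assumption) | (with_reducible refine IntF.comp₂ ?_ ?_ ?_; assumption) | (with_reducible refine IntF.comp₃ ?_ ?_ ?_ ?_; assumption) | with_reducible apply IntF.pair)))]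

theorem IntF.inv' {f : γ → IPow M (σ × σ)} (hf : IntF M f) : IntF M (fun c => inv' (f c)) := by
  unfold PG.inv'
  (repeat' (first | with_reducible exact IntF.id | with_reducible exact IntF.fst' | with_reducible exact IntF.snd' | with_reducible exact IntF.const _ | with_reducible exact Int.const _ | assumption | with_reducible apply Int.dm | with_reducible apply Int.rg | with_reducible apply Int.fn | with_reducible apply Int.ij | with_reducible apply Int.mv | with_reducible apply IntF.idr | with_reducible apply IntF.inv' | with_reducible apply IntF.cmp | with_reducible apply Int.and | with_reducible apply Int.or | with_reducible apply Int.not | with_reducible apply Int.imp | with_reducible apply Int.iff | with_reducible apply Int.ne | with_reducible apply Int.eq | with_reducible apply Int.mem | with_reducible apply Int.subset | with_reducible apply Int.ltN | with_reducible apply Int.leN | with_reducible apply Int.fin | with_reducible apply Int.unique | with_reducible apply Int.all | with_reducible apply Int.ex | with_reducible apply IntF.fst | with_reducible apply IntF.snd | with_reducible apply IntF.app | with_reducible apply IntF.ite |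 with_reducible apply IntF.sep | with_reducible apply IntF.lam | with_reducible apply IntF.insert | with_reducible apply IntF.singleton | with_reducible apply IntF.union | with_reducible apply IntF.inter | with_reducible apply IntF.sdiff | with_reducible apply IntF.isUnion | with_reducible apply IntF.iimage | with_reducible apply IntF.the | with_reducible apply IntF.irec | with_reducible_and_instances apply IntF.add | with_reducible_and_instances apply IntF.mul | with_reducible apply IntF.succ | with_reducible apply IntF.val | with_reducible apply IntF.mk | (with_reducible refine Int.comp ?_ ?_; assumption) | (with_reducible refine Int.comp₂ ?_ ?_ ?_; assumption) | (with_reducible refine Int.comp₃ ?_ ?_ ?_ ?_; assumption) | (with_reducible refine IntF.comp ?_ ?_; assumption) | (with_reducible refine IntF.comp₂ ?_ ?_ ?_; assumption) | (with_reducible refine IntF.comp₃ ?_ ?_ ?_ ?_; assumption) | with_reducible apply IntF.pair))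

/-- The composition: first `p`, then `q`. -/
noncomputable def cmp (q p : IPow M (σ × σ)) : IPow M (σ × σ) :=
  sep M fun r => ∃ b, (r.1, b) ∈ p ∧ (b, r.2) ∈ q

theorem mem_cmp {p q : IPow M (σ × σ)} {a c : σ} :
    (a, c) ∈ cmp q p ↔ ∃ b, (a, b) ∈ p ∧ (b, c) ∈ q := by
  unfold cmp
  rw [mem_sep (by (repeat' (first | with_reducible exact IntF.id | with_reducible exact IntF.fst' | with_reducible exact IntF.snd' | with_reducible exact IntF.const _ | with_reducible exact Int.const _ | assumption | with_reducible apply Int.dm | with_reducible apply Int.rg | with_reducible apply Int.fn | with_reducible apply Int.ij | with_reducible apply Int.mv | with_reducible apply IntF.idr | with_reducible apply IntF.inv' | with_reducible apply IntF.cmp | with_reducible apply Int.and | with_reducible apply Int.or | with_reducible apply Int.not | with_reducible apply Int.imp | with_reducible apply Int.iff | with_reducible apply Int.ne | with_reducible apply Int.eq | with_reducible apply Int.mem | with_reducible apply Int.subset | with_reducible apply Int.ltN | with_reducible apply Int.leN | with_reducible apply Int.fin | with_reducible apply Int.unique | with_reducible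 apply Int.all | with_reducible apply Int.ex | with_reducible apply IntF.fst | with_reducible apply IntF.snd | with_reducible apply IntF.app | with_reducible apply IntF.ite | with_reducible apply IntF.sep | with_reducible apply IntF.lam | with_reducible apply IntF.insert | with_reducible apply IntF.singleton | with_reducible apply IntF.union | with_reducible apply IntF.inter | with_reducible apply IntF.sdiff | with_reducible apply IntF.isUnion | with_reducible apply IntF.iimage | with_reducible apply IntF.the | with_reducible apply IntF.irec | with_reducible_and_instances apply IntF.add | with_reducible_and_instances apply IntF.mul | with_reducible apply IntF.succ | with_reducible apply IntF.val | with_reducible apply IntF.mk | (with_reducible refine Int.comp ?_ ?_; assumption) | (with_reducible refine Int.comp₂ ?_ ?_ ?_; assumption) | (with_reducible refine Int.comp₃ ?_ ?_ ?_ ?_; assumption) | (with_reducible refine IntF.comp ?_ ?_; assumption) | (with_reducible refine IntF.comp₂ ?_ ?_ ?_; assumption) | (with_reducible refine IntF.comp₃ ?_ ?_ ?_ ?_; assumption) | with_reducible apply IntF.pair)))]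

theorem IntF.cmp {f g : γ → IPow M (σ × σ)} (hf : IntF M f) (hg : IntF M g) :
    IntF M (fun c => cmp (f c) (g c)) := by
  unfold PG.cmp
  (repeat' (first | with_reducible exact IntF.id | with_reducible exact IntF.fst' | with_reducible exact IntF.snd' | with_reducible exact IntF.const _ | with_reducible exact Int.const _ | assumption | with_reducible apply Int.dm | with_reducible apply Int.rg | with_reducible apply Int.fn | with_reducible apply Int.ij | with_reducible apply Int.mv | with_reducible apply IntF.idr | with_reducible apply IntF.inv' | with_reducible apply IntF.cmp | with_reducible apply Int.and | with_reducible apply Int.or | with_reducible apply Int.not | with_reducible apply Int.imp | with_reducible apply Int.iff | with_reducible apply Int.ne | with_reducible apply Int.eq | with_reducible apply Int.mem | with_reducible apply Int.subset | with_reducible apply Int.ltN | with_reducible apply Int.leN | with_reducible apply Int.fin | with_reducible apply Int.unique | with_reducible apply Int.all | with_reducible apply Int.ex | with_reducible apply IntF.fst | with_reducible apply IntF.snd | with_reducible apply IntF.app | with_reducible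 apply IntF.ite | with_reducible apply IntF.sep | with_reducible apply IntF.lam | with_reducible apply IntF.insert | with_reducible apply IntF.singleton | with_reducible apply IntF.union | with_reducible apply IntF.inter | with_reducible apply IntF.sdiff | with_reducible apply IntF.isUnion | with_reducible apply IntF.iimage | with_reducible apply IntF.the | with_reducible apply IntF.irec | with_reducible_and_instances apply IntF.add | with_reducible_and_instances apply IntF.mul | with_reducible apply IntF.succ | with_reducible apply IntF.val | with_reducible apply IntF.mk | (with_reducible refine Int.comp ?_ ?_; assumption) | (with_reducible refine Int.comp₂ ?_ ?_ ?_; assumption) | (with_reducible refine Int.comp₃ ?_ ?_ ?_ ?_; assumption) | (with_reducible refine IntF.comp ?_ ?_; assumption) | (with_reducible refine IntF.comp₂ ?_ ?_ ?_; assumption) | (with_reducible refine IntF.comp₃ ?_ ?_ ?_ ?_; assumption) | with_reducible apply IntF.pair))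

theorem dm_inv {p : IPow M (σ × σ)} {a : σ} : Dm (inv' p) a ↔ Rg p a :=
  exists_congr fun _ => mem_inv

theorem rg_inv {p : IPow M (σ × σ)} {a : σ} : Rg (inv' p) a ↔ Dm p a :=
  exists_congr fun _ => mem_inv

theorem inv_inv' (p : IPow M (σ × σ)) : inv' (inv' p) = p :=
  IPow.ext' fun ⟨a, b⟩ => by rw [mem_inv, mem_inv]

theorem fn_inv {p : IPow M (σ × σ)} (h : Ij p) : Fn (inv' p) := fun a b c h1 h2 =>
  h b c a (mem_inv.1 h1) (mem_inv.1 h2)

theorem ij_inv {p : IPow M (σ × σ)} (h : Fn p) : Ij (inv' p) := fun a b c h1 h2 =>
  h c a b (mem_inv.1 h1) (mem_inv.1 h2)

theorem fn_cmp {p q : IPow M (σ × σ)} (hp : Fn p) (hq : Fn q) : Fn (cmp q p) := by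
  intro a b c h1 h2
  obtain ⟨d, h3, h4⟩ := mem_cmp.1 h1
  obtain ⟨e, h5, h6⟩ := mem_cmp.1 h2
  obtain rfl := hp _ _ _ h3 h5
  exact hq _ _ _ h4 h6

theorem ij_cmp {p q : IPow M (σ × σ)} (hp : Ij p) (hq : Ij q) : Ij (cmp q p) := by
  intro a b c h1 h2
  obtain ⟨d, h3, h4⟩ := mem_cmp.1 h1
  obtain ⟨e, h5, h6⟩ := mem_cmp.1 h2
  obtain rfl := hq _ _ _ h4 h6
  exact hp _ _ _ h3 h5

theorem fn_mono {p q : IPow M (σ × σ)} (h : q ⊆ p) (hp : Fn p) : Fn q := fun a b c h1 h2 =>
  hp a b c (h _ h1) (h _ h2)

theorem ij_mono {p q : IPow M (σ × σ)} (h : q ⊆ p) (hp : Ij p) : Ij q := fun a b c h1 h2 =>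
  hp a b c (h _ h1) (h _ h2)

theorem fn_idr (D : IPow M σ) : Fn (idr D) := fun a b c h1 h2 =>
  (mem_idr.1 h1).1.symm.trans (mem_idr.1 h2).1

theorem ij_idr (D : IPow M σ) : Ij (idr D) := fun a b c h1 h2 =>
  (mem_idr.1 h1).1.trans (mem_idr.1 h2).1.symm

theorem fin_dm {p : IPow M (σ × σ)} (hp : IFin p) : FinP M (Dm p) := by
  refine ⟨iimage (fun q : σ × σ => q.1) p, hp.image IntF.fst', fun a ha => ?_⟩
  obtain ⟨b, hb⟩ := ha
  exact (mem_iimage IntF.fst').2 ⟨(a, b), hb, rfl⟩

theorem fin_rg {p : IPow M (σ × σ)} (hp : IFin p) : FinP M (Rg p) := by
  refine ⟨iimage (fun q : σ × σ => q.2) p, hp.image IntF.snd', fun b hb => ?_⟩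
  obtain ⟨a, ha⟩ := hb
  exact (mem_iimage IntF.snd').2 ⟨(a, b), ha, rfl⟩

theorem fin_inv {p : IPow M (σ × σ)} (hp : IFin p) : IFin (inv' p) := by
  have hs : IntF M (fun q : σ × σ => (q.2, q.1)) := by (repeat' (first | with_reducible exact IntF.id | with_reducible exact IntF.fst' | with_reducible exact IntF.snd' | with_reducible exact IntF.const _ | with_reducible exact Int.const _ | assumption | with_reducible apply Int.dm | with_reducible apply Int.rg | with_reducible apply Int.fn | with_reducible apply Int.ij | with_reducible apply Int.mv | with_reducible apply IntF.idr | with_reducible apply IntF.inv' | with_reducible apply IntF.cmp | with_reducible apply Int.and | with_reducible apply Int.or | with_reducible apply Int.not | with_reducible apply Int.imp | with_reducible apply Int.iff | with_reducible apply Int.ne | with_reducible apply Int.eq | with_reducible apply Int.mem | with_reducible apply Int.subset | with_reducible apply Int.ltN | with_reducible apply Int.leN | with_reducible apply Int.fin | with_reducible apply Int.unique | with_reducible apply Int.all | with_reducible apply Int.ex | with_reducible apply IntF.fst | with_reducible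 apply IntF.snd | with_reducible apply IntF.app | with_reducible apply IntF.ite | with_reducible apply IntF.sep | with_reducible apply IntF.lam | with_reducible apply IntF.insert | with_reducible apply IntF.singleton | with_reducible apply IntF.union | with_reducible apply IntF.inter | with_reducible apply IntF.sdiff | with_reducible apply IntF.isUnion | with_reducible apply IntF.iimage | with_reducible apply IntF.the | with_reducible apply IntF.irec | with_reducible_and_instances apply IntF.add | with_reducible_and_instances apply IntF.mul | with_reducible apply IntF.succ | with_reducible apply IntF.val | with_reducible apply IntF.mk | (with_reducible refine Int.comp ?_ ?_; assumption) | (with_reducible refine Int.comp₂ ?_ ?_ ?_; assumption) | (with_reducible refine Int.comp₃ ?_ ?_ ?_ ?_; assumption) | (with_reducible refine IntF.comp ?_ ?_; assumption) | (with_reducible refine IntF.comp₂ ?_ ?_ ?_; assumption) | (with_reducible refine IntF.comp₃ ?_ ?_ ?_ ?_; assumption) | with_reducible apply IntF.pair))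
  refine (hp.image hs).subset ?_
  rintro ⟨a, b⟩ h
  exact (mem_iimage hs).2 ⟨(b, a), mem_inv.1 h, rfl⟩

theorem fin_idr {D : IPow M σ} (hD : IFin D) : IFin (idr D) := by
  have hs : IntF M (fun q : σ => (q, q)) := by (repeat' (first | with_reducible exact IntF.id | with_reducible exact IntF.fst' | with_reducible exact IntF.snd' | with_reducible exact IntF.const _ | with_reducible exact Int.const _ | assumption | with_reducible apply Int.dm | with_reducible apply Int.rg | with_reducible apply Int.fn | with_reducible apply Int.ij | with_reducible apply Int.mv | with_reducible apply IntF.idr | with_reducible apply IntF.inv' | with_reducible apply IntF.cmp | with_reducible apply Int.and | with_reducible apply Int.or | with_reducible apply Int.not | with_reducible apply Int.imp | with_reducible apply Int.iff | with_reducible apply Int.ne | with_reducible apply Int.eq | with_reducible apply Int.mem | with_reducible apply Int.subset | with_reducible apply Int.ltN | with_reducible apply Int.leN | with_reducible apply Int.fin | with_reducible apply Int.unique | with_reducible apply Int.all | with_reducible apply Int.ex | with_reducible apply IntF.fst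 | with_reducible apply IntF.snd | with_reducible apply IntF.app | with_reducible apply IntF.ite | with_reducible apply IntF.sep | with_reducible apply IntF.lam | with_reducible apply IntF.insert | with_reducible apply IntF.singleton | with_reducible apply IntF.union | with_reducible apply IntF.inter | with_reducible apply IntF.sdiff | with_reducible apply IntF.isUnion | with_reducible apply IntF.iimage | with_reducible apply IntF.the | with_reducible apply IntF.irec | with_reducible_and_instances apply IntF.add | with_reducible_and_instances apply IntF.mul | with_reducible apply IntF.succ | with_reducible apply IntF.val | with_reducible apply IntF.mk | (with_reducible refine Int.comp ?_ ?_; assumption) | (with_reducible refine Int.comp₂ ?_ ?_ ?_; assumption) | (with_reducible refine Int.comp₃ ?_ ?_ ?_ ?_; assumption) | (with_reducible refine IntF.comp ?_ ?_; assumption) | (with_reducible refine IntF.comp₂ ?_ ?_ ?_; assumption) | (with_reducible refine IntF.comp₃ ?_ ?_ ?_ ?_; assumption) | with_reducible apply IntF.pair))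
  refine (hD.image hs).subset ?_
  rintro ⟨a, b⟩ h
  obtain ⟨h1, h2⟩ := mem_idr.1 h
  exact (mem_iimage hs).2 ⟨a, h2, by rw [h1]⟩

theorem fin_cmp {p q : IPow M (σ × σ)} (hp : IFin p) (hq : IFin q) : IFin (cmp q p) := by
  obtain ⟨s, hs, h1⟩ := fin_dm hp
  obtain ⟨t, ht, h2⟩ := fin_rg hq
  refine (hs.prod ht).subset ?_
  rintro ⟨a, c⟩ h
  obtain ⟨b, h3, h4⟩ := mem_cmp.1 h
  exact mem_iprod.2 ⟨h1 _ ⟨b, h3⟩, h2 _ ⟨b, h4⟩⟩

/-! ### Carrying -/

theorem Mv1.mono {p q : IPow M (σ × σ)} (hp : Fn p) (hp' : Ij p) (h : q ⊆ p) {s t : IPow M σ}
    (hm : Mv1 q s t) : Mv1 p s t := by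
  rintro a b (hab | ⟨h1, h2⟩)
  · by_cases h3 : (a, b) ∈ q
    · exact hm a b (Or.inl h3)
    · refine hm a b (Or.inr ⟨?_, ?_⟩)
      · rintro ⟨c, hc⟩
        exact h3 ((hp a b c hab (h _ hc)) ▸ hc)
      · rintro ⟨c, hc⟩
        exact h3 ((hp' a c b hab (h _ hc)) ▸ hc)
  · exact hm a b (Or.inr ⟨fun ⟨c, hc⟩ => h1 ⟨c, h _ hc⟩, fun ⟨c, hc⟩ => h2 ⟨c, h _ hc⟩⟩)

theorem Mv.mono {p q : IPow M (σ × σ)} (hp : Fn p) (hp' : Ij p) (h : q ⊆ p)
    {x y : IPow M σ × IPow M σ} (hm : Mv q x y) : Mv p x y :=
  ⟨hm.1.mono hp hp' h, hm.2.mono hp hp' h⟩

theorem Mv1.inv {p : IPow M (σ × σ)} {s t : IPow M σ} (hm : Mv1 p s t) : Mv1 (inv' p) t s := by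
  rintro a b (hab | ⟨h1, h2⟩)
  · exact (hm b a (Or.inl (mem_inv.1 hab))).symm
  · exact (hm b a (Or.inr ⟨fun h => h2 (rg_inv.2 h), fun h => h1 (dm_inv.2 h)⟩)).symm

theorem Mv.inv {p : IPow M (σ × σ)} {x y : IPow M σ × IPow M σ} (hm : Mv p x y) :
    Mv (inv' p) y x := ⟨hm.1.inv, hm.2.inv⟩

theorem Mv1.idr {D s t : IPow M σ} (hm : Mv1 (idr D) s t) : s = t := by
  refine IPow.ext' fun a => hm a a ?_
  by_cases h : a ∈ D
  · exact Or.inl (mem_idr.2 ⟨rfl, h⟩)
  · refine Or.inr ⟨?_, ?_⟩
    · rintro ⟨c, hc⟩
      exact h (mem_idr.1 hc).2
    · rintro ⟨c, hc⟩
      exact h ((mem_idr.1 hc).1 ▸ (mem_idr.1 hc).2)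

theorem Mv.idr {D : IPow M σ} {x y : IPow M σ × IPow M σ} (hm : Mv (idr D) x y) : x = y :=
  Prod.ext hm.1.idr hm.2.idr

theorem exists_not {p : σ → Prop} (hinf : ¬ FinP M (fun _ : σ => True)) (hp : FinP M p) :
    ∃ a, ¬ p a := by
  by_contra h
  push Not at h
  exact hinf (hp.mono fun a _ => h a)

theorem Mv1.unique (hinf : ¬ FinP M (fun _ : σ => True)) {p : IPow M (σ × σ)} (hp : IFin p)
    {s t t' : IPow M σ} (h : Mv1 p s t) (h' : Mv1 p s t') : t = t' := by
  refine IPow.ext' fun b => ?_
  by_cases hb : Rg p b
  · obtain ⟨a, ha⟩ := hb
    exact (h a b (Or.inl ha)).symm.trans (h' a b (Or.inl ha))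
  · obtain ⟨a, ha⟩ := exists_not hinf (fin_dm hp)
    exact (h a b (Or.inr ⟨ha, hb⟩)).symm.trans (h' a b (Or.inr ⟨ha, hb⟩))

theorem Mv.unique (hinf : ¬ FinP M (fun _ : σ => True)) {p : IPow M (σ × σ)} (hp : IFin p)
    {x y y' : IPow M σ × IPow M σ} (h : Mv p x y) (h' : Mv p x y') : y = y' :=
  Prod.ext (h.1.unique hinf hp h'.1) (h.2.unique hinf hp h'.2)

theorem Mv1.split (hinf : ¬ FinP M (fun _ : σ => True)) {p q : IPow M (σ × σ)} (hp : IFin p)
    (hq : IFin q) (fp : Fn p) (ip : Ij p) (fq : Fn q) (iq : Ij q)
    {s t : IPow M σ} (h : Mv1 (cmp q p) s t) : ∃ r, Mv1 p s r ∧ Mv1 q r t := by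
  obtain ⟨a₀, ha₀⟩ := exists_not hinf (fin_dm (fin_cmp hp hq))
  obtain ⟨b₀, hb₀⟩ := exists_not hinf (fin_rg (fin_cmp hp hq))
  have h1 : ∀ a, ¬ Dm (cmp q p) a → (a ∈ s ↔ a₀ ∈ s) := fun a ha =>
    (h a b₀ (Or.inr ⟨ha, hb₀⟩)).trans (h a₀ b₀ (Or.inr ⟨ha₀, hb₀⟩)).symm
  have h2 : ∀ b, ¬ Rg (cmp q p) b → (b ∈ t ↔ a₀ ∈ s) := fun b hb =>
    (h a₀ b (Or.inr ⟨ha₀, hb⟩)).symm
  have hi : Int M (fun b : σ => (∃ a, (a, b) ∈ p ∧ a ∈ s) ∨ (¬ Rg p b ∧ a₀ ∈ s)) := by (repeat' (first | with_reducible exact IntF.id | with_reducible exact IntF.fst' | with_reducible exact IntF.snd' | with_reducible exact IntF.const _ | with_reducible exact Int.const _ | assumption | with_reducible apply Int.dm | with_reducible apply Int.rg | with_reducible apply Int.fn | with_reducible apply Int.ij | with_reducible apply Int.mv | with_reducible apply IntF.idr | with_reducible apply IntF.inv' | with_reducible apply IntF.cmp | with_reducible apply Int.and | with_reducible apply Int.or | with_reducible apply Int.not | with_reducible apply Int.imp | with_reducible apply Int.iff | with_reducible apply Int.ne | with_reducible apply Int.eq | with_reducible apply Int.mem | with_reducible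 apply Int.subset | with_reducible apply Int.ltN | with_reducible apply Int.leN | with_reducible apply Int.fin | with_reducible apply Int.unique | with_reducible apply Int.all | with_reducible apply Int.ex | with_reducible apply IntF.fst | with_reducible apply IntF.snd | with_reducible apply IntF.app | with_reducible apply IntF.ite | with_reducible apply IntF.sep | with_reducible apply IntF.lam | with_reducible apply IntF.insert | with_reducible apply IntF.singleton | with_reducible apply IntF.union | with_reducible apply IntF.inter | with_reducible apply IntF.sdiff | with_reducible apply IntF.isUnion | with_reducible apply IntF.iimage | with_reducible apply IntF.the | with_reducible apply IntF.irec | with_reducible_and_instances apply IntF.add | with_reducible_and_instances apply IntF.mul | with_reducible apply IntF.succ | with_reducible apply IntF.val | with_reducible apply IntF.mk | (with_reducible refine Int.comp ?_ ?_; assumption) | (with_reducible refine Int.comp₂ ?_ ?_ ?_; assumption) | (with_reducible refine Int.comp₃ ?_ ?_ ?_ ?_; assumption) | (with_reducible refine IntF.comp ?_ ?_; assumption) | (with_reducible refine IntF.comp₂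 ?_ ?_ ?_; assumption) | (with_reducible refine IntF.comp₃ ?_ ?_ ?_ ?_; assumption) | with_reducible apply IntF.pair))
  refine ⟨sep M fun b => (∃ a, (a, b) ∈ p ∧ a ∈ s) ∨ (¬ Rg p b ∧ a₀ ∈ s), ?_, ?_⟩
  · rintro a b (hab | ⟨h3, h4⟩)
    · rw [mem_sep hi]
      constructor
      · intro h5
        exact Or.inl ⟨a, hab, h5⟩
      · rintro (⟨a', h5, h6⟩ | ⟨h5, _⟩)
        · exact (ip _ _ _ hab h5) ▸ h6
        · exact absurd ⟨a, hab⟩ h5
    · rw [mem_sep hi, h1 a fun ⟨c, hc⟩ => h3 (by
        obtain ⟨d, hd, _⟩ := mem_cmp.1 hc
        exact ⟨d, hd⟩)]
      constructor
      · intro h5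
        exact Or.inr ⟨h4, h5⟩
      · rintro (⟨a', h5, h6⟩ | ⟨_, h5⟩)
        · exact absurd ⟨a', h5⟩ h4
        · exact h5
  · rintro b c (hbc | ⟨h3, h4⟩)
    · rw [mem_sep hi]
      by_cases hb : Rg p b
      · obtain ⟨a, hab⟩ := hb
        rw [← h a c (Or.inl (mem_cmp.2 ⟨b, hab, hbc⟩))]
        constructor
        · rintro (⟨a', h5, h6⟩ | ⟨h5, _⟩)
          · exact (ip _ _ _ hab h5) ▸ h6
          · exact absurd ⟨a, hab⟩ h5
        · intro h5
          exact Or.inl ⟨a, hab, h5⟩
      · rw [h2 c fun ⟨a, ha⟩ => hb (by
          obtain ⟨d, hd, hd'⟩ := mem_cmp.1 ha
          exact ⟨a, (iq _ _ _ hbc hd') ▸ hd⟩)]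
        constructor
        · rintro (⟨a', h5, h6⟩ | ⟨_, h5⟩)
          · exact absurd ⟨a', h5⟩ hb
          · exact h5
        · intro h5
          exact Or.inr ⟨hb, h5⟩
    · rw [mem_sep hi, h2 c fun ⟨a, ha⟩ => h4 (by
        obtain ⟨d, hd, hd'⟩ := mem_cmp.1 ha
        exact ⟨d, hd'⟩)]
      constructor
      · rintro (⟨a', h5, h6⟩ | ⟨_, h5⟩)
        · refine (h1 a' ?_).1 h6
          rintro ⟨d, hd⟩
          obtain ⟨e, he, he'⟩ := mem_cmp.1 hd
          exact h3 ⟨d, (fp _ _ _ h5 he) ▸ he'⟩
        · exact h5
      · intro h5
        by_cases hb : Rg p b
        · obtain ⟨a, ha⟩ := hb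
          refine Or.inl ⟨a, ha, (h1 a ?_).2 h5⟩
          rintro ⟨d, hd⟩
          obtain ⟨e, he, he'⟩ := mem_cmp.1 hd
          exact h3 ⟨d, (fp _ _ _ ha he) ▸ he'⟩
        · exact Or.inr ⟨hb, h5⟩

theorem Mv.split (hinf : ¬ FinP M (fun _ : σ => True)) {p q : IPow M (σ × σ)} (hp : IFin p)
    (hq : IFin q) (fp : Fn p) (ip : Ij p) (fq : Fn q) (iq : Ij q)
    {x y : IPow M σ × IPow M σ} (h : Mv (cmp q p) x y) : ∃ z, Mv p x z ∧ Mv q z y := by
  obtain ⟨r, h1, h2⟩ := h.1.split hinf hp hq fp ip fq iq
  obtain ⟨r', h3, h4⟩ := h.2.split hinf hp hq fp ip fq iq
  exact ⟨(r, r'), ⟨h1, h3⟩, ⟨h2, h4⟩⟩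

/-- Existence of the image, for sets supported by the domain. -/
theorem Mv1.exists (hinf : ¬ FinP M (fun _ : σ => True)) {p : IPow M (σ × σ)} (hp : IFin p)
    (fp : Fn p) (ip : Ij p) {s : IPow M σ}
    (h : ∀ a a', ¬ Dm p a → ¬ Dm p a' → (a ∈ s ↔ a' ∈ s)) : ∃ t, Mv1 p s t := by
  obtain ⟨a₀, ha₀⟩ := exists_not hinf (fin_dm hp)
  have hi : Int M (fun b : σ => (∃ a, (a, b) ∈ p ∧ a ∈ s) ∨ (¬ Rg p b ∧ a₀ ∈ s)) := by (repeat' (first | with_reducible exact IntF.id | with_reducible exact IntF.fst' | with_reducible exact IntF.snd' | with_reducible exact IntF.const _ | with_reducible exact Int.const _ | assumption | with_reducible apply Int.dm | with_reducible apply Int.rg | with_reducible apply Int.fn | with_reducible apply Int.ij | with_reducible apply Int.mv | with_reducible apply IntF.idr | with_reducible apply IntF.inv' | with_reducible apply IntF.cmp | with_reducible apply Int.and | with_reducible apply Int.or | with_reducible apply Int.not | with_reducible apply Int.imp | with_reducible apply Int.iff | with_reducible apply Int.ne | with_reducible apply Int.eq | with_reducible apply Int.mem | with_reducible apply Int.subset | with_reducible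 apply Int.ltN | with_reducible apply Int.leN | with_reducible apply Int.fin | with_reducible apply Int.unique | with_reducible apply Int.all | with_reducible apply Int.ex | with_reducible apply IntF.fst | with_reducible apply IntF.snd | with_reducible apply IntF.app | with_reducible apply IntF.ite | with_reducible apply IntF.sep | with_reducible apply IntF.lam | with_reducible apply IntF.insert | with_reducible apply IntF.singleton | with_reducible apply IntF.union | with_reducible apply IntF.inter | with_reducible apply IntF.sdiff | with_reducible apply IntF.isUnion | with_reducible apply IntF.iimage | with_reducible apply IntF.the | with_reducible apply IntF.irec | with_reducible_and_instances apply IntF.add | with_reducible_and_instances apply IntF.mul | with_reducible apply IntF.succ | with_reducible apply IntF.val | with_reducible apply IntF.mk | (with_reducible refine Int.comp ?_ ?_; assumption) | (with_reducible refine Int.comp₂ ?_ ?_ ?_; assumption) | (with_reducible refine Int.comp₃ ?_ ?_ ?_ ?_; assumption) | (with_reducible refine IntF.comp ?_ ?_; assumption) | (with_reducible refine IntF.comp₂ ?_ ?_ ?_; assumption) | (with_reducible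 refine IntF.comp₃ ?_ ?_ ?_ ?_; assumption) | with_reducible apply IntF.pair))
  refine ⟨sep M fun b => (∃ a, (a, b) ∈ p ∧ a ∈ s) ∨ (¬ Rg p b ∧ a₀ ∈ s), ?_⟩
  rintro a b (hab | ⟨h3, h4⟩)
  · rw [mem_sep hi]
    constructor
    · intro h5
      exact Or.inl ⟨a, hab, h5⟩
    · rintro (⟨a', h5, h6⟩ | ⟨h5, _⟩)
      · exact (ip _ _ _ hab h5) ▸ h6
      · exact absurd ⟨a, hab⟩ h5
  · rw [mem_sep hi, h a a₀ h3 ha₀]
    constructor
    · intro h5
      exact Or.inr ⟨h4, h5⟩
    · rintro (⟨a', h5, h6⟩ | ⟨_, h5⟩)
      · exact absurd ⟨a', h5⟩ h4
      · exact h5

theorem Mv.exists (hinf : ¬ FinP M (fun _ : σ => True)) {p : IPow M (σ × σ)} (hp : IFin p)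
    (fp : Fn p) (ip : Ij p) {x : IPow M σ × IPow M σ}
    (h : ∀ a a', ¬ Dm p a → ¬ Dm p a' → (a ∈ x.1 ↔ a' ∈ x.1) ∧ (a ∈ x.2 ↔ a' ∈ x.2)) :
    ∃ y, Mv p x y := by
  obtain ⟨t, ht⟩ := Mv1.exists hinf hp fp ip (s := x.1) fun a a' h1 h2 => (h a a' h1 h2).1
  obtain ⟨t', ht'⟩ := Mv1.exists hinf hp fp ip (s := x.2) fun a a' h1 h2 => (h a a' h1 h2).2
  exact ⟨(t, t'), ht, ht'⟩

end Pool.Agent.Q207.PG
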