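import Pool.Agent.Q207.PG.Gp

/-!
# There are finitely many types
-/

set_option maxHeartbeats 1000000
set_option linter.all false

namespace Pool.Agent.Q207.PG

open FirstOrder FirstOrder.Language
open Pool.Agent.Helper672.ZFA
open Pool.Agent.H310
open Pool.Agent.Q212.ZA

universe u u₁ u₂ u₃ u₄

variable {M : Type u} [L.Structure M] [hM : IsModel M]
variable {σ : Type u₁} {β : Type u₂} {γ : Type u₃} [ITy M σ] [ITy M β] [ITy M γ]

variable {f : IPow M σ × IPow M σ → IPow M σ × IPow M σ}

/-- `s` is an enumeration of a finite set by `D`. -/
def Enm (D : IPow M σ) (s : IPow M (σ × σ)) : Prop :=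
  (IFin s ∧ Fn s ∧ Ij s) ∧ ∀ a, Dm s a ↔ a ∈ D

theorem Int.enm {g : γ → IPow M σ} {h : γ → IPow M (σ × σ)} (hg : IntF M g) (hh : IntF M h) :
    Int M (fun c => Enm (g c) (h c)) := by
  unfold Enm
  (repeat' (first | with_reducible exact IntF.id | with_reducible exact IntF.fst' | with_reducible exact IntF.snd' | with_reducible exact IntF.const _ | with_reducible exact Int.const _ | assumption | with_reducible apply Int.dm | with_reducible apply Int.rg | with_reducible apply Int.fn | with_reducible apply Int.ij | with_reducible apply Int.mv | with_reducible apply Int.enm | with_reducible apply IntF.idr | with_reducible apply IntF.inv' | with_reducible apply IntF.cmp | with_reducible apply Int.and | with_reducible apply Int.or | with_reducible apply Int.not | with_reducible apply Int.imp | with_reducible apply Int.iff | with_reducible apply Int.ne | with_reducible apply Int.eq | with_reducible apply Int.mem | with_reducible apply Int.subset | with_reducible apply Int.ltN | with_reducible apply Int.leN | with_reducible apply Int.fin | with_reducible apply Int.unique | with_reducible apply Int.all | with_reducible apply Int.ex |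 with_reducible apply IntF.fst | with_reducible apply IntF.snd | with_reducible apply IntF.app | with_reducible apply IntF.ite | with_reducible apply IntF.sep | with_reducible apply IntF.lam | with_reducible apply IntF.insert | with_reducible apply IntF.singleton | with_reducible apply IntF.union | with_reducible apply IntF.inter | with_reducible apply IntF.sdiff | with_reducible apply IntF.isUnion | with_reducible apply IntF.iimage | with_reducible apply IntF.the | with_reducible apply IntF.irec | with_reducible_and_instances apply IntF.add | with_reducible_and_instances apply IntF.mul | with_reducible apply IntF.succ | with_reducible apply IntF.val | with_reducible apply IntF.mk | (with_reducible refine Int.comp ?_ ?_; assumption) | (with_reducible refine Int.comp₂ ?_ ?_ ?_; assumption) | (with_reducible refine Int.comp₃ ?_ ?_ ?_ ?_; assumption) | (with_reducible refine IntF.comp ?_ ?_; assumption) | (with_reducible refine IntF.comp₂ ?_ ?_ ?_; assumption) | (with_reducible refine IntF.comp₃ ?_ ?_ ?_ ?_; assumption) | with_reducible apply IntF.pair))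

/-- Sets that are constant outside `D`. -/
noncomputable def Sup (D : IPow M σ) : IPow M (IPow M σ) :=
  sep M fun u => ∀ a a', ¬ a ∈ D → ¬ a' ∈ D → (a ∈ u ↔ a' ∈ u)

theorem mem_Sup {D u : IPow M σ} :
    u ∈ Sup D ↔ ∀ a a', ¬ a ∈ D → ¬ a' ∈ D → (a ∈ u ↔ a' ∈ u) := by
  unfold Sup
  rw [mem_sep (by (repeat' (first | with_reducible exact IntF.id | with_reducible exact IntF.fst' | with_reducible exact IntF.snd' | with_reducible exact IntF.const _ | with_reducible exact Int.const _ | assumption | with_reducible apply Int.dm | with_reducible apply Int.rg | with_reducible apply Int.fn | with_reducible apply Int.ij | with_reducible apply Int.mv | with_reducible apply Int.enm | with_reducible apply IntF.idr | with_reducible apply IntF.inv' | with_reducible apply IntF.cmp | with_reducible apply Int.and | with_reducible apply Int.or | with_reducible apply Int.not | with_reducible apply Int.imp | with_reducible apply Int.iff | with_reducible apply Int.ne | with_reducible apply Int.eq | with_reducible apply Int.mem | with_reducible apply Int.subset | with_reducible apply Int.ltN | with_reducible apply Int.leN | with_reducible apply Int.fin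 | with_reducible apply Int.unique | with_reducible apply Int.all | with_reducible apply Int.ex | with_reducible apply IntF.fst | with_reducible apply IntF.snd | with_reducible apply IntF.app | with_reducible apply IntF.ite | with_reducible apply IntF.sep | with_reducible apply IntF.lam | with_reducible apply IntF.insert | with_reducible apply IntF.singleton | with_reducible apply IntF.union | with_reducible apply IntF.inter | with_reducible apply IntF.sdiff | with_reducible apply IntF.isUnion | with_reducible apply IntF.iimage | with_reducible apply IntF.the | with_reducible apply IntF.irec | with_reducible_and_instances apply IntF.add | with_reducible_and_instances apply IntF.mul | with_reducible apply IntF.succ | with_reducible apply IntF.val | with_reducible apply IntF.mk | (with_reducible refine Int.comp ?_ ?_; assumption) | (with_reducible refine Int.comp₂ ?_ ?_ ?_; assumption) | (with_reducible refine Int.comp₃ ?_ ?_ ?_ ?_; assumption) | (with_reducible refine IntF.comp ?_ ?_; assumption) | (with_reducible refine IntF.comp₂ ?_ ?_ ?_; assumption) | (with_reducible refine IntF.comp₃ ?_ ?_ ?_ ?_; assumption) | with_reducible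 apply IntF.pair)))]

theorem fin_Sup {D : IPow M σ} (hD : IFin D) : IFin (Sup D) := by
  have hc : IntF M (fun u : IPow M σ => icompl u) := IntF.icompl IntF.id
  refine (hD.pow.union (hD.pow.image hc)).subset fun u hu => ?_
  rw [mem_Sup] at hu
  rw [mem_union]
  by_cases h : ∃ a, ¬ a ∈ D ∧ a ∈ u
  · obtain ⟨a, ha, ha'⟩ := h
    right
    refine (mem_iimage hc).2 ⟨icompl u, mem_ipow.2 fun x hx => ?_, icompl_icompl u⟩
    rw [mem_icompl] at hx
    by_contra h1
    exact hx ((hu a x ha h1).1 ha')
  · left
    rw [mem_ipow]
    intro x hx
    by_contra h1
    exact h ⟨x, h1, hx⟩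

theorem Mv1.sup (hinf : ¬ FinP M (fun _ : σ => True)) {p : IPow M (σ × σ)} (hp : IFin p)
    {D s t : IPow M σ} (hD : ∀ a, Dm p a → a ∈ D) (h : Mv1 p s t) : s ∈ Sup D := by
  rw [mem_Sup]
  intro a a' ha ha'
  obtain ⟨b, hb⟩ := exists_not hinf (fin_rg hp)
  exact (h a b (Or.inr ⟨fun h1 => ha (hD a h1), hb⟩)).trans
    (h a' b (Or.inr ⟨fun h1 => ha' (hD a' h1), hb⟩)).symm

/-- The type of an enumeration, at the bottom level. -/
noncomputable def cd0 (f : IPow M σ × IPow M σ → IPow M σ × IPow M σ) (s : IPow M (σ × σ)) :
    IPow M ((IPow M σ × IPow M σ) × (IPow M σ × IPow M σ)) :=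
  sep M fun q => ∃ x y : IPow M σ × IPow M σ, Mv s q.1 x ∧ Mv s q.2 y ∧ f x = y

theorem mem_cd0 (hf : IntF M f) {s : IPow M (σ × σ)} {u v : IPow M σ × IPow M σ} :
    (u, v) ∈ cd0 f s ↔ ∃ x y : IPow M σ × IPow M σ, Mv s u x ∧ Mv s v y ∧ f x = y := by
  unfold cd0
  rw [mem_sep (by (repeat' (first | with_reducible exact IntF.id | with_reducible exact IntF.fst' | with_reducible exact IntF.snd' | with_reducible exact IntF.const _ | with_reducible exact Int.const _ | assumption | with_reducible apply Int.dm | with_reducible apply Int.rg | with_reducible apply Int.fn | with_reducible apply Int.ij | with_reducible apply Int.mv | with_reducible apply Int.enm | with_reducible apply IntF.idr | with_reducible apply IntF.inv' | with_reducible apply IntF.cmp | with_reducible apply Int.and | with_reducible apply Int.or | with_reducible apply Int.not | with_reducible apply Int.imp | with_reducible apply Int.iff | with_reducible apply Int.ne | with_reducible apply Int.eq | with_reducible apply Int.mem | with_reducible apply Int.subset | with_reducible apply Int.ltN | with_reducible apply Int.leN | with_reducible apply Int.fin | with_reducible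 apply Int.unique | with_reducible apply Int.all | with_reducible apply Int.ex | with_reducible apply IntF.fst | with_reducible apply IntF.snd | with_reducible apply IntF.app | with_reducible apply IntF.ite | with_reducible apply IntF.sep | with_reducible apply IntF.lam | with_reducible apply IntF.insert | with_reducible apply IntF.singleton | with_reducible apply IntF.union | with_reducible apply IntF.inter | with_reducible apply IntF.sdiff | with_reducible apply IntF.isUnion | with_reducible apply IntF.iimage | with_reducible apply IntF.the | with_reducible apply IntF.irec | with_reducible_and_instances apply IntF.add | with_reducible_and_instances apply IntF.mul | with_reducible apply IntF.succ | with_reducible apply IntF.val | with_reducible apply IntF.mk | (with_reducible refine Int.comp ?_ ?_; assumption) | (with_reducible refine Int.comp₂ ?_ ?_ ?_; assumption) | (with_reducible refine Int.comp₃ ?_ ?_ ?_ ?_; assumption) | (with_reducible refine IntF.comp ?_ ?_; assumption) | (with_reducible refine IntF.comp₂ ?_ ?_ ?_; assumption) | (with_reducible refine IntF.comp₃ ?_ ?_ ?_ ?_; assumption) | with_reducible apply IntF.pair)))]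

theorem int_cd0 (hf : IntF M f) : IntF M (fun s : IPow M (σ × σ) => cd0 f s) := by
  unfold cd0
  (repeat' (first | with_reducible exact IntF.id | with_reducible exact IntF.fst' | with_reducible exact IntF.snd' | with_reducible exact IntF.const _ | with_reducible exact Int.const _ | assumption | with_reducible apply Int.dm | with_reducible apply Int.rg | with_reducible apply Int.fn | with_reducible apply Int.ij | with_reducible apply Int.mv | with_reducible apply Int.enm | with_reducible apply IntF.idr | with_reducible apply IntF.inv' | with_reducible apply IntF.cmp | with_reducible apply Int.and | with_reducible apply Int.or | with_reducible apply Int.not | with_reducible apply Int.imp | with_reducible apply Int.iff | with_reducible apply Int.ne | with_reducible apply Int.eq | with_reducible apply Int.mem | with_reducible apply Int.subset | with_reducible apply Int.ltN | with_reducible apply Int.leN | with_reducible apply Int.fin | with_reducible apply Int.unique | with_reducible apply Int.all | with_reducible apply Int.ex | with_reducible apply IntF.fst | with_reducible apply IntF.snd | with_reducible apply IntF.app | with_reducible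 apply IntF.ite | with_reducible apply IntF.sep | with_reducible apply IntF.lam | with_reducible apply IntF.insert | with_reducible apply IntF.singleton | with_reducible apply IntF.union | with_reducible apply IntF.inter | with_reducible apply IntF.sdiff | with_reducible apply IntF.isUnion | with_reducible apply IntF.iimage | with_reducible apply IntF.the | with_reducible apply IntF.irec | with_reducible_and_instances apply IntF.add | with_reducible_and_instances apply IntF.mul | with_reducible apply IntF.succ | with_reducible apply IntF.val | with_reducible apply IntF.mk | (with_reducible refine Int.comp ?_ ?_; assumption) | (with_reducible refine Int.comp₂ ?_ ?_ ?_; assumption) | (with_reducible refine Int.comp₃ ?_ ?_ ?_ ?_; assumption) | (with_reducible refine IntF.comp ?_ ?_; assumption) | (with_reducible refine IntF.comp₂ ?_ ?_ ?_; assumption) | (with_reducible refine IntF.comp₃ ?_ ?_ ?_ ?_; assumption) | with_reducible apply IntF.pair))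

theorem types_zero (hinf : ¬ FinP M (fun _ : σ => True)) (hf : IntF M f) {D : IPow M σ}
    (hD : IFin D) : ∃ F : IPow M (IPow M (σ × σ)), IFin F ∧
      ∀ s, Enm D s → ∃ t, t ∈ F ∧ Enm D t ∧ cmp t (inv' s) ∈ PP f 0 := by
  have hc := int_cd0 (M := M) hf
  obtain ⟨Ω, hΩ, hΩs⟩ : ∃ Ω : IPow M (IPow M ((IPow M σ × IPow M σ) × (IPow M σ × IPow M σ))),
      IFin Ω ∧ ∀ s, Enm D s → cd0 f s ∈ Ω := by
    have h0 := ((fin_Sup hD).prod (fin_Sup hD))
    refine ⟨_, (h0.prod h0).pow, fun s hs => ?_⟩
    rw [mem_ipow]
    rintro ⟨u, v⟩ huv
    obtain ⟨x, y, h1, h2, -⟩ := (mem_cd0 hf).1 huv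
    have h3 : ∀ a, Dm s a → a ∈ D := fun a => (hs.2 a).1
    exact mem_iprod.2 ⟨mem_iprod.2 ⟨h1.1.sup hinf hs.1.1 h3, h1.2.sup hinf hs.1.1 h3⟩,
      mem_iprod.2 ⟨h2.1.sup hinf hs.1.1 h3, h2.2.sup hinf hs.1.1 h3⟩⟩
  have hr : Int M (fun q : IPow M ((IPow M σ × IPow M σ) × (IPow M σ × IPow M σ)) ×
    IPow M (σ × σ) => Enm D q.2 ∧ cd0 f q.2 = q.1) := by (repeat' (first | with_reducible exact IntF.id | with_reducible exact IntF.fst' | with_reducible exact IntF.snd' | with_reducible exact IntF.const _ | with_reducible exact Int.const _ | assumption | with_reducible apply Int.dm | with_reducible apply Int.rg | with_reducible apply Int.fn | with_reducible apply Int.ij | with_reducible apply Int.mv | with_reducible apply Int.enm | with_reducible apply IntF.idr | with_reducible apply IntF.inv' | with_reducible apply IntF.cmp | with_reducible apply Int.and | with_reducible apply Int.or | with_reducible apply Int.not | with_reducible apply Int.imp | with_reducible apply Int.iff | with_reducible apply Int.ne | with_reducible apply Int.eq | with_reducible apply Int.mem | with_reducible apply Int.subset | with_reducible apply Int.ltN | with_reducible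 apply Int.leN | with_reducible apply Int.fin | with_reducible apply Int.unique | with_reducible apply Int.all | with_reducible apply Int.ex | with_reducible apply IntF.fst | with_reducible apply IntF.snd | with_reducible apply IntF.app | with_reducible apply IntF.ite | with_reducible apply IntF.sep | with_reducible apply IntF.lam | with_reducible apply IntF.insert | with_reducible apply IntF.singleton | with_reducible apply IntF.union | with_reducible apply IntF.inter | with_reducible apply IntF.sdiff | with_reducible apply IntF.isUnion | with_reducible apply IntF.iimage | with_reducible apply IntF.the | with_reducible apply IntF.irec | with_reducible_and_instances apply IntF.add | with_reducible_and_instances apply IntF.mul | with_reducible apply IntF.succ | with_reducible apply IntF.val | with_reducible apply IntF.mk | (with_reducible refine Int.comp ?_ ?_; assumption) | (with_reducible refine Int.comp₂ ?_ ?_ ?_; assumption) | (with_reducible refine Int.comp₃ ?_ ?_ ?_ ?_; assumption) | (with_reducible refine IntF.comp ?_ ?_; assumption) | (with_reducible refine IntF.comp₂ ?_ ?_ ?_; assumption) | (with_reducible refine IntF.comp₃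 ?_ ?_ ?_ ?_; assumption) | with_reducible apply IntF.pair))
  have h1 : IFin (sep M fun c : IPow M ((IPow M σ × IPow M σ) × (IPow M σ × IPow M σ)) =>
      c ∈ Ω ∧ ∃ s, Enm D s ∧ cd0 f s = c) := hΩ.subset fun c hc' => ((mem_sep (by (repeat' (first | with_reducible exact IntF.id | with_reducible exact IntF.fst' | with_reducible exact IntF.snd' | with_reducible exact IntF.const _ | with_reducible exact Int.const _ | assumption | with_reducible apply Int.dm | with_reducible apply Int.rg | with_reducible apply Int.fn | with_reducible apply Int.ij | with_reducible apply Int.mv | with_reducible apply Int.enm | with_reducible apply IntF.idr | with_reducible apply IntF.inv' | with_reducible apply IntF.cmp | with_reducible apply Int.and | with_reducible apply Int.or | with_reducible apply Int.not | with_reducible apply Int.imp | with_reducible apply Int.iff | with_reducible apply Int.ne | with_reducible apply Int.eq | with_reducible apply Int.mem | with_reducible apply Int.subset | with_reducible apply Int.ltN | with_reducible apply Int.leN | with_reducible apply Int.fin | with_reducible apply Int.unique | with_reducible apply Int.all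 | with_reducible apply Int.ex | with_reducible apply IntF.fst | with_reducible apply IntF.snd | with_reducible apply IntF.app | with_reducible apply IntF.ite | with_reducible apply IntF.sep | with_reducible apply IntF.lam | with_reducible apply IntF.insert | with_reducible apply IntF.singleton | with_reducible apply IntF.union | with_reducible apply IntF.inter | with_reducible apply IntF.sdiff | with_reducible apply IntF.isUnion | with_reducible apply IntF.iimage | with_reducible apply IntF.the | with_reducible apply IntF.irec | with_reducible_and_instances apply IntF.add | with_reducible_and_instances apply IntF.mul | with_reducible apply IntF.succ | with_reducible apply IntF.val | with_reducible apply IntF.mk | (with_reducible refine Int.comp ?_ ?_; assumption) | (with_reducible refine Int.comp₂ ?_ ?_ ?_; assumption) | (with_reducible refine Int.comp₃ ?_ ?_ ?_ ?_; assumption) | (with_reducible refine IntF.comp ?_ ?_; assumption) | (with_reducible refine IntF.comp₂ ?_ ?_ ?_; assumption) | (with_reducible refine IntF.comp₃ ?_ ?_ ?_ ?_; assumption) | with_reducible apply IntF.pair)))).1 hc').1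
  obtain ⟨F, hF, hF'⟩ := fin_choice hr h1 fun c hc' => ((mem_sep (by (repeat' (first | with_reducible exact IntF.id | with_reducible exact IntF.fst' | with_reducible exact IntF.snd' | with_reducible exact IntF.const _ | with_reducible exact Int.const _ | assumption | with_reducible apply Int.dm | with_reducible apply Int.rg | with_reducible apply Int.fn | with_reducible apply Int.ij | with_reducible apply Int.mv | with_reducible apply Int.enm | with_reducible apply IntF.idr | with_reducible apply IntF.inv' | with_reducible apply IntF.cmp | with_reducible apply Int.and | with_reducible apply Int.or | with_reducible apply Int.not | with_reducible apply Int.imp | with_reducible apply Int.iff | with_reducible apply Int.ne | with_reducible apply Int.eq | with_reducible apply Int.mem | with_reducible apply Int.subset | with_reducible apply Int.ltN | with_reducible apply Int.leN | with_reducible apply Int.fin | with_reducible apply Int.unique | with_reducible apply Int.all | with_reducible apply Int.ex | with_reducible apply IntF.fst | with_reducible apply IntF.snd | with_reducible apply IntF.app | with_reducible apply IntF.ite | with_reducible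 apply IntF.sep | with_reducible apply IntF.lam | with_reducible apply IntF.insert | with_reducible apply IntF.singleton | with_reducible apply IntF.union | with_reducible apply IntF.inter | with_reducible apply IntF.sdiff | with_reducible apply IntF.isUnion | with_reducible apply IntF.iimage | with_reducible apply IntF.the | with_reducible apply IntF.irec | with_reducible_and_instances apply IntF.add | with_reducible_and_instances apply IntF.mul | with_reducible apply IntF.succ | with_reducible apply IntF.val | with_reducible apply IntF.mk | (with_reducible refine Int.comp ?_ ?_; assumption) | (with_reducible refine Int.comp₂ ?_ ?_ ?_; assumption) | (with_reducible refine Int.comp₃ ?_ ?_ ?_ ?_; assumption) | (with_reducible refine IntF.comp ?_ ?_; assumption) | (with_reducible refine IntF.comp₂ ?_ ?_ ?_; assumption) | (with_reducible refine IntF.comp₃ ?_ ?_ ?_ ?_; assumption) | with_reducible apply IntF.pair)))).1 hc').2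
  refine ⟨F, hF, fun s hs => ?_⟩
  obtain ⟨t, ht, ht', hst⟩ := hF' (cd0 f s) ((mem_sep (by (repeat' (first | with_reducible exact IntF.id | with_reducible exact IntF.fst' | with_reducible exact IntF.snd' | with_reducible exact IntF.const _ | with_reducible exact Int.const _ | assumption | with_reducible apply Int.dm | with_reducible apply Int.rg | with_reducible apply Int.fn | with_reducible apply Int.ij | with_reducible apply Int.mv | with_reducible apply Int.enm | with_reducible apply IntF.idr | with_reducible apply IntF.inv' | with_reducible apply IntF.cmp | with_reducible apply Int.and | with_reducible apply Int.or | with_reducible apply Int.not | with_reducible apply Int.imp | with_reducible apply Int.iff | with_reducible apply Int.ne | with_reducible apply Int.eq | with_reducible apply Int.mem | with_reducible apply Int.subset | with_reducible apply Int.ltN | with_reducible apply Int.leN | with_reducible apply Int.fin | with_reducible apply Int.unique | with_reducible apply Int.all | with_reducible apply Int.ex | with_reducible apply IntF.fst | with_reducible apply IntF.snd | with_reducible apply IntF.app | with_reducible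 apply IntF.ite | with_reducible apply IntF.sep | with_reducible apply IntF.lam | with_reducible apply IntF.insert | with_reducible apply IntF.singleton | with_reducible apply IntF.union | with_reducible apply IntF.inter | with_reducible apply IntF.sdiff | with_reducible apply IntF.isUnion | with_reducible apply IntF.iimage | with_reducible apply IntF.the | with_reducible apply IntF.irec | with_reducible_and_instances apply IntF.add | with_reducible_and_instances apply IntF.mul | with_reducible apply IntF.succ | with_reducible apply IntF.val | with_reducible apply IntF.mk | (with_reducible refine Int.comp ?_ ?_; assumption) | (with_reducible refine Int.comp₂ ?_ ?_ ?_; assumption) | (with_reducible refine Int.comp₃ ?_ ?_ ?_ ?_; assumption) | (with_reducible refine IntF.comp ?_ ?_; assumption) | (with_reducible refine IntF.comp₂ ?_ ?_ ?_; assumption) | (with_reducible refine IntF.comp₃ ?_ ?_ ?_ ?_; assumption) | with_reducible apply IntF.pair)))).2 ⟨hΩs s hs, s, hs, rfl⟩)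
  dsimp only at ht' hst
  refine ⟨t, ht, ht', ?_⟩
  rw [mem_PP_zero hf]
  obtain ⟨⟨h2, h3, h4⟩, h5⟩ := hs
  obtain ⟨⟨h2', h3', h4'⟩, h5'⟩ := ht'
  refine ⟨⟨fin_cmp (fin_inv h2) h2', fn_cmp (fn_inv h4) h3', ij_cmp (ij_inv h3) h4'⟩,
    fun x y x' y' h6 h7 => ?_⟩
  obtain ⟨z, h8, h9⟩ := h6.split hinf (fin_inv h2) h2' (fn_inv h4) (ij_inv h3) h3' h4'
  obtain ⟨w, h10, h11⟩ := h7.split hinf (fin_inv h2) h2' (fn_inv h4) (ij_inv h3) h3' h4'
  have h8' := h8.inv
  have h10' := h10.inv
  rw [inv_inv'] at h8' h10'
  constructor
  · intro h12
    have h13 : (z, w) ∈ cd0 f t := by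
      rw [hst]
      exact (mem_cd0 hf).2 ⟨x, y, h8', h10', h12⟩
    obtain ⟨x₁, y₁, h14, h15, h16⟩ := (mem_cd0 hf).1 h13
    rw [h9.unique hinf h2' h14, h11.unique hinf h2' h15, h16]
  · intro h12
    have h13 : (z, w) ∈ cd0 f s := by
      rw [← hst]
      exact (mem_cd0 hf).2 ⟨x', y', h9, h11, h12⟩
    obtain ⟨x₁, y₁, h14, h15, h16⟩ := (mem_cd0 hf).1 h13
    rw [h8'.unique hinf h2 h14, h10'.unique hinf h2 h15, h16]

/-- The type of an enumeration at a later level. -/
noncomputable def cd1 (P F : IPow M (IPow M (σ × σ))) (e : σ) (s : IPow M (σ × σ)) :
    IPow M (IPow M (σ × σ)) :=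
  sep M fun t => t ∈ F ∧ ∃ a, ¬ Rg s a ∧ cmp t (inv' (insert (e, a) s)) ∈ P

theorem mem_cd1 {P F : IPow M (IPow M (σ × σ))} {e : σ} {s t : IPow M (σ × σ)} :
    t ∈ cd1 P F e s ↔ t ∈ F ∧ ∃ a, ¬ Rg s a ∧ cmp t (inv' (insert (e, a) s)) ∈ P := by
  unfold cd1
  rw [mem_sep (by (repeat' (first | with_reducible exact IntF.id | with_reducible exact IntF.fst' | with_reducible exact IntF.snd' | with_reducible exact IntF.const _ | with_reducible exact Int.const _ | assumption | with_reducible apply Int.dm | with_reducible apply Int.rg | with_reducible apply Int.fn | with_reducible apply Int.ij | with_reducible apply Int.mv | with_reducible apply Int.enm | with_reducible apply IntF.idr | with_reducible apply IntF.inv' | with_reducible apply IntF.cmp | with_reducible apply Int.and | with_reducible apply Int.or | with_reducible apply Int.not | with_reducible apply Int.imp | with_reducible apply Int.iff | with_reducible apply Int.ne | with_reducible apply Int.eq | with_reducible apply Int.mem | with_reducible apply Int.subset | with_reducible apply Int.ltN | with_reducible apply Int.leN | with_reducible apply Int.fin | with_reducible apply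 Int.unique | with_reducible apply Int.all | with_reducible apply Int.ex | with_reducible apply IntF.fst | with_reducible apply IntF.snd | with_reducible apply IntF.app | with_reducible apply IntF.ite | with_reducible apply IntF.sep | with_reducible apply IntF.lam | with_reducible apply IntF.insert | with_reducible apply IntF.singleton | with_reducible apply IntF.union | with_reducible apply IntF.inter | with_reducible apply IntF.sdiff | with_reducible apply IntF.isUnion | with_reducible apply IntF.iimage | with_reducible apply IntF.the | with_reducible apply IntF.irec | with_reducible_and_instances apply IntF.add | with_reducible_and_instances apply IntF.mul | with_reducible apply IntF.succ | with_reducible apply IntF.val | with_reducible apply IntF.mk | (with_reducible refine Int.comp ?_ ?_; assumption) | (with_reducible refine Int.comp₂ ?_ ?_ ?_; assumption) | (with_reducible refine Int.comp₃ ?_ ?_ ?_ ?_; assumption) | (with_reducible refine IntF.comp ?_ ?_; assumption) | (with_reducible refine IntF.comp₂ ?_ ?_ ?_; assumption) | (with_reducible refine IntF.comp₃ ?_ ?_ ?_ ?_; assumption) | with_reducible apply IntF.pair)))]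

theorem int_cd1 (P F : IPow M (IPow M (σ × σ))) (e : σ) :
    IntF M (fun s : IPow M (σ × σ) => cd1 P F e s) := by
  unfold cd1
  (repeat' (first | with_reducible exact IntF.id | with_reducible exact IntF.fst' | with_reducible exact IntF.snd' | with_reducible exact IntF.const _ | with_reducible exact Int.const _ | assumption | with_reducible apply Int.dm | with_reducible apply Int.rg | with_reducible apply Int.fn | with_reducible apply Int.ij | with_reducible apply Int.mv | with_reducible apply Int.enm | with_reducible apply IntF.idr | with_reducible apply IntF.inv' | with_reducible apply IntF.cmp | with_reducible apply Int.and | with_reducible apply Int.or | with_reducible apply Int.not | with_reducible apply Int.imp | with_reducible apply Int.iff | with_reducible apply Int.ne | with_reducible apply Int.eq | with_reducible apply Int.mem | with_reducible apply Int.subset | with_reducible apply Int.ltN | with_reducible apply Int.leN | with_reducible apply Int.fin | with_reducible apply Int.unique | with_reducible apply Int.all | with_reducible apply Int.ex | with_reducible apply IntF.fst | with_reducible apply IntF.snd | with_reducible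 apply IntF.app | with_reducible apply IntF.ite | with_reducible apply IntF.sep | with_reducible apply IntF.lam | with_reducible apply IntF.insert | with_reducible apply IntF.singleton | with_reducible apply IntF.union | with_reducible apply IntF.inter | with_reducible apply IntF.sdiff | with_reducible apply IntF.isUnion | with_reducible apply IntF.iimage | with_reducible apply IntF.the | with_reducible apply IntF.irec | with_reducible_and_instances apply IntF.add | with_reducible_and_instances apply IntF.mul | with_reducible apply IntF.succ | with_reducible apply IntF.val | with_reducible apply IntF.mk | (with_reducible refine Int.comp ?_ ?_; assumption) | (with_reducible refine Int.comp₂ ?_ ?_ ?_; assumption) | (with_reducible refine Int.comp₃ ?_ ?_ ?_ ?_; assumption) | (with_reducible refine IntF.comp ?_ ?_; assumption) | (with_reducible refine IntF.comp₂ ?_ ?_ ?_; assumption) | (with_reducible refine IntF.comp₃ ?_ ?_ ?_ ?_; assumption) | with_reducible apply IntF.pair))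

theorem enm_insert {D : IPow M σ} {s : IPow M (σ × σ)} (hs : Enm D s) {e a : σ} (he : ¬ e ∈ D)
    (ha : ¬ Rg s a) : Enm (insert e D) (insert (e, a) s) := by
  obtain ⟨⟨h1, h2, h3⟩, h4⟩ := hs
  refine ⟨⟨h1.insert _, ?_, ?_⟩, ?_⟩
  · intro x y z hx hy
    rcases mem_insert.1 hx with hx | hx <;> rcases mem_insert.1 hy with hy | hy
    · rw [Prod.mk.injEq] at hx hy
      rw [hx.2, hy.2]
    · rw [Prod.mk.injEq] at hx
      exact absurd ((h4 x).1 ⟨_, hy⟩) (hx.1 ▸ he)
    · rw [Prod.mk.injEq] at hy
      exact absurd ((h4 x).1 ⟨_, hx⟩) (hy.1 ▸ he)
    · exact h2 _ _ _ hx hy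
  · intro x y z hx hy
    rcases mem_insert.1 hx with hx | hx <;> rcases mem_insert.1 hy with hy | hy
    · rw [Prod.mk.injEq] at hx hy
      rw [hx.1, hy.1]
    · rw [Prod.mk.injEq] at hx
      exact absurd ⟨_, hy⟩ (hx.2 ▸ ha)
    · rw [Prod.mk.injEq] at hy
      exact absurd ⟨_, hx⟩ (hy.2 ▸ ha)
    · exact h3 _ _ _ hx hy
  · intro x
    rw [mem_insert, ← h4 x]
    constructor
    · rintro ⟨y, hy⟩
      rcases mem_insert.1 hy with hy | hy
      · rw [Prod.mk.injEq] at hy
        exact Or.inl hy.1
      · exact Or.inr ⟨y, hy⟩
    · rintro (rfl | ⟨y, hy⟩)
      · exact ⟨a, mem_insert.2 (Or.inl rfl)⟩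
      · exact ⟨y, mem_insert.2 (Or.inr hy)⟩

theorem inv_cmp (p q : IPow M (σ × σ)) : inv' (cmp p (inv' q)) = cmp q (inv' p) :=
  IPow.ext' fun ⟨a, b⟩ => by
    rw [mem_inv, mem_cmp, mem_cmp]
    simp only [mem_inv]
    exact exists_congr fun _ => and_comm

theorem cd1_claim (hinf : ¬ FinP M (fun _ : σ => True)) (hf : IntF M f) {n : INat M}
    {D : IPow M σ} {e : σ} (he : ¬ e ∈ D) {F : IPow M (IPow M (σ × σ))}
    (hF : ∀ s, Enm (insert e D) s → ∃ t, t ∈ F ∧ Enm (insert e D) t ∧ cmp t (inv' s) ∈ PP f n)
    (hF' : ∀ t, t ∈ F → Enm (insert e D) t)
    {s s' : IPow M (σ × σ)} (hs : Enm D s) (hs' : Enm D s')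
    (h : cd1 (PP f n) F e s = cd1 (PP f n) F e s') {a : σ} (ha : ¬ Rg s a) :
    ∃ a', ¬ Rg s' a' ∧ insert (a, a') (cmp s' (inv' s)) ∈ PP f n := by
  obtain ⟨t, ht, ht', h1⟩ := hF _ (enm_insert hs he ha)
  have h2 : t ∈ cd1 (PP f n) F e s := mem_cd1.2 ⟨ht, a, ha, h1⟩
  rw [h] at h2
  obtain ⟨-, a', ha', h3⟩ := mem_cd1.1 h2
  refine ⟨a', ha', PP_sub hf n _ _ (PP_cmp hinf hf n _ _ h1 (PP_inv hf n _ h3)) ?_⟩
  have h4 : ∀ d, d ∈ insert e D → ∃ τ, (d, τ) ∈ t := fun d hd => (ht'.2 d).2 hd
  rintro ⟨b, b'⟩ hb
  rw [mem_cmp]
  rcases mem_insert.1 hb with hb | hb
  · rw [Prod.mk.injEq] at hb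
    obtain ⟨rfl, rfl⟩ := hb
    obtain ⟨τ, hτ⟩ := h4 e (mem_insert.2 (Or.inl rfl))
    exact ⟨τ, mem_cmp.2 ⟨e, mem_inv.2 (mem_insert.2 (Or.inl rfl)), hτ⟩,
      mem_inv.2 (mem_cmp.2 ⟨e, mem_inv.2 (mem_insert.2 (Or.inl rfl)), hτ⟩)⟩
  · obtain ⟨d, hd, hd'⟩ := mem_cmp.1 hb
    rw [mem_inv] at hd
    obtain ⟨τ, hτ⟩ := h4 d (mem_insert.2 (Or.inr ((hs.2 d).1 ⟨_, hd⟩)))
    exact ⟨τ, mem_cmp.2 ⟨d, mem_inv.2 (mem_insert.2 (Or.inr hd)), hτ⟩,
      mem_inv.2 (mem_cmp.2 ⟨d, mem_inv.2 (mem_insert.2 (Or.inr hd')), hτ⟩)⟩

theorem types_succ (hinf : ¬ FinP M (fun _ : σ => True)) (hf : IntF M f) {n : INat M}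
    (ih : ∀ D : IPow M σ, IFin D → ∃ F : IPow M (IPow M (σ × σ)), IFin F ∧
      ∀ s, Enm D s → ∃ t, t ∈ F ∧ Enm D t ∧ cmp t (inv' s) ∈ PP f n) {D : IPow M σ}
    (hD : IFin D) : ∃ F : IPow M (IPow M (σ × σ)), IFin F ∧
      ∀ s, Enm D s → ∃ t, t ∈ F ∧ Enm D t ∧ cmp t (inv' s) ∈ PP f n.succ := by
  obtain ⟨e, he⟩ := exists_not hinf ⟨D, hD, fun a ha => ha⟩
  obtain ⟨F₀, hF₀, hF₁⟩ := ih (insert e D) (hD.insert e)
  obtain ⟨F, hF, hFe, hFs⟩ : ∃ F : IPow M (IPow M (σ × σ)), IFin F ∧
      (∀ t, t ∈ F → Enm (insert e D) t) ∧
      ∀ s, Enm (insert e D) s → ∃ t, t ∈ F ∧ Enm (insert e D) t ∧ cmp t (inv' s) ∈ PP f n := by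
    have hi : Int M (fun t : IPow M (σ × σ) => t ∈ F₀ ∧ Enm (insert e D) t) := by (repeat' (first | with_reducible exact IntF.id | with_reducible exact IntF.fst' | with_reducible exact IntF.snd' | with_reducible exact IntF.const _ | with_reducible exact Int.const _ | assumption | with_reducible apply Int.dm | with_reducible apply Int.rg | with_reducible apply Int.fn | with_reducible apply Int.ij | with_reducible apply Int.mv | with_reducible apply Int.enm | with_reducible apply IntF.idr | with_reducible apply IntF.inv' | with_reducible apply IntF.cmp | with_reducible apply Int.and | with_reducible apply Int.or | with_reducible apply Int.not | with_reducible apply Int.imp | with_reducible apply Int.iff | with_reducible apply Int.ne | with_reducible apply Int.eq | with_reducible apply Int.mem | with_reducible apply Int.subset | with_reducible apply Int.ltN | with_reducible apply Int.leN | with_reducible apply Int.fin | with_reducible apply Int.unique | with_reducible apply Int.all | with_reducible apply Int.ex | with_reducible apply IntF.fst | with_reducible apply IntF.snd | with_reducible apply IntF.app | with_reducible apply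 IntF.ite | with_reducible apply IntF.sep | with_reducible apply IntF.lam | with_reducible apply IntF.insert | with_reducible apply IntF.singleton | with_reducible apply IntF.union | with_reducible apply IntF.inter | with_reducible apply IntF.sdiff | with_reducible apply IntF.isUnion | with_reducible apply IntF.iimage | with_reducible apply IntF.the | with_reducible apply IntF.irec | with_reducible_and_instances apply IntF.add | with_reducible_and_instances apply IntF.mul | with_reducible apply IntF.succ | with_reducible apply IntF.val | with_reducible apply IntF.mk | (with_reducible refine Int.comp ?_ ?_; assumption) | (with_reducible refine Int.comp₂ ?_ ?_ ?_; assumption) | (with_reducible refine Int.comp₃ ?_ ?_ ?_ ?_; assumption) | (with_reducible refine IntF.comp ?_ ?_; assumption) | (with_reducible refine IntF.comp₂ ?_ ?_ ?_; assumption) | (with_reducible refine IntF.comp₃ ?_ ?_ ?_ ?_; assumption) | with_reducible apply IntF.pair))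
    refine ⟨sep M fun t => t ∈ F₀ ∧ Enm (insert e D) t, hF₀.subset fun t ht =>
      ((mem_sep hi).1 ht).1, fun t ht => ((mem_sep hi).1 ht).2, fun s hs => ?_⟩
    obtain ⟨t, h1, h2, h3⟩ := hF₁ s hs
    exact ⟨t, (mem_sep hi).2 ⟨h1, h2⟩, h2, h3⟩
  have hc := int_cd1 (PP f n) F e
  have hr : Int M (fun q : IPow M (IPow M (σ × σ)) × IPow M (σ × σ) =>
    Enm D q.2 ∧ cd1 (PP f n) F e q.2 = q.1) := by (repeat' (first | with_reducible exact IntF.id | with_reducible exact IntF.fst' | with_reducible exact IntF.snd' | with_reducible exact IntF.const _ | with_reducible exact Int.const _ | assumption | with_reducible apply Int.dm | with_reducible apply Int.rg | with_reducible apply Int.fn | with_reducible apply Int.ij | with_reducible apply Int.mv | with_reducible apply Int.enm | with_reducible apply IntF.idr | with_reducible apply IntF.inv' | with_reducible apply IntF.cmp | with_reducible apply Int.and | with_reducible apply Int.or | with_reducible apply Int.not | with_reducible apply Int.imp | with_reducible apply Int.iff | with_reducible apply Int.ne | with_reducible apply Int.eq | with_reducible apply Int.mem | with_reducible apply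 Int.subset | with_reducible apply Int.ltN | with_reducible apply Int.leN | with_reducible apply Int.fin | with_reducible apply Int.unique | with_reducible apply Int.all | with_reducible apply Int.ex | with_reducible apply IntF.fst | with_reducible apply IntF.snd | with_reducible apply IntF.app | with_reducible apply IntF.ite | with_reducible apply IntF.sep | with_reducible apply IntF.lam | with_reducible apply IntF.insert | with_reducible apply IntF.singleton | with_reducible apply IntF.union | with_reducible apply IntF.inter | with_reducible apply IntF.sdiff | with_reducible apply IntF.isUnion | with_reducible apply IntF.iimage | with_reducible apply IntF.the | with_reducible apply IntF.irec | with_reducible_and_instances apply IntF.add | with_reducible_and_instances apply IntF.mul | with_reducible apply IntF.succ | with_reducible apply IntF.val | with_reducible apply IntF.mk | (with_reducible refine Int.comp ?_ ?_; assumption) | (with_reducible refine Int.comp₂ ?_ ?_ ?_; assumption) | (with_reducible refine Int.comp₃ ?_ ?_ ?_ ?_; assumption) | (with_reducible refine IntF.comp ?_ ?_; assumption) | (with_reducible refine IntF.comp₂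 ?_ ?_ ?_; assumption) | (with_reducible refine IntF.comp₃ ?_ ?_ ?_ ?_; assumption) | with_reducible apply IntF.pair))
  have hi2 : Int M (fun c : IPow M (IPow M (σ × σ)) => c ∈ ipow F ∧
    ∃ s, Enm D s ∧ cd1 (PP f n) F e s = c) := by (repeat' (first | with_reducible exact IntF.id | with_reducible exact IntF.fst' | with_reducible exact IntF.snd' | with_reducible exact IntF.const _ | with_reducible exact Int.const _ | assumption | with_reducible apply Int.dm | with_reducible apply Int.rg | with_reducible apply Int.fn | with_reducible apply Int.ij | with_reducible apply Int.mv | with_reducible apply Int.enm | with_reducible apply IntF.idr | with_reducible apply IntF.inv' | with_reducible apply IntF.cmp | with_reducible apply Int.and | with_reducible apply Int.or | with_reducible apply Int.not | with_reducible apply Int.imp | with_reducible apply Int.iff | with_reducible apply Int.ne | with_reducible apply Int.eq | with_reducible apply Int.mem | with_reducible apply Int.subset | with_reducible apply Int.ltN | with_reducible apply Int.leN | with_reducible apply Int.fin | with_reducible apply Int.unique | with_reducible apply Int.all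 | with_reducible apply Int.ex | with_reducible apply IntF.fst | with_reducible apply IntF.snd | with_reducible apply IntF.app | with_reducible apply IntF.ite | with_reducible apply IntF.sep | with_reducible apply IntF.lam | with_reducible apply IntF.insert | with_reducible apply IntF.singleton | with_reducible apply IntF.union | with_reducible apply IntF.inter | with_reducible apply IntF.sdiff | with_reducible apply IntF.isUnion | with_reducible apply IntF.iimage | with_reducible apply IntF.the | with_reducible apply IntF.irec | with_reducible_and_instances apply IntF.add | with_reducible_and_instances apply IntF.mul | with_reducible apply IntF.succ | with_reducible apply IntF.val | with_reducible apply IntF.mk | (with_reducible refine Int.comp ?_ ?_; assumption) | (with_reducible refine Int.comp₂ ?_ ?_ ?_; assumption) | (with_reducible refine Int.comp₃ ?_ ?_ ?_ ?_; assumption) | (with_reducible refine IntF.comp ?_ ?_; assumption) | (with_reducible refine IntF.comp₂ ?_ ?_ ?_; assumption) | (with_reducible refine IntF.comp₃ ?_ ?_ ?_ ?_; assumption) | with_reducible apply IntF.pair))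
  have h1 : IFin (sep M fun c : IPow M (IPow M (σ × σ)) =>
      c ∈ ipow F ∧ ∃ s, Enm D s ∧ cd1 (PP f n) F e s = c) :=
    hF.pow.subset fun c hc' => ((mem_sep hi2).1 hc').1
  obtain ⟨F', hF', hF''⟩ := fin_choice hr h1 fun c hc' => ((mem_sep hi2).1 hc').2
  refine ⟨F', hF', fun s hs => ?_⟩
  obtain ⟨t, ht, ht', hst⟩ := hF'' (cd1 (PP f n) F e s) ((mem_sep hi2).2
    ⟨mem_ipow.2 fun x hx => (mem_cd1.1 hx).1, s, hs, rfl⟩)
  refine ⟨t, ht, ht', ?_⟩
  have key := fun a ha => cd1_claim (a := a) hinf hf he hFs hFe hs ht' hst.symm ha
  have key' := fun a ha => cd1_claim (a := a) hinf hf he hFs hFe ht' hs hst ha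
  rw [mem_PP_succ]
  have hw : cmp t (inv' s) ∈ PP f n := by
    obtain ⟨a, ha⟩ := exists_not hinf (fin_rg hs.1.1)
    obtain ⟨a', _, h2⟩ := key a ha
    exact PP_sub hf n _ _ h2 fun x hx => mem_insert.2 (Or.inr hx)
  have hins : ∀ x, x ∈ cmp t (inv' s) → insert x (cmp t (inv' s)) ∈ PP f n := fun x hx =>
    PP_sub hf n _ _ hw fun y hy => by
      rcases mem_insert.1 hy with rfl | hy
      · exact hx
      · exact hy
  refine ⟨hw, fun a => ?_, fun b => ?_⟩
  · by_cases ha : Rg s a
    · obtain ⟨d, hd⟩ := ha
      obtain ⟨b, hb⟩ := (ht'.2 d).2 ((hs.2 d).1 ⟨_, hd⟩)
      exact ⟨b, hins _ (mem_cmp.2 ⟨d, mem_inv.2 hd, hb⟩)⟩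
    · obtain ⟨a', _, h2⟩ := key a ha
      exact ⟨a', h2⟩
  · by_cases hb : Rg t b
    · obtain ⟨d, hd⟩ := hb
      obtain ⟨a, ha⟩ := (hs.2 d).2 ((ht'.2 d).1 ⟨_, hd⟩)
      exact ⟨a, hins _ (mem_cmp.2 ⟨d, mem_inv.2 ha, hd⟩)⟩
    · obtain ⟨a, _, h2⟩ := key' b hb
      refine ⟨a, ?_⟩
      have h3 := PP_inv hf n _ h2
      rwa [insert_inv, inv_cmp] at h3

theorem types (hinf : ¬ FinP M (fun _ : σ => True)) (hf : IntF M f) (n : INat M) :
    ∀ D : IPow M σ, IFin D → ∃ F : IPow M (IPow M (σ × σ)), IFin F ∧
      ∀ s, Enm D s → ∃ t, t ∈ F ∧ Enm D t ∧ cmp t (inv' s) ∈ PP f n := by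
  have h := int_PP (M := M) (f := f)
  refine INat.ind (p := fun n : INat M => ∀ D : IPow M σ, IFin D →
    ∃ F : IPow M (IPow M (σ × σ)), IFin F ∧
      ∀ s, Enm D s → ∃ t, t ∈ F ∧ Enm D t ∧ cmp t (inv' s) ∈ PP f n) (by (repeat' (first | with_reducible exact IntF.id | with_reducible exact IntF.fst' | with_reducible exact IntF.snd' | with_reducible exact IntF.const _ | with_reducible exact Int.const _ | assumption | with_reducible apply Int.dm | with_reducible apply Int.rg | with_reducible apply Int.fn | with_reducible apply Int.ij | with_reducible apply Int.mv | with_reducible apply Int.enm | with_reducible apply IntF.idr | with_reducible apply IntF.inv' | with_reducible apply IntF.cmp | with_reducible apply Int.and | with_reducible apply Int.or | with_reducible apply Int.not | with_reducible apply Int.imp | with_reducible apply Int.iff | with_reducible apply Int.ne | with_reducible apply Int.eq | with_reducible apply Int.mem | with_reducible apply Int.subset | with_reducible apply Int.ltN | with_reducible apply Int.leN | with_reducible apply Int.fin | with_reducible apply Int.unique | with_reducible apply Int.all | with_reducible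 apply Int.ex | with_reducible apply IntF.fst | with_reducible apply IntF.snd | with_reducible apply IntF.app | with_reducible apply IntF.ite | with_reducible apply IntF.sep | with_reducible apply IntF.lam | with_reducible apply IntF.insert | with_reducible apply IntF.singleton | with_reducible apply IntF.union | with_reducible apply IntF.inter | with_reducible apply IntF.sdiff | with_reducible apply IntF.isUnion | with_reducible apply IntF.iimage | with_reducible apply IntF.the | with_reducible apply IntF.irec | with_reducible_and_instances apply IntF.add | with_reducible_and_instances apply IntF.mul | with_reducible apply IntF.succ | with_reducible apply IntF.val | with_reducible apply IntF.mk | (with_reducible refine Int.comp ?_ ?_; assumption) | (with_reducible refine Int.comp₂ ?_ ?_ ?_; assumption) | (with_reducible refine Int.comp₃ ?_ ?_ ?_ ?_; assumption) | (with_reducible refine IntF.comp ?_ ?_; assumption) | (with_reducible refine IntF.comp₂ ?_ ?_ ?_; assumption) | (with_reducible refine IntF.comp₃ ?_ ?_ ?_ ?_; assumption) | with_reducible apply IntF.pair))) ?_ ?_ n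
  · exact fun D hD => types_zero hinf hf hD
  · exact fun n ih D hD => types_succ hinf hf ih hD

/-- Over a finite set, there is a cofinite class at every level. -/
theorem exists_class (hA : Amo M σ) (hf : IntF M f) (n : INat M) {D : IPow M σ} (hD : IFin D) :
    ∃ a, FinP M (fun b => ¬ insert (a, b) (idr D) ∈ PP f n) := by
  obtain ⟨e, he⟩ := exists_not hA.inf ⟨D, hD, fun a ha => ha⟩
  obtain ⟨F, hF, hF'⟩ := types hA.inf hf n (insert e D) (hD.insert e)
  have hidr : Enm D (idr D) := ⟨⟨fin_idr hD, fn_idr D, ij_idr D⟩, fun a =>
    ⟨fun ⟨b, hb⟩ => (mem_idr.1 hb).2, fun ha => ⟨a, mem_idr.2 ⟨rfl, ha⟩⟩⟩⟩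
  have hE : ∀ a, ¬ a ∈ D → Enm (insert e D) (insert (e, a) (idr D)) := fun a ha =>
    enm_insert hidr he fun ⟨b, hb⟩ => ha ((mem_idr.1 hb).1 ▸ (mem_idr.1 hb).2)
  have hW : Int M (fun q : IPow M (σ × σ) × σ => ¬ q.2 ∈ D ∧ Enm (insert e D) q.1 ∧
    cmp q.1 (inv' (insert (e, q.2) (idr D))) ∈ PP f n) := by (repeat' (first | with_reducible exact IntF.id | with_reducible exact IntF.fst' | with_reducible exact IntF.snd' | with_reducible exact IntF.const _ | with_reducible exact Int.const _ | assumption | with_reducible apply Int.dm | with_reducible apply Int.rg | with_reducible apply Int.fn | with_reducible apply Int.ij | with_reducible apply Int.mv | with_reducible apply Int.enm | with_reducible apply IntF.idr | with_reducible apply IntF.inv' | with_reducible apply IntF.cmp | with_reducible apply Int.and | with_reducible apply Int.or | with_reducible apply Int.not | with_reducible apply Int.imp | with_reducible apply Int.iff | with_reducible apply Int.ne | with_reducible apply Int.eq | with_reducible apply Int.mem | with_reducible apply Int.subset | with_reducible apply Int.ltN | with_reducible apply Int.leN | with_reducible apply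 Int.fin | with_reducible apply Int.unique | with_reducible apply Int.all | with_reducible apply Int.ex | with_reducible apply IntF.fst | with_reducible apply IntF.snd | with_reducible apply IntF.app | with_reducible apply IntF.ite | with_reducible apply IntF.sep | with_reducible apply IntF.lam | with_reducible apply IntF.insert | with_reducible apply IntF.singleton | with_reducible apply IntF.union | with_reducible apply IntF.inter | with_reducible apply IntF.sdiff | with_reducible apply IntF.isUnion | with_reducible apply IntF.iimage | with_reducible apply IntF.the | with_reducible apply IntF.irec | with_reducible_and_instances apply IntF.add | with_reducible_and_instances apply IntF.mul | with_reducible apply IntF.succ | with_reducible apply IntF.val | with_reducible apply IntF.mk | (with_reducible refine Int.comp ?_ ?_; assumption) | (with_reducible refine Int.comp₂ ?_ ?_ ?_; assumption) | (with_reducible refine Int.comp₃ ?_ ?_ ?_ ?_; assumption) | (with_reducible refine IntF.comp ?_ ?_; assumption) | (with_reducible refine IntF.comp₂ ?_ ?_ ?_; assumption) | (with_reducible refine IntF.comp₃ ?_ ?_ ?_ ?_; assumption) | with_reducible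 apply IntF.pair))
  have h1 : ∃ t, t ∈ F ∧ ¬ FinP M (fun a => ¬ a ∈ D ∧ Enm (insert e D) t ∧
      cmp t (inv' (insert (e, a) (idr D))) ∈ PP f n) := by
    by_contra hno
    push Not at hno
    have h2 := finP_bUnion (p := fun t => t ∈ F) ⟨F, hF, fun a ha => ha⟩ hW hno
    refine hA.inf ((h2.or ⟨D, hD, fun a ha => ha⟩).mono fun a _ => ?_)
    by_cases ha : a ∈ D
    · exact Or.inr ha
    · obtain ⟨t, h3, h4, h5⟩ := hF' _ (hE a ha)
      exact Or.inl ⟨t, h3, ha, h4, h5⟩
  obtain ⟨t, ht, hinf'⟩ := h1
  have h2 : FinP M (fun a => ¬ (¬ a ∈ D ∧ Enm (insert e D) t ∧
      cmp t (inv' (insert (e, a) (idr D))) ∈ PP f n)) := (hA.split _ (by (repeat' (first | with_reducible exact IntF.id | with_reducible exact IntF.fst' | with_reducible exact IntF.snd' | with_reducible exact IntF.const _ | with_reducible exact Int.const _ | assumption | with_reducible apply Int.dm | with_reducible apply Int.rg | with_reducible apply Int.fn | with_reducible apply Int.ij | with_reducible apply Int.mv | with_reducible apply Int.enm | with_reducible apply IntF.idr | with_reducible apply IntF.inv' | with_reducible apply IntF.cmp | with_reducible apply Int.and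 | with_reducible apply Int.or | with_reducible apply Int.not | with_reducible apply Int.imp | with_reducible apply Int.iff | with_reducible apply Int.ne | with_reducible apply Int.eq | with_reducible apply Int.mem | with_reducible apply Int.subset | with_reducible apply Int.ltN | with_reducible apply Int.leN | with_reducible apply Int.fin | with_reducible apply Int.unique | with_reducible apply Int.all | with_reducible apply Int.ex | with_reducible apply IntF.fst | with_reducible apply IntF.snd | with_reducible apply IntF.app | with_reducible apply IntF.ite | with_reducible apply IntF.sep | with_reducible apply IntF.lam | with_reducible apply IntF.insert | with_reducible apply IntF.singleton | with_reducible apply IntF.union | with_reducible apply IntF.inter | with_reducible apply IntF.sdiff | with_reducible apply IntF.isUnion | with_reducible apply IntF.iimage | with_reducible apply IntF.the | with_reducible apply IntF.irec | with_reducible_and_instances apply IntF.add | with_reducible_and_instances apply IntF.mul | with_reducible apply IntF.succ | with_reducible apply IntF.val | with_reducible apply IntF.mk | (with_reducible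 refine Int.comp ?_ ?_; assumption) | (with_reducible refine Int.comp₂ ?_ ?_ ?_; assumption) | (with_reducible refine Int.comp₃ ?_ ?_ ?_ ?_; assumption) | (with_reducible refine IntF.comp ?_ ?_; assumption) | (with_reducible refine IntF.comp₂ ?_ ?_ ?_; assumption) | (with_reducible refine IntF.comp₃ ?_ ?_ ?_ ?_; assumption) | with_reducible apply IntF.pair)))).resolve_left hinf'
  obtain ⟨a, ha⟩ : ∃ a, ¬ a ∈ D ∧ Enm (insert e D) t ∧
      cmp t (inv' (insert (e, a) (idr D))) ∈ PP f n := by
    obtain ⟨a, ha⟩ := exists_not hA.inf h2
    exact ⟨a, not_not.1 ha⟩
  refine ⟨a, h2.mono fun b hb hb' => hb ?_⟩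
  obtain ⟨hb1, hb2, hb3⟩ := hb'
  obtain ⟨ha1, ha2, ha3⟩ := ha
  refine PP_sub hf n _ _ (PP_cmp hA.inf hf n _ _ ha3 (PP_inv hf n _ hb3)) ?_
  rintro ⟨x, y⟩ hx
  rw [mem_cmp]
  rcases mem_insert.1 hx with hx | hx
  · rw [Prod.mk.injEq] at hx
    obtain ⟨rfl, rfl⟩ := hx
    obtain ⟨τ, hτ⟩ := (ha2.2 e).2 (mem_insert.2 (Or.inl rfl))
    exact ⟨τ, mem_cmp.2 ⟨e, mem_inv.2 (mem_insert.2 (Or.inl rfl)), hτ⟩,
      mem_inv.2 (mem_cmp.2 ⟨e, mem_inv.2 (mem_insert.2 (Or.inl rfl)), hτ⟩)⟩
  · obtain ⟨rfl, hxD⟩ := mem_idr.1 hx
    obtain ⟨τ, hτ⟩ := (ha2.2 x).2 (mem_insert.2 (Or.inr hxD))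
    have h5 : (x, x) ∈ inv' (insert (e, a) (idr D)) :=
      mem_inv.2 (mem_insert.2 (Or.inr (mem_idr.2 ⟨rfl, hxD⟩)))
    have h6 : (x, x) ∈ inv' (insert (e, b) (idr D)) :=
      mem_inv.2 (mem_insert.2 (Or.inr (mem_idr.2 ⟨rfl, hxD⟩)))
    exact ⟨τ, mem_cmp.2 ⟨x, h5, hτ⟩, mem_inv.2 (mem_cmp.2 ⟨x, h6, hτ⟩)⟩

end Pool.Agent.Q207.PG
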